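import Pool.Agent.CKS.Core

/-!
# Free units, and the graph with two sources: the definitions
-/

set_option autoImplicit false

universe u

namespace Pool.Agent.SKG

open CKS

/-- the inclusion of the free algebras -/
noncomputable def inc (k : Type u) [Field k] (V E : Type) :
    FreeAlgebra k (Gen V E) →ₐ[k] FreeAlgebra k (Gen V E ⊕ Bool) :=
  FreeAlgebra.lift k (fun g => FreeAlgebra.ι k (Sum.inl g))

/-- the relations of the Leavitt path algebra of `G`, and `t t' = w = t' t`, `w t = t = t w`,
`w t' = t' = t' w` for the generators `t` (`true`) and `t'` (`false`) -/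
inductive RU (k : Type u) [Field k] {V E : Type} (G : CKS.Graph V E) (w : V) :
    FreeAlgebra k (Gen V E ⊕ Bool) → FreeAlgebra k (Gen V E ⊕ Bool) → Prop
  | base (a b : FreeAlgebra k (Gen V E)) (h : Rel k G G.IsReg a b) :
      RU k G w (inc k V E a) (inc k V E b)
  | tt : RU k G w (FreeAlgebra.ι k (Sum.inr true) * FreeAlgebra.ι k (Sum.inr false))
      (FreeAlgebra.ι k (Sum.inl (Gen.v w)))
  | tt' : RU k G w (FreeAlgebra.ι k (Sum.inr false) * FreeAlgebra.ι k (Sum.inr true))
      (FreeAlgebra.ι k (Sum.inl (Gen.v w)))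
  | wt (c : Bool) : RU k G w (FreeAlgebra.ι k (Sum.inl (Gen.v w)) * FreeAlgebra.ι k (Sum.inr c))
      (FreeAlgebra.ι k (Sum.inr c))
  | tw (c : Bool) : RU k G w (FreeAlgebra.ι k (Sum.inr c) * FreeAlgebra.ι k (Sum.inl (Gen.v w)))
      (FreeAlgebra.ι k (Sum.inr c))

/-- the Leavitt path algebra of `G` with a free unit of the corner of `w` -/
abbrev LU (k : Type u) [Field k] {V E : Type} (G : CKS.Graph V E) (w : V) : Type u :=
  RingQuot (RU k G w)

/-- the idempotent of the vertex `a` in `LU k G w` -/
noncomputable def vtx {k : Type u} [Field k] {V E : Type} {G : CKS.Graph V E} {w : V} (a : V) :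
    LU k G w :=
  RingQuot.mkAlgHom k (RU k G w) (FreeAlgebra.ι k (Sum.inl (Gen.v a)))

section

variable {V E : Type}

/-- the edges from `u` other than `a0`, `a1` -/
abbrev ZZ (G : CKS.Graph V E) (u : V) (a0 a1 : E) : Type := {z : E // G.s z = u ∧ z ≠ a0 ∧ z ≠ a1}

/-- two new vertices: a source `v1 = inr 0` (after the removal of `v2`) and a source `v2 = inr 1`;
`v1` emits one edge to `u`, `v2` emits one edge to `v1`, and both emit one edge to `r(z)` for every
edge `z` from `u` other than `a0` and `a1` -/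
def srcs (G : CKS.Graph V E) (u : V) (a0 a1 : E) :
    CKS.Graph (V ⊕ Fin 2) (E ⊕ (Option (ZZ G u a0 a1) ⊕ Option (ZZ G u a0 a1))) where
  s x := match x with
    | .inl e => .inl (G.s e)
    | .inr (.inl _) => .inr 0
    | .inr (.inr _) => .inr 1
  r x := match x with
    | .inl e => .inl (G.r e)
    | .inr (.inl none) => .inl u
    | .inr (.inl (some z)) => .inl (G.r z.1)
    | .inr (.inr none) => .inr 0
    | .inr (.inr (some z)) => .inl (G.r z.1)

end

end Pool.Agent.SKG
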