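import Mathlib

set_option autoImplicit false
set_option linter.all false

universe u

namespace Pool.Agent.SKG

/-- the intermediate structure -/
@[ext] structure It (A : Type*) [Ring A] where
  u : A
  v : A
  q : A
  dl : A
  a : A
  a' : A
  n : A
  n' : A
  al : A
  al' : A
  Y : A
  Y' : A
  be : A
  be' : A
  X : A
  X' : A
  g : A
  g' : A
  h : A
  h' : A
  h_u_u : u * u = u
  h_v_v : v * v = v
  h_q_q : q * q = q
  h_u_v : u * v = 0
  h_v_u : v * u = 0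
  h_u_q : u * q = 0
  h_q_u : q * u = 0
  h_v_q : v * q = 0
  h_q_v : q * v = 0
  h_dl_dl : dl * dl = dl
  h_u_dl : u * dl = dl
  h_dl_u : dl * u = dl
  h_u_a : u * a = a
  h_a_u : a * u = a
  h_u_n : u * n = n
  h_n_v : n * v = n
  h_v_al : v * al = al
  h_al_u : al * u = al
  h_v_Y : v * Y = Y
  h_Y_dl : Y * dl = Y
  h_q_be : q * be = be
  h_be_v : be * v = be
  h_q_X : q * X = X
  h_X_dl : X * dl = X
  h_q_g : q * g = g
  h_g_v : g * v = g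
  h_q_h : q * h = h
  h_h_q : h * q = h
  h_u_ai : u * a' = a'
  h_ai_u : a' * u = a'
  h_v_ni : v * n' = n'
  h_ni_u : n' * u = n'
  h_u_ali : u * al' = al'
  h_ali_v : al' * v = al'
  h_dl_Yi : dl * Y' = Y'
  h_Yi_v : Y' * v = Y'
  h_v_bei : v * be' = be'
  h_bei_q : be' * q = be'
  h_dl_Xi : dl * X' = X'
  h_Xi_q : X' * q = X'
  h_v_gi : v * g' = g'
  h_gi_q : g' * q = g'
  h_q_hi : q * h' = h'
  h_hi_q : h' * q = h'
  h_ai_a : a' * a = u
  h_ai_n : a' * n = 0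
  h_ni_a : n' * a = 0
  h_ni_n : n' * n = v
  h_ali_al : al' * al = u
  h_ali_Y : al' * Y = 0
  h_Yi_al : Y' * al = 0
  h_Yi_Y : Y' * Y = dl
  h_bei_be : be' * be = v
  h_bei_X : be' * X = 0
  h_Xi_be : X' * be = 0
  h_Xi_X : X' * X = dl
  h_gi_g : g' * g = v
  h_gi_h : g' * h = 0
  h_hi_g : h' * g = 0
  h_hi_h : h' * h = q
  h_ai_dl : a' * dl = 0
  h_dl_a : dl * a = 0
  h_ni_dl : n' * dl = Y
  h_dl_n : dl * n = Y'
  h_n_Y : n * Y = dl
  h_Yi_ni : Y' * n' = dl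
  s_n : n * n' = u - a * a'
  s_al : al * al' = v - Y * Y'
  s_X : X * X' = q - be * be'
  s_h : h * h' = q - g * g'

section Its

variable {A : Type*} [Ring A] (s : It A)

attribute [simp] It.h_u_u
@[simp] theorem It.rh_u_u (z : A) : s.u * (s.u * z) = s.u * z := by rw [← mul_assoc, s.h_u_u]
attribute [simp] It.h_v_v
@[simp] theorem It.rh_v_v (z : A) : s.v * (s.v * z) = s.v * z := by rw [← mul_assoc, s.h_v_v]
attribute [simp] It.h_q_q
@[simp] theorem It.rh_q_q (z : A) : s.q * (s.q * z) = s.q * z := by rw [← mul_assoc, s.h_q_q]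
attribute [simp] It.h_u_v
@[simp] theorem It.rh_u_v (z : A) : s.u * (s.v * z) = 0 := by rw [← mul_assoc, s.h_u_v, zero_mul]
attribute [simp] It.h_v_u
@[simp] theorem It.rh_v_u (z : A) : s.v * (s.u * z) = 0 := by rw [← mul_assoc, s.h_v_u, zero_mul]
attribute [simp] It.h_u_q
@[simp] theorem It.rh_u_q (z : A) : s.u * (s.q * z) = 0 := by rw [← mul_assoc, s.h_u_q, zero_mul]
attribute [simp] It.h_q_u
@[simp] theorem It.rh_q_u (z : A) : s.q * (s.u * z) = 0 := by rw [← mul_assoc, s.h_q_u, zero_mul]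
attribute [simp] It.h_v_q
@[simp] theorem It.rh_v_q (z : A) : s.v * (s.q * z) = 0 := by rw [← mul_assoc, s.h_v_q, zero_mul]
attribute [simp] It.h_q_v
@[simp] theorem It.rh_q_v (z : A) : s.q * (s.v * z) = 0 := by rw [← mul_assoc, s.h_q_v, zero_mul]
attribute [simp] It.h_dl_dl
@[simp] theorem It.rh_dl_dl (z : A) : s.dl * (s.dl * z) = s.dl * z := by rw [← mul_assoc, s.h_dl_dl]
attribute [simp] It.h_u_dl
@[simp] theorem It.rh_u_dl (z : A) : s.u * (s.dl * z) = s.dl * z := by rw [← mul_assoc, s.h_u_dl]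
attribute [simp] It.h_dl_u
@[simp] theorem It.rh_dl_u (z : A) : s.dl * (s.u * z) = s.dl * z := by rw [← mul_assoc, s.h_dl_u]
attribute [simp] It.h_u_a
@[simp] theorem It.rh_u_a (z : A) : s.u * (s.a * z) = s.a * z := by rw [← mul_assoc, s.h_u_a]
attribute [simp] It.h_a_u
@[simp] theorem It.rh_a_u (z : A) : s.a * (s.u * z) = s.a * z := by rw [← mul_assoc, s.h_a_u]
attribute [simp] It.h_u_n
@[simp] theorem It.rh_u_n (z : A) : s.u * (s.n * z) = s.n * z := by rw [← mul_assoc, s.h_u_n]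
attribute [simp] It.h_n_v
@[simp] theorem It.rh_n_v (z : A) : s.n * (s.v * z) = s.n * z := by rw [← mul_assoc, s.h_n_v]
attribute [simp] It.h_v_al
@[simp] theorem It.rh_v_al (z : A) : s.v * (s.al * z) = s.al * z := by rw [← mul_assoc, s.h_v_al]
attribute [simp] It.h_al_u
@[simp] theorem It.rh_al_u (z : A) : s.al * (s.u * z) = s.al * z := by rw [← mul_assoc, s.h_al_u]
attribute [simp] It.h_v_Y
@[simp] theorem It.rh_v_Y (z : A) : s.v * (s.Y * z) = s.Y * z := by rw [← mul_assoc, s.h_v_Y]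
attribute [simp] It.h_Y_dl
@[simp] theorem It.rh_Y_dl (z : A) : s.Y * (s.dl * z) = s.Y * z := by rw [← mul_assoc, s.h_Y_dl]
attribute [simp] It.h_q_be
@[simp] theorem It.rh_q_be (z : A) : s.q * (s.be * z) = s.be * z := by rw [← mul_assoc, s.h_q_be]
attribute [simp] It.h_be_v
@[simp] theorem It.rh_be_v (z : A) : s.be * (s.v * z) = s.be * z := by rw [← mul_assoc, s.h_be_v]
attribute [simp] It.h_q_X
@[simp] theorem It.rh_q_X (z : A) : s.q * (s.X * z) = s.X * z := by rw [← mul_assoc, s.h_q_X]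
attribute [simp] It.h_X_dl
@[simp] theorem It.rh_X_dl (z : A) : s.X * (s.dl * z) = s.X * z := by rw [← mul_assoc, s.h_X_dl]
attribute [simp] It.h_q_g
@[simp] theorem It.rh_q_g (z : A) : s.q * (s.g * z) = s.g * z := by rw [← mul_assoc, s.h_q_g]
attribute [simp] It.h_g_v
@[simp] theorem It.rh_g_v (z : A) : s.g * (s.v * z) = s.g * z := by rw [← mul_assoc, s.h_g_v]
attribute [simp] It.h_q_h
@[simp] theorem It.rh_q_h (z : A) : s.q * (s.h * z) = s.h * z := by rw [← mul_assoc, s.h_q_h]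
attribute [simp] It.h_h_q
@[simp] theorem It.rh_h_q (z : A) : s.h * (s.q * z) = s.h * z := by rw [← mul_assoc, s.h_h_q]
attribute [simp] It.h_u_ai
@[simp] theorem It.rh_u_ai (z : A) : s.u * (s.a' * z) = s.a' * z := by rw [← mul_assoc, s.h_u_ai]
attribute [simp] It.h_ai_u
@[simp] theorem It.rh_ai_u (z : A) : s.a' * (s.u * z) = s.a' * z := by rw [← mul_assoc, s.h_ai_u]
attribute [simp] It.h_v_ni
@[simp] theorem It.rh_v_ni (z : A) : s.v * (s.n' * z) = s.n' * z := by rw [← mul_assoc, s.h_v_ni]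
attribute [simp] It.h_ni_u
@[simp] theorem It.rh_ni_u (z : A) : s.n' * (s.u * z) = s.n' * z := by rw [← mul_assoc, s.h_ni_u]
attribute [simp] It.h_u_ali
@[simp] theorem It.rh_u_ali (z : A) : s.u * (s.al' * z) = s.al' * z := by rw [← mul_assoc, s.h_u_ali]
attribute [simp] It.h_ali_v
@[simp] theorem It.rh_ali_v (z : A) : s.al' * (s.v * z) = s.al' * z := by rw [← mul_assoc, s.h_ali_v]
attribute [simp] It.h_dl_Yi
@[simp] theorem It.rh_dl_Yi (z : A) : s.dl * (s.Y' * z) = s.Y' * z := by rw [← mul_assoc, s.h_dl_Yi]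
attribute [simp] It.h_Yi_v
@[simp] theorem It.rh_Yi_v (z : A) : s.Y' * (s.v * z) = s.Y' * z := by rw [← mul_assoc, s.h_Yi_v]
attribute [simp] It.h_v_bei
@[simp] theorem It.rh_v_bei (z : A) : s.v * (s.be' * z) = s.be' * z := by rw [← mul_assoc, s.h_v_bei]
attribute [simp] It.h_bei_q
@[simp] theorem It.rh_bei_q (z : A) : s.be' * (s.q * z) = s.be' * z := by rw [← mul_assoc, s.h_bei_q]
attribute [simp] It.h_dl_Xi
@[simp] theorem It.rh_dl_Xi (z : A) : s.dl * (s.X' * z) = s.X' * z := by rw [← mul_assoc, s.h_dl_Xi]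
attribute [simp] It.h_Xi_q
@[simp] theorem It.rh_Xi_q (z : A) : s.X' * (s.q * z) = s.X' * z := by rw [← mul_assoc, s.h_Xi_q]
attribute [simp] It.h_v_gi
@[simp] theorem It.rh_v_gi (z : A) : s.v * (s.g' * z) = s.g' * z := by rw [← mul_assoc, s.h_v_gi]
attribute [simp] It.h_gi_q
@[simp] theorem It.rh_gi_q (z : A) : s.g' * (s.q * z) = s.g' * z := by rw [← mul_assoc, s.h_gi_q]
attribute [simp] It.h_q_hi
@[simp] theorem It.rh_q_hi (z : A) : s.q * (s.h' * z) = s.h' * z := by rw [← mul_assoc, s.h_q_hi]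
attribute [simp] It.h_hi_q
@[simp] theorem It.rh_hi_q (z : A) : s.h' * (s.q * z) = s.h' * z := by rw [← mul_assoc, s.h_hi_q]
attribute [simp] It.h_ai_a
@[simp] theorem It.rh_ai_a (z : A) : s.a' * (s.a * z) = s.u * z := by rw [← mul_assoc, s.h_ai_a]
attribute [simp] It.h_ai_n
@[simp] theorem It.rh_ai_n (z : A) : s.a' * (s.n * z) = 0 := by rw [← mul_assoc, s.h_ai_n, zero_mul]
attribute [simp] It.h_ni_a
@[simp] theorem It.rh_ni_a (z : A) : s.n' * (s.a * z) = 0 := by rw [← mul_assoc, s.h_ni_a, zero_mul]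
attribute [simp] It.h_ni_n
@[simp] theorem It.rh_ni_n (z : A) : s.n' * (s.n * z) = s.v * z := by rw [← mul_assoc, s.h_ni_n]
attribute [simp] It.h_ali_al
@[simp] theorem It.rh_ali_al (z : A) : s.al' * (s.al * z) = s.u * z := by rw [← mul_assoc, s.h_ali_al]
attribute [simp] It.h_ali_Y
@[simp] theorem It.rh_ali_Y (z : A) : s.al' * (s.Y * z) = 0 := by rw [← mul_assoc, s.h_ali_Y, zero_mul]
attribute [simp] It.h_Yi_al
@[simp] theorem It.rh_Yi_al (z : A) : s.Y' * (s.al * z) = 0 := by rw [← mul_assoc, s.h_Yi_al, zero_mul]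
attribute [simp] It.h_Yi_Y
@[simp] theorem It.rh_Yi_Y (z : A) : s.Y' * (s.Y * z) = s.dl * z := by rw [← mul_assoc, s.h_Yi_Y]
attribute [simp] It.h_bei_be
@[simp] theorem It.rh_bei_be (z : A) : s.be' * (s.be * z) = s.v * z := by rw [← mul_assoc, s.h_bei_be]
attribute [simp] It.h_bei_X
@[simp] theorem It.rh_bei_X (z : A) : s.be' * (s.X * z) = 0 := by rw [← mul_assoc, s.h_bei_X, zero_mul]
attribute [simp] It.h_Xi_be
@[simp] theorem It.rh_Xi_be (z : A) : s.X' * (s.be * z) = 0 := by rw [← mul_assoc, s.h_Xi_be, zero_mul]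
attribute [simp] It.h_Xi_X
@[simp] theorem It.rh_Xi_X (z : A) : s.X' * (s.X * z) = s.dl * z := by rw [← mul_assoc, s.h_Xi_X]
attribute [simp] It.h_gi_g
@[simp] theorem It.rh_gi_g (z : A) : s.g' * (s.g * z) = s.v * z := by rw [← mul_assoc, s.h_gi_g]
attribute [simp] It.h_gi_h
@[simp] theorem It.rh_gi_h (z : A) : s.g' * (s.h * z) = 0 := by rw [← mul_assoc, s.h_gi_h, zero_mul]
attribute [simp] It.h_hi_g
@[simp] theorem It.rh_hi_g (z : A) : s.h' * (s.g * z) = 0 := by rw [← mul_assoc, s.h_hi_g, zero_mul]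
attribute [simp] It.h_hi_h
@[simp] theorem It.rh_hi_h (z : A) : s.h' * (s.h * z) = s.q * z := by rw [← mul_assoc, s.h_hi_h]
attribute [simp] It.h_ai_dl
@[simp] theorem It.rh_ai_dl (z : A) : s.a' * (s.dl * z) = 0 := by rw [← mul_assoc, s.h_ai_dl, zero_mul]
attribute [simp] It.h_dl_a
@[simp] theorem It.rh_dl_a (z : A) : s.dl * (s.a * z) = 0 := by rw [← mul_assoc, s.h_dl_a, zero_mul]
attribute [simp] It.h_ni_dl
@[simp] theorem It.rh_ni_dl (z : A) : s.n' * (s.dl * z) = s.Y * z := by rw [← mul_assoc, s.h_ni_dl]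
attribute [simp] It.h_dl_n
@[simp] theorem It.rh_dl_n (z : A) : s.dl * (s.n * z) = s.Y' * z := by rw [← mul_assoc, s.h_dl_n]
attribute [simp] It.h_n_Y
@[simp] theorem It.rh_n_Y (z : A) : s.n * (s.Y * z) = s.dl * z := by rw [← mul_assoc, s.h_n_Y]
attribute [simp] It.h_Yi_ni
@[simp] theorem It.rh_Yi_ni (z : A) : s.Y' * (s.n' * z) = s.dl * z := by rw [← mul_assoc, s.h_Yi_ni]
@[simp] theorem It.d_v_dl : s.v * s.dl = 0 := by
  rw [← s.h_u_dl, ← mul_assoc, s.h_v_u, zero_mul]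
@[simp] theorem It.rd_v_dl (z : A) : s.v * (s.dl * z) = 0 := by rw [← mul_assoc, s.d_v_dl, zero_mul]
@[simp] theorem It.d_dl_v : s.dl * s.v = 0 := by
  rw [← s.h_dl_u, mul_assoc, s.h_u_v, mul_zero]
@[simp] theorem It.rd_dl_v (z : A) : s.dl * (s.v * z) = 0 := by rw [← mul_assoc, s.d_dl_v, zero_mul]
@[simp] theorem It.d_q_dl : s.q * s.dl = 0 := by
  rw [← s.h_u_dl, ← mul_assoc, s.h_q_u, zero_mul]
@[simp] theorem It.rd_q_dl (z : A) : s.q * (s.dl * z) = 0 := by rw [← mul_assoc, s.d_q_dl, zero_mul]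
@[simp] theorem It.d_dl_q : s.dl * s.q = 0 := by
  rw [← s.h_dl_u, mul_assoc, s.h_u_q, mul_zero]
@[simp] theorem It.rd_dl_q (z : A) : s.dl * (s.q * z) = 0 := by rw [← mul_assoc, s.d_dl_q, zero_mul]
@[simp] theorem It.d_Y_u : s.Y * s.u = s.Y := by
  rw [← s.h_Y_dl, mul_assoc, s.h_dl_u]
@[simp] theorem It.rd_Y_u (z : A) : s.Y * (s.u * z) = s.Y * z := by rw [← mul_assoc, s.d_Y_u]
@[simp] theorem It.d_X_u : s.X * s.u = s.X := by
  rw [← s.h_X_dl, mul_assoc, s.h_dl_u]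
@[simp] theorem It.rd_X_u (z : A) : s.X * (s.u * z) = s.X * z := by rw [← mul_assoc, s.d_X_u]
@[simp] theorem It.d_u_Yi : s.u * s.Y' = s.Y' := by
  rw [← s.h_dl_Yi, ← mul_assoc, s.h_u_dl]
@[simp] theorem It.rd_u_Yi (z : A) : s.u * (s.Y' * z) = s.Y' * z := by rw [← mul_assoc, s.d_u_Yi]
@[simp] theorem It.d_u_Xi : s.u * s.X' = s.X' := by
  rw [← s.h_dl_Xi, ← mul_assoc, s.h_u_dl]
@[simp] theorem It.rd_u_Xi (z : A) : s.u * (s.X' * z) = s.X' * z := by rw [← mul_assoc, s.d_u_Xi]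
@[simp] theorem It.d_v_a : s.v * s.a = 0 := by
  rw [← s.h_u_a, ← mul_assoc, s.h_v_u, zero_mul]
@[simp] theorem It.rd_v_a (z : A) : s.v * (s.a * z) = 0 := by rw [← mul_assoc, s.d_v_a, zero_mul]
@[simp] theorem It.d_a_v : s.a * s.v = 0 := by
  rw [← s.h_a_u, mul_assoc, s.h_u_v, mul_zero]
@[simp] theorem It.rd_a_v (z : A) : s.a * (s.v * z) = 0 := by rw [← mul_assoc, s.d_a_v, zero_mul]
@[simp] theorem It.d_q_a : s.q * s.a = 0 := by
  rw [← s.h_u_a, ← mul_assoc, s.h_q_u, zero_mul]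
@[simp] theorem It.rd_q_a (z : A) : s.q * (s.a * z) = 0 := by rw [← mul_assoc, s.d_q_a, zero_mul]
@[simp] theorem It.d_a_q : s.a * s.q = 0 := by
  rw [← s.h_a_u, mul_assoc, s.h_u_q, mul_zero]
@[simp] theorem It.rd_a_q (z : A) : s.a * (s.q * z) = 0 := by rw [← mul_assoc, s.d_a_q, zero_mul]
@[simp] theorem It.d_n_u : s.n * s.u = 0 := by
  rw [← s.h_n_v, mul_assoc, s.h_v_u, mul_zero]
@[simp] theorem It.rd_n_u (z : A) : s.n * (s.u * z) = 0 := by rw [← mul_assoc, s.d_n_u, zero_mul]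
@[simp] theorem It.d_v_n : s.v * s.n = 0 := by
  rw [← s.h_u_n, ← mul_assoc, s.h_v_u, zero_mul]
@[simp] theorem It.rd_v_n (z : A) : s.v * (s.n * z) = 0 := by rw [← mul_assoc, s.d_v_n, zero_mul]
@[simp] theorem It.d_q_n : s.q * s.n = 0 := by
  rw [← s.h_u_n, ← mul_assoc, s.h_q_u, zero_mul]
@[simp] theorem It.rd_q_n (z : A) : s.q * (s.n * z) = 0 := by rw [← mul_assoc, s.d_q_n, zero_mul]
@[simp] theorem It.d_n_q : s.n * s.q = 0 := by
  rw [← s.h_n_v, mul_assoc, s.h_v_q, mul_zero]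
@[simp] theorem It.rd_n_q (z : A) : s.n * (s.q * z) = 0 := by rw [← mul_assoc, s.d_n_q, zero_mul]
@[simp] theorem It.d_n_dl : s.n * s.dl = 0 := by
  rw [← s.h_n_v, mul_assoc, s.d_v_dl, mul_zero]
@[simp] theorem It.rd_n_dl (z : A) : s.n * (s.dl * z) = 0 := by rw [← mul_assoc, s.d_n_dl, zero_mul]
@[simp] theorem It.d_u_al : s.u * s.al = 0 := by
  rw [← s.h_v_al, ← mul_assoc, s.h_u_v, zero_mul]
@[simp] theorem It.rd_u_al (z : A) : s.u * (s.al * z) = 0 := by rw [← mul_assoc, s.d_u_al, zero_mul]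
@[simp] theorem It.d_al_v : s.al * s.v = 0 := by
  rw [← s.h_al_u, mul_assoc, s.h_u_v, mul_zero]
@[simp] theorem It.rd_al_v (z : A) : s.al * (s.v * z) = 0 := by rw [← mul_assoc, s.d_al_v, zero_mul]
@[simp] theorem It.d_q_al : s.q * s.al = 0 := by
  rw [← s.h_v_al, ← mul_assoc, s.h_q_v, zero_mul]
@[simp] theorem It.rd_q_al (z : A) : s.q * (s.al * z) = 0 := by rw [← mul_assoc, s.d_q_al, zero_mul]
@[simp] theorem It.d_al_q : s.al * s.q = 0 := by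
  rw [← s.h_al_u, mul_assoc, s.h_u_q, mul_zero]
@[simp] theorem It.rd_al_q (z : A) : s.al * (s.q * z) = 0 := by rw [← mul_assoc, s.d_al_q, zero_mul]
@[simp] theorem It.d_dl_al : s.dl * s.al = 0 := by
  rw [← s.h_v_al, ← mul_assoc, s.d_dl_v, zero_mul]
@[simp] theorem It.rd_dl_al (z : A) : s.dl * (s.al * z) = 0 := by rw [← mul_assoc, s.d_dl_al, zero_mul]
@[simp] theorem It.d_u_Y : s.u * s.Y = 0 := by
  rw [← s.h_v_Y, ← mul_assoc, s.h_u_v, zero_mul]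
@[simp] theorem It.rd_u_Y (z : A) : s.u * (s.Y * z) = 0 := by rw [← mul_assoc, s.d_u_Y, zero_mul]
@[simp] theorem It.d_Y_v : s.Y * s.v = 0 := by
  rw [← s.h_Y_dl, mul_assoc, s.d_dl_v, mul_zero]
@[simp] theorem It.rd_Y_v (z : A) : s.Y * (s.v * z) = 0 := by rw [← mul_assoc, s.d_Y_v, zero_mul]
@[simp] theorem It.d_q_Y : s.q * s.Y = 0 := by
  rw [← s.h_v_Y, ← mul_assoc, s.h_q_v, zero_mul]
@[simp] theorem It.rd_q_Y (z : A) : s.q * (s.Y * z) = 0 := by rw [← mul_assoc, s.d_q_Y, zero_mul]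
@[simp] theorem It.d_Y_q : s.Y * s.q = 0 := by
  rw [← s.h_Y_dl, mul_assoc, s.d_dl_q, mul_zero]
@[simp] theorem It.rd_Y_q (z : A) : s.Y * (s.q * z) = 0 := by rw [← mul_assoc, s.d_Y_q, zero_mul]
@[simp] theorem It.d_dl_Y : s.dl * s.Y = 0 := by
  rw [← s.h_v_Y, ← mul_assoc, s.d_dl_v, zero_mul]
@[simp] theorem It.rd_dl_Y (z : A) : s.dl * (s.Y * z) = 0 := by rw [← mul_assoc, s.d_dl_Y, zero_mul]
@[simp] theorem It.d_u_be : s.u * s.be = 0 := by
  rw [← s.h_q_be, ← mul_assoc, s.h_u_q, zero_mul]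
@[simp] theorem It.rd_u_be (z : A) : s.u * (s.be * z) = 0 := by rw [← mul_assoc, s.d_u_be, zero_mul]
@[simp] theorem It.d_be_u : s.be * s.u = 0 := by
  rw [← s.h_be_v, mul_assoc, s.h_v_u, mul_zero]
@[simp] theorem It.rd_be_u (z : A) : s.be * (s.u * z) = 0 := by rw [← mul_assoc, s.d_be_u, zero_mul]
@[simp] theorem It.d_v_be : s.v * s.be = 0 := by
  rw [← s.h_q_be, ← mul_assoc, s.h_v_q, zero_mul]
@[simp] theorem It.rd_v_be (z : A) : s.v * (s.be * z) = 0 := by rw [← mul_assoc, s.d_v_be, zero_mul]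
@[simp] theorem It.d_be_q : s.be * s.q = 0 := by
  rw [← s.h_be_v, mul_assoc, s.h_v_q, mul_zero]
@[simp] theorem It.rd_be_q (z : A) : s.be * (s.q * z) = 0 := by rw [← mul_assoc, s.d_be_q, zero_mul]
@[simp] theorem It.d_dl_be : s.dl * s.be = 0 := by
  rw [← s.h_q_be, ← mul_assoc, s.d_dl_q, zero_mul]
@[simp] theorem It.rd_dl_be (z : A) : s.dl * (s.be * z) = 0 := by rw [← mul_assoc, s.d_dl_be, zero_mul]
@[simp] theorem It.d_be_dl : s.be * s.dl = 0 := by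
  rw [← s.h_be_v, mul_assoc, s.d_v_dl, mul_zero]
@[simp] theorem It.rd_be_dl (z : A) : s.be * (s.dl * z) = 0 := by rw [← mul_assoc, s.d_be_dl, zero_mul]
@[simp] theorem It.d_u_X : s.u * s.X = 0 := by
  rw [← s.h_q_X, ← mul_assoc, s.h_u_q, zero_mul]
@[simp] theorem It.rd_u_X (z : A) : s.u * (s.X * z) = 0 := by rw [← mul_assoc, s.d_u_X, zero_mul]
@[simp] theorem It.d_v_X : s.v * s.X = 0 := by
  rw [← s.h_q_X, ← mul_assoc, s.h_v_q, zero_mul]
@[simp] theorem It.rd_v_X (z : A) : s.v * (s.X * z) = 0 := by rw [← mul_assoc, s.d_v_X, zero_mul]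
@[simp] theorem It.d_X_v : s.X * s.v = 0 := by
  rw [← s.h_X_dl, mul_assoc, s.d_dl_v, mul_zero]
@[simp] theorem It.rd_X_v (z : A) : s.X * (s.v * z) = 0 := by rw [← mul_assoc, s.d_X_v, zero_mul]
@[simp] theorem It.d_X_q : s.X * s.q = 0 := by
  rw [← s.h_X_dl, mul_assoc, s.d_dl_q, mul_zero]
@[simp] theorem It.rd_X_q (z : A) : s.X * (s.q * z) = 0 := by rw [← mul_assoc, s.d_X_q, zero_mul]
@[simp] theorem It.d_dl_X : s.dl * s.X = 0 := by
  rw [← s.h_q_X, ← mul_assoc, s.d_dl_q, zero_mul]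
@[simp] theorem It.rd_dl_X (z : A) : s.dl * (s.X * z) = 0 := by rw [← mul_assoc, s.d_dl_X, zero_mul]
@[simp] theorem It.d_u_g : s.u * s.g = 0 := by
  rw [← s.h_q_g, ← mul_assoc, s.h_u_q, zero_mul]
@[simp] theorem It.rd_u_g (z : A) : s.u * (s.g * z) = 0 := by rw [← mul_assoc, s.d_u_g, zero_mul]
@[simp] theorem It.d_g_u : s.g * s.u = 0 := by
  rw [← s.h_g_v, mul_assoc, s.h_v_u, mul_zero]
@[simp] theorem It.rd_g_u (z : A) : s.g * (s.u * z) = 0 := by rw [← mul_assoc, s.d_g_u, zero_mul]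
@[simp] theorem It.d_v_g : s.v * s.g = 0 := by
  rw [← s.h_q_g, ← mul_assoc, s.h_v_q, zero_mul]
@[simp] theorem It.rd_v_g (z : A) : s.v * (s.g * z) = 0 := by rw [← mul_assoc, s.d_v_g, zero_mul]
@[simp] theorem It.d_g_q : s.g * s.q = 0 := by
  rw [← s.h_g_v, mul_assoc, s.h_v_q, mul_zero]
@[simp] theorem It.rd_g_q (z : A) : s.g * (s.q * z) = 0 := by rw [← mul_assoc, s.d_g_q, zero_mul]
@[simp] theorem It.d_dl_g : s.dl * s.g = 0 := by
  rw [← s.h_q_g, ← mul_assoc, s.d_dl_q, zero_mul]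
@[simp] theorem It.rd_dl_g (z : A) : s.dl * (s.g * z) = 0 := by rw [← mul_assoc, s.d_dl_g, zero_mul]
@[simp] theorem It.d_g_dl : s.g * s.dl = 0 := by
  rw [← s.h_g_v, mul_assoc, s.d_v_dl, mul_zero]
@[simp] theorem It.rd_g_dl (z : A) : s.g * (s.dl * z) = 0 := by rw [← mul_assoc, s.d_g_dl, zero_mul]
@[simp] theorem It.d_u_h : s.u * s.h = 0 := by
  rw [← s.h_q_h, ← mul_assoc, s.h_u_q, zero_mul]
@[simp] theorem It.rd_u_h (z : A) : s.u * (s.h * z) = 0 := by rw [← mul_assoc, s.d_u_h, zero_mul]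
@[simp] theorem It.d_h_u : s.h * s.u = 0 := by
  rw [← s.h_h_q, mul_assoc, s.h_q_u, mul_zero]
@[simp] theorem It.rd_h_u (z : A) : s.h * (s.u * z) = 0 := by rw [← mul_assoc, s.d_h_u, zero_mul]
@[simp] theorem It.d_v_h : s.v * s.h = 0 := by
  rw [← s.h_q_h, ← mul_assoc, s.h_v_q, zero_mul]
@[simp] theorem It.rd_v_h (z : A) : s.v * (s.h * z) = 0 := by rw [← mul_assoc, s.d_v_h, zero_mul]
@[simp] theorem It.d_h_v : s.h * s.v = 0 := by
  rw [← s.h_h_q, mul_assoc, s.h_q_v, mul_zero]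
@[simp] theorem It.rd_h_v (z : A) : s.h * (s.v * z) = 0 := by rw [← mul_assoc, s.d_h_v, zero_mul]
@[simp] theorem It.d_dl_h : s.dl * s.h = 0 := by
  rw [← s.h_q_h, ← mul_assoc, s.d_dl_q, zero_mul]
@[simp] theorem It.rd_dl_h (z : A) : s.dl * (s.h * z) = 0 := by rw [← mul_assoc, s.d_dl_h, zero_mul]
@[simp] theorem It.d_h_dl : s.h * s.dl = 0 := by
  rw [← s.h_h_q, mul_assoc, s.d_q_dl, mul_zero]
@[simp] theorem It.rd_h_dl (z : A) : s.h * (s.dl * z) = 0 := by rw [← mul_assoc, s.d_h_dl, zero_mul]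
@[simp] theorem It.d_v_ai : s.v * s.a' = 0 := by
  rw [← s.h_u_ai, ← mul_assoc, s.h_v_u, zero_mul]
@[simp] theorem It.rd_v_ai (z : A) : s.v * (s.a' * z) = 0 := by rw [← mul_assoc, s.d_v_ai, zero_mul]
@[simp] theorem It.d_ai_v : s.a' * s.v = 0 := by
  rw [← s.h_ai_u, mul_assoc, s.h_u_v, mul_zero]
@[simp] theorem It.rd_ai_v (z : A) : s.a' * (s.v * z) = 0 := by rw [← mul_assoc, s.d_ai_v, zero_mul]
@[simp] theorem It.d_q_ai : s.q * s.a' = 0 := by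
  rw [← s.h_u_ai, ← mul_assoc, s.h_q_u, zero_mul]
@[simp] theorem It.rd_q_ai (z : A) : s.q * (s.a' * z) = 0 := by rw [← mul_assoc, s.d_q_ai, zero_mul]
@[simp] theorem It.d_ai_q : s.a' * s.q = 0 := by
  rw [← s.h_ai_u, mul_assoc, s.h_u_q, mul_zero]
@[simp] theorem It.rd_ai_q (z : A) : s.a' * (s.q * z) = 0 := by rw [← mul_assoc, s.d_ai_q, zero_mul]
@[simp] theorem It.d_u_ni : s.u * s.n' = 0 := by
  rw [← s.h_v_ni, ← mul_assoc, s.h_u_v, zero_mul]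
@[simp] theorem It.rd_u_ni (z : A) : s.u * (s.n' * z) = 0 := by rw [← mul_assoc, s.d_u_ni, zero_mul]
@[simp] theorem It.d_ni_v : s.n' * s.v = 0 := by
  rw [← s.h_ni_u, mul_assoc, s.h_u_v, mul_zero]
@[simp] theorem It.rd_ni_v (z : A) : s.n' * (s.v * z) = 0 := by rw [← mul_assoc, s.d_ni_v, zero_mul]
@[simp] theorem It.d_q_ni : s.q * s.n' = 0 := by
  rw [← s.h_v_ni, ← mul_assoc, s.h_q_v, zero_mul]
@[simp] theorem It.rd_q_ni (z : A) : s.q * (s.n' * z) = 0 := by rw [← mul_assoc, s.d_q_ni, zero_mul]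
@[simp] theorem It.d_ni_q : s.n' * s.q = 0 := by
  rw [← s.h_ni_u, mul_assoc, s.h_u_q, mul_zero]
@[simp] theorem It.rd_ni_q (z : A) : s.n' * (s.q * z) = 0 := by rw [← mul_assoc, s.d_ni_q, zero_mul]
@[simp] theorem It.d_dl_ni : s.dl * s.n' = 0 := by
  rw [← s.h_v_ni, ← mul_assoc, s.d_dl_v, zero_mul]
@[simp] theorem It.rd_dl_ni (z : A) : s.dl * (s.n' * z) = 0 := by rw [← mul_assoc, s.d_dl_ni, zero_mul]
@[simp] theorem It.d_ali_u : s.al' * s.u = 0 := by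
  rw [← s.h_ali_v, mul_assoc, s.h_v_u, mul_zero]
@[simp] theorem It.rd_ali_u (z : A) : s.al' * (s.u * z) = 0 := by rw [← mul_assoc, s.d_ali_u, zero_mul]
@[simp] theorem It.d_v_ali : s.v * s.al' = 0 := by
  rw [← s.h_u_ali, ← mul_assoc, s.h_v_u, zero_mul]
@[simp] theorem It.rd_v_ali (z : A) : s.v * (s.al' * z) = 0 := by rw [← mul_assoc, s.d_v_ali, zero_mul]
@[simp] theorem It.d_q_ali : s.q * s.al' = 0 := by
  rw [← s.h_u_ali, ← mul_assoc, s.h_q_u, zero_mul]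
@[simp] theorem It.rd_q_ali (z : A) : s.q * (s.al' * z) = 0 := by rw [← mul_assoc, s.d_q_ali, zero_mul]
@[simp] theorem It.d_ali_q : s.al' * s.q = 0 := by
  rw [← s.h_ali_v, mul_assoc, s.h_v_q, mul_zero]
@[simp] theorem It.rd_ali_q (z : A) : s.al' * (s.q * z) = 0 := by rw [← mul_assoc, s.d_ali_q, zero_mul]
@[simp] theorem It.d_ali_dl : s.al' * s.dl = 0 := by
  rw [← s.h_ali_v, mul_assoc, s.d_v_dl, mul_zero]
@[simp] theorem It.rd_ali_dl (z : A) : s.al' * (s.dl * z) = 0 := by rw [← mul_assoc, s.d_ali_dl, zero_mul]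
@[simp] theorem It.d_Yi_u : s.Y' * s.u = 0 := by
  rw [← s.h_Yi_v, mul_assoc, s.h_v_u, mul_zero]
@[simp] theorem It.rd_Yi_u (z : A) : s.Y' * (s.u * z) = 0 := by rw [← mul_assoc, s.d_Yi_u, zero_mul]
@[simp] theorem It.d_v_Yi : s.v * s.Y' = 0 := by
  rw [← s.h_dl_Yi, ← mul_assoc, s.d_v_dl, zero_mul]
@[simp] theorem It.rd_v_Yi (z : A) : s.v * (s.Y' * z) = 0 := by rw [← mul_assoc, s.d_v_Yi, zero_mul]
@[simp] theorem It.d_q_Yi : s.q * s.Y' = 0 := by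
  rw [← s.h_dl_Yi, ← mul_assoc, s.d_q_dl, zero_mul]
@[simp] theorem It.rd_q_Yi (z : A) : s.q * (s.Y' * z) = 0 := by rw [← mul_assoc, s.d_q_Yi, zero_mul]
@[simp] theorem It.d_Yi_q : s.Y' * s.q = 0 := by
  rw [← s.h_Yi_v, mul_assoc, s.h_v_q, mul_zero]
@[simp] theorem It.rd_Yi_q (z : A) : s.Y' * (s.q * z) = 0 := by rw [← mul_assoc, s.d_Yi_q, zero_mul]
@[simp] theorem It.d_Yi_dl : s.Y' * s.dl = 0 := by
  rw [← s.h_Yi_v, mul_assoc, s.d_v_dl, mul_zero]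
@[simp] theorem It.rd_Yi_dl (z : A) : s.Y' * (s.dl * z) = 0 := by rw [← mul_assoc, s.d_Yi_dl, zero_mul]
@[simp] theorem It.d_u_bei : s.u * s.be' = 0 := by
  rw [← s.h_v_bei, ← mul_assoc, s.h_u_v, zero_mul]
@[simp] theorem It.rd_u_bei (z : A) : s.u * (s.be' * z) = 0 := by rw [← mul_assoc, s.d_u_bei, zero_mul]
@[simp] theorem It.d_bei_u : s.be' * s.u = 0 := by
  rw [← s.h_bei_q, mul_assoc, s.h_q_u, mul_zero]
@[simp] theorem It.rd_bei_u (z : A) : s.be' * (s.u * z) = 0 := by rw [← mul_assoc, s.d_bei_u, zero_mul]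
@[simp] theorem It.d_bei_v : s.be' * s.v = 0 := by
  rw [← s.h_bei_q, mul_assoc, s.h_q_v, mul_zero]
@[simp] theorem It.rd_bei_v (z : A) : s.be' * (s.v * z) = 0 := by rw [← mul_assoc, s.d_bei_v, zero_mul]
@[simp] theorem It.d_q_bei : s.q * s.be' = 0 := by
  rw [← s.h_v_bei, ← mul_assoc, s.h_q_v, zero_mul]
@[simp] theorem It.rd_q_bei (z : A) : s.q * (s.be' * z) = 0 := by rw [← mul_assoc, s.d_q_bei, zero_mul]
@[simp] theorem It.d_dl_bei : s.dl * s.be' = 0 := by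
  rw [← s.h_v_bei, ← mul_assoc, s.d_dl_v, zero_mul]
@[simp] theorem It.rd_dl_bei (z : A) : s.dl * (s.be' * z) = 0 := by rw [← mul_assoc, s.d_dl_bei, zero_mul]
@[simp] theorem It.d_bei_dl : s.be' * s.dl = 0 := by
  rw [← s.h_bei_q, mul_assoc, s.d_q_dl, mul_zero]
@[simp] theorem It.rd_bei_dl (z : A) : s.be' * (s.dl * z) = 0 := by rw [← mul_assoc, s.d_bei_dl, zero_mul]
@[simp] theorem It.d_Xi_u : s.X' * s.u = 0 := by
  rw [← s.h_Xi_q, mul_assoc, s.h_q_u, mul_zero]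
@[simp] theorem It.rd_Xi_u (z : A) : s.X' * (s.u * z) = 0 := by rw [← mul_assoc, s.d_Xi_u, zero_mul]
@[simp] theorem It.d_v_Xi : s.v * s.X' = 0 := by
  rw [← s.h_dl_Xi, ← mul_assoc, s.d_v_dl, zero_mul]
@[simp] theorem It.rd_v_Xi (z : A) : s.v * (s.X' * z) = 0 := by rw [← mul_assoc, s.d_v_Xi, zero_mul]
@[simp] theorem It.d_Xi_v : s.X' * s.v = 0 := by
  rw [← s.h_Xi_q, mul_assoc, s.h_q_v, mul_zero]
@[simp] theorem It.rd_Xi_v (z : A) : s.X' * (s.v * z) = 0 := by rw [← mul_assoc, s.d_Xi_v, zero_mul]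
@[simp] theorem It.d_q_Xi : s.q * s.X' = 0 := by
  rw [← s.h_dl_Xi, ← mul_assoc, s.d_q_dl, zero_mul]
@[simp] theorem It.rd_q_Xi (z : A) : s.q * (s.X' * z) = 0 := by rw [← mul_assoc, s.d_q_Xi, zero_mul]
@[simp] theorem It.d_Xi_dl : s.X' * s.dl = 0 := by
  rw [← s.h_Xi_q, mul_assoc, s.d_q_dl, mul_zero]
@[simp] theorem It.rd_Xi_dl (z : A) : s.X' * (s.dl * z) = 0 := by rw [← mul_assoc, s.d_Xi_dl, zero_mul]
@[simp] theorem It.d_u_gi : s.u * s.g' = 0 := by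
  rw [← s.h_v_gi, ← mul_assoc, s.h_u_v, zero_mul]
@[simp] theorem It.rd_u_gi (z : A) : s.u * (s.g' * z) = 0 := by rw [← mul_assoc, s.d_u_gi, zero_mul]
@[simp] theorem It.d_gi_u : s.g' * s.u = 0 := by
  rw [← s.h_gi_q, mul_assoc, s.h_q_u, mul_zero]
@[simp] theorem It.rd_gi_u (z : A) : s.g' * (s.u * z) = 0 := by rw [← mul_assoc, s.d_gi_u, zero_mul]
@[simp] theorem It.d_gi_v : s.g' * s.v = 0 := by
  rw [← s.h_gi_q, mul_assoc, s.h_q_v, mul_zero]
@[simp] theorem It.rd_gi_v (z : A) : s.g' * (s.v * z) = 0 := by rw [← mul_assoc, s.d_gi_v, zero_mul]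
@[simp] theorem It.d_q_gi : s.q * s.g' = 0 := by
  rw [← s.h_v_gi, ← mul_assoc, s.h_q_v, zero_mul]
@[simp] theorem It.rd_q_gi (z : A) : s.q * (s.g' * z) = 0 := by rw [← mul_assoc, s.d_q_gi, zero_mul]
@[simp] theorem It.d_dl_gi : s.dl * s.g' = 0 := by
  rw [← s.h_v_gi, ← mul_assoc, s.d_dl_v, zero_mul]
@[simp] theorem It.rd_dl_gi (z : A) : s.dl * (s.g' * z) = 0 := by rw [← mul_assoc, s.d_dl_gi, zero_mul]
@[simp] theorem It.d_gi_dl : s.g' * s.dl = 0 := by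
  rw [← s.h_gi_q, mul_assoc, s.d_q_dl, mul_zero]
@[simp] theorem It.rd_gi_dl (z : A) : s.g' * (s.dl * z) = 0 := by rw [← mul_assoc, s.d_gi_dl, zero_mul]
@[simp] theorem It.d_u_hi : s.u * s.h' = 0 := by
  rw [← s.h_q_hi, ← mul_assoc, s.h_u_q, zero_mul]
@[simp] theorem It.rd_u_hi (z : A) : s.u * (s.h' * z) = 0 := by rw [← mul_assoc, s.d_u_hi, zero_mul]
@[simp] theorem It.d_hi_u : s.h' * s.u = 0 := by
  rw [← s.h_hi_q, mul_assoc, s.h_q_u, mul_zero]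
@[simp] theorem It.rd_hi_u (z : A) : s.h' * (s.u * z) = 0 := by rw [← mul_assoc, s.d_hi_u, zero_mul]
@[simp] theorem It.d_v_hi : s.v * s.h' = 0 := by
  rw [← s.h_q_hi, ← mul_assoc, s.h_v_q, zero_mul]
@[simp] theorem It.rd_v_hi (z : A) : s.v * (s.h' * z) = 0 := by rw [← mul_assoc, s.d_v_hi, zero_mul]
@[simp] theorem It.d_hi_v : s.h' * s.v = 0 := by
  rw [← s.h_hi_q, mul_assoc, s.h_q_v, mul_zero]
@[simp] theorem It.rd_hi_v (z : A) : s.h' * (s.v * z) = 0 := by rw [← mul_assoc, s.d_hi_v, zero_mul]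
@[simp] theorem It.d_dl_hi : s.dl * s.h' = 0 := by
  rw [← s.h_q_hi, ← mul_assoc, s.d_dl_q, zero_mul]
@[simp] theorem It.rd_dl_hi (z : A) : s.dl * (s.h' * z) = 0 := by rw [← mul_assoc, s.d_dl_hi, zero_mul]
@[simp] theorem It.d_hi_dl : s.h' * s.dl = 0 := by
  rw [← s.h_hi_q, mul_assoc, s.d_q_dl, mul_zero]
@[simp] theorem It.rd_hi_dl (z : A) : s.h' * (s.dl * z) = 0 := by rw [← mul_assoc, s.d_hi_dl, zero_mul]
@[simp] theorem It.d_a_al : s.a * s.al = 0 := by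
  rw [show s.a * s.al = s.a * (s.u * s.al) by rw [← mul_assoc, s.h_a_u], s.d_u_al, mul_zero]
@[simp] theorem It.rd_a_al (z : A) : s.a * (s.al * z) = 0 := by rw [← mul_assoc, s.d_a_al, zero_mul]
@[simp] theorem It.d_a_Y : s.a * s.Y = 0 := by
  rw [show s.a * s.Y = s.a * (s.u * s.Y) by rw [← mul_assoc, s.h_a_u], s.d_u_Y, mul_zero]
@[simp] theorem It.rd_a_Y (z : A) : s.a * (s.Y * z) = 0 := by rw [← mul_assoc, s.d_a_Y, zero_mul]
@[simp] theorem It.d_a_be : s.a * s.be = 0 := by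
  rw [show s.a * s.be = s.a * (s.u * s.be) by rw [← mul_assoc, s.h_a_u], s.d_u_be, mul_zero]
@[simp] theorem It.rd_a_be (z : A) : s.a * (s.be * z) = 0 := by rw [← mul_assoc, s.d_a_be, zero_mul]
@[simp] theorem It.d_a_X : s.a * s.X = 0 := by
  rw [show s.a * s.X = s.a * (s.u * s.X) by rw [← mul_assoc, s.h_a_u], s.d_u_X, mul_zero]
@[simp] theorem It.rd_a_X (z : A) : s.a * (s.X * z) = 0 := by rw [← mul_assoc, s.d_a_X, zero_mul]
@[simp] theorem It.d_a_g : s.a * s.g = 0 := by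
  rw [show s.a * s.g = s.a * (s.u * s.g) by rw [← mul_assoc, s.h_a_u], s.d_u_g, mul_zero]
@[simp] theorem It.rd_a_g (z : A) : s.a * (s.g * z) = 0 := by rw [← mul_assoc, s.d_a_g, zero_mul]
@[simp] theorem It.d_a_h : s.a * s.h = 0 := by
  rw [show s.a * s.h = s.a * (s.u * s.h) by rw [← mul_assoc, s.h_a_u], s.d_u_h, mul_zero]
@[simp] theorem It.rd_a_h (z : A) : s.a * (s.h * z) = 0 := by rw [← mul_assoc, s.d_a_h, zero_mul]
@[simp] theorem It.d_a_ni : s.a * s.n' = 0 := by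
  rw [show s.a * s.n' = s.a * (s.u * s.n') by rw [← mul_assoc, s.h_a_u], s.d_u_ni, mul_zero]
@[simp] theorem It.rd_a_ni (z : A) : s.a * (s.n' * z) = 0 := by rw [← mul_assoc, s.d_a_ni, zero_mul]
@[simp] theorem It.d_a_bei : s.a * s.be' = 0 := by
  rw [show s.a * s.be' = s.a * (s.u * s.be') by rw [← mul_assoc, s.h_a_u], s.d_u_bei, mul_zero]
@[simp] theorem It.rd_a_bei (z : A) : s.a * (s.be' * z) = 0 := by rw [← mul_assoc, s.d_a_bei, zero_mul]
@[simp] theorem It.d_a_gi : s.a * s.g' = 0 := by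
  rw [show s.a * s.g' = s.a * (s.u * s.g') by rw [← mul_assoc, s.h_a_u], s.d_u_gi, mul_zero]
@[simp] theorem It.rd_a_gi (z : A) : s.a * (s.g' * z) = 0 := by rw [← mul_assoc, s.d_a_gi, zero_mul]
@[simp] theorem It.d_a_hi : s.a * s.h' = 0 := by
  rw [show s.a * s.h' = s.a * (s.u * s.h') by rw [← mul_assoc, s.h_a_u], s.d_u_hi, mul_zero]
@[simp] theorem It.rd_a_hi (z : A) : s.a * (s.h' * z) = 0 := by rw [← mul_assoc, s.d_a_hi, zero_mul]
@[simp] theorem It.d_n_a : s.n * s.a = 0 := by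
  rw [show s.n * s.a = s.n * (s.v * s.a) by rw [← mul_assoc, s.h_n_v], s.d_v_a, mul_zero]
@[simp] theorem It.rd_n_a (z : A) : s.n * (s.a * z) = 0 := by rw [← mul_assoc, s.d_n_a, zero_mul]
@[simp] theorem It.d_n_n : s.n * s.n = 0 := by
  rw [show s.n * s.n = s.n * (s.v * s.n) by rw [← mul_assoc, s.h_n_v], s.d_v_n, mul_zero]
@[simp] theorem It.rd_n_n (z : A) : s.n * (s.n * z) = 0 := by rw [← mul_assoc, s.d_n_n, zero_mul]
@[simp] theorem It.d_n_be : s.n * s.be = 0 := by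
  rw [show s.n * s.be = s.n * (s.v * s.be) by rw [← mul_assoc, s.h_n_v], s.d_v_be, mul_zero]
@[simp] theorem It.rd_n_be (z : A) : s.n * (s.be * z) = 0 := by rw [← mul_assoc, s.d_n_be, zero_mul]
@[simp] theorem It.d_n_X : s.n * s.X = 0 := by
  rw [show s.n * s.X = s.n * (s.v * s.X) by rw [← mul_assoc, s.h_n_v], s.d_v_X, mul_zero]
@[simp] theorem It.rd_n_X (z : A) : s.n * (s.X * z) = 0 := by rw [← mul_assoc, s.d_n_X, zero_mul]
@[simp] theorem It.d_n_g : s.n * s.g = 0 := by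
  rw [show s.n * s.g = s.n * (s.v * s.g) by rw [← mul_assoc, s.h_n_v], s.d_v_g, mul_zero]
@[simp] theorem It.rd_n_g (z : A) : s.n * (s.g * z) = 0 := by rw [← mul_assoc, s.d_n_g, zero_mul]
@[simp] theorem It.d_n_h : s.n * s.h = 0 := by
  rw [show s.n * s.h = s.n * (s.v * s.h) by rw [← mul_assoc, s.h_n_v], s.d_v_h, mul_zero]
@[simp] theorem It.rd_n_h (z : A) : s.n * (s.h * z) = 0 := by rw [← mul_assoc, s.d_n_h, zero_mul]
@[simp] theorem It.d_n_ai : s.n * s.a' = 0 := by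
  rw [show s.n * s.a' = s.n * (s.v * s.a') by rw [← mul_assoc, s.h_n_v], s.d_v_ai, mul_zero]
@[simp] theorem It.rd_n_ai (z : A) : s.n * (s.a' * z) = 0 := by rw [← mul_assoc, s.d_n_ai, zero_mul]
@[simp] theorem It.d_n_ali : s.n * s.al' = 0 := by
  rw [show s.n * s.al' = s.n * (s.v * s.al') by rw [← mul_assoc, s.h_n_v], s.d_v_ali, mul_zero]
@[simp] theorem It.rd_n_ali (z : A) : s.n * (s.al' * z) = 0 := by rw [← mul_assoc, s.d_n_ali, zero_mul]
@[simp] theorem It.d_n_Yi : s.n * s.Y' = 0 := by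
  rw [show s.n * s.Y' = s.n * (s.v * s.Y') by rw [← mul_assoc, s.h_n_v], s.d_v_Yi, mul_zero]
@[simp] theorem It.rd_n_Yi (z : A) : s.n * (s.Y' * z) = 0 := by rw [← mul_assoc, s.d_n_Yi, zero_mul]
@[simp] theorem It.d_n_Xi : s.n * s.X' = 0 := by
  rw [show s.n * s.X' = s.n * (s.v * s.X') by rw [← mul_assoc, s.h_n_v], s.d_v_Xi, mul_zero]
@[simp] theorem It.rd_n_Xi (z : A) : s.n * (s.X' * z) = 0 := by rw [← mul_assoc, s.d_n_Xi, zero_mul]
@[simp] theorem It.d_n_hi : s.n * s.h' = 0 := by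
  rw [show s.n * s.h' = s.n * (s.v * s.h') by rw [← mul_assoc, s.h_n_v], s.d_v_hi, mul_zero]
@[simp] theorem It.rd_n_hi (z : A) : s.n * (s.h' * z) = 0 := by rw [← mul_assoc, s.d_n_hi, zero_mul]
@[simp] theorem It.d_al_al : s.al * s.al = 0 := by
  rw [show s.al * s.al = s.al * (s.u * s.al) by rw [← mul_assoc, s.h_al_u], s.d_u_al, mul_zero]
@[simp] theorem It.rd_al_al (z : A) : s.al * (s.al * z) = 0 := by rw [← mul_assoc, s.d_al_al, zero_mul]
@[simp] theorem It.d_al_Y : s.al * s.Y = 0 := by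
  rw [show s.al * s.Y = s.al * (s.u * s.Y) by rw [← mul_assoc, s.h_al_u], s.d_u_Y, mul_zero]
@[simp] theorem It.rd_al_Y (z : A) : s.al * (s.Y * z) = 0 := by rw [← mul_assoc, s.d_al_Y, zero_mul]
@[simp] theorem It.d_al_be : s.al * s.be = 0 := by
  rw [show s.al * s.be = s.al * (s.u * s.be) by rw [← mul_assoc, s.h_al_u], s.d_u_be, mul_zero]
@[simp] theorem It.rd_al_be (z : A) : s.al * (s.be * z) = 0 := by rw [← mul_assoc, s.d_al_be, zero_mul]
@[simp] theorem It.d_al_X : s.al * s.X = 0 := by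
  rw [show s.al * s.X = s.al * (s.u * s.X) by rw [← mul_assoc, s.h_al_u], s.d_u_X, mul_zero]
@[simp] theorem It.rd_al_X (z : A) : s.al * (s.X * z) = 0 := by rw [← mul_assoc, s.d_al_X, zero_mul]
@[simp] theorem It.d_al_g : s.al * s.g = 0 := by
  rw [show s.al * s.g = s.al * (s.u * s.g) by rw [← mul_assoc, s.h_al_u], s.d_u_g, mul_zero]
@[simp] theorem It.rd_al_g (z : A) : s.al * (s.g * z) = 0 := by rw [← mul_assoc, s.d_al_g, zero_mul]
@[simp] theorem It.d_al_h : s.al * s.h = 0 := by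
  rw [show s.al * s.h = s.al * (s.u * s.h) by rw [← mul_assoc, s.h_al_u], s.d_u_h, mul_zero]
@[simp] theorem It.rd_al_h (z : A) : s.al * (s.h * z) = 0 := by rw [← mul_assoc, s.d_al_h, zero_mul]
@[simp] theorem It.d_al_ni : s.al * s.n' = 0 := by
  rw [show s.al * s.n' = s.al * (s.u * s.n') by rw [← mul_assoc, s.h_al_u], s.d_u_ni, mul_zero]
@[simp] theorem It.rd_al_ni (z : A) : s.al * (s.n' * z) = 0 := by rw [← mul_assoc, s.d_al_ni, zero_mul]
@[simp] theorem It.d_al_bei : s.al * s.be' = 0 := by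
  rw [show s.al * s.be' = s.al * (s.u * s.be') by rw [← mul_assoc, s.h_al_u], s.d_u_bei, mul_zero]
@[simp] theorem It.rd_al_bei (z : A) : s.al * (s.be' * z) = 0 := by rw [← mul_assoc, s.d_al_bei, zero_mul]
@[simp] theorem It.d_al_gi : s.al * s.g' = 0 := by
  rw [show s.al * s.g' = s.al * (s.u * s.g') by rw [← mul_assoc, s.h_al_u], s.d_u_gi, mul_zero]
@[simp] theorem It.rd_al_gi (z : A) : s.al * (s.g' * z) = 0 := by rw [← mul_assoc, s.d_al_gi, zero_mul]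
@[simp] theorem It.d_al_hi : s.al * s.h' = 0 := by
  rw [show s.al * s.h' = s.al * (s.u * s.h') by rw [← mul_assoc, s.h_al_u], s.d_u_hi, mul_zero]
@[simp] theorem It.rd_al_hi (z : A) : s.al * (s.h' * z) = 0 := by rw [← mul_assoc, s.d_al_hi, zero_mul]
@[simp] theorem It.d_Y_al : s.Y * s.al = 0 := by
  rw [show s.Y * s.al = s.Y * (s.dl * s.al) by rw [← mul_assoc, s.h_Y_dl], s.d_dl_al, mul_zero]
@[simp] theorem It.rd_Y_al (z : A) : s.Y * (s.al * z) = 0 := by rw [← mul_assoc, s.d_Y_al, zero_mul]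
@[simp] theorem It.d_Y_Y : s.Y * s.Y = 0 := by
  rw [show s.Y * s.Y = s.Y * (s.dl * s.Y) by rw [← mul_assoc, s.h_Y_dl], s.d_dl_Y, mul_zero]
@[simp] theorem It.rd_Y_Y (z : A) : s.Y * (s.Y * z) = 0 := by rw [← mul_assoc, s.d_Y_Y, zero_mul]
@[simp] theorem It.d_Y_be : s.Y * s.be = 0 := by
  rw [show s.Y * s.be = s.Y * (s.dl * s.be) by rw [← mul_assoc, s.h_Y_dl], s.d_dl_be, mul_zero]
@[simp] theorem It.rd_Y_be (z : A) : s.Y * (s.be * z) = 0 := by rw [← mul_assoc, s.d_Y_be, zero_mul]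
@[simp] theorem It.d_Y_X : s.Y * s.X = 0 := by
  rw [show s.Y * s.X = s.Y * (s.dl * s.X) by rw [← mul_assoc, s.h_Y_dl], s.d_dl_X, mul_zero]
@[simp] theorem It.rd_Y_X (z : A) : s.Y * (s.X * z) = 0 := by rw [← mul_assoc, s.d_Y_X, zero_mul]
@[simp] theorem It.d_Y_g : s.Y * s.g = 0 := by
  rw [show s.Y * s.g = s.Y * (s.dl * s.g) by rw [← mul_assoc, s.h_Y_dl], s.d_dl_g, mul_zero]
@[simp] theorem It.rd_Y_g (z : A) : s.Y * (s.g * z) = 0 := by rw [← mul_assoc, s.d_Y_g, zero_mul]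
@[simp] theorem It.d_Y_h : s.Y * s.h = 0 := by
  rw [show s.Y * s.h = s.Y * (s.dl * s.h) by rw [← mul_assoc, s.h_Y_dl], s.d_dl_h, mul_zero]
@[simp] theorem It.rd_Y_h (z : A) : s.Y * (s.h * z) = 0 := by rw [← mul_assoc, s.d_Y_h, zero_mul]
@[simp] theorem It.d_Y_ni : s.Y * s.n' = 0 := by
  rw [show s.Y * s.n' = s.Y * (s.dl * s.n') by rw [← mul_assoc, s.h_Y_dl], s.d_dl_ni, mul_zero]
@[simp] theorem It.rd_Y_ni (z : A) : s.Y * (s.n' * z) = 0 := by rw [← mul_assoc, s.d_Y_ni, zero_mul]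
@[simp] theorem It.d_Y_bei : s.Y * s.be' = 0 := by
  rw [show s.Y * s.be' = s.Y * (s.dl * s.be') by rw [← mul_assoc, s.h_Y_dl], s.d_dl_bei, mul_zero]
@[simp] theorem It.rd_Y_bei (z : A) : s.Y * (s.be' * z) = 0 := by rw [← mul_assoc, s.d_Y_bei, zero_mul]
@[simp] theorem It.d_Y_gi : s.Y * s.g' = 0 := by
  rw [show s.Y * s.g' = s.Y * (s.dl * s.g') by rw [← mul_assoc, s.h_Y_dl], s.d_dl_gi, mul_zero]
@[simp] theorem It.rd_Y_gi (z : A) : s.Y * (s.g' * z) = 0 := by rw [← mul_assoc, s.d_Y_gi, zero_mul]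
@[simp] theorem It.d_Y_hi : s.Y * s.h' = 0 := by
  rw [show s.Y * s.h' = s.Y * (s.dl * s.h') by rw [← mul_assoc, s.h_Y_dl], s.d_dl_hi, mul_zero]
@[simp] theorem It.rd_Y_hi (z : A) : s.Y * (s.h' * z) = 0 := by rw [← mul_assoc, s.d_Y_hi, zero_mul]
@[simp] theorem It.d_be_a : s.be * s.a = 0 := by
  rw [show s.be * s.a = s.be * (s.v * s.a) by rw [← mul_assoc, s.h_be_v], s.d_v_a, mul_zero]
@[simp] theorem It.rd_be_a (z : A) : s.be * (s.a * z) = 0 := by rw [← mul_assoc, s.d_be_a, zero_mul]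
@[simp] theorem It.d_be_n : s.be * s.n = 0 := by
  rw [show s.be * s.n = s.be * (s.v * s.n) by rw [← mul_assoc, s.h_be_v], s.d_v_n, mul_zero]
@[simp] theorem It.rd_be_n (z : A) : s.be * (s.n * z) = 0 := by rw [← mul_assoc, s.d_be_n, zero_mul]
@[simp] theorem It.d_be_be : s.be * s.be = 0 := by
  rw [show s.be * s.be = s.be * (s.v * s.be) by rw [← mul_assoc, s.h_be_v], s.d_v_be, mul_zero]
@[simp] theorem It.rd_be_be (z : A) : s.be * (s.be * z) = 0 := by rw [← mul_assoc, s.d_be_be, zero_mul]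
@[simp] theorem It.d_be_X : s.be * s.X = 0 := by
  rw [show s.be * s.X = s.be * (s.v * s.X) by rw [← mul_assoc, s.h_be_v], s.d_v_X, mul_zero]
@[simp] theorem It.rd_be_X (z : A) : s.be * (s.X * z) = 0 := by rw [← mul_assoc, s.d_be_X, zero_mul]
@[simp] theorem It.d_be_g : s.be * s.g = 0 := by
  rw [show s.be * s.g = s.be * (s.v * s.g) by rw [← mul_assoc, s.h_be_v], s.d_v_g, mul_zero]
@[simp] theorem It.rd_be_g (z : A) : s.be * (s.g * z) = 0 := by rw [← mul_assoc, s.d_be_g, zero_mul]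
@[simp] theorem It.d_be_h : s.be * s.h = 0 := by
  rw [show s.be * s.h = s.be * (s.v * s.h) by rw [← mul_assoc, s.h_be_v], s.d_v_h, mul_zero]
@[simp] theorem It.rd_be_h (z : A) : s.be * (s.h * z) = 0 := by rw [← mul_assoc, s.d_be_h, zero_mul]
@[simp] theorem It.d_be_ai : s.be * s.a' = 0 := by
  rw [show s.be * s.a' = s.be * (s.v * s.a') by rw [← mul_assoc, s.h_be_v], s.d_v_ai, mul_zero]
@[simp] theorem It.rd_be_ai (z : A) : s.be * (s.a' * z) = 0 := by rw [← mul_assoc, s.d_be_ai, zero_mul]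
@[simp] theorem It.d_be_ali : s.be * s.al' = 0 := by
  rw [show s.be * s.al' = s.be * (s.v * s.al') by rw [← mul_assoc, s.h_be_v], s.d_v_ali, mul_zero]
@[simp] theorem It.rd_be_ali (z : A) : s.be * (s.al' * z) = 0 := by rw [← mul_assoc, s.d_be_ali, zero_mul]
@[simp] theorem It.d_be_Yi : s.be * s.Y' = 0 := by
  rw [show s.be * s.Y' = s.be * (s.v * s.Y') by rw [← mul_assoc, s.h_be_v], s.d_v_Yi, mul_zero]
@[simp] theorem It.rd_be_Yi (z : A) : s.be * (s.Y' * z) = 0 := by rw [← mul_assoc, s.d_be_Yi, zero_mul]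
@[simp] theorem It.d_be_Xi : s.be * s.X' = 0 := by
  rw [show s.be * s.X' = s.be * (s.v * s.X') by rw [← mul_assoc, s.h_be_v], s.d_v_Xi, mul_zero]
@[simp] theorem It.rd_be_Xi (z : A) : s.be * (s.X' * z) = 0 := by rw [← mul_assoc, s.d_be_Xi, zero_mul]
@[simp] theorem It.d_be_hi : s.be * s.h' = 0 := by
  rw [show s.be * s.h' = s.be * (s.v * s.h') by rw [← mul_assoc, s.h_be_v], s.d_v_hi, mul_zero]
@[simp] theorem It.rd_be_hi (z : A) : s.be * (s.h' * z) = 0 := by rw [← mul_assoc, s.d_be_hi, zero_mul]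
@[simp] theorem It.d_X_al : s.X * s.al = 0 := by
  rw [show s.X * s.al = s.X * (s.dl * s.al) by rw [← mul_assoc, s.h_X_dl], s.d_dl_al, mul_zero]
@[simp] theorem It.rd_X_al (z : A) : s.X * (s.al * z) = 0 := by rw [← mul_assoc, s.d_X_al, zero_mul]
@[simp] theorem It.d_X_Y : s.X * s.Y = 0 := by
  rw [show s.X * s.Y = s.X * (s.dl * s.Y) by rw [← mul_assoc, s.h_X_dl], s.d_dl_Y, mul_zero]
@[simp] theorem It.rd_X_Y (z : A) : s.X * (s.Y * z) = 0 := by rw [← mul_assoc, s.d_X_Y, zero_mul]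
@[simp] theorem It.d_X_be : s.X * s.be = 0 := by
  rw [show s.X * s.be = s.X * (s.dl * s.be) by rw [← mul_assoc, s.h_X_dl], s.d_dl_be, mul_zero]
@[simp] theorem It.rd_X_be (z : A) : s.X * (s.be * z) = 0 := by rw [← mul_assoc, s.d_X_be, zero_mul]
@[simp] theorem It.d_X_X : s.X * s.X = 0 := by
  rw [show s.X * s.X = s.X * (s.dl * s.X) by rw [← mul_assoc, s.h_X_dl], s.d_dl_X, mul_zero]
@[simp] theorem It.rd_X_X (z : A) : s.X * (s.X * z) = 0 := by rw [← mul_assoc, s.d_X_X, zero_mul]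
@[simp] theorem It.d_X_g : s.X * s.g = 0 := by
  rw [show s.X * s.g = s.X * (s.dl * s.g) by rw [← mul_assoc, s.h_X_dl], s.d_dl_g, mul_zero]
@[simp] theorem It.rd_X_g (z : A) : s.X * (s.g * z) = 0 := by rw [← mul_assoc, s.d_X_g, zero_mul]
@[simp] theorem It.d_X_h : s.X * s.h = 0 := by
  rw [show s.X * s.h = s.X * (s.dl * s.h) by rw [← mul_assoc, s.h_X_dl], s.d_dl_h, mul_zero]
@[simp] theorem It.rd_X_h (z : A) : s.X * (s.h * z) = 0 := by rw [← mul_assoc, s.d_X_h, zero_mul]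
@[simp] theorem It.d_X_ni : s.X * s.n' = 0 := by
  rw [show s.X * s.n' = s.X * (s.dl * s.n') by rw [← mul_assoc, s.h_X_dl], s.d_dl_ni, mul_zero]
@[simp] theorem It.rd_X_ni (z : A) : s.X * (s.n' * z) = 0 := by rw [← mul_assoc, s.d_X_ni, zero_mul]
@[simp] theorem It.d_X_bei : s.X * s.be' = 0 := by
  rw [show s.X * s.be' = s.X * (s.dl * s.be') by rw [← mul_assoc, s.h_X_dl], s.d_dl_bei, mul_zero]
@[simp] theorem It.rd_X_bei (z : A) : s.X * (s.be' * z) = 0 := by rw [← mul_assoc, s.d_X_bei, zero_mul]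
@[simp] theorem It.d_X_gi : s.X * s.g' = 0 := by
  rw [show s.X * s.g' = s.X * (s.dl * s.g') by rw [← mul_assoc, s.h_X_dl], s.d_dl_gi, mul_zero]
@[simp] theorem It.rd_X_gi (z : A) : s.X * (s.g' * z) = 0 := by rw [← mul_assoc, s.d_X_gi, zero_mul]
@[simp] theorem It.d_X_hi : s.X * s.h' = 0 := by
  rw [show s.X * s.h' = s.X * (s.dl * s.h') by rw [← mul_assoc, s.h_X_dl], s.d_dl_hi, mul_zero]
@[simp] theorem It.rd_X_hi (z : A) : s.X * (s.h' * z) = 0 := by rw [← mul_assoc, s.d_X_hi, zero_mul]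
@[simp] theorem It.d_g_a : s.g * s.a = 0 := by
  rw [show s.g * s.a = s.g * (s.v * s.a) by rw [← mul_assoc, s.h_g_v], s.d_v_a, mul_zero]
@[simp] theorem It.rd_g_a (z : A) : s.g * (s.a * z) = 0 := by rw [← mul_assoc, s.d_g_a, zero_mul]
@[simp] theorem It.d_g_n : s.g * s.n = 0 := by
  rw [show s.g * s.n = s.g * (s.v * s.n) by rw [← mul_assoc, s.h_g_v], s.d_v_n, mul_zero]
@[simp] theorem It.rd_g_n (z : A) : s.g * (s.n * z) = 0 := by rw [← mul_assoc, s.d_g_n, zero_mul]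
@[simp] theorem It.d_g_be : s.g * s.be = 0 := by
  rw [show s.g * s.be = s.g * (s.v * s.be) by rw [← mul_assoc, s.h_g_v], s.d_v_be, mul_zero]
@[simp] theorem It.rd_g_be (z : A) : s.g * (s.be * z) = 0 := by rw [← mul_assoc, s.d_g_be, zero_mul]
@[simp] theorem It.d_g_X : s.g * s.X = 0 := by
  rw [show s.g * s.X = s.g * (s.v * s.X) by rw [← mul_assoc, s.h_g_v], s.d_v_X, mul_zero]
@[simp] theorem It.rd_g_X (z : A) : s.g * (s.X * z) = 0 := by rw [← mul_assoc, s.d_g_X, zero_mul]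
@[simp] theorem It.d_g_g : s.g * s.g = 0 := by
  rw [show s.g * s.g = s.g * (s.v * s.g) by rw [← mul_assoc, s.h_g_v], s.d_v_g, mul_zero]
@[simp] theorem It.rd_g_g (z : A) : s.g * (s.g * z) = 0 := by rw [← mul_assoc, s.d_g_g, zero_mul]
@[simp] theorem It.d_g_h : s.g * s.h = 0 := by
  rw [show s.g * s.h = s.g * (s.v * s.h) by rw [← mul_assoc, s.h_g_v], s.d_v_h, mul_zero]
@[simp] theorem It.rd_g_h (z : A) : s.g * (s.h * z) = 0 := by rw [← mul_assoc, s.d_g_h, zero_mul]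
@[simp] theorem It.d_g_ai : s.g * s.a' = 0 := by
  rw [show s.g * s.a' = s.g * (s.v * s.a') by rw [← mul_assoc, s.h_g_v], s.d_v_ai, mul_zero]
@[simp] theorem It.rd_g_ai (z : A) : s.g * (s.a' * z) = 0 := by rw [← mul_assoc, s.d_g_ai, zero_mul]
@[simp] theorem It.d_g_ali : s.g * s.al' = 0 := by
  rw [show s.g * s.al' = s.g * (s.v * s.al') by rw [← mul_assoc, s.h_g_v], s.d_v_ali, mul_zero]
@[simp] theorem It.rd_g_ali (z : A) : s.g * (s.al' * z) = 0 := by rw [← mul_assoc, s.d_g_ali, zero_mul]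
@[simp] theorem It.d_g_Yi : s.g * s.Y' = 0 := by
  rw [show s.g * s.Y' = s.g * (s.v * s.Y') by rw [← mul_assoc, s.h_g_v], s.d_v_Yi, mul_zero]
@[simp] theorem It.rd_g_Yi (z : A) : s.g * (s.Y' * z) = 0 := by rw [← mul_assoc, s.d_g_Yi, zero_mul]
@[simp] theorem It.d_g_Xi : s.g * s.X' = 0 := by
  rw [show s.g * s.X' = s.g * (s.v * s.X') by rw [← mul_assoc, s.h_g_v], s.d_v_Xi, mul_zero]
@[simp] theorem It.rd_g_Xi (z : A) : s.g * (s.X' * z) = 0 := by rw [← mul_assoc, s.d_g_Xi, zero_mul]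
@[simp] theorem It.d_g_hi : s.g * s.h' = 0 := by
  rw [show s.g * s.h' = s.g * (s.v * s.h') by rw [← mul_assoc, s.h_g_v], s.d_v_hi, mul_zero]
@[simp] theorem It.rd_g_hi (z : A) : s.g * (s.h' * z) = 0 := by rw [← mul_assoc, s.d_g_hi, zero_mul]
@[simp] theorem It.d_h_a : s.h * s.a = 0 := by
  rw [show s.h * s.a = s.h * (s.q * s.a) by rw [← mul_assoc, s.h_h_q], s.d_q_a, mul_zero]
@[simp] theorem It.rd_h_a (z : A) : s.h * (s.a * z) = 0 := by rw [← mul_assoc, s.d_h_a, zero_mul]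
@[simp] theorem It.d_h_n : s.h * s.n = 0 := by
  rw [show s.h * s.n = s.h * (s.q * s.n) by rw [← mul_assoc, s.h_h_q], s.d_q_n, mul_zero]
@[simp] theorem It.rd_h_n (z : A) : s.h * (s.n * z) = 0 := by rw [← mul_assoc, s.d_h_n, zero_mul]
@[simp] theorem It.d_h_al : s.h * s.al = 0 := by
  rw [show s.h * s.al = s.h * (s.q * s.al) by rw [← mul_assoc, s.h_h_q], s.d_q_al, mul_zero]
@[simp] theorem It.rd_h_al (z : A) : s.h * (s.al * z) = 0 := by rw [← mul_assoc, s.d_h_al, zero_mul]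
@[simp] theorem It.d_h_Y : s.h * s.Y = 0 := by
  rw [show s.h * s.Y = s.h * (s.q * s.Y) by rw [← mul_assoc, s.h_h_q], s.d_q_Y, mul_zero]
@[simp] theorem It.rd_h_Y (z : A) : s.h * (s.Y * z) = 0 := by rw [← mul_assoc, s.d_h_Y, zero_mul]
@[simp] theorem It.d_h_ai : s.h * s.a' = 0 := by
  rw [show s.h * s.a' = s.h * (s.q * s.a') by rw [← mul_assoc, s.h_h_q], s.d_q_ai, mul_zero]
@[simp] theorem It.rd_h_ai (z : A) : s.h * (s.a' * z) = 0 := by rw [← mul_assoc, s.d_h_ai, zero_mul]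
@[simp] theorem It.d_h_ni : s.h * s.n' = 0 := by
  rw [show s.h * s.n' = s.h * (s.q * s.n') by rw [← mul_assoc, s.h_h_q], s.d_q_ni, mul_zero]
@[simp] theorem It.rd_h_ni (z : A) : s.h * (s.n' * z) = 0 := by rw [← mul_assoc, s.d_h_ni, zero_mul]
@[simp] theorem It.d_h_ali : s.h * s.al' = 0 := by
  rw [show s.h * s.al' = s.h * (s.q * s.al') by rw [← mul_assoc, s.h_h_q], s.d_q_ali, mul_zero]
@[simp] theorem It.rd_h_ali (z : A) : s.h * (s.al' * z) = 0 := by rw [← mul_assoc, s.d_h_ali, zero_mul]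
@[simp] theorem It.d_h_Yi : s.h * s.Y' = 0 := by
  rw [show s.h * s.Y' = s.h * (s.q * s.Y') by rw [← mul_assoc, s.h_h_q], s.d_q_Yi, mul_zero]
@[simp] theorem It.rd_h_Yi (z : A) : s.h * (s.Y' * z) = 0 := by rw [← mul_assoc, s.d_h_Yi, zero_mul]
@[simp] theorem It.d_h_bei : s.h * s.be' = 0 := by
  rw [show s.h * s.be' = s.h * (s.q * s.be') by rw [← mul_assoc, s.h_h_q], s.d_q_bei, mul_zero]
@[simp] theorem It.rd_h_bei (z : A) : s.h * (s.be' * z) = 0 := by rw [← mul_assoc, s.d_h_bei, zero_mul]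
@[simp] theorem It.d_h_Xi : s.h * s.X' = 0 := by
  rw [show s.h * s.X' = s.h * (s.q * s.X') by rw [← mul_assoc, s.h_h_q], s.d_q_Xi, mul_zero]
@[simp] theorem It.rd_h_Xi (z : A) : s.h * (s.X' * z) = 0 := by rw [← mul_assoc, s.d_h_Xi, zero_mul]
@[simp] theorem It.d_h_gi : s.h * s.g' = 0 := by
  rw [show s.h * s.g' = s.h * (s.q * s.g') by rw [← mul_assoc, s.h_h_q], s.d_q_gi, mul_zero]
@[simp] theorem It.rd_h_gi (z : A) : s.h * (s.g' * z) = 0 := by rw [← mul_assoc, s.d_h_gi, zero_mul]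
@[simp] theorem It.d_ai_al : s.a' * s.al = 0 := by
  rw [show s.a' * s.al = s.a' * (s.u * s.al) by rw [← mul_assoc, s.h_ai_u], s.d_u_al, mul_zero]
@[simp] theorem It.rd_ai_al (z : A) : s.a' * (s.al * z) = 0 := by rw [← mul_assoc, s.d_ai_al, zero_mul]
@[simp] theorem It.d_ai_Y : s.a' * s.Y = 0 := by
  rw [show s.a' * s.Y = s.a' * (s.u * s.Y) by rw [← mul_assoc, s.h_ai_u], s.d_u_Y, mul_zero]
@[simp] theorem It.rd_ai_Y (z : A) : s.a' * (s.Y * z) = 0 := by rw [← mul_assoc, s.d_ai_Y, zero_mul]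
@[simp] theorem It.d_ai_be : s.a' * s.be = 0 := by
  rw [show s.a' * s.be = s.a' * (s.u * s.be) by rw [← mul_assoc, s.h_ai_u], s.d_u_be, mul_zero]
@[simp] theorem It.rd_ai_be (z : A) : s.a' * (s.be * z) = 0 := by rw [← mul_assoc, s.d_ai_be, zero_mul]
@[simp] theorem It.d_ai_X : s.a' * s.X = 0 := by
  rw [show s.a' * s.X = s.a' * (s.u * s.X) by rw [← mul_assoc, s.h_ai_u], s.d_u_X, mul_zero]
@[simp] theorem It.rd_ai_X (z : A) : s.a' * (s.X * z) = 0 := by rw [← mul_assoc, s.d_ai_X, zero_mul]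
@[simp] theorem It.d_ai_g : s.a' * s.g = 0 := by
  rw [show s.a' * s.g = s.a' * (s.u * s.g) by rw [← mul_assoc, s.h_ai_u], s.d_u_g, mul_zero]
@[simp] theorem It.rd_ai_g (z : A) : s.a' * (s.g * z) = 0 := by rw [← mul_assoc, s.d_ai_g, zero_mul]
@[simp] theorem It.d_ai_h : s.a' * s.h = 0 := by
  rw [show s.a' * s.h = s.a' * (s.u * s.h) by rw [← mul_assoc, s.h_ai_u], s.d_u_h, mul_zero]
@[simp] theorem It.rd_ai_h (z : A) : s.a' * (s.h * z) = 0 := by rw [← mul_assoc, s.d_ai_h, zero_mul]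
@[simp] theorem It.d_ai_ni : s.a' * s.n' = 0 := by
  rw [show s.a' * s.n' = s.a' * (s.u * s.n') by rw [← mul_assoc, s.h_ai_u], s.d_u_ni, mul_zero]
@[simp] theorem It.rd_ai_ni (z : A) : s.a' * (s.n' * z) = 0 := by rw [← mul_assoc, s.d_ai_ni, zero_mul]
@[simp] theorem It.d_ai_bei : s.a' * s.be' = 0 := by
  rw [show s.a' * s.be' = s.a' * (s.u * s.be') by rw [← mul_assoc, s.h_ai_u], s.d_u_bei, mul_zero]
@[simp] theorem It.rd_ai_bei (z : A) : s.a' * (s.be' * z) = 0 := by rw [← mul_assoc, s.d_ai_bei, zero_mul]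
@[simp] theorem It.d_ai_gi : s.a' * s.g' = 0 := by
  rw [show s.a' * s.g' = s.a' * (s.u * s.g') by rw [← mul_assoc, s.h_ai_u], s.d_u_gi, mul_zero]
@[simp] theorem It.rd_ai_gi (z : A) : s.a' * (s.g' * z) = 0 := by rw [← mul_assoc, s.d_ai_gi, zero_mul]
@[simp] theorem It.d_ai_hi : s.a' * s.h' = 0 := by
  rw [show s.a' * s.h' = s.a' * (s.u * s.h') by rw [← mul_assoc, s.h_ai_u], s.d_u_hi, mul_zero]
@[simp] theorem It.rd_ai_hi (z : A) : s.a' * (s.h' * z) = 0 := by rw [← mul_assoc, s.d_ai_hi, zero_mul]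
@[simp] theorem It.d_ni_al : s.n' * s.al = 0 := by
  rw [show s.n' * s.al = s.n' * (s.u * s.al) by rw [← mul_assoc, s.h_ni_u], s.d_u_al, mul_zero]
@[simp] theorem It.rd_ni_al (z : A) : s.n' * (s.al * z) = 0 := by rw [← mul_assoc, s.d_ni_al, zero_mul]
@[simp] theorem It.d_ni_Y : s.n' * s.Y = 0 := by
  rw [show s.n' * s.Y = s.n' * (s.u * s.Y) by rw [← mul_assoc, s.h_ni_u], s.d_u_Y, mul_zero]
@[simp] theorem It.rd_ni_Y (z : A) : s.n' * (s.Y * z) = 0 := by rw [← mul_assoc, s.d_ni_Y, zero_mul]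
@[simp] theorem It.d_ni_be : s.n' * s.be = 0 := by
  rw [show s.n' * s.be = s.n' * (s.u * s.be) by rw [← mul_assoc, s.h_ni_u], s.d_u_be, mul_zero]
@[simp] theorem It.rd_ni_be (z : A) : s.n' * (s.be * z) = 0 := by rw [← mul_assoc, s.d_ni_be, zero_mul]
@[simp] theorem It.d_ni_X : s.n' * s.X = 0 := by
  rw [show s.n' * s.X = s.n' * (s.u * s.X) by rw [← mul_assoc, s.h_ni_u], s.d_u_X, mul_zero]
@[simp] theorem It.rd_ni_X (z : A) : s.n' * (s.X * z) = 0 := by rw [← mul_assoc, s.d_ni_X, zero_mul]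
@[simp] theorem It.d_ni_g : s.n' * s.g = 0 := by
  rw [show s.n' * s.g = s.n' * (s.u * s.g) by rw [← mul_assoc, s.h_ni_u], s.d_u_g, mul_zero]
@[simp] theorem It.rd_ni_g (z : A) : s.n' * (s.g * z) = 0 := by rw [← mul_assoc, s.d_ni_g, zero_mul]
@[simp] theorem It.d_ni_h : s.n' * s.h = 0 := by
  rw [show s.n' * s.h = s.n' * (s.u * s.h) by rw [← mul_assoc, s.h_ni_u], s.d_u_h, mul_zero]
@[simp] theorem It.rd_ni_h (z : A) : s.n' * (s.h * z) = 0 := by rw [← mul_assoc, s.d_ni_h, zero_mul]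
@[simp] theorem It.d_ni_ni : s.n' * s.n' = 0 := by
  rw [show s.n' * s.n' = s.n' * (s.u * s.n') by rw [← mul_assoc, s.h_ni_u], s.d_u_ni, mul_zero]
@[simp] theorem It.rd_ni_ni (z : A) : s.n' * (s.n' * z) = 0 := by rw [← mul_assoc, s.d_ni_ni, zero_mul]
@[simp] theorem It.d_ni_bei : s.n' * s.be' = 0 := by
  rw [show s.n' * s.be' = s.n' * (s.u * s.be') by rw [← mul_assoc, s.h_ni_u], s.d_u_bei, mul_zero]
@[simp] theorem It.rd_ni_bei (z : A) : s.n' * (s.be' * z) = 0 := by rw [← mul_assoc, s.d_ni_bei, zero_mul]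
@[simp] theorem It.d_ni_gi : s.n' * s.g' = 0 := by
  rw [show s.n' * s.g' = s.n' * (s.u * s.g') by rw [← mul_assoc, s.h_ni_u], s.d_u_gi, mul_zero]
@[simp] theorem It.rd_ni_gi (z : A) : s.n' * (s.g' * z) = 0 := by rw [← mul_assoc, s.d_ni_gi, zero_mul]
@[simp] theorem It.d_ni_hi : s.n' * s.h' = 0 := by
  rw [show s.n' * s.h' = s.n' * (s.u * s.h') by rw [← mul_assoc, s.h_ni_u], s.d_u_hi, mul_zero]
@[simp] theorem It.rd_ni_hi (z : A) : s.n' * (s.h' * z) = 0 := by rw [← mul_assoc, s.d_ni_hi, zero_mul]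
@[simp] theorem It.d_ali_a : s.al' * s.a = 0 := by
  rw [show s.al' * s.a = s.al' * (s.v * s.a) by rw [← mul_assoc, s.h_ali_v], s.d_v_a, mul_zero]
@[simp] theorem It.rd_ali_a (z : A) : s.al' * (s.a * z) = 0 := by rw [← mul_assoc, s.d_ali_a, zero_mul]
@[simp] theorem It.d_ali_n : s.al' * s.n = 0 := by
  rw [show s.al' * s.n = s.al' * (s.v * s.n) by rw [← mul_assoc, s.h_ali_v], s.d_v_n, mul_zero]
@[simp] theorem It.rd_ali_n (z : A) : s.al' * (s.n * z) = 0 := by rw [← mul_assoc, s.d_ali_n, zero_mul]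
@[simp] theorem It.d_ali_be : s.al' * s.be = 0 := by
  rw [show s.al' * s.be = s.al' * (s.v * s.be) by rw [← mul_assoc, s.h_ali_v], s.d_v_be, mul_zero]
@[simp] theorem It.rd_ali_be (z : A) : s.al' * (s.be * z) = 0 := by rw [← mul_assoc, s.d_ali_be, zero_mul]
@[simp] theorem It.d_ali_X : s.al' * s.X = 0 := by
  rw [show s.al' * s.X = s.al' * (s.v * s.X) by rw [← mul_assoc, s.h_ali_v], s.d_v_X, mul_zero]
@[simp] theorem It.rd_ali_X (z : A) : s.al' * (s.X * z) = 0 := by rw [← mul_assoc, s.d_ali_X, zero_mul]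
@[simp] theorem It.d_ali_g : s.al' * s.g = 0 := by
  rw [show s.al' * s.g = s.al' * (s.v * s.g) by rw [← mul_assoc, s.h_ali_v], s.d_v_g, mul_zero]
@[simp] theorem It.rd_ali_g (z : A) : s.al' * (s.g * z) = 0 := by rw [← mul_assoc, s.d_ali_g, zero_mul]
@[simp] theorem It.d_ali_h : s.al' * s.h = 0 := by
  rw [show s.al' * s.h = s.al' * (s.v * s.h) by rw [← mul_assoc, s.h_ali_v], s.d_v_h, mul_zero]
@[simp] theorem It.rd_ali_h (z : A) : s.al' * (s.h * z) = 0 := by rw [← mul_assoc, s.d_ali_h, zero_mul]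
@[simp] theorem It.d_ali_ai : s.al' * s.a' = 0 := by
  rw [show s.al' * s.a' = s.al' * (s.v * s.a') by rw [← mul_assoc, s.h_ali_v], s.d_v_ai, mul_zero]
@[simp] theorem It.rd_ali_ai (z : A) : s.al' * (s.a' * z) = 0 := by rw [← mul_assoc, s.d_ali_ai, zero_mul]
@[simp] theorem It.d_ali_ali : s.al' * s.al' = 0 := by
  rw [show s.al' * s.al' = s.al' * (s.v * s.al') by rw [← mul_assoc, s.h_ali_v], s.d_v_ali, mul_zero]
@[simp] theorem It.rd_ali_ali (z : A) : s.al' * (s.al' * z) = 0 := by rw [← mul_assoc, s.d_ali_ali, zero_mul]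
@[simp] theorem It.d_ali_Yi : s.al' * s.Y' = 0 := by
  rw [show s.al' * s.Y' = s.al' * (s.v * s.Y') by rw [← mul_assoc, s.h_ali_v], s.d_v_Yi, mul_zero]
@[simp] theorem It.rd_ali_Yi (z : A) : s.al' * (s.Y' * z) = 0 := by rw [← mul_assoc, s.d_ali_Yi, zero_mul]
@[simp] theorem It.d_ali_Xi : s.al' * s.X' = 0 := by
  rw [show s.al' * s.X' = s.al' * (s.v * s.X') by rw [← mul_assoc, s.h_ali_v], s.d_v_Xi, mul_zero]
@[simp] theorem It.rd_ali_Xi (z : A) : s.al' * (s.X' * z) = 0 := by rw [← mul_assoc, s.d_ali_Xi, zero_mul]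
@[simp] theorem It.d_ali_hi : s.al' * s.h' = 0 := by
  rw [show s.al' * s.h' = s.al' * (s.v * s.h') by rw [← mul_assoc, s.h_ali_v], s.d_v_hi, mul_zero]
@[simp] theorem It.rd_ali_hi (z : A) : s.al' * (s.h' * z) = 0 := by rw [← mul_assoc, s.d_ali_hi, zero_mul]
@[simp] theorem It.d_Yi_a : s.Y' * s.a = 0 := by
  rw [show s.Y' * s.a = s.Y' * (s.v * s.a) by rw [← mul_assoc, s.h_Yi_v], s.d_v_a, mul_zero]
@[simp] theorem It.rd_Yi_a (z : A) : s.Y' * (s.a * z) = 0 := by rw [← mul_assoc, s.d_Yi_a, zero_mul]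
@[simp] theorem It.d_Yi_n : s.Y' * s.n = 0 := by
  rw [show s.Y' * s.n = s.Y' * (s.v * s.n) by rw [← mul_assoc, s.h_Yi_v], s.d_v_n, mul_zero]
@[simp] theorem It.rd_Yi_n (z : A) : s.Y' * (s.n * z) = 0 := by rw [← mul_assoc, s.d_Yi_n, zero_mul]
@[simp] theorem It.d_Yi_be : s.Y' * s.be = 0 := by
  rw [show s.Y' * s.be = s.Y' * (s.v * s.be) by rw [← mul_assoc, s.h_Yi_v], s.d_v_be, mul_zero]
@[simp] theorem It.rd_Yi_be (z : A) : s.Y' * (s.be * z) = 0 := by rw [← mul_assoc, s.d_Yi_be, zero_mul]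
@[simp] theorem It.d_Yi_X : s.Y' * s.X = 0 := by
  rw [show s.Y' * s.X = s.Y' * (s.v * s.X) by rw [← mul_assoc, s.h_Yi_v], s.d_v_X, mul_zero]
@[simp] theorem It.rd_Yi_X (z : A) : s.Y' * (s.X * z) = 0 := by rw [← mul_assoc, s.d_Yi_X, zero_mul]
@[simp] theorem It.d_Yi_g : s.Y' * s.g = 0 := by
  rw [show s.Y' * s.g = s.Y' * (s.v * s.g) by rw [← mul_assoc, s.h_Yi_v], s.d_v_g, mul_zero]
@[simp] theorem It.rd_Yi_g (z : A) : s.Y' * (s.g * z) = 0 := by rw [← mul_assoc, s.d_Yi_g, zero_mul]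
@[simp] theorem It.d_Yi_h : s.Y' * s.h = 0 := by
  rw [show s.Y' * s.h = s.Y' * (s.v * s.h) by rw [← mul_assoc, s.h_Yi_v], s.d_v_h, mul_zero]
@[simp] theorem It.rd_Yi_h (z : A) : s.Y' * (s.h * z) = 0 := by rw [← mul_assoc, s.d_Yi_h, zero_mul]
@[simp] theorem It.d_Yi_ai : s.Y' * s.a' = 0 := by
  rw [show s.Y' * s.a' = s.Y' * (s.v * s.a') by rw [← mul_assoc, s.h_Yi_v], s.d_v_ai, mul_zero]
@[simp] theorem It.rd_Yi_ai (z : A) : s.Y' * (s.a' * z) = 0 := by rw [← mul_assoc, s.d_Yi_ai, zero_mul]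
@[simp] theorem It.d_Yi_ali : s.Y' * s.al' = 0 := by
  rw [show s.Y' * s.al' = s.Y' * (s.v * s.al') by rw [← mul_assoc, s.h_Yi_v], s.d_v_ali, mul_zero]
@[simp] theorem It.rd_Yi_ali (z : A) : s.Y' * (s.al' * z) = 0 := by rw [← mul_assoc, s.d_Yi_ali, zero_mul]
@[simp] theorem It.d_Yi_Yi : s.Y' * s.Y' = 0 := by
  rw [show s.Y' * s.Y' = s.Y' * (s.v * s.Y') by rw [← mul_assoc, s.h_Yi_v], s.d_v_Yi, mul_zero]
@[simp] theorem It.rd_Yi_Yi (z : A) : s.Y' * (s.Y' * z) = 0 := by rw [← mul_assoc, s.d_Yi_Yi, zero_mul]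
@[simp] theorem It.d_Yi_Xi : s.Y' * s.X' = 0 := by
  rw [show s.Y' * s.X' = s.Y' * (s.v * s.X') by rw [← mul_assoc, s.h_Yi_v], s.d_v_Xi, mul_zero]
@[simp] theorem It.rd_Yi_Xi (z : A) : s.Y' * (s.X' * z) = 0 := by rw [← mul_assoc, s.d_Yi_Xi, zero_mul]
@[simp] theorem It.d_Yi_hi : s.Y' * s.h' = 0 := by
  rw [show s.Y' * s.h' = s.Y' * (s.v * s.h') by rw [← mul_assoc, s.h_Yi_v], s.d_v_hi, mul_zero]
@[simp] theorem It.rd_Yi_hi (z : A) : s.Y' * (s.h' * z) = 0 := by rw [← mul_assoc, s.d_Yi_hi, zero_mul]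
@[simp] theorem It.d_bei_a : s.be' * s.a = 0 := by
  rw [show s.be' * s.a = s.be' * (s.q * s.a) by rw [← mul_assoc, s.h_bei_q], s.d_q_a, mul_zero]
@[simp] theorem It.rd_bei_a (z : A) : s.be' * (s.a * z) = 0 := by rw [← mul_assoc, s.d_bei_a, zero_mul]
@[simp] theorem It.d_bei_n : s.be' * s.n = 0 := by
  rw [show s.be' * s.n = s.be' * (s.q * s.n) by rw [← mul_assoc, s.h_bei_q], s.d_q_n, mul_zero]
@[simp] theorem It.rd_bei_n (z : A) : s.be' * (s.n * z) = 0 := by rw [← mul_assoc, s.d_bei_n, zero_mul]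
@[simp] theorem It.d_bei_al : s.be' * s.al = 0 := by
  rw [show s.be' * s.al = s.be' * (s.q * s.al) by rw [← mul_assoc, s.h_bei_q], s.d_q_al, mul_zero]
@[simp] theorem It.rd_bei_al (z : A) : s.be' * (s.al * z) = 0 := by rw [← mul_assoc, s.d_bei_al, zero_mul]
@[simp] theorem It.d_bei_Y : s.be' * s.Y = 0 := by
  rw [show s.be' * s.Y = s.be' * (s.q * s.Y) by rw [← mul_assoc, s.h_bei_q], s.d_q_Y, mul_zero]
@[simp] theorem It.rd_bei_Y (z : A) : s.be' * (s.Y * z) = 0 := by rw [← mul_assoc, s.d_bei_Y, zero_mul]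
@[simp] theorem It.d_bei_ai : s.be' * s.a' = 0 := by
  rw [show s.be' * s.a' = s.be' * (s.q * s.a') by rw [← mul_assoc, s.h_bei_q], s.d_q_ai, mul_zero]
@[simp] theorem It.rd_bei_ai (z : A) : s.be' * (s.a' * z) = 0 := by rw [← mul_assoc, s.d_bei_ai, zero_mul]
@[simp] theorem It.d_bei_ni : s.be' * s.n' = 0 := by
  rw [show s.be' * s.n' = s.be' * (s.q * s.n') by rw [← mul_assoc, s.h_bei_q], s.d_q_ni, mul_zero]
@[simp] theorem It.rd_bei_ni (z : A) : s.be' * (s.n' * z) = 0 := by rw [← mul_assoc, s.d_bei_ni, zero_mul]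
@[simp] theorem It.d_bei_ali : s.be' * s.al' = 0 := by
  rw [show s.be' * s.al' = s.be' * (s.q * s.al') by rw [← mul_assoc, s.h_bei_q], s.d_q_ali, mul_zero]
@[simp] theorem It.rd_bei_ali (z : A) : s.be' * (s.al' * z) = 0 := by rw [← mul_assoc, s.d_bei_ali, zero_mul]
@[simp] theorem It.d_bei_Yi : s.be' * s.Y' = 0 := by
  rw [show s.be' * s.Y' = s.be' * (s.q * s.Y') by rw [← mul_assoc, s.h_bei_q], s.d_q_Yi, mul_zero]
@[simp] theorem It.rd_bei_Yi (z : A) : s.be' * (s.Y' * z) = 0 := by rw [← mul_assoc, s.d_bei_Yi, zero_mul]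
@[simp] theorem It.d_bei_bei : s.be' * s.be' = 0 := by
  rw [show s.be' * s.be' = s.be' * (s.q * s.be') by rw [← mul_assoc, s.h_bei_q], s.d_q_bei, mul_zero]
@[simp] theorem It.rd_bei_bei (z : A) : s.be' * (s.be' * z) = 0 := by rw [← mul_assoc, s.d_bei_bei, zero_mul]
@[simp] theorem It.d_bei_Xi : s.be' * s.X' = 0 := by
  rw [show s.be' * s.X' = s.be' * (s.q * s.X') by rw [← mul_assoc, s.h_bei_q], s.d_q_Xi, mul_zero]
@[simp] theorem It.rd_bei_Xi (z : A) : s.be' * (s.X' * z) = 0 := by rw [← mul_assoc, s.d_bei_Xi, zero_mul]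
@[simp] theorem It.d_bei_gi : s.be' * s.g' = 0 := by
  rw [show s.be' * s.g' = s.be' * (s.q * s.g') by rw [← mul_assoc, s.h_bei_q], s.d_q_gi, mul_zero]
@[simp] theorem It.rd_bei_gi (z : A) : s.be' * (s.g' * z) = 0 := by rw [← mul_assoc, s.d_bei_gi, zero_mul]
@[simp] theorem It.d_Xi_a : s.X' * s.a = 0 := by
  rw [show s.X' * s.a = s.X' * (s.q * s.a) by rw [← mul_assoc, s.h_Xi_q], s.d_q_a, mul_zero]
@[simp] theorem It.rd_Xi_a (z : A) : s.X' * (s.a * z) = 0 := by rw [← mul_assoc, s.d_Xi_a, zero_mul]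
@[simp] theorem It.d_Xi_n : s.X' * s.n = 0 := by
  rw [show s.X' * s.n = s.X' * (s.q * s.n) by rw [← mul_assoc, s.h_Xi_q], s.d_q_n, mul_zero]
@[simp] theorem It.rd_Xi_n (z : A) : s.X' * (s.n * z) = 0 := by rw [← mul_assoc, s.d_Xi_n, zero_mul]
@[simp] theorem It.d_Xi_al : s.X' * s.al = 0 := by
  rw [show s.X' * s.al = s.X' * (s.q * s.al) by rw [← mul_assoc, s.h_Xi_q], s.d_q_al, mul_zero]
@[simp] theorem It.rd_Xi_al (z : A) : s.X' * (s.al * z) = 0 := by rw [← mul_assoc, s.d_Xi_al, zero_mul]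
@[simp] theorem It.d_Xi_Y : s.X' * s.Y = 0 := by
  rw [show s.X' * s.Y = s.X' * (s.q * s.Y) by rw [← mul_assoc, s.h_Xi_q], s.d_q_Y, mul_zero]
@[simp] theorem It.rd_Xi_Y (z : A) : s.X' * (s.Y * z) = 0 := by rw [← mul_assoc, s.d_Xi_Y, zero_mul]
@[simp] theorem It.d_Xi_ai : s.X' * s.a' = 0 := by
  rw [show s.X' * s.a' = s.X' * (s.q * s.a') by rw [← mul_assoc, s.h_Xi_q], s.d_q_ai, mul_zero]
@[simp] theorem It.rd_Xi_ai (z : A) : s.X' * (s.a' * z) = 0 := by rw [← mul_assoc, s.d_Xi_ai, zero_mul]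
@[simp] theorem It.d_Xi_ni : s.X' * s.n' = 0 := by
  rw [show s.X' * s.n' = s.X' * (s.q * s.n') by rw [← mul_assoc, s.h_Xi_q], s.d_q_ni, mul_zero]
@[simp] theorem It.rd_Xi_ni (z : A) : s.X' * (s.n' * z) = 0 := by rw [← mul_assoc, s.d_Xi_ni, zero_mul]
@[simp] theorem It.d_Xi_ali : s.X' * s.al' = 0 := by
  rw [show s.X' * s.al' = s.X' * (s.q * s.al') by rw [← mul_assoc, s.h_Xi_q], s.d_q_ali, mul_zero]
@[simp] theorem It.rd_Xi_ali (z : A) : s.X' * (s.al' * z) = 0 := by rw [← mul_assoc, s.d_Xi_ali, zero_mul]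
@[simp] theorem It.d_Xi_Yi : s.X' * s.Y' = 0 := by
  rw [show s.X' * s.Y' = s.X' * (s.q * s.Y') by rw [← mul_assoc, s.h_Xi_q], s.d_q_Yi, mul_zero]
@[simp] theorem It.rd_Xi_Yi (z : A) : s.X' * (s.Y' * z) = 0 := by rw [← mul_assoc, s.d_Xi_Yi, zero_mul]
@[simp] theorem It.d_Xi_bei : s.X' * s.be' = 0 := by
  rw [show s.X' * s.be' = s.X' * (s.q * s.be') by rw [← mul_assoc, s.h_Xi_q], s.d_q_bei, mul_zero]
@[simp] theorem It.rd_Xi_bei (z : A) : s.X' * (s.be' * z) = 0 := by rw [← mul_assoc, s.d_Xi_bei, zero_mul]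
@[simp] theorem It.d_Xi_Xi : s.X' * s.X' = 0 := by
  rw [show s.X' * s.X' = s.X' * (s.q * s.X') by rw [← mul_assoc, s.h_Xi_q], s.d_q_Xi, mul_zero]
@[simp] theorem It.rd_Xi_Xi (z : A) : s.X' * (s.X' * z) = 0 := by rw [← mul_assoc, s.d_Xi_Xi, zero_mul]
@[simp] theorem It.d_Xi_gi : s.X' * s.g' = 0 := by
  rw [show s.X' * s.g' = s.X' * (s.q * s.g') by rw [← mul_assoc, s.h_Xi_q], s.d_q_gi, mul_zero]
@[simp] theorem It.rd_Xi_gi (z : A) : s.X' * (s.g' * z) = 0 := by rw [← mul_assoc, s.d_Xi_gi, zero_mul]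
@[simp] theorem It.d_gi_a : s.g' * s.a = 0 := by
  rw [show s.g' * s.a = s.g' * (s.q * s.a) by rw [← mul_assoc, s.h_gi_q], s.d_q_a, mul_zero]
@[simp] theorem It.rd_gi_a (z : A) : s.g' * (s.a * z) = 0 := by rw [← mul_assoc, s.d_gi_a, zero_mul]
@[simp] theorem It.d_gi_n : s.g' * s.n = 0 := by
  rw [show s.g' * s.n = s.g' * (s.q * s.n) by rw [← mul_assoc, s.h_gi_q], s.d_q_n, mul_zero]
@[simp] theorem It.rd_gi_n (z : A) : s.g' * (s.n * z) = 0 := by rw [← mul_assoc, s.d_gi_n, zero_mul]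
@[simp] theorem It.d_gi_al : s.g' * s.al = 0 := by
  rw [show s.g' * s.al = s.g' * (s.q * s.al) by rw [← mul_assoc, s.h_gi_q], s.d_q_al, mul_zero]
@[simp] theorem It.rd_gi_al (z : A) : s.g' * (s.al * z) = 0 := by rw [← mul_assoc, s.d_gi_al, zero_mul]
@[simp] theorem It.d_gi_Y : s.g' * s.Y = 0 := by
  rw [show s.g' * s.Y = s.g' * (s.q * s.Y) by rw [← mul_assoc, s.h_gi_q], s.d_q_Y, mul_zero]
@[simp] theorem It.rd_gi_Y (z : A) : s.g' * (s.Y * z) = 0 := by rw [← mul_assoc, s.d_gi_Y, zero_mul]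
@[simp] theorem It.d_gi_ai : s.g' * s.a' = 0 := by
  rw [show s.g' * s.a' = s.g' * (s.q * s.a') by rw [← mul_assoc, s.h_gi_q], s.d_q_ai, mul_zero]
@[simp] theorem It.rd_gi_ai (z : A) : s.g' * (s.a' * z) = 0 := by rw [← mul_assoc, s.d_gi_ai, zero_mul]
@[simp] theorem It.d_gi_ni : s.g' * s.n' = 0 := by
  rw [show s.g' * s.n' = s.g' * (s.q * s.n') by rw [← mul_assoc, s.h_gi_q], s.d_q_ni, mul_zero]
@[simp] theorem It.rd_gi_ni (z : A) : s.g' * (s.n' * z) = 0 := by rw [← mul_assoc, s.d_gi_ni, zero_mul]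
@[simp] theorem It.d_gi_ali : s.g' * s.al' = 0 := by
  rw [show s.g' * s.al' = s.g' * (s.q * s.al') by rw [← mul_assoc, s.h_gi_q], s.d_q_ali, mul_zero]
@[simp] theorem It.rd_gi_ali (z : A) : s.g' * (s.al' * z) = 0 := by rw [← mul_assoc, s.d_gi_ali, zero_mul]
@[simp] theorem It.d_gi_Yi : s.g' * s.Y' = 0 := by
  rw [show s.g' * s.Y' = s.g' * (s.q * s.Y') by rw [← mul_assoc, s.h_gi_q], s.d_q_Yi, mul_zero]
@[simp] theorem It.rd_gi_Yi (z : A) : s.g' * (s.Y' * z) = 0 := by rw [← mul_assoc, s.d_gi_Yi, zero_mul]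
@[simp] theorem It.d_gi_bei : s.g' * s.be' = 0 := by
  rw [show s.g' * s.be' = s.g' * (s.q * s.be') by rw [← mul_assoc, s.h_gi_q], s.d_q_bei, mul_zero]
@[simp] theorem It.rd_gi_bei (z : A) : s.g' * (s.be' * z) = 0 := by rw [← mul_assoc, s.d_gi_bei, zero_mul]
@[simp] theorem It.d_gi_Xi : s.g' * s.X' = 0 := by
  rw [show s.g' * s.X' = s.g' * (s.q * s.X') by rw [← mul_assoc, s.h_gi_q], s.d_q_Xi, mul_zero]
@[simp] theorem It.rd_gi_Xi (z : A) : s.g' * (s.X' * z) = 0 := by rw [← mul_assoc, s.d_gi_Xi, zero_mul]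
@[simp] theorem It.d_gi_gi : s.g' * s.g' = 0 := by
  rw [show s.g' * s.g' = s.g' * (s.q * s.g') by rw [← mul_assoc, s.h_gi_q], s.d_q_gi, mul_zero]
@[simp] theorem It.rd_gi_gi (z : A) : s.g' * (s.g' * z) = 0 := by rw [← mul_assoc, s.d_gi_gi, zero_mul]
@[simp] theorem It.d_hi_a : s.h' * s.a = 0 := by
  rw [show s.h' * s.a = s.h' * (s.q * s.a) by rw [← mul_assoc, s.h_hi_q], s.d_q_a, mul_zero]
@[simp] theorem It.rd_hi_a (z : A) : s.h' * (s.a * z) = 0 := by rw [← mul_assoc, s.d_hi_a, zero_mul]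
@[simp] theorem It.d_hi_n : s.h' * s.n = 0 := by
  rw [show s.h' * s.n = s.h' * (s.q * s.n) by rw [← mul_assoc, s.h_hi_q], s.d_q_n, mul_zero]
@[simp] theorem It.rd_hi_n (z : A) : s.h' * (s.n * z) = 0 := by rw [← mul_assoc, s.d_hi_n, zero_mul]
@[simp] theorem It.d_hi_al : s.h' * s.al = 0 := by
  rw [show s.h' * s.al = s.h' * (s.q * s.al) by rw [← mul_assoc, s.h_hi_q], s.d_q_al, mul_zero]
@[simp] theorem It.rd_hi_al (z : A) : s.h' * (s.al * z) = 0 := by rw [← mul_assoc, s.d_hi_al, zero_mul]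
@[simp] theorem It.d_hi_Y : s.h' * s.Y = 0 := by
  rw [show s.h' * s.Y = s.h' * (s.q * s.Y) by rw [← mul_assoc, s.h_hi_q], s.d_q_Y, mul_zero]
@[simp] theorem It.rd_hi_Y (z : A) : s.h' * (s.Y * z) = 0 := by rw [← mul_assoc, s.d_hi_Y, zero_mul]
@[simp] theorem It.d_hi_ai : s.h' * s.a' = 0 := by
  rw [show s.h' * s.a' = s.h' * (s.q * s.a') by rw [← mul_assoc, s.h_hi_q], s.d_q_ai, mul_zero]
@[simp] theorem It.rd_hi_ai (z : A) : s.h' * (s.a' * z) = 0 := by rw [← mul_assoc, s.d_hi_ai, zero_mul]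
@[simp] theorem It.d_hi_ni : s.h' * s.n' = 0 := by
  rw [show s.h' * s.n' = s.h' * (s.q * s.n') by rw [← mul_assoc, s.h_hi_q], s.d_q_ni, mul_zero]
@[simp] theorem It.rd_hi_ni (z : A) : s.h' * (s.n' * z) = 0 := by rw [← mul_assoc, s.d_hi_ni, zero_mul]
@[simp] theorem It.d_hi_ali : s.h' * s.al' = 0 := by
  rw [show s.h' * s.al' = s.h' * (s.q * s.al') by rw [← mul_assoc, s.h_hi_q], s.d_q_ali, mul_zero]
@[simp] theorem It.rd_hi_ali (z : A) : s.h' * (s.al' * z) = 0 := by rw [← mul_assoc, s.d_hi_ali, zero_mul]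
@[simp] theorem It.d_hi_Yi : s.h' * s.Y' = 0 := by
  rw [show s.h' * s.Y' = s.h' * (s.q * s.Y') by rw [← mul_assoc, s.h_hi_q], s.d_q_Yi, mul_zero]
@[simp] theorem It.rd_hi_Yi (z : A) : s.h' * (s.Y' * z) = 0 := by rw [← mul_assoc, s.d_hi_Yi, zero_mul]
@[simp] theorem It.d_hi_bei : s.h' * s.be' = 0 := by
  rw [show s.h' * s.be' = s.h' * (s.q * s.be') by rw [← mul_assoc, s.h_hi_q], s.d_q_bei, mul_zero]
@[simp] theorem It.rd_hi_bei (z : A) : s.h' * (s.be' * z) = 0 := by rw [← mul_assoc, s.d_hi_bei, zero_mul]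
@[simp] theorem It.d_hi_Xi : s.h' * s.X' = 0 := by
  rw [show s.h' * s.X' = s.h' * (s.q * s.X') by rw [← mul_assoc, s.h_hi_q], s.d_q_Xi, mul_zero]
@[simp] theorem It.rd_hi_Xi (z : A) : s.h' * (s.X' * z) = 0 := by rw [← mul_assoc, s.d_hi_Xi, zero_mul]
@[simp] theorem It.d_hi_gi : s.h' * s.g' = 0 := by
  rw [show s.h' * s.g' = s.h' * (s.q * s.g') by rw [← mul_assoc, s.h_hi_q], s.d_q_gi, mul_zero]
@[simp] theorem It.rd_hi_gi (z : A) : s.h' * (s.g' * z) = 0 := by rw [← mul_assoc, s.d_hi_gi, zero_mul]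
@[simp] theorem It.d_Y_a : s.Y * s.a = 0 := by
  rw [← s.h_Y_dl, mul_assoc, s.h_dl_a, mul_zero]
@[simp] theorem It.rd_Y_a (z : A) : s.Y * (s.a * z) = 0 := by rw [← mul_assoc, s.d_Y_a, zero_mul]
@[simp] theorem It.d_ai_Yi : s.a' * s.Y' = 0 := by
  rw [← s.h_dl_Yi, ← mul_assoc, s.h_ai_dl, zero_mul]
@[simp] theorem It.rd_ai_Yi (z : A) : s.a' * (s.Y' * z) = 0 := by rw [← mul_assoc, s.d_ai_Yi, zero_mul]
@[simp] theorem It.d_X_a : s.X * s.a = 0 := by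
  rw [← s.h_X_dl, mul_assoc, s.h_dl_a, mul_zero]
@[simp] theorem It.rd_X_a (z : A) : s.X * (s.a * z) = 0 := by rw [← mul_assoc, s.d_X_a, zero_mul]
@[simp] theorem It.d_ai_Xi : s.a' * s.X' = 0 := by
  rw [← s.h_dl_Xi, ← mul_assoc, s.h_ai_dl, zero_mul]
@[simp] theorem It.rd_ai_Xi (z : A) : s.a' * (s.X' * z) = 0 := by rw [← mul_assoc, s.d_ai_Xi, zero_mul]
attribute [simp] It.s_n
@[simp] theorem It.rs_n (z : A) : s.n * (s.n' * z) = s.u * z - s.a * (s.a' * z) := by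
  rw [← mul_assoc, s.s_n]; simp only [sub_mul, add_mul, one_mul, mul_assoc]
attribute [simp] It.s_al
@[simp] theorem It.rs_al (z : A) : s.al * (s.al' * z) = s.v * z - s.Y * (s.Y' * z) := by
  rw [← mul_assoc, s.s_al]; simp only [sub_mul, add_mul, one_mul, mul_assoc]
attribute [simp] It.s_X
@[simp] theorem It.rs_X (z : A) : s.X * (s.X' * z) = s.q * z - s.be * (s.be' * z) := by
  rw [← mul_assoc, s.s_X]; simp only [sub_mul, add_mul, one_mul, mul_assoc]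
attribute [simp] It.s_h
@[simp] theorem It.rs_h (z : A) : s.h * (s.h' * z) = s.q * z - s.g * (s.g' * z) := by
  rw [← mul_assoc, s.s_h]; simp only [sub_mul, add_mul, one_mul, mul_assoc]

end Its

section Itt

variable {A : Type*} [Ring A] (s : It A)

@[simp] theorem It.t1 : s.Y * s.n = s.Y * s.Y' := by rw [← s.h_Y_dl, mul_assoc, s.h_dl_n]; simp
@[simp] theorem It.t1r (z : A) : s.Y * (s.n * z) = s.Y * (s.Y' * z) := by
  rw [← mul_assoc, s.t1, mul_assoc]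
@[simp] theorem It.t2 : s.n' * s.Y' = s.Y * s.Y' := by rw [← s.h_dl_Yi, ← mul_assoc, s.h_ni_dl]; simp
@[simp] theorem It.t2r (z : A) : s.n' * (s.Y' * z) = s.Y * (s.Y' * z) := by
  rw [← mul_assoc, s.t2, mul_assoc]
@[simp] theorem It.t3 : s.X * s.n = s.X * s.Y' := by rw [← s.h_X_dl, mul_assoc, s.h_dl_n]; simp
@[simp] theorem It.t3r (z : A) : s.X * (s.n * z) = s.X * (s.Y' * z) := by
  rw [← mul_assoc, s.t3, mul_assoc]
@[simp] theorem It.t4 : s.n' * s.X' = s.Y * s.X' := by rw [← s.h_dl_Xi, ← mul_assoc, s.h_ni_dl]; simp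
@[simp] theorem It.t4r (z : A) : s.n' * (s.X' * z) = s.Y * (s.X' * z) := by
  rw [← mul_assoc, s.t4, mul_assoc]

end Itt

end Pool.Agent.SKG
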