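import Pool.Agent.SKG.ME

set_option autoImplicit false
set_option linter.all false

universe u

namespace Pool.Agent.SKG

section

variable {A : Type*} [Ring A]

theorem Mr.tmua (s : Mr A) : UA s.q s.t s.t' where
  h1 := by
    show (s.r * s.toMn.t1' + s.S * s.toMn.t2') * (s.toMn.t1 * s.r' + s.toMn.t2 * s.S') = s.q
    rw [show (s.r * s.toMn.t1' + s.S * s.toMn.t2') * (s.toMn.t1 * s.r' + s.toMn.t2 * s.S') =
      s.r * (s.toMn.t1' * s.toMn.t1) * s.r' + s.r * (s.toMn.t1' * s.toMn.t2) * s.S' +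
      (s.S * (s.toMn.t2' * s.toMn.t1) * s.r' + s.S * (s.toMn.t2' * s.toMn.t2) * s.S') by
      noncomm_ring, Mn.t11, Mn.t12, Mn.t21, Mn.t22]
    show s.r * s.v * s.r' + s.r * 0 * s.S' + (s.S * 0 * s.r' + s.S * s.dl * s.S') = s.q
    simp [mul_assoc]
  h2 := by
    show (s.toMn.t1 * s.r' + s.toMn.t2 * s.S') * (s.r * s.toMn.t1' + s.S * s.toMn.t2') = s.q
    rw [show (s.toMn.t1 * s.r' + s.toMn.t2 * s.S') * (s.r * s.toMn.t1' + s.S * s.toMn.t2') =
      s.toMn.t1 * (s.r' * s.r) * s.toMn.t1' + s.toMn.t1 * (s.r' * s.S) * s.toMn.t2' +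
      (s.toMn.t2 * (s.S' * s.r) * s.toMn.t1' + s.toMn.t2 * (s.S' * s.S) * s.toMn.t2') by
      noncomm_ring, s.h_ri_r, s.h_ri_S, s.h_Si_r, s.h_Si_S,
      show s.toMn.t1 * s.v = s.toMn.t1 from s.toMn.t1_v,
      show s.toMn.t2 * s.dl = s.toMn.t2 from s.toMn.t2_dl]
    simp only [mul_zero, zero_mul, add_zero, zero_add]
    exact s.toMn.tsum
  h3 := by
    show s.q * (s.r * s.toMn.t1' + s.S * s.toMn.t2') = _
    rw [mul_add, ← mul_assoc, ← mul_assoc, s.h_q_r, s.h_q_S]; rfl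
  h4 := by
    show (s.r * s.toMn.t1' + s.S * s.toMn.t2') * s.q = _
    rw [add_mul, mul_assoc, mul_assoc, show s.toMn.t1' * s.q = s.toMn.t1' from s.toMn.t1'_q,
      show s.toMn.t2' * s.q = s.toMn.t2' from s.toMn.t2'_q]; rfl
  h5 := by
    show s.q * (s.toMn.t1 * s.r' + s.toMn.t2 * s.S') = _
    rw [mul_add, ← mul_assoc, ← mul_assoc, show s.q * s.toMn.t1 = s.toMn.t1 from s.toMn.q_t1,
      show s.q * s.toMn.t2 = s.toMn.t2 from s.toMn.q_t2]; rfl
  h6 := by
    show (s.toMn.t1 * s.r' + s.toMn.t2 * s.S') * s.q = _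
    rw [add_mul, mul_assoc, mul_assoc, s.h_ri_q, s.h_Si_q]; rfl

theorem Mr.toMr_toMn (s : Mr A) : s.toMn.toMr s.tmua = s := by
  have e1 : s.t * s.toMn.t1 = s.r := by
    show (s.r * s.toMn.t1' + s.S * s.toMn.t2') * s.toMn.t1 = s.r
    rw [add_mul, mul_assoc, mul_assoc, Mn.t11, Mn.t21, mul_zero, add_zero]
    exact s.h_r_v
  have e2 : s.toMn.t1' * s.t' = s.r' := by
    show s.toMn.t1' * (s.toMn.t1 * s.r' + s.toMn.t2 * s.S') = s.r'
    rw [mul_add, ← mul_assoc, ← mul_assoc, Mn.t11, Mn.t12, zero_mul, add_zero]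
    exact s.h_v_ri
  have e3 : s.t * s.toMn.t2 = s.S := by
    show (s.r * s.toMn.t1' + s.S * s.toMn.t2') * s.toMn.t2 = s.S
    rw [add_mul, mul_assoc, mul_assoc, Mn.t12, Mn.t22, mul_zero, zero_add]
    exact s.h_S_dl
  have e4 : s.toMn.t2' * s.t' = s.S' := by
    show s.toMn.t2' * (s.toMn.t1 * s.r' + s.toMn.t2 * s.S') = s.S'
    rw [mul_add, ← mul_assoc, ← mul_assoc, Mn.t21, Mn.t22, zero_mul, zero_add]
    exact s.h_dl_Si
  apply Mr.ext <;> first | rfl | exact e1 | exact e2 | exact e3 | exact e4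

theorem Mn.toMn_toMr (s : Mn A) {t t' : A} (h : UA s.q t t') : (s.toMr h).toMn = s := by
  apply Mn.ext <;> rfl

theorem Mn.t_toMr (s : Mn A) {t t' : A} (h : UA s.q t t') : (s.toMr h).t = t := by
  show t * s.t1 * s.t1' + t * s.t2 * s.t2' = t
  rw [mul_assoc, mul_assoc, ← mul_add, s.tsum, h.h4]

theorem Mn.t'_toMr (s : Mn A) {t t' : A} (h : UA s.q t t') : (s.toMr h).t' = t' := by
  show s.t1 * (s.t1' * t') + s.t2 * (s.t2' * t') = t'
  rw [← mul_assoc, ← mul_assoc, ← add_mul, s.tsum, h.h5]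

theorem It.tmua (s : It A) : UA s.q s.t s.t' where
  h1 := by
    show (s.g * s.toPl.g1' + s.h * s.toPl.g2') * (s.toPl.g1 * s.g' + s.toPl.g2 * s.h') = s.q
    rw [show (s.g * s.toPl.g1' + s.h * s.toPl.g2') * (s.toPl.g1 * s.g' + s.toPl.g2 * s.h') =
      s.g * (s.toPl.g1' * s.toPl.g1) * s.g' + s.g * (s.toPl.g1' * s.toPl.g2) * s.h' +
      (s.h * (s.toPl.g2' * s.toPl.g1) * s.g' + s.h * (s.toPl.g2' * s.toPl.g2) * s.h') by
      noncomm_ring, Pl.g1g1, Pl.g1g2, Pl.g2g1, Pl.g2g2]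
    show s.g * s.v * s.g' + s.g * 0 * s.h' + (s.h * 0 * s.g' + s.h * s.q * s.h') = s.q
    simp [mul_assoc]
  h2 := by
    show (s.toPl.g1 * s.g' + s.toPl.g2 * s.h') * (s.g * s.toPl.g1' + s.h * s.toPl.g2') = s.q
    rw [show (s.toPl.g1 * s.g' + s.toPl.g2 * s.h') * (s.g * s.toPl.g1' + s.h * s.toPl.g2') =
      s.toPl.g1 * (s.g' * s.g) * s.toPl.g1' + s.toPl.g1 * (s.g' * s.h) * s.toPl.g2' +
      (s.toPl.g2 * (s.h' * s.g) * s.toPl.g1' + s.toPl.g2 * (s.h' * s.h) * s.toPl.g2') by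
      noncomm_ring, s.h_gi_g, s.h_gi_h, s.h_hi_g, s.h_hi_h,
      show s.toPl.g1 * s.v = s.toPl.g1 from s.toPl.g1_v,
      show s.toPl.g2 * s.q = s.toPl.g2 from s.toPl.g2_q]
    simp only [mul_zero, zero_mul, add_zero, zero_add]
    exact s.toPl.gsum
  h3 := by
    show s.q * (s.g * s.toPl.g1' + s.h * s.toPl.g2') = _
    rw [mul_add, ← mul_assoc, ← mul_assoc, s.h_q_g, s.h_q_h]; rfl
  h4 := by
    show (s.g * s.toPl.g1' + s.h * s.toPl.g2') * s.q = _
    rw [add_mul, mul_assoc, mul_assoc, show s.toPl.g1' * s.q = s.toPl.g1' from s.toPl.g1'_q,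
      show s.toPl.g2' * s.q = s.toPl.g2' from s.toPl.g2'_q]; rfl
  h5 := by
    show s.q * (s.toPl.g1 * s.g' + s.toPl.g2 * s.h') = _
    rw [mul_add, ← mul_assoc, ← mul_assoc, show s.q * s.toPl.g1 = s.toPl.g1 from s.toPl.q_g1,
      show s.q * s.toPl.g2 = s.toPl.g2 from s.toPl.q_g2]; rfl
  h6 := by
    show (s.toPl.g1 * s.g' + s.toPl.g2 * s.h') * s.q = _
    rw [add_mul, mul_assoc, mul_assoc, s.h_gi_q, s.h_hi_q]; rfl

theorem It.toIt_toPl (s : It A) : s.toPl.toIt s.tmua = s := by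
  have e1 : s.t * s.toPl.g1 = s.g := by
    show (s.g * s.toPl.g1' + s.h * s.toPl.g2') * s.toPl.g1 = s.g
    rw [add_mul, mul_assoc, mul_assoc, Pl.g1g1, Pl.g2g1, mul_zero, add_zero]
    exact s.h_g_v
  have e2 : s.toPl.g1' * s.t' = s.g' := by
    show s.toPl.g1' * (s.toPl.g1 * s.g' + s.toPl.g2 * s.h') = s.g'
    rw [mul_add, ← mul_assoc, ← mul_assoc, Pl.g1g1, Pl.g1g2, zero_mul, add_zero]
    exact s.h_v_gi
  have e3 : s.t * s.toPl.g2 = s.h := by
    show (s.g * s.toPl.g1' + s.h * s.toPl.g2') * s.toPl.g2 = s.h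
    rw [add_mul, mul_assoc, mul_assoc, Pl.g1g2, Pl.g2g2, mul_zero, zero_add]
    exact s.h_h_q
  have e4 : s.toPl.g2' * s.t' = s.h' := by
    show s.toPl.g2' * (s.toPl.g1 * s.g' + s.toPl.g2 * s.h') = s.h'
    rw [mul_add, ← mul_assoc, ← mul_assoc, Pl.g2g1, Pl.g2g2, zero_mul, zero_add]
    exact s.h_q_hi
  have e5 : s.toPl.n = s.n := by
    show s.n * s.al * s.al' + s.Y' = s.n
    simp [mul_assoc, mul_sub]
  have e6 : s.toPl.n' = s.n' := by
    show s.al * (s.al' * s.n') + s.Y = s.n'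
    simp [mul_assoc, mul_sub]
  apply It.ext <;> first | rfl | exact e1 | exact e2 | exact e3 | exact e4 | exact e5 | exact e6

theorem Pl.toPl_toIt (s : Pl A) {t t' : A} (h : UA s.q t t') : (s.toIt h).toPl = s := by
  have e1 : s.n * s.al = s.b := by simp [Pl.n, add_mul, mul_assoc]
  have e2 : s.al' * s.n' = s.b' := by simp [Pl.n', mul_add]
  apply Pl.ext <;> first | rfl | exact e1 | exact e2

theorem Pl.t_toIt (s : Pl A) {t t' : A} (h : UA s.q t t') : (s.toIt h).t = t := by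
  show t * s.g1 * (s.toIt h).toPl.g1' + t * s.g2 * (s.toIt h).toPl.g2' = t
  rw [s.toPl_toIt h, mul_assoc, mul_assoc, ← mul_add, s.gsum, h.h4]

theorem Pl.t'_toIt (s : Pl A) {t t' : A} (h : UA s.q t t') : (s.toIt h).t' = t' := by
  show (s.toIt h).toPl.g1 * (s.g1' * t') + (s.toIt h).toPl.g2 * (s.g2' * t') = t'
  rw [s.toPl_toIt h, ← mul_assoc, ← mul_assoc, ← add_mul, s.gsum, h.h5]

theorem It.toIt_toMr (s : It A) : s.toMr.toIt = s := by
  have em : s.toMr.m = s.m := by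
    show s.m * s.g * s.g' + s.m * s.h * s.h' = s.m
    simp [It.m, mul_add, add_mul, mul_assoc, mul_sub, sub_mul]
    abel
  have em' : s.toMr.m' = s.m' := by
    show s.g * (s.g' * s.m') + s.h * (s.h' * s.m') = s.m'
    simp [It.m', mul_add, add_mul, mul_assoc, mul_sub, sub_mul]
    abel
  have en : s.toMr.n = s.n := by
    show s.n * (s.al * s.a) * (s.a' * s.al') + (s.n * (s.al * s.n) * s.be' + s.X') * s.toMr.m' = s.n
    rw [em']
    simp [It.m, It.m', mul_add, add_mul, mul_assoc, mul_sub, sub_mul] <;> try abel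
  have en' : s.toMr.n' = s.n' := by
    show s.al * s.a * (s.a' * (s.al' * s.n')) + s.toMr.m * (s.be * (s.n' * (s.al' * s.n')) + s.X) = s.n'
    rw [em]
    simp [It.m, It.m', mul_add, add_mul, mul_assoc, mul_sub, sub_mul] <;> try abel
  have ea : s.al * s.a * s.a' + s.toMr.m * (s.be * s.toMr.n') = s.al := by
    rw [em, en']
    simp [It.m, It.m', mul_add, add_mul, mul_assoc, mul_sub, sub_mul] <;> try abel
  have ea' : s.a * (s.a' * s.al') + s.toMr.n * (s.be' * s.toMr.m') = s.al' := by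
    rw [em', en]
    simp [It.m, It.m', mul_add, add_mul, mul_assoc, mul_sub, sub_mul] <;> try abel
  have eY : s.toMr.m * s.X = s.Y := by
    rw [em]
    simp [It.m, It.m', mul_add, add_mul, mul_assoc, mul_sub, sub_mul] <;> try abel
  have eY' : s.X' * s.toMr.m' = s.Y' := by
    rw [em']
    simp [It.m, It.m', mul_add, add_mul, mul_assoc, mul_sub, sub_mul] <;> try abel
  apply It.ext <;> first | rfl | exact en | exact en' | exact ea | exact ea' | exact eY | exact eY'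

theorem Mr.toMr_toIt (s : Mr A) : s.toIt.toMr = s := by
  have hs : ∀ P : Prop, P → P := fun _ h => h
  have eal : s.toIt.al = s.d * s.a' + s.m * (s.r * s.n') := rfl
  have eal' : s.toIt.al' = s.a * s.d' + s.n * (s.r' * s.m') := rfl
  have em : s.toIt.m = s.m := by
    show (s.d * s.a' + s.m * (s.r * s.n')) * (s.n * s.r') + s.m * s.S * s.S' = s.m
    simp [Mr.m, Mr.m', Mr.n, Mr.n', mul_add, add_mul, mul_assoc, mul_sub, sub_mul] <;> try abel
  have em' : s.toIt.m' = s.m' := by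
    show s.r * (s.n' * (s.a * s.d' + s.n * (s.r' * s.m'))) + s.S * (s.S' * s.m') = s.m'
    simp [Mr.m, Mr.m', Mr.n, Mr.n', mul_add, add_mul, mul_assoc, mul_sub, sub_mul] <;> try abel
  have eb : s.n * ((s.d * s.a' + s.m * (s.r * s.n')) * s.a) = s.b := by
    simp [Mr.m, Mr.m', Mr.n, Mr.n', mul_add, add_mul, mul_assoc, mul_sub, sub_mul] <;> try abel
  have eb' : s.a' * ((s.a * s.d' + s.n * (s.r' * s.m')) * s.n') = s.b' := by
    simp [Mr.m, Mr.m', Mr.n, Mr.n', mul_add, add_mul, mul_assoc, mul_sub, sub_mul] <;> try abel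
  have ec : s.n * ((s.d * s.a' + s.m * (s.r * s.n')) * s.n) = s.c := by
    simp [Mr.m, Mr.m', Mr.n, Mr.n', mul_add, add_mul, mul_assoc, mul_sub, sub_mul] <;> try abel
  have ec' : s.n' * ((s.a * s.d' + s.n * (s.r' * s.m')) * s.n') = s.c' := by
    simp [Mr.m, Mr.m', Mr.n, Mr.n', mul_add, add_mul, mul_assoc, mul_sub, sub_mul] <;> try abel
  have ed : (s.d * s.a' + s.m * (s.r * s.n')) * s.a = s.d := by
    simp [Mr.m, Mr.m', Mr.n, Mr.n', mul_add, add_mul, mul_assoc, mul_sub, sub_mul] <;> try abel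
  have ed' : s.a' * (s.a * s.d' + s.n * (s.r' * s.m')) = s.d' := by
    simp [Mr.m, Mr.m', Mr.n, Mr.n', mul_add, add_mul, mul_assoc, mul_sub, sub_mul] <;> try abel
  have ee : s.toIt.m * s.g = s.e := by
    rw [em]; simp [Mr.m, add_mul, mul_assoc]
  have ee' : s.g' * s.toIt.m' = s.e' := by
    rw [em']; simp [Mr.m', mul_add]
  have ef : s.toIt.m * s.h = s.f := by
    rw [em]; simp [Mr.m, add_mul, mul_assoc]
  have ef' : s.h' * s.toIt.m' = s.f' := by
    rw [em']; simp [Mr.m', mul_add]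
  apply Mr.ext <;> first | rfl | exact eb | exact eb' | exact ec | exact ec' | exact ed | exact ed' | exact ee | exact ee' | exact ef | exact ef'

end

end Pool.Agent.SKG
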