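import Pool.Agent.SKZ.Univ
import Pool.Agent.SKG.MF
import Pool.Agent.SKG.Defs

/-!
# Leavitt path algebras with a free unit in the corner of a vertex
-/

set_option autoImplicit false
set_option linter.all false

universe u

namespace Pool.Agent.SKG

open CKS Pool.Agent.SKZ

section

variable {k : Type u} [Field k] {V E : Type} {G : CKS.Graph V E} {w : V}

/-- the quotient map -/
noncomputable def quL : FreeAlgebra k (Gen V E ⊕ Bool) →ₐ[k] LU k G w := RingQuot.mkAlgHom k _

theorem quL_rel {a b : FreeAlgebra k (Gen V E ⊕ Bool)} (h : RU k G w a b) :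
    (quL a : LU k G w) = quL b := RingQuot.mkAlgHom_rel k h

variable (k G w) in
/-- the homomorphism from the Leavitt path algebra -/
noncomputable def jL : LPA k G →ₐ[k] LU k G w :=
  RingQuot.liftAlgHom k ⟨(quL (k := k) (G := G) (w := w)).comp (inc k V E), by
    intro a b h
    exact quL_rel (RU.base a b h)⟩

theorem jL_quo (a : FreeAlgebra k (Gen V E)) : jL k G w (quo a) = quL (inc k V E a) := by
  unfold jL quo
  exact RingQuot.liftAlgHom_mkAlgHom_apply k _ _ a

variable (k G w) in
/-- the universal family -/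
noncomputable def uF : Fam k G G.IsReg (LU k G w) := Fmap (jL k G w) (taut k G G.IsReg)

theorem uF_p (a : V) : (uF k G w).p a = quL (FreeAlgebra.ι k (Sum.inl (Gen.v a))) := by
  show jL k G w (quo (fv k a)) = _
  rw [jL_quo]
  simp [inc]

theorem uF_x (a : E) : (uF k G w).x a = quL (FreeAlgebra.ι k (Sum.inl (Gen.e a))) := by
  show jL k G w (quo (fe k a)) = _
  rw [jL_quo]
  simp [inc]

theorem uF_y (a : E) : (uF k G w).y a = quL (FreeAlgebra.ι k (Sum.inl (Gen.g a))) := by
  show jL k G w (quo (fg k a)) = _
  rw [jL_quo]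
  simp [inc]

variable (k G w) in
/-- the universal unit -/
noncomputable def uT (c : Bool) : LU k G w := quL (FreeAlgebra.ι k (Sum.inr c))

theorem uT_ua : UA ((uF k G w).p w) (uT k G w true) (uT k G w false) where
  h1 := by
    rw [uF_p]; unfold uT; rw [← map_mul]; exact quL_rel RU.tt
  h2 := by
    rw [uF_p]; unfold uT; rw [← map_mul]; exact quL_rel RU.tt'
  h3 := by
    rw [uF_p]; unfold uT; rw [← map_mul]; exact quL_rel (RU.wt true)
  h4 := by
    rw [uF_p]; unfold uT; rw [← map_mul]; exact quL_rel (RU.tw true)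
  h5 := by
    rw [uF_p]; unfold uT; rw [← map_mul]; exact quL_rel (RU.wt false)
  h6 := by
    rw [uF_p]; unfold uT; rw [← map_mul]; exact quL_rel (RU.tw false)

variable {A : Type*} [Ring A] [Algebra k A]

/-- the map on generators -/
def gmap (F : Fam k G G.IsReg A) (t t' : A) : Gen V E ⊕ Bool → A := fun g => match g with
  | .inl (.v a) => F.p a
  | .inl (.e a) => F.x a
  | .inl (.g a) => F.y a
  | .inr true => t
  | .inr false => t'

theorem pre_inc (F : Fam k G G.IsReg A) (t t' : A) (a : FreeAlgebra k (Gen V E)) :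
    FreeAlgebra.lift k (gmap F t t') (inc k V E a) = F.pre a := by
  have h : (FreeAlgebra.lift k (gmap F t t')).comp (inc k V E) = F.pre := by
    refine FreeAlgebra.hom_ext ?_
    funext x
    cases x <;> simp [inc, gmap, Fam.pre]
  rw [← h]; rfl

theorem pre_rel (F : Fam k G G.IsReg A) {a b : FreeAlgebra k (Gen V E)}
    (h : Rel k G G.IsReg a b) : F.pre a = F.pre b := by
  rw [← lift_quo, ← lift_quo, quo_rel h]

/-- the homomorphism given by a family and a unit -/
noncomputable def liftU (F : Fam k G G.IsReg A) {t t' : A} (h : UA (F.p w) t t') :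
    LU k G w →ₐ[k] A :=
  RingQuot.liftAlgHom k ⟨FreeAlgebra.lift k (gmap F t t'), by
    intro a b hab
    induction hab with
    | base a b hab => rw [pre_inc, pre_inc, pre_rel F hab]
    | tt => simp only [map_mul, FreeAlgebra.lift_ι_apply, gmap]; exact h.h1
    | tt' => simp only [map_mul, FreeAlgebra.lift_ι_apply, gmap]; exact h.h2
    | wt c =>
      cases c
      · simp only [map_mul, FreeAlgebra.lift_ι_apply, gmap]; exact h.h5
      · simp only [map_mul, FreeAlgebra.lift_ι_apply, gmap]; exact h.h3
    | tw c =>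
      cases c
      · simp only [map_mul, FreeAlgebra.lift_ι_apply, gmap]; exact h.h6
      · simp only [map_mul, FreeAlgebra.lift_ι_apply, gmap]; exact h.h4⟩

theorem liftU_qu (F : Fam k G G.IsReg A) {t t' : A} (h : UA (F.p w) t t')
    (a : FreeAlgebra k (Gen V E ⊕ Bool)) :
    liftU (w := w) F h (quL a) = FreeAlgebra.lift k (gmap F t t') a := by
  unfold liftU quL
  exact RingQuot.liftAlgHom_mkAlgHom_apply k _ _ a

theorem liftU_F (F : Fam k G G.IsReg A) {t t' : A} (h : UA (F.p w) t t') :
    Fmap (liftU (w := w) F h) (uF k G w) = F := by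
  refine Fam.ext' (fun a => ?_) (fun e => ?_) (fun e => ?_)
  · show liftU (w := w) F h ((uF k G w).p a) = F.p a
    rw [uF_p, liftU_qu]; simp [gmap]
  · show liftU (w := w) F h ((uF k G w).x e) = F.x e
    rw [uF_x, liftU_qu]; simp [gmap]
  · show liftU (w := w) F h ((uF k G w).y e) = F.y e
    rw [uF_y, liftU_qu]; simp [gmap]

theorem liftU_t (F : Fam k G G.IsReg A) {t t' : A} (h : UA (F.p w) t t') :
    liftU (w := w) F h (uT k G w true) = t := by
  unfold uT; rw [liftU_qu]; simp [gmap]

theorem liftU_t' (F : Fam k G G.IsReg A) {t t' : A} (h : UA (F.p w) t t') :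
    liftU (w := w) F h (uT k G w false) = t' := by
  unfold uT; rw [liftU_qu]; simp [gmap]

theorem extU {φ ψ : LU k G w →ₐ[k] A} (h : Fmap φ (uF k G w) = Fmap ψ (uF k G w))
    (h1 : φ (uT k G w true) = ψ (uT k G w true)) (h2 : φ (uT k G w false) = ψ (uT k G w false)) :
    φ = ψ := by
  refine RingQuot.ringQuot_ext' k φ ψ (FreeAlgebra.hom_ext ?_)
  funext x
  have hp := fun a => congrArg (fun F : Fam k G G.IsReg A => F.p a) h
  have hx := fun a => congrArg (fun F : Fam k G G.IsReg A => F.x a) h
  have hy := fun a => congrArg (fun F : Fam k G G.IsReg A => F.y a) h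
  rcases x with (a | a | a) | c
  · have := hp a
    change φ ((uF k G w).p a) = ψ ((uF k G w).p a) at this
    rw [uF_p] at this
    exact this
  · have := hx a
    change φ ((uF k G w).x a) = ψ ((uF k G w).x a) at this
    rw [uF_x] at this
    exact this
  · have := hy a
    change φ ((uF k G w).y a) = ψ ((uF k G w).y a) at this
    rw [uF_y] at this
    exact this
  · cases c
    · exact h2
    · exact h1

/-- the image of a unit -/
theorem UA.map {C : Type*} [Ring C] [Algebra k C] (φ : A →ₐ[k] C) {q t t' : A} (h : UA q t t') :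
    UA (φ q) (φ t) (φ t') where
  h1 := by rw [← map_mul, h.h1]
  h2 := by rw [← map_mul, h.h2]
  h3 := by rw [← map_mul, h.h3]
  h4 := by rw [← map_mul, h.h4]
  h5 := by rw [← map_mul, h.h5]
  h6 := by rw [← map_mul, h.h6]

end

end Pool.Agent.SKG
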