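import Mathlib

set_option autoImplicit false
set_option linter.all false

universe u

namespace Pool.Agent.SKG

/-- the gadget of the Cuntz splice with an isomorphism -/
@[ext] structure Mr (A : Type*) [Ring A] where
  u : A
  v : A
  q : A
  dl : A
  a : A
  a' : A
  b : A
  b' : A
  c : A
  c' : A
  d : A
  d' : A
  e : A
  e' : A
  f : A
  f' : A
  g : A
  g' : A
  h : A
  h' : A
  r : A
  r' : A
  S : A
  S' : A
  h_u_u : u * u = u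
  h_v_v : v * v = v
  h_q_q : q * q = q
  h_u_v : u * v = 0
  h_v_u : v * u = 0
  h_u_q : u * q = 0
  h_q_u : q * u = 0
  h_v_q : v * q = 0
  h_q_v : q * v = 0
  h_dl_dl : dl * dl = dl
  h_u_dl : u * dl = dl
  h_dl_u : dl * u = dl
  h_u_a : u * a = a
  h_a_u : a * u = a
  h_u_b : u * b = b
  h_b_u : b * u = b
  h_u_c : u * c = c
  h_c_v : c * v = c
  h_v_d : v * d = d
  h_d_u : d * u = d
  h_v_e : v * e = e
  h_e_v : e * v = e
  h_v_f : v * f = f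
  h_f_q : f * q = f
  h_q_g : q * g = g
  h_g_v : g * v = g
  h_q_h : q * h = h
  h_h_q : h * q = h
  h_q_r : q * r = r
  h_r_v : r * v = r
  h_q_S : q * S = S
  h_S_dl : S * dl = S
  h_u_ai : u * a' = a'
  h_ai_u : a' * u = a'
  h_u_bi : u * b' = b'
  h_bi_u : b' * u = b'
  h_v_ci : v * c' = c'
  h_ci_u : c' * u = c'
  h_u_di : u * d' = d'
  h_di_v : d' * v = d'
  h_v_ei : v * e' = e'
  h_ei_v : e' * v = e'
  h_q_fi : q * f' = f'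
  h_fi_v : f' * v = f'
  h_v_gi : v * g' = g'
  h_gi_q : g' * q = g'
  h_q_hi : q * h' = h'
  h_hi_q : h' * q = h'
  h_v_ri : v * r' = r'
  h_ri_q : r' * q = r'
  h_dl_Si : dl * S' = S'
  h_Si_q : S' * q = S'
  h_ai_a : a' * a = u
  h_ai_b : a' * b = 0
  h_ai_c : a' * c = 0
  h_bi_a : b' * a = 0
  h_bi_b : b' * b = u
  h_bi_c : b' * c = 0
  h_ci_a : c' * a = 0
  h_ci_b : c' * b = 0
  h_ci_c : c' * c = v
  h_di_d : d' * d = u
  h_di_e : d' * e = 0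
  h_di_f : d' * f = 0
  h_ei_d : e' * d = 0
  h_ei_e : e' * e = v
  h_ei_f : e' * f = 0
  h_fi_d : f' * d = 0
  h_fi_e : f' * e = 0
  h_fi_f : f' * f = q
  h_gi_g : g' * g = v
  h_gi_h : g' * h = 0
  h_hi_g : h' * g = 0
  h_hi_h : h' * h = q
  h_ri_r : r' * r = v
  h_ri_S : r' * S = 0
  h_Si_r : S' * r = 0
  h_Si_S : S' * S = dl
  h_ai_dl : a' * dl = 0
  h_dl_a : dl * a = 0
  h_bi_dl : b' * dl = 0
  h_dl_b : dl * b = 0
  h_ci_dl : c' * dl = 0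
  h_dl_c : dl * c = 0
  s_c : c * c' = u - a * a' - b * b' - dl
  s_f : f * f' = v - d * d' - e * e'
  s_h : h * h' = q - g * g'
  s_S : S * S' = q - r * r'

section Mrs

variable {A : Type*} [Ring A] (s : Mr A)

attribute [simp] Mr.h_u_u
@[simp] theorem Mr.rh_u_u (z : A) : s.u * (s.u * z) = s.u * z := by rw [← mul_assoc, s.h_u_u]
attribute [simp] Mr.h_v_v
@[simp] theorem Mr.rh_v_v (z : A) : s.v * (s.v * z) = s.v * z := by rw [← mul_assoc, s.h_v_v]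
attribute [simp] Mr.h_q_q
@[simp] theorem Mr.rh_q_q (z : A) : s.q * (s.q * z) = s.q * z := by rw [← mul_assoc, s.h_q_q]
attribute [simp] Mr.h_u_v
@[simp] theorem Mr.rh_u_v (z : A) : s.u * (s.v * z) = 0 := by rw [← mul_assoc, s.h_u_v, zero_mul]
attribute [simp] Mr.h_v_u
@[simp] theorem Mr.rh_v_u (z : A) : s.v * (s.u * z) = 0 := by rw [← mul_assoc, s.h_v_u, zero_mul]
attribute [simp] Mr.h_u_q
@[simp] theorem Mr.rh_u_q (z : A) : s.u * (s.q * z) = 0 := by rw [← mul_assoc, s.h_u_q, zero_mul]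
attribute [simp] Mr.h_q_u
@[simp] theorem Mr.rh_q_u (z : A) : s.q * (s.u * z) = 0 := by rw [← mul_assoc, s.h_q_u, zero_mul]
attribute [simp] Mr.h_v_q
@[simp] theorem Mr.rh_v_q (z : A) : s.v * (s.q * z) = 0 := by rw [← mul_assoc, s.h_v_q, zero_mul]
attribute [simp] Mr.h_q_v
@[simp] theorem Mr.rh_q_v (z : A) : s.q * (s.v * z) = 0 := by rw [← mul_assoc, s.h_q_v, zero_mul]
attribute [simp] Mr.h_dl_dl
@[simp] theorem Mr.rh_dl_dl (z : A) : s.dl * (s.dl * z) = s.dl * z := by rw [← mul_assoc, s.h_dl_dl]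
attribute [simp] Mr.h_u_dl
@[simp] theorem Mr.rh_u_dl (z : A) : s.u * (s.dl * z) = s.dl * z := by rw [← mul_assoc, s.h_u_dl]
attribute [simp] Mr.h_dl_u
@[simp] theorem Mr.rh_dl_u (z : A) : s.dl * (s.u * z) = s.dl * z := by rw [← mul_assoc, s.h_dl_u]
attribute [simp] Mr.h_u_a
@[simp] theorem Mr.rh_u_a (z : A) : s.u * (s.a * z) = s.a * z := by rw [← mul_assoc, s.h_u_a]
attribute [simp] Mr.h_a_u
@[simp] theorem Mr.rh_a_u (z : A) : s.a * (s.u * z) = s.a * z := by rw [← mul_assoc, s.h_a_u]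
attribute [simp] Mr.h_u_b
@[simp] theorem Mr.rh_u_b (z : A) : s.u * (s.b * z) = s.b * z := by rw [← mul_assoc, s.h_u_b]
attribute [simp] Mr.h_b_u
@[simp] theorem Mr.rh_b_u (z : A) : s.b * (s.u * z) = s.b * z := by rw [← mul_assoc, s.h_b_u]
attribute [simp] Mr.h_u_c
@[simp] theorem Mr.rh_u_c (z : A) : s.u * (s.c * z) = s.c * z := by rw [← mul_assoc, s.h_u_c]
attribute [simp] Mr.h_c_v
@[simp] theorem Mr.rh_c_v (z : A) : s.c * (s.v * z) = s.c * z := by rw [← mul_assoc, s.h_c_v]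
attribute [simp] Mr.h_v_d
@[simp] theorem Mr.rh_v_d (z : A) : s.v * (s.d * z) = s.d * z := by rw [← mul_assoc, s.h_v_d]
attribute [simp] Mr.h_d_u
@[simp] theorem Mr.rh_d_u (z : A) : s.d * (s.u * z) = s.d * z := by rw [← mul_assoc, s.h_d_u]
attribute [simp] Mr.h_v_e
@[simp] theorem Mr.rh_v_e (z : A) : s.v * (s.e * z) = s.e * z := by rw [← mul_assoc, s.h_v_e]
attribute [simp] Mr.h_e_v
@[simp] theorem Mr.rh_e_v (z : A) : s.e * (s.v * z) = s.e * z := by rw [← mul_assoc, s.h_e_v]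
attribute [simp] Mr.h_v_f
@[simp] theorem Mr.rh_v_f (z : A) : s.v * (s.f * z) = s.f * z := by rw [← mul_assoc, s.h_v_f]
attribute [simp] Mr.h_f_q
@[simp] theorem Mr.rh_f_q (z : A) : s.f * (s.q * z) = s.f * z := by rw [← mul_assoc, s.h_f_q]
attribute [simp] Mr.h_q_g
@[simp] theorem Mr.rh_q_g (z : A) : s.q * (s.g * z) = s.g * z := by rw [← mul_assoc, s.h_q_g]
attribute [simp] Mr.h_g_v
@[simp] theorem Mr.rh_g_v (z : A) : s.g * (s.v * z) = s.g * z := by rw [← mul_assoc, s.h_g_v]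
attribute [simp] Mr.h_q_h
@[simp] theorem Mr.rh_q_h (z : A) : s.q * (s.h * z) = s.h * z := by rw [← mul_assoc, s.h_q_h]
attribute [simp] Mr.h_h_q
@[simp] theorem Mr.rh_h_q (z : A) : s.h * (s.q * z) = s.h * z := by rw [← mul_assoc, s.h_h_q]
attribute [simp] Mr.h_q_r
@[simp] theorem Mr.rh_q_r (z : A) : s.q * (s.r * z) = s.r * z := by rw [← mul_assoc, s.h_q_r]
attribute [simp] Mr.h_r_v
@[simp] theorem Mr.rh_r_v (z : A) : s.r * (s.v * z) = s.r * z := by rw [← mul_assoc, s.h_r_v]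
attribute [simp] Mr.h_q_S
@[simp] theorem Mr.rh_q_S (z : A) : s.q * (s.S * z) = s.S * z := by rw [← mul_assoc, s.h_q_S]
attribute [simp] Mr.h_S_dl
@[simp] theorem Mr.rh_S_dl (z : A) : s.S * (s.dl * z) = s.S * z := by rw [← mul_assoc, s.h_S_dl]
attribute [simp] Mr.h_u_ai
@[simp] theorem Mr.rh_u_ai (z : A) : s.u * (s.a' * z) = s.a' * z := by rw [← mul_assoc, s.h_u_ai]
attribute [simp] Mr.h_ai_u
@[simp] theorem Mr.rh_ai_u (z : A) : s.a' * (s.u * z) = s.a' * z := by rw [← mul_assoc, s.h_ai_u]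
attribute [simp] Mr.h_u_bi
@[simp] theorem Mr.rh_u_bi (z : A) : s.u * (s.b' * z) = s.b' * z := by rw [← mul_assoc, s.h_u_bi]
attribute [simp] Mr.h_bi_u
@[simp] theorem Mr.rh_bi_u (z : A) : s.b' * (s.u * z) = s.b' * z := by rw [← mul_assoc, s.h_bi_u]
attribute [simp] Mr.h_v_ci
@[simp] theorem Mr.rh_v_ci (z : A) : s.v * (s.c' * z) = s.c' * z := by rw [← mul_assoc, s.h_v_ci]
attribute [simp] Mr.h_ci_u
@[simp] theorem Mr.rh_ci_u (z : A) : s.c' * (s.u * z) = s.c' * z := by rw [← mul_assoc, s.h_ci_u]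
attribute [simp] Mr.h_u_di
@[simp] theorem Mr.rh_u_di (z : A) : s.u * (s.d' * z) = s.d' * z := by rw [← mul_assoc, s.h_u_di]
attribute [simp] Mr.h_di_v
@[simp] theorem Mr.rh_di_v (z : A) : s.d' * (s.v * z) = s.d' * z := by rw [← mul_assoc, s.h_di_v]
attribute [simp] Mr.h_v_ei
@[simp] theorem Mr.rh_v_ei (z : A) : s.v * (s.e' * z) = s.e' * z := by rw [← mul_assoc, s.h_v_ei]
attribute [simp] Mr.h_ei_v
@[simp] theorem Mr.rh_ei_v (z : A) : s.e' * (s.v * z) = s.e' * z := by rw [← mul_assoc, s.h_ei_v]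
attribute [simp] Mr.h_q_fi
@[simp] theorem Mr.rh_q_fi (z : A) : s.q * (s.f' * z) = s.f' * z := by rw [← mul_assoc, s.h_q_fi]
attribute [simp] Mr.h_fi_v
@[simp] theorem Mr.rh_fi_v (z : A) : s.f' * (s.v * z) = s.f' * z := by rw [← mul_assoc, s.h_fi_v]
attribute [simp] Mr.h_v_gi
@[simp] theorem Mr.rh_v_gi (z : A) : s.v * (s.g' * z) = s.g' * z := by rw [← mul_assoc, s.h_v_gi]
attribute [simp] Mr.h_gi_q
@[simp] theorem Mr.rh_gi_q (z : A) : s.g' * (s.q * z) = s.g' * z := by rw [← mul_assoc, s.h_gi_q]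
attribute [simp] Mr.h_q_hi
@[simp] theorem Mr.rh_q_hi (z : A) : s.q * (s.h' * z) = s.h' * z := by rw [← mul_assoc, s.h_q_hi]
attribute [simp] Mr.h_hi_q
@[simp] theorem Mr.rh_hi_q (z : A) : s.h' * (s.q * z) = s.h' * z := by rw [← mul_assoc, s.h_hi_q]
attribute [simp] Mr.h_v_ri
@[simp] theorem Mr.rh_v_ri (z : A) : s.v * (s.r' * z) = s.r' * z := by rw [← mul_assoc, s.h_v_ri]
attribute [simp] Mr.h_ri_q
@[simp] theorem Mr.rh_ri_q (z : A) : s.r' * (s.q * z) = s.r' * z := by rw [← mul_assoc, s.h_ri_q]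
attribute [simp] Mr.h_dl_Si
@[simp] theorem Mr.rh_dl_Si (z : A) : s.dl * (s.S' * z) = s.S' * z := by rw [← mul_assoc, s.h_dl_Si]
attribute [simp] Mr.h_Si_q
@[simp] theorem Mr.rh_Si_q (z : A) : s.S' * (s.q * z) = s.S' * z := by rw [← mul_assoc, s.h_Si_q]
attribute [simp] Mr.h_ai_a
@[simp] theorem Mr.rh_ai_a (z : A) : s.a' * (s.a * z) = s.u * z := by rw [← mul_assoc, s.h_ai_a]
attribute [simp] Mr.h_ai_b
@[simp] theorem Mr.rh_ai_b (z : A) : s.a' * (s.b * z) = 0 := by rw [← mul_assoc, s.h_ai_b, zero_mul]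
attribute [simp] Mr.h_ai_c
@[simp] theorem Mr.rh_ai_c (z : A) : s.a' * (s.c * z) = 0 := by rw [← mul_assoc, s.h_ai_c, zero_mul]
attribute [simp] Mr.h_bi_a
@[simp] theorem Mr.rh_bi_a (z : A) : s.b' * (s.a * z) = 0 := by rw [← mul_assoc, s.h_bi_a, zero_mul]
attribute [simp] Mr.h_bi_b
@[simp] theorem Mr.rh_bi_b (z : A) : s.b' * (s.b * z) = s.u * z := by rw [← mul_assoc, s.h_bi_b]
attribute [simp] Mr.h_bi_c
@[simp] theorem Mr.rh_bi_c (z : A) : s.b' * (s.c * z) = 0 := by rw [← mul_assoc, s.h_bi_c, zero_mul]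
attribute [simp] Mr.h_ci_a
@[simp] theorem Mr.rh_ci_a (z : A) : s.c' * (s.a * z) = 0 := by rw [← mul_assoc, s.h_ci_a, zero_mul]
attribute [simp] Mr.h_ci_b
@[simp] theorem Mr.rh_ci_b (z : A) : s.c' * (s.b * z) = 0 := by rw [← mul_assoc, s.h_ci_b, zero_mul]
attribute [simp] Mr.h_ci_c
@[simp] theorem Mr.rh_ci_c (z : A) : s.c' * (s.c * z) = s.v * z := by rw [← mul_assoc, s.h_ci_c]
attribute [simp] Mr.h_di_d
@[simp] theorem Mr.rh_di_d (z : A) : s.d' * (s.d * z) = s.u * z := by rw [← mul_assoc, s.h_di_d]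
attribute [simp] Mr.h_di_e
@[simp] theorem Mr.rh_di_e (z : A) : s.d' * (s.e * z) = 0 := by rw [← mul_assoc, s.h_di_e, zero_mul]
attribute [simp] Mr.h_di_f
@[simp] theorem Mr.rh_di_f (z : A) : s.d' * (s.f * z) = 0 := by rw [← mul_assoc, s.h_di_f, zero_mul]
attribute [simp] Mr.h_ei_d
@[simp] theorem Mr.rh_ei_d (z : A) : s.e' * (s.d * z) = 0 := by rw [← mul_assoc, s.h_ei_d, zero_mul]
attribute [simp] Mr.h_ei_e
@[simp] theorem Mr.rh_ei_e (z : A) : s.e' * (s.e * z) = s.v * z := by rw [← mul_assoc, s.h_ei_e]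
attribute [simp] Mr.h_ei_f
@[simp] theorem Mr.rh_ei_f (z : A) : s.e' * (s.f * z) = 0 := by rw [← mul_assoc, s.h_ei_f, zero_mul]
attribute [simp] Mr.h_fi_d
@[simp] theorem Mr.rh_fi_d (z : A) : s.f' * (s.d * z) = 0 := by rw [← mul_assoc, s.h_fi_d, zero_mul]
attribute [simp] Mr.h_fi_e
@[simp] theorem Mr.rh_fi_e (z : A) : s.f' * (s.e * z) = 0 := by rw [← mul_assoc, s.h_fi_e, zero_mul]
attribute [simp] Mr.h_fi_f
@[simp] theorem Mr.rh_fi_f (z : A) : s.f' * (s.f * z) = s.q * z := by rw [← mul_assoc, s.h_fi_f]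
attribute [simp] Mr.h_gi_g
@[simp] theorem Mr.rh_gi_g (z : A) : s.g' * (s.g * z) = s.v * z := by rw [← mul_assoc, s.h_gi_g]
attribute [simp] Mr.h_gi_h
@[simp] theorem Mr.rh_gi_h (z : A) : s.g' * (s.h * z) = 0 := by rw [← mul_assoc, s.h_gi_h, zero_mul]
attribute [simp] Mr.h_hi_g
@[simp] theorem Mr.rh_hi_g (z : A) : s.h' * (s.g * z) = 0 := by rw [← mul_assoc, s.h_hi_g, zero_mul]
attribute [simp] Mr.h_hi_h
@[simp] theorem Mr.rh_hi_h (z : A) : s.h' * (s.h * z) = s.q * z := by rw [← mul_assoc, s.h_hi_h]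
attribute [simp] Mr.h_ri_r
@[simp] theorem Mr.rh_ri_r (z : A) : s.r' * (s.r * z) = s.v * z := by rw [← mul_assoc, s.h_ri_r]
attribute [simp] Mr.h_ri_S
@[simp] theorem Mr.rh_ri_S (z : A) : s.r' * (s.S * z) = 0 := by rw [← mul_assoc, s.h_ri_S, zero_mul]
attribute [simp] Mr.h_Si_r
@[simp] theorem Mr.rh_Si_r (z : A) : s.S' * (s.r * z) = 0 := by rw [← mul_assoc, s.h_Si_r, zero_mul]
attribute [simp] Mr.h_Si_S
@[simp] theorem Mr.rh_Si_S (z : A) : s.S' * (s.S * z) = s.dl * z := by rw [← mul_assoc, s.h_Si_S]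
attribute [simp] Mr.h_ai_dl
@[simp] theorem Mr.rh_ai_dl (z : A) : s.a' * (s.dl * z) = 0 := by rw [← mul_assoc, s.h_ai_dl, zero_mul]
attribute [simp] Mr.h_dl_a
@[simp] theorem Mr.rh_dl_a (z : A) : s.dl * (s.a * z) = 0 := by rw [← mul_assoc, s.h_dl_a, zero_mul]
attribute [simp] Mr.h_bi_dl
@[simp] theorem Mr.rh_bi_dl (z : A) : s.b' * (s.dl * z) = 0 := by rw [← mul_assoc, s.h_bi_dl, zero_mul]
attribute [simp] Mr.h_dl_b
@[simp] theorem Mr.rh_dl_b (z : A) : s.dl * (s.b * z) = 0 := by rw [← mul_assoc, s.h_dl_b, zero_mul]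
attribute [simp] Mr.h_ci_dl
@[simp] theorem Mr.rh_ci_dl (z : A) : s.c' * (s.dl * z) = 0 := by rw [← mul_assoc, s.h_ci_dl, zero_mul]
attribute [simp] Mr.h_dl_c
@[simp] theorem Mr.rh_dl_c (z : A) : s.dl * (s.c * z) = 0 := by rw [← mul_assoc, s.h_dl_c, zero_mul]
@[simp] theorem Mr.d_v_dl : s.v * s.dl = 0 := by
  rw [← s.h_u_dl, ← mul_assoc, s.h_v_u, zero_mul]
@[simp] theorem Mr.rd_v_dl (z : A) : s.v * (s.dl * z) = 0 := by rw [← mul_assoc, s.d_v_dl, zero_mul]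
@[simp] theorem Mr.d_dl_v : s.dl * s.v = 0 := by
  rw [← s.h_dl_u, mul_assoc, s.h_u_v, mul_zero]
@[simp] theorem Mr.rd_dl_v (z : A) : s.dl * (s.v * z) = 0 := by rw [← mul_assoc, s.d_dl_v, zero_mul]
@[simp] theorem Mr.d_q_dl : s.q * s.dl = 0 := by
  rw [← s.h_u_dl, ← mul_assoc, s.h_q_u, zero_mul]
@[simp] theorem Mr.rd_q_dl (z : A) : s.q * (s.dl * z) = 0 := by rw [← mul_assoc, s.d_q_dl, zero_mul]
@[simp] theorem Mr.d_dl_q : s.dl * s.q = 0 := by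
  rw [← s.h_dl_u, mul_assoc, s.h_u_q, mul_zero]
@[simp] theorem Mr.rd_dl_q (z : A) : s.dl * (s.q * z) = 0 := by rw [← mul_assoc, s.d_dl_q, zero_mul]
@[simp] theorem Mr.d_S_u : s.S * s.u = s.S := by
  rw [← s.h_S_dl, mul_assoc, s.h_dl_u]
@[simp] theorem Mr.rd_S_u (z : A) : s.S * (s.u * z) = s.S * z := by rw [← mul_assoc, s.d_S_u]
@[simp] theorem Mr.d_u_Si : s.u * s.S' = s.S' := by
  rw [← s.h_dl_Si, ← mul_assoc, s.h_u_dl]
@[simp] theorem Mr.rd_u_Si (z : A) : s.u * (s.S' * z) = s.S' * z := by rw [← mul_assoc, s.d_u_Si]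
@[simp] theorem Mr.d_v_a : s.v * s.a = 0 := by
  rw [← s.h_u_a, ← mul_assoc, s.h_v_u, zero_mul]
@[simp] theorem Mr.rd_v_a (z : A) : s.v * (s.a * z) = 0 := by rw [← mul_assoc, s.d_v_a, zero_mul]
@[simp] theorem Mr.d_a_v : s.a * s.v = 0 := by
  rw [← s.h_a_u, mul_assoc, s.h_u_v, mul_zero]
@[simp] theorem Mr.rd_a_v (z : A) : s.a * (s.v * z) = 0 := by rw [← mul_assoc, s.d_a_v, zero_mul]
@[simp] theorem Mr.d_q_a : s.q * s.a = 0 := by
  rw [← s.h_u_a, ← mul_assoc, s.h_q_u, zero_mul]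
@[simp] theorem Mr.rd_q_a (z : A) : s.q * (s.a * z) = 0 := by rw [← mul_assoc, s.d_q_a, zero_mul]
@[simp] theorem Mr.d_a_q : s.a * s.q = 0 := by
  rw [← s.h_a_u, mul_assoc, s.h_u_q, mul_zero]
@[simp] theorem Mr.rd_a_q (z : A) : s.a * (s.q * z) = 0 := by rw [← mul_assoc, s.d_a_q, zero_mul]
@[simp] theorem Mr.d_v_b : s.v * s.b = 0 := by
  rw [← s.h_u_b, ← mul_assoc, s.h_v_u, zero_mul]
@[simp] theorem Mr.rd_v_b (z : A) : s.v * (s.b * z) = 0 := by rw [← mul_assoc, s.d_v_b, zero_mul]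
@[simp] theorem Mr.d_b_v : s.b * s.v = 0 := by
  rw [← s.h_b_u, mul_assoc, s.h_u_v, mul_zero]
@[simp] theorem Mr.rd_b_v (z : A) : s.b * (s.v * z) = 0 := by rw [← mul_assoc, s.d_b_v, zero_mul]
@[simp] theorem Mr.d_q_b : s.q * s.b = 0 := by
  rw [← s.h_u_b, ← mul_assoc, s.h_q_u, zero_mul]
@[simp] theorem Mr.rd_q_b (z : A) : s.q * (s.b * z) = 0 := by rw [← mul_assoc, s.d_q_b, zero_mul]
@[simp] theorem Mr.d_b_q : s.b * s.q = 0 := by
  rw [← s.h_b_u, mul_assoc, s.h_u_q, mul_zero]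
@[simp] theorem Mr.rd_b_q (z : A) : s.b * (s.q * z) = 0 := by rw [← mul_assoc, s.d_b_q, zero_mul]
@[simp] theorem Mr.d_c_u : s.c * s.u = 0 := by
  rw [← s.h_c_v, mul_assoc, s.h_v_u, mul_zero]
@[simp] theorem Mr.rd_c_u (z : A) : s.c * (s.u * z) = 0 := by rw [← mul_assoc, s.d_c_u, zero_mul]
@[simp] theorem Mr.d_v_c : s.v * s.c = 0 := by
  rw [← s.h_u_c, ← mul_assoc, s.h_v_u, zero_mul]
@[simp] theorem Mr.rd_v_c (z : A) : s.v * (s.c * z) = 0 := by rw [← mul_assoc, s.d_v_c, zero_mul]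
@[simp] theorem Mr.d_q_c : s.q * s.c = 0 := by
  rw [← s.h_u_c, ← mul_assoc, s.h_q_u, zero_mul]
@[simp] theorem Mr.rd_q_c (z : A) : s.q * (s.c * z) = 0 := by rw [← mul_assoc, s.d_q_c, zero_mul]
@[simp] theorem Mr.d_c_q : s.c * s.q = 0 := by
  rw [← s.h_c_v, mul_assoc, s.h_v_q, mul_zero]
@[simp] theorem Mr.rd_c_q (z : A) : s.c * (s.q * z) = 0 := by rw [← mul_assoc, s.d_c_q, zero_mul]
@[simp] theorem Mr.d_c_dl : s.c * s.dl = 0 := by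
  rw [← s.h_c_v, mul_assoc, s.d_v_dl, mul_zero]
@[simp] theorem Mr.rd_c_dl (z : A) : s.c * (s.dl * z) = 0 := by rw [← mul_assoc, s.d_c_dl, zero_mul]
@[simp] theorem Mr.d_u_d : s.u * s.d = 0 := by
  rw [← s.h_v_d, ← mul_assoc, s.h_u_v, zero_mul]
@[simp] theorem Mr.rd_u_d (z : A) : s.u * (s.d * z) = 0 := by rw [← mul_assoc, s.d_u_d, zero_mul]
@[simp] theorem Mr.d_d_v : s.d * s.v = 0 := by
  rw [← s.h_d_u, mul_assoc, s.h_u_v, mul_zero]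
@[simp] theorem Mr.rd_d_v (z : A) : s.d * (s.v * z) = 0 := by rw [← mul_assoc, s.d_d_v, zero_mul]
@[simp] theorem Mr.d_q_d : s.q * s.d = 0 := by
  rw [← s.h_v_d, ← mul_assoc, s.h_q_v, zero_mul]
@[simp] theorem Mr.rd_q_d (z : A) : s.q * (s.d * z) = 0 := by rw [← mul_assoc, s.d_q_d, zero_mul]
@[simp] theorem Mr.d_d_q : s.d * s.q = 0 := by
  rw [← s.h_d_u, mul_assoc, s.h_u_q, mul_zero]
@[simp] theorem Mr.rd_d_q (z : A) : s.d * (s.q * z) = 0 := by rw [← mul_assoc, s.d_d_q, zero_mul]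
@[simp] theorem Mr.d_dl_d : s.dl * s.d = 0 := by
  rw [← s.h_v_d, ← mul_assoc, s.d_dl_v, zero_mul]
@[simp] theorem Mr.rd_dl_d (z : A) : s.dl * (s.d * z) = 0 := by rw [← mul_assoc, s.d_dl_d, zero_mul]
@[simp] theorem Mr.d_u_e : s.u * s.e = 0 := by
  rw [← s.h_v_e, ← mul_assoc, s.h_u_v, zero_mul]
@[simp] theorem Mr.rd_u_e (z : A) : s.u * (s.e * z) = 0 := by rw [← mul_assoc, s.d_u_e, zero_mul]
@[simp] theorem Mr.d_e_u : s.e * s.u = 0 := by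
  rw [← s.h_e_v, mul_assoc, s.h_v_u, mul_zero]
@[simp] theorem Mr.rd_e_u (z : A) : s.e * (s.u * z) = 0 := by rw [← mul_assoc, s.d_e_u, zero_mul]
@[simp] theorem Mr.d_q_e : s.q * s.e = 0 := by
  rw [← s.h_v_e, ← mul_assoc, s.h_q_v, zero_mul]
@[simp] theorem Mr.rd_q_e (z : A) : s.q * (s.e * z) = 0 := by rw [← mul_assoc, s.d_q_e, zero_mul]
@[simp] theorem Mr.d_e_q : s.e * s.q = 0 := by
  rw [← s.h_e_v, mul_assoc, s.h_v_q, mul_zero]
@[simp] theorem Mr.rd_e_q (z : A) : s.e * (s.q * z) = 0 := by rw [← mul_assoc, s.d_e_q, zero_mul]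
@[simp] theorem Mr.d_dl_e : s.dl * s.e = 0 := by
  rw [← s.h_v_e, ← mul_assoc, s.d_dl_v, zero_mul]
@[simp] theorem Mr.rd_dl_e (z : A) : s.dl * (s.e * z) = 0 := by rw [← mul_assoc, s.d_dl_e, zero_mul]
@[simp] theorem Mr.d_e_dl : s.e * s.dl = 0 := by
  rw [← s.h_e_v, mul_assoc, s.d_v_dl, mul_zero]
@[simp] theorem Mr.rd_e_dl (z : A) : s.e * (s.dl * z) = 0 := by rw [← mul_assoc, s.d_e_dl, zero_mul]
@[simp] theorem Mr.d_u_f : s.u * s.f = 0 := by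
  rw [← s.h_v_f, ← mul_assoc, s.h_u_v, zero_mul]
@[simp] theorem Mr.rd_u_f (z : A) : s.u * (s.f * z) = 0 := by rw [← mul_assoc, s.d_u_f, zero_mul]
@[simp] theorem Mr.d_f_u : s.f * s.u = 0 := by
  rw [← s.h_f_q, mul_assoc, s.h_q_u, mul_zero]
@[simp] theorem Mr.rd_f_u (z : A) : s.f * (s.u * z) = 0 := by rw [← mul_assoc, s.d_f_u, zero_mul]
@[simp] theorem Mr.d_f_v : s.f * s.v = 0 := by
  rw [← s.h_f_q, mul_assoc, s.h_q_v, mul_zero]
@[simp] theorem Mr.rd_f_v (z : A) : s.f * (s.v * z) = 0 := by rw [← mul_assoc, s.d_f_v, zero_mul]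
@[simp] theorem Mr.d_q_f : s.q * s.f = 0 := by
  rw [← s.h_v_f, ← mul_assoc, s.h_q_v, zero_mul]
@[simp] theorem Mr.rd_q_f (z : A) : s.q * (s.f * z) = 0 := by rw [← mul_assoc, s.d_q_f, zero_mul]
@[simp] theorem Mr.d_dl_f : s.dl * s.f = 0 := by
  rw [← s.h_v_f, ← mul_assoc, s.d_dl_v, zero_mul]
@[simp] theorem Mr.rd_dl_f (z : A) : s.dl * (s.f * z) = 0 := by rw [← mul_assoc, s.d_dl_f, zero_mul]
@[simp] theorem Mr.d_f_dl : s.f * s.dl = 0 := by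
  rw [← s.h_f_q, mul_assoc, s.d_q_dl, mul_zero]
@[simp] theorem Mr.rd_f_dl (z : A) : s.f * (s.dl * z) = 0 := by rw [← mul_assoc, s.d_f_dl, zero_mul]
@[simp] theorem Mr.d_u_g : s.u * s.g = 0 := by
  rw [← s.h_q_g, ← mul_assoc, s.h_u_q, zero_mul]
@[simp] theorem Mr.rd_u_g (z : A) : s.u * (s.g * z) = 0 := by rw [← mul_assoc, s.d_u_g, zero_mul]
@[simp] theorem Mr.d_g_u : s.g * s.u = 0 := by
  rw [← s.h_g_v, mul_assoc, s.h_v_u, mul_zero]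
@[simp] theorem Mr.rd_g_u (z : A) : s.g * (s.u * z) = 0 := by rw [← mul_assoc, s.d_g_u, zero_mul]
@[simp] theorem Mr.d_v_g : s.v * s.g = 0 := by
  rw [← s.h_q_g, ← mul_assoc, s.h_v_q, zero_mul]
@[simp] theorem Mr.rd_v_g (z : A) : s.v * (s.g * z) = 0 := by rw [← mul_assoc, s.d_v_g, zero_mul]
@[simp] theorem Mr.d_g_q : s.g * s.q = 0 := by
  rw [← s.h_g_v, mul_assoc, s.h_v_q, mul_zero]
@[simp] theorem Mr.rd_g_q (z : A) : s.g * (s.q * z) = 0 := by rw [← mul_assoc, s.d_g_q, zero_mul]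
@[simp] theorem Mr.d_dl_g : s.dl * s.g = 0 := by
  rw [← s.h_q_g, ← mul_assoc, s.d_dl_q, zero_mul]
@[simp] theorem Mr.rd_dl_g (z : A) : s.dl * (s.g * z) = 0 := by rw [← mul_assoc, s.d_dl_g, zero_mul]
@[simp] theorem Mr.d_g_dl : s.g * s.dl = 0 := by
  rw [← s.h_g_v, mul_assoc, s.d_v_dl, mul_zero]
@[simp] theorem Mr.rd_g_dl (z : A) : s.g * (s.dl * z) = 0 := by rw [← mul_assoc, s.d_g_dl, zero_mul]
@[simp] theorem Mr.d_u_h : s.u * s.h = 0 := by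
  rw [← s.h_q_h, ← mul_assoc, s.h_u_q, zero_mul]
@[simp] theorem Mr.rd_u_h (z : A) : s.u * (s.h * z) = 0 := by rw [← mul_assoc, s.d_u_h, zero_mul]
@[simp] theorem Mr.d_h_u : s.h * s.u = 0 := by
  rw [← s.h_h_q, mul_assoc, s.h_q_u, mul_zero]
@[simp] theorem Mr.rd_h_u (z : A) : s.h * (s.u * z) = 0 := by rw [← mul_assoc, s.d_h_u, zero_mul]
@[simp] theorem Mr.d_v_h : s.v * s.h = 0 := by
  rw [← s.h_q_h, ← mul_assoc, s.h_v_q, zero_mul]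
@[simp] theorem Mr.rd_v_h (z : A) : s.v * (s.h * z) = 0 := by rw [← mul_assoc, s.d_v_h, zero_mul]
@[simp] theorem Mr.d_h_v : s.h * s.v = 0 := by
  rw [← s.h_h_q, mul_assoc, s.h_q_v, mul_zero]
@[simp] theorem Mr.rd_h_v (z : A) : s.h * (s.v * z) = 0 := by rw [← mul_assoc, s.d_h_v, zero_mul]
@[simp] theorem Mr.d_dl_h : s.dl * s.h = 0 := by
  rw [← s.h_q_h, ← mul_assoc, s.d_dl_q, zero_mul]
@[simp] theorem Mr.rd_dl_h (z : A) : s.dl * (s.h * z) = 0 := by rw [← mul_assoc, s.d_dl_h, zero_mul]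
@[simp] theorem Mr.d_h_dl : s.h * s.dl = 0 := by
  rw [← s.h_h_q, mul_assoc, s.d_q_dl, mul_zero]
@[simp] theorem Mr.rd_h_dl (z : A) : s.h * (s.dl * z) = 0 := by rw [← mul_assoc, s.d_h_dl, zero_mul]
@[simp] theorem Mr.d_u_r : s.u * s.r = 0 := by
  rw [← s.h_q_r, ← mul_assoc, s.h_u_q, zero_mul]
@[simp] theorem Mr.rd_u_r (z : A) : s.u * (s.r * z) = 0 := by rw [← mul_assoc, s.d_u_r, zero_mul]
@[simp] theorem Mr.d_r_u : s.r * s.u = 0 := by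
  rw [← s.h_r_v, mul_assoc, s.h_v_u, mul_zero]
@[simp] theorem Mr.rd_r_u (z : A) : s.r * (s.u * z) = 0 := by rw [← mul_assoc, s.d_r_u, zero_mul]
@[simp] theorem Mr.d_v_r : s.v * s.r = 0 := by
  rw [← s.h_q_r, ← mul_assoc, s.h_v_q, zero_mul]
@[simp] theorem Mr.rd_v_r (z : A) : s.v * (s.r * z) = 0 := by rw [← mul_assoc, s.d_v_r, zero_mul]
@[simp] theorem Mr.d_r_q : s.r * s.q = 0 := by
  rw [← s.h_r_v, mul_assoc, s.h_v_q, mul_zero]
@[simp] theorem Mr.rd_r_q (z : A) : s.r * (s.q * z) = 0 := by rw [← mul_assoc, s.d_r_q, zero_mul]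
@[simp] theorem Mr.d_dl_r : s.dl * s.r = 0 := by
  rw [← s.h_q_r, ← mul_assoc, s.d_dl_q, zero_mul]
@[simp] theorem Mr.rd_dl_r (z : A) : s.dl * (s.r * z) = 0 := by rw [← mul_assoc, s.d_dl_r, zero_mul]
@[simp] theorem Mr.d_r_dl : s.r * s.dl = 0 := by
  rw [← s.h_r_v, mul_assoc, s.d_v_dl, mul_zero]
@[simp] theorem Mr.rd_r_dl (z : A) : s.r * (s.dl * z) = 0 := by rw [← mul_assoc, s.d_r_dl, zero_mul]
@[simp] theorem Mr.d_u_S : s.u * s.S = 0 := by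
  rw [← s.h_q_S, ← mul_assoc, s.h_u_q, zero_mul]
@[simp] theorem Mr.rd_u_S (z : A) : s.u * (s.S * z) = 0 := by rw [← mul_assoc, s.d_u_S, zero_mul]
@[simp] theorem Mr.d_v_S : s.v * s.S = 0 := by
  rw [← s.h_q_S, ← mul_assoc, s.h_v_q, zero_mul]
@[simp] theorem Mr.rd_v_S (z : A) : s.v * (s.S * z) = 0 := by rw [← mul_assoc, s.d_v_S, zero_mul]
@[simp] theorem Mr.d_S_v : s.S * s.v = 0 := by
  rw [← s.h_S_dl, mul_assoc, s.d_dl_v, mul_zero]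
@[simp] theorem Mr.rd_S_v (z : A) : s.S * (s.v * z) = 0 := by rw [← mul_assoc, s.d_S_v, zero_mul]
@[simp] theorem Mr.d_S_q : s.S * s.q = 0 := by
  rw [← s.h_S_dl, mul_assoc, s.d_dl_q, mul_zero]
@[simp] theorem Mr.rd_S_q (z : A) : s.S * (s.q * z) = 0 := by rw [← mul_assoc, s.d_S_q, zero_mul]
@[simp] theorem Mr.d_dl_S : s.dl * s.S = 0 := by
  rw [← s.h_q_S, ← mul_assoc, s.d_dl_q, zero_mul]
@[simp] theorem Mr.rd_dl_S (z : A) : s.dl * (s.S * z) = 0 := by rw [← mul_assoc, s.d_dl_S, zero_mul]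
@[simp] theorem Mr.d_v_ai : s.v * s.a' = 0 := by
  rw [← s.h_u_ai, ← mul_assoc, s.h_v_u, zero_mul]
@[simp] theorem Mr.rd_v_ai (z : A) : s.v * (s.a' * z) = 0 := by rw [← mul_assoc, s.d_v_ai, zero_mul]
@[simp] theorem Mr.d_ai_v : s.a' * s.v = 0 := by
  rw [← s.h_ai_u, mul_assoc, s.h_u_v, mul_zero]
@[simp] theorem Mr.rd_ai_v (z : A) : s.a' * (s.v * z) = 0 := by rw [← mul_assoc, s.d_ai_v, zero_mul]
@[simp] theorem Mr.d_q_ai : s.q * s.a' = 0 := by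
  rw [← s.h_u_ai, ← mul_assoc, s.h_q_u, zero_mul]
@[simp] theorem Mr.rd_q_ai (z : A) : s.q * (s.a' * z) = 0 := by rw [← mul_assoc, s.d_q_ai, zero_mul]
@[simp] theorem Mr.d_ai_q : s.a' * s.q = 0 := by
  rw [← s.h_ai_u, mul_assoc, s.h_u_q, mul_zero]
@[simp] theorem Mr.rd_ai_q (z : A) : s.a' * (s.q * z) = 0 := by rw [← mul_assoc, s.d_ai_q, zero_mul]
@[simp] theorem Mr.d_v_bi : s.v * s.b' = 0 := by
  rw [← s.h_u_bi, ← mul_assoc, s.h_v_u, zero_mul]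
@[simp] theorem Mr.rd_v_bi (z : A) : s.v * (s.b' * z) = 0 := by rw [← mul_assoc, s.d_v_bi, zero_mul]
@[simp] theorem Mr.d_bi_v : s.b' * s.v = 0 := by
  rw [← s.h_bi_u, mul_assoc, s.h_u_v, mul_zero]
@[simp] theorem Mr.rd_bi_v (z : A) : s.b' * (s.v * z) = 0 := by rw [← mul_assoc, s.d_bi_v, zero_mul]
@[simp] theorem Mr.d_q_bi : s.q * s.b' = 0 := by
  rw [← s.h_u_bi, ← mul_assoc, s.h_q_u, zero_mul]
@[simp] theorem Mr.rd_q_bi (z : A) : s.q * (s.b' * z) = 0 := by rw [← mul_assoc, s.d_q_bi, zero_mul]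
@[simp] theorem Mr.d_bi_q : s.b' * s.q = 0 := by
  rw [← s.h_bi_u, mul_assoc, s.h_u_q, mul_zero]
@[simp] theorem Mr.rd_bi_q (z : A) : s.b' * (s.q * z) = 0 := by rw [← mul_assoc, s.d_bi_q, zero_mul]
@[simp] theorem Mr.d_u_ci : s.u * s.c' = 0 := by
  rw [← s.h_v_ci, ← mul_assoc, s.h_u_v, zero_mul]
@[simp] theorem Mr.rd_u_ci (z : A) : s.u * (s.c' * z) = 0 := by rw [← mul_assoc, s.d_u_ci, zero_mul]
@[simp] theorem Mr.d_ci_v : s.c' * s.v = 0 := by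
  rw [← s.h_ci_u, mul_assoc, s.h_u_v, mul_zero]
@[simp] theorem Mr.rd_ci_v (z : A) : s.c' * (s.v * z) = 0 := by rw [← mul_assoc, s.d_ci_v, zero_mul]
@[simp] theorem Mr.d_q_ci : s.q * s.c' = 0 := by
  rw [← s.h_v_ci, ← mul_assoc, s.h_q_v, zero_mul]
@[simp] theorem Mr.rd_q_ci (z : A) : s.q * (s.c' * z) = 0 := by rw [← mul_assoc, s.d_q_ci, zero_mul]
@[simp] theorem Mr.d_ci_q : s.c' * s.q = 0 := by
  rw [← s.h_ci_u, mul_assoc, s.h_u_q, mul_zero]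
@[simp] theorem Mr.rd_ci_q (z : A) : s.c' * (s.q * z) = 0 := by rw [← mul_assoc, s.d_ci_q, zero_mul]
@[simp] theorem Mr.d_dl_ci : s.dl * s.c' = 0 := by
  rw [← s.h_v_ci, ← mul_assoc, s.d_dl_v, zero_mul]
@[simp] theorem Mr.rd_dl_ci (z : A) : s.dl * (s.c' * z) = 0 := by rw [← mul_assoc, s.d_dl_ci, zero_mul]
@[simp] theorem Mr.d_di_u : s.d' * s.u = 0 := by
  rw [← s.h_di_v, mul_assoc, s.h_v_u, mul_zero]
@[simp] theorem Mr.rd_di_u (z : A) : s.d' * (s.u * z) = 0 := by rw [← mul_assoc, s.d_di_u, zero_mul]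
@[simp] theorem Mr.d_v_di : s.v * s.d' = 0 := by
  rw [← s.h_u_di, ← mul_assoc, s.h_v_u, zero_mul]
@[simp] theorem Mr.rd_v_di (z : A) : s.v * (s.d' * z) = 0 := by rw [← mul_assoc, s.d_v_di, zero_mul]
@[simp] theorem Mr.d_q_di : s.q * s.d' = 0 := by
  rw [← s.h_u_di, ← mul_assoc, s.h_q_u, zero_mul]
@[simp] theorem Mr.rd_q_di (z : A) : s.q * (s.d' * z) = 0 := by rw [← mul_assoc, s.d_q_di, zero_mul]
@[simp] theorem Mr.d_di_q : s.d' * s.q = 0 := by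
  rw [← s.h_di_v, mul_assoc, s.h_v_q, mul_zero]
@[simp] theorem Mr.rd_di_q (z : A) : s.d' * (s.q * z) = 0 := by rw [← mul_assoc, s.d_di_q, zero_mul]
@[simp] theorem Mr.d_di_dl : s.d' * s.dl = 0 := by
  rw [← s.h_di_v, mul_assoc, s.d_v_dl, mul_zero]
@[simp] theorem Mr.rd_di_dl (z : A) : s.d' * (s.dl * z) = 0 := by rw [← mul_assoc, s.d_di_dl, zero_mul]
@[simp] theorem Mr.d_u_ei : s.u * s.e' = 0 := by
  rw [← s.h_v_ei, ← mul_assoc, s.h_u_v, zero_mul]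
@[simp] theorem Mr.rd_u_ei (z : A) : s.u * (s.e' * z) = 0 := by rw [← mul_assoc, s.d_u_ei, zero_mul]
@[simp] theorem Mr.d_ei_u : s.e' * s.u = 0 := by
  rw [← s.h_ei_v, mul_assoc, s.h_v_u, mul_zero]
@[simp] theorem Mr.rd_ei_u (z : A) : s.e' * (s.u * z) = 0 := by rw [← mul_assoc, s.d_ei_u, zero_mul]
@[simp] theorem Mr.d_q_ei : s.q * s.e' = 0 := by
  rw [← s.h_v_ei, ← mul_assoc, s.h_q_v, zero_mul]
@[simp] theorem Mr.rd_q_ei (z : A) : s.q * (s.e' * z) = 0 := by rw [← mul_assoc, s.d_q_ei, zero_mul]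
@[simp] theorem Mr.d_ei_q : s.e' * s.q = 0 := by
  rw [← s.h_ei_v, mul_assoc, s.h_v_q, mul_zero]
@[simp] theorem Mr.rd_ei_q (z : A) : s.e' * (s.q * z) = 0 := by rw [← mul_assoc, s.d_ei_q, zero_mul]
@[simp] theorem Mr.d_dl_ei : s.dl * s.e' = 0 := by
  rw [← s.h_v_ei, ← mul_assoc, s.d_dl_v, zero_mul]
@[simp] theorem Mr.rd_dl_ei (z : A) : s.dl * (s.e' * z) = 0 := by rw [← mul_assoc, s.d_dl_ei, zero_mul]
@[simp] theorem Mr.d_ei_dl : s.e' * s.dl = 0 := by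
  rw [← s.h_ei_v, mul_assoc, s.d_v_dl, mul_zero]
@[simp] theorem Mr.rd_ei_dl (z : A) : s.e' * (s.dl * z) = 0 := by rw [← mul_assoc, s.d_ei_dl, zero_mul]
@[simp] theorem Mr.d_u_fi : s.u * s.f' = 0 := by
  rw [← s.h_q_fi, ← mul_assoc, s.h_u_q, zero_mul]
@[simp] theorem Mr.rd_u_fi (z : A) : s.u * (s.f' * z) = 0 := by rw [← mul_assoc, s.d_u_fi, zero_mul]
@[simp] theorem Mr.d_fi_u : s.f' * s.u = 0 := by
  rw [← s.h_fi_v, mul_assoc, s.h_v_u, mul_zero]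
@[simp] theorem Mr.rd_fi_u (z : A) : s.f' * (s.u * z) = 0 := by rw [← mul_assoc, s.d_fi_u, zero_mul]
@[simp] theorem Mr.d_v_fi : s.v * s.f' = 0 := by
  rw [← s.h_q_fi, ← mul_assoc, s.h_v_q, zero_mul]
@[simp] theorem Mr.rd_v_fi (z : A) : s.v * (s.f' * z) = 0 := by rw [← mul_assoc, s.d_v_fi, zero_mul]
@[simp] theorem Mr.d_fi_q : s.f' * s.q = 0 := by
  rw [← s.h_fi_v, mul_assoc, s.h_v_q, mul_zero]
@[simp] theorem Mr.rd_fi_q (z : A) : s.f' * (s.q * z) = 0 := by rw [← mul_assoc, s.d_fi_q, zero_mul]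
@[simp] theorem Mr.d_dl_fi : s.dl * s.f' = 0 := by
  rw [← s.h_q_fi, ← mul_assoc, s.d_dl_q, zero_mul]
@[simp] theorem Mr.rd_dl_fi (z : A) : s.dl * (s.f' * z) = 0 := by rw [← mul_assoc, s.d_dl_fi, zero_mul]
@[simp] theorem Mr.d_fi_dl : s.f' * s.dl = 0 := by
  rw [← s.h_fi_v, mul_assoc, s.d_v_dl, mul_zero]
@[simp] theorem Mr.rd_fi_dl (z : A) : s.f' * (s.dl * z) = 0 := by rw [← mul_assoc, s.d_fi_dl, zero_mul]
@[simp] theorem Mr.d_u_gi : s.u * s.g' = 0 := by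
  rw [← s.h_v_gi, ← mul_assoc, s.h_u_v, zero_mul]
@[simp] theorem Mr.rd_u_gi (z : A) : s.u * (s.g' * z) = 0 := by rw [← mul_assoc, s.d_u_gi, zero_mul]
@[simp] theorem Mr.d_gi_u : s.g' * s.u = 0 := by
  rw [← s.h_gi_q, mul_assoc, s.h_q_u, mul_zero]
@[simp] theorem Mr.rd_gi_u (z : A) : s.g' * (s.u * z) = 0 := by rw [← mul_assoc, s.d_gi_u, zero_mul]
@[simp] theorem Mr.d_gi_v : s.g' * s.v = 0 := by
  rw [← s.h_gi_q, mul_assoc, s.h_q_v, mul_zero]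
@[simp] theorem Mr.rd_gi_v (z : A) : s.g' * (s.v * z) = 0 := by rw [← mul_assoc, s.d_gi_v, zero_mul]
@[simp] theorem Mr.d_q_gi : s.q * s.g' = 0 := by
  rw [← s.h_v_gi, ← mul_assoc, s.h_q_v, zero_mul]
@[simp] theorem Mr.rd_q_gi (z : A) : s.q * (s.g' * z) = 0 := by rw [← mul_assoc, s.d_q_gi, zero_mul]
@[simp] theorem Mr.d_dl_gi : s.dl * s.g' = 0 := by
  rw [← s.h_v_gi, ← mul_assoc, s.d_dl_v, zero_mul]
@[simp] theorem Mr.rd_dl_gi (z : A) : s.dl * (s.g' * z) = 0 := by rw [← mul_assoc, s.d_dl_gi, zero_mul]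
@[simp] theorem Mr.d_gi_dl : s.g' * s.dl = 0 := by
  rw [← s.h_gi_q, mul_assoc, s.d_q_dl, mul_zero]
@[simp] theorem Mr.rd_gi_dl (z : A) : s.g' * (s.dl * z) = 0 := by rw [← mul_assoc, s.d_gi_dl, zero_mul]
@[simp] theorem Mr.d_u_hi : s.u * s.h' = 0 := by
  rw [← s.h_q_hi, ← mul_assoc, s.h_u_q, zero_mul]
@[simp] theorem Mr.rd_u_hi (z : A) : s.u * (s.h' * z) = 0 := by rw [← mul_assoc, s.d_u_hi, zero_mul]
@[simp] theorem Mr.d_hi_u : s.h' * s.u = 0 := by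
  rw [← s.h_hi_q, mul_assoc, s.h_q_u, mul_zero]
@[simp] theorem Mr.rd_hi_u (z : A) : s.h' * (s.u * z) = 0 := by rw [← mul_assoc, s.d_hi_u, zero_mul]
@[simp] theorem Mr.d_v_hi : s.v * s.h' = 0 := by
  rw [← s.h_q_hi, ← mul_assoc, s.h_v_q, zero_mul]
@[simp] theorem Mr.rd_v_hi (z : A) : s.v * (s.h' * z) = 0 := by rw [← mul_assoc, s.d_v_hi, zero_mul]
@[simp] theorem Mr.d_hi_v : s.h' * s.v = 0 := by
  rw [← s.h_hi_q, mul_assoc, s.h_q_v, mul_zero]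
@[simp] theorem Mr.rd_hi_v (z : A) : s.h' * (s.v * z) = 0 := by rw [← mul_assoc, s.d_hi_v, zero_mul]
@[simp] theorem Mr.d_dl_hi : s.dl * s.h' = 0 := by
  rw [← s.h_q_hi, ← mul_assoc, s.d_dl_q, zero_mul]
@[simp] theorem Mr.rd_dl_hi (z : A) : s.dl * (s.h' * z) = 0 := by rw [← mul_assoc, s.d_dl_hi, zero_mul]
@[simp] theorem Mr.d_hi_dl : s.h' * s.dl = 0 := by
  rw [← s.h_hi_q, mul_assoc, s.d_q_dl, mul_zero]
@[simp] theorem Mr.rd_hi_dl (z : A) : s.h' * (s.dl * z) = 0 := by rw [← mul_assoc, s.d_hi_dl, zero_mul]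
@[simp] theorem Mr.d_u_ri : s.u * s.r' = 0 := by
  rw [← s.h_v_ri, ← mul_assoc, s.h_u_v, zero_mul]
@[simp] theorem Mr.rd_u_ri (z : A) : s.u * (s.r' * z) = 0 := by rw [← mul_assoc, s.d_u_ri, zero_mul]
@[simp] theorem Mr.d_ri_u : s.r' * s.u = 0 := by
  rw [← s.h_ri_q, mul_assoc, s.h_q_u, mul_zero]
@[simp] theorem Mr.rd_ri_u (z : A) : s.r' * (s.u * z) = 0 := by rw [← mul_assoc, s.d_ri_u, zero_mul]
@[simp] theorem Mr.d_ri_v : s.r' * s.v = 0 := by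
  rw [← s.h_ri_q, mul_assoc, s.h_q_v, mul_zero]
@[simp] theorem Mr.rd_ri_v (z : A) : s.r' * (s.v * z) = 0 := by rw [← mul_assoc, s.d_ri_v, zero_mul]
@[simp] theorem Mr.d_q_ri : s.q * s.r' = 0 := by
  rw [← s.h_v_ri, ← mul_assoc, s.h_q_v, zero_mul]
@[simp] theorem Mr.rd_q_ri (z : A) : s.q * (s.r' * z) = 0 := by rw [← mul_assoc, s.d_q_ri, zero_mul]
@[simp] theorem Mr.d_dl_ri : s.dl * s.r' = 0 := by
  rw [← s.h_v_ri, ← mul_assoc, s.d_dl_v, zero_mul]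
@[simp] theorem Mr.rd_dl_ri (z : A) : s.dl * (s.r' * z) = 0 := by rw [← mul_assoc, s.d_dl_ri, zero_mul]
@[simp] theorem Mr.d_ri_dl : s.r' * s.dl = 0 := by
  rw [← s.h_ri_q, mul_assoc, s.d_q_dl, mul_zero]
@[simp] theorem Mr.rd_ri_dl (z : A) : s.r' * (s.dl * z) = 0 := by rw [← mul_assoc, s.d_ri_dl, zero_mul]
@[simp] theorem Mr.d_Si_u : s.S' * s.u = 0 := by
  rw [← s.h_Si_q, mul_assoc, s.h_q_u, mul_zero]
@[simp] theorem Mr.rd_Si_u (z : A) : s.S' * (s.u * z) = 0 := by rw [← mul_assoc, s.d_Si_u, zero_mul]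
@[simp] theorem Mr.d_v_Si : s.v * s.S' = 0 := by
  rw [← s.h_dl_Si, ← mul_assoc, s.d_v_dl, zero_mul]
@[simp] theorem Mr.rd_v_Si (z : A) : s.v * (s.S' * z) = 0 := by rw [← mul_assoc, s.d_v_Si, zero_mul]
@[simp] theorem Mr.d_Si_v : s.S' * s.v = 0 := by
  rw [← s.h_Si_q, mul_assoc, s.h_q_v, mul_zero]
@[simp] theorem Mr.rd_Si_v (z : A) : s.S' * (s.v * z) = 0 := by rw [← mul_assoc, s.d_Si_v, zero_mul]
@[simp] theorem Mr.d_q_Si : s.q * s.S' = 0 := by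
  rw [← s.h_dl_Si, ← mul_assoc, s.d_q_dl, zero_mul]
@[simp] theorem Mr.rd_q_Si (z : A) : s.q * (s.S' * z) = 0 := by rw [← mul_assoc, s.d_q_Si, zero_mul]
@[simp] theorem Mr.d_Si_dl : s.S' * s.dl = 0 := by
  rw [← s.h_Si_q, mul_assoc, s.d_q_dl, mul_zero]
@[simp] theorem Mr.rd_Si_dl (z : A) : s.S' * (s.dl * z) = 0 := by rw [← mul_assoc, s.d_Si_dl, zero_mul]
@[simp] theorem Mr.d_a_d : s.a * s.d = 0 := by
  rw [show s.a * s.d = s.a * (s.u * s.d) by rw [← mul_assoc, s.h_a_u], s.d_u_d, mul_zero]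
@[simp] theorem Mr.rd_a_d (z : A) : s.a * (s.d * z) = 0 := by rw [← mul_assoc, s.d_a_d, zero_mul]
@[simp] theorem Mr.d_a_e : s.a * s.e = 0 := by
  rw [show s.a * s.e = s.a * (s.u * s.e) by rw [← mul_assoc, s.h_a_u], s.d_u_e, mul_zero]
@[simp] theorem Mr.rd_a_e (z : A) : s.a * (s.e * z) = 0 := by rw [← mul_assoc, s.d_a_e, zero_mul]
@[simp] theorem Mr.d_a_f : s.a * s.f = 0 := by
  rw [show s.a * s.f = s.a * (s.u * s.f) by rw [← mul_assoc, s.h_a_u], s.d_u_f, mul_zero]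
@[simp] theorem Mr.rd_a_f (z : A) : s.a * (s.f * z) = 0 := by rw [← mul_assoc, s.d_a_f, zero_mul]
@[simp] theorem Mr.d_a_g : s.a * s.g = 0 := by
  rw [show s.a * s.g = s.a * (s.u * s.g) by rw [← mul_assoc, s.h_a_u], s.d_u_g, mul_zero]
@[simp] theorem Mr.rd_a_g (z : A) : s.a * (s.g * z) = 0 := by rw [← mul_assoc, s.d_a_g, zero_mul]
@[simp] theorem Mr.d_a_h : s.a * s.h = 0 := by
  rw [show s.a * s.h = s.a * (s.u * s.h) by rw [← mul_assoc, s.h_a_u], s.d_u_h, mul_zero]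
@[simp] theorem Mr.rd_a_h (z : A) : s.a * (s.h * z) = 0 := by rw [← mul_assoc, s.d_a_h, zero_mul]
@[simp] theorem Mr.d_a_r : s.a * s.r = 0 := by
  rw [show s.a * s.r = s.a * (s.u * s.r) by rw [← mul_assoc, s.h_a_u], s.d_u_r, mul_zero]
@[simp] theorem Mr.rd_a_r (z : A) : s.a * (s.r * z) = 0 := by rw [← mul_assoc, s.d_a_r, zero_mul]
@[simp] theorem Mr.d_a_S : s.a * s.S = 0 := by
  rw [show s.a * s.S = s.a * (s.u * s.S) by rw [← mul_assoc, s.h_a_u], s.d_u_S, mul_zero]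
@[simp] theorem Mr.rd_a_S (z : A) : s.a * (s.S * z) = 0 := by rw [← mul_assoc, s.d_a_S, zero_mul]
@[simp] theorem Mr.d_a_ci : s.a * s.c' = 0 := by
  rw [show s.a * s.c' = s.a * (s.u * s.c') by rw [← mul_assoc, s.h_a_u], s.d_u_ci, mul_zero]
@[simp] theorem Mr.rd_a_ci (z : A) : s.a * (s.c' * z) = 0 := by rw [← mul_assoc, s.d_a_ci, zero_mul]
@[simp] theorem Mr.d_a_ei : s.a * s.e' = 0 := by
  rw [show s.a * s.e' = s.a * (s.u * s.e') by rw [← mul_assoc, s.h_a_u], s.d_u_ei, mul_zero]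
@[simp] theorem Mr.rd_a_ei (z : A) : s.a * (s.e' * z) = 0 := by rw [← mul_assoc, s.d_a_ei, zero_mul]
@[simp] theorem Mr.d_a_fi : s.a * s.f' = 0 := by
  rw [show s.a * s.f' = s.a * (s.u * s.f') by rw [← mul_assoc, s.h_a_u], s.d_u_fi, mul_zero]
@[simp] theorem Mr.rd_a_fi (z : A) : s.a * (s.f' * z) = 0 := by rw [← mul_assoc, s.d_a_fi, zero_mul]
@[simp] theorem Mr.d_a_gi : s.a * s.g' = 0 := by
  rw [show s.a * s.g' = s.a * (s.u * s.g') by rw [← mul_assoc, s.h_a_u], s.d_u_gi, mul_zero]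
@[simp] theorem Mr.rd_a_gi (z : A) : s.a * (s.g' * z) = 0 := by rw [← mul_assoc, s.d_a_gi, zero_mul]
@[simp] theorem Mr.d_a_hi : s.a * s.h' = 0 := by
  rw [show s.a * s.h' = s.a * (s.u * s.h') by rw [← mul_assoc, s.h_a_u], s.d_u_hi, mul_zero]
@[simp] theorem Mr.rd_a_hi (z : A) : s.a * (s.h' * z) = 0 := by rw [← mul_assoc, s.d_a_hi, zero_mul]
@[simp] theorem Mr.d_a_ri : s.a * s.r' = 0 := by
  rw [show s.a * s.r' = s.a * (s.u * s.r') by rw [← mul_assoc, s.h_a_u], s.d_u_ri, mul_zero]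
@[simp] theorem Mr.rd_a_ri (z : A) : s.a * (s.r' * z) = 0 := by rw [← mul_assoc, s.d_a_ri, zero_mul]
@[simp] theorem Mr.d_b_d : s.b * s.d = 0 := by
  rw [show s.b * s.d = s.b * (s.u * s.d) by rw [← mul_assoc, s.h_b_u], s.d_u_d, mul_zero]
@[simp] theorem Mr.rd_b_d (z : A) : s.b * (s.d * z) = 0 := by rw [← mul_assoc, s.d_b_d, zero_mul]
@[simp] theorem Mr.d_b_e : s.b * s.e = 0 := by
  rw [show s.b * s.e = s.b * (s.u * s.e) by rw [← mul_assoc, s.h_b_u], s.d_u_e, mul_zero]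
@[simp] theorem Mr.rd_b_e (z : A) : s.b * (s.e * z) = 0 := by rw [← mul_assoc, s.d_b_e, zero_mul]
@[simp] theorem Mr.d_b_f : s.b * s.f = 0 := by
  rw [show s.b * s.f = s.b * (s.u * s.f) by rw [← mul_assoc, s.h_b_u], s.d_u_f, mul_zero]
@[simp] theorem Mr.rd_b_f (z : A) : s.b * (s.f * z) = 0 := by rw [← mul_assoc, s.d_b_f, zero_mul]
@[simp] theorem Mr.d_b_g : s.b * s.g = 0 := by
  rw [show s.b * s.g = s.b * (s.u * s.g) by rw [← mul_assoc, s.h_b_u], s.d_u_g, mul_zero]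
@[simp] theorem Mr.rd_b_g (z : A) : s.b * (s.g * z) = 0 := by rw [← mul_assoc, s.d_b_g, zero_mul]
@[simp] theorem Mr.d_b_h : s.b * s.h = 0 := by
  rw [show s.b * s.h = s.b * (s.u * s.h) by rw [← mul_assoc, s.h_b_u], s.d_u_h, mul_zero]
@[simp] theorem Mr.rd_b_h (z : A) : s.b * (s.h * z) = 0 := by rw [← mul_assoc, s.d_b_h, zero_mul]
@[simp] theorem Mr.d_b_r : s.b * s.r = 0 := by
  rw [show s.b * s.r = s.b * (s.u * s.r) by rw [← mul_assoc, s.h_b_u], s.d_u_r, mul_zero]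
@[simp] theorem Mr.rd_b_r (z : A) : s.b * (s.r * z) = 0 := by rw [← mul_assoc, s.d_b_r, zero_mul]
@[simp] theorem Mr.d_b_S : s.b * s.S = 0 := by
  rw [show s.b * s.S = s.b * (s.u * s.S) by rw [← mul_assoc, s.h_b_u], s.d_u_S, mul_zero]
@[simp] theorem Mr.rd_b_S (z : A) : s.b * (s.S * z) = 0 := by rw [← mul_assoc, s.d_b_S, zero_mul]
@[simp] theorem Mr.d_b_ci : s.b * s.c' = 0 := by
  rw [show s.b * s.c' = s.b * (s.u * s.c') by rw [← mul_assoc, s.h_b_u], s.d_u_ci, mul_zero]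
@[simp] theorem Mr.rd_b_ci (z : A) : s.b * (s.c' * z) = 0 := by rw [← mul_assoc, s.d_b_ci, zero_mul]
@[simp] theorem Mr.d_b_ei : s.b * s.e' = 0 := by
  rw [show s.b * s.e' = s.b * (s.u * s.e') by rw [← mul_assoc, s.h_b_u], s.d_u_ei, mul_zero]
@[simp] theorem Mr.rd_b_ei (z : A) : s.b * (s.e' * z) = 0 := by rw [← mul_assoc, s.d_b_ei, zero_mul]
@[simp] theorem Mr.d_b_fi : s.b * s.f' = 0 := by
  rw [show s.b * s.f' = s.b * (s.u * s.f') by rw [← mul_assoc, s.h_b_u], s.d_u_fi, mul_zero]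
@[simp] theorem Mr.rd_b_fi (z : A) : s.b * (s.f' * z) = 0 := by rw [← mul_assoc, s.d_b_fi, zero_mul]
@[simp] theorem Mr.d_b_gi : s.b * s.g' = 0 := by
  rw [show s.b * s.g' = s.b * (s.u * s.g') by rw [← mul_assoc, s.h_b_u], s.d_u_gi, mul_zero]
@[simp] theorem Mr.rd_b_gi (z : A) : s.b * (s.g' * z) = 0 := by rw [← mul_assoc, s.d_b_gi, zero_mul]
@[simp] theorem Mr.d_b_hi : s.b * s.h' = 0 := by
  rw [show s.b * s.h' = s.b * (s.u * s.h') by rw [← mul_assoc, s.h_b_u], s.d_u_hi, mul_zero]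
@[simp] theorem Mr.rd_b_hi (z : A) : s.b * (s.h' * z) = 0 := by rw [← mul_assoc, s.d_b_hi, zero_mul]
@[simp] theorem Mr.d_b_ri : s.b * s.r' = 0 := by
  rw [show s.b * s.r' = s.b * (s.u * s.r') by rw [← mul_assoc, s.h_b_u], s.d_u_ri, mul_zero]
@[simp] theorem Mr.rd_b_ri (z : A) : s.b * (s.r' * z) = 0 := by rw [← mul_assoc, s.d_b_ri, zero_mul]
@[simp] theorem Mr.d_c_a : s.c * s.a = 0 := by
  rw [show s.c * s.a = s.c * (s.v * s.a) by rw [← mul_assoc, s.h_c_v], s.d_v_a, mul_zero]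
@[simp] theorem Mr.rd_c_a (z : A) : s.c * (s.a * z) = 0 := by rw [← mul_assoc, s.d_c_a, zero_mul]
@[simp] theorem Mr.d_c_b : s.c * s.b = 0 := by
  rw [show s.c * s.b = s.c * (s.v * s.b) by rw [← mul_assoc, s.h_c_v], s.d_v_b, mul_zero]
@[simp] theorem Mr.rd_c_b (z : A) : s.c * (s.b * z) = 0 := by rw [← mul_assoc, s.d_c_b, zero_mul]
@[simp] theorem Mr.d_c_c : s.c * s.c = 0 := by
  rw [show s.c * s.c = s.c * (s.v * s.c) by rw [← mul_assoc, s.h_c_v], s.d_v_c, mul_zero]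
@[simp] theorem Mr.rd_c_c (z : A) : s.c * (s.c * z) = 0 := by rw [← mul_assoc, s.d_c_c, zero_mul]
@[simp] theorem Mr.d_c_g : s.c * s.g = 0 := by
  rw [show s.c * s.g = s.c * (s.v * s.g) by rw [← mul_assoc, s.h_c_v], s.d_v_g, mul_zero]
@[simp] theorem Mr.rd_c_g (z : A) : s.c * (s.g * z) = 0 := by rw [← mul_assoc, s.d_c_g, zero_mul]
@[simp] theorem Mr.d_c_h : s.c * s.h = 0 := by
  rw [show s.c * s.h = s.c * (s.v * s.h) by rw [← mul_assoc, s.h_c_v], s.d_v_h, mul_zero]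
@[simp] theorem Mr.rd_c_h (z : A) : s.c * (s.h * z) = 0 := by rw [← mul_assoc, s.d_c_h, zero_mul]
@[simp] theorem Mr.d_c_r : s.c * s.r = 0 := by
  rw [show s.c * s.r = s.c * (s.v * s.r) by rw [← mul_assoc, s.h_c_v], s.d_v_r, mul_zero]
@[simp] theorem Mr.rd_c_r (z : A) : s.c * (s.r * z) = 0 := by rw [← mul_assoc, s.d_c_r, zero_mul]
@[simp] theorem Mr.d_c_S : s.c * s.S = 0 := by
  rw [show s.c * s.S = s.c * (s.v * s.S) by rw [← mul_assoc, s.h_c_v], s.d_v_S, mul_zero]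
@[simp] theorem Mr.rd_c_S (z : A) : s.c * (s.S * z) = 0 := by rw [← mul_assoc, s.d_c_S, zero_mul]
@[simp] theorem Mr.d_c_ai : s.c * s.a' = 0 := by
  rw [show s.c * s.a' = s.c * (s.v * s.a') by rw [← mul_assoc, s.h_c_v], s.d_v_ai, mul_zero]
@[simp] theorem Mr.rd_c_ai (z : A) : s.c * (s.a' * z) = 0 := by rw [← mul_assoc, s.d_c_ai, zero_mul]
@[simp] theorem Mr.d_c_bi : s.c * s.b' = 0 := by
  rw [show s.c * s.b' = s.c * (s.v * s.b') by rw [← mul_assoc, s.h_c_v], s.d_v_bi, mul_zero]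
@[simp] theorem Mr.rd_c_bi (z : A) : s.c * (s.b' * z) = 0 := by rw [← mul_assoc, s.d_c_bi, zero_mul]
@[simp] theorem Mr.d_c_di : s.c * s.d' = 0 := by
  rw [show s.c * s.d' = s.c * (s.v * s.d') by rw [← mul_assoc, s.h_c_v], s.d_v_di, mul_zero]
@[simp] theorem Mr.rd_c_di (z : A) : s.c * (s.d' * z) = 0 := by rw [← mul_assoc, s.d_c_di, zero_mul]
@[simp] theorem Mr.d_c_fi : s.c * s.f' = 0 := by
  rw [show s.c * s.f' = s.c * (s.v * s.f') by rw [← mul_assoc, s.h_c_v], s.d_v_fi, mul_zero]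
@[simp] theorem Mr.rd_c_fi (z : A) : s.c * (s.f' * z) = 0 := by rw [← mul_assoc, s.d_c_fi, zero_mul]
@[simp] theorem Mr.d_c_hi : s.c * s.h' = 0 := by
  rw [show s.c * s.h' = s.c * (s.v * s.h') by rw [← mul_assoc, s.h_c_v], s.d_v_hi, mul_zero]
@[simp] theorem Mr.rd_c_hi (z : A) : s.c * (s.h' * z) = 0 := by rw [← mul_assoc, s.d_c_hi, zero_mul]
@[simp] theorem Mr.d_c_Si : s.c * s.S' = 0 := by
  rw [show s.c * s.S' = s.c * (s.v * s.S') by rw [← mul_assoc, s.h_c_v], s.d_v_Si, mul_zero]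
@[simp] theorem Mr.rd_c_Si (z : A) : s.c * (s.S' * z) = 0 := by rw [← mul_assoc, s.d_c_Si, zero_mul]
@[simp] theorem Mr.d_d_d : s.d * s.d = 0 := by
  rw [show s.d * s.d = s.d * (s.u * s.d) by rw [← mul_assoc, s.h_d_u], s.d_u_d, mul_zero]
@[simp] theorem Mr.rd_d_d (z : A) : s.d * (s.d * z) = 0 := by rw [← mul_assoc, s.d_d_d, zero_mul]
@[simp] theorem Mr.d_d_e : s.d * s.e = 0 := by
  rw [show s.d * s.e = s.d * (s.u * s.e) by rw [← mul_assoc, s.h_d_u], s.d_u_e, mul_zero]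
@[simp] theorem Mr.rd_d_e (z : A) : s.d * (s.e * z) = 0 := by rw [← mul_assoc, s.d_d_e, zero_mul]
@[simp] theorem Mr.d_d_f : s.d * s.f = 0 := by
  rw [show s.d * s.f = s.d * (s.u * s.f) by rw [← mul_assoc, s.h_d_u], s.d_u_f, mul_zero]
@[simp] theorem Mr.rd_d_f (z : A) : s.d * (s.f * z) = 0 := by rw [← mul_assoc, s.d_d_f, zero_mul]
@[simp] theorem Mr.d_d_g : s.d * s.g = 0 := by
  rw [show s.d * s.g = s.d * (s.u * s.g) by rw [← mul_assoc, s.h_d_u], s.d_u_g, mul_zero]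
@[simp] theorem Mr.rd_d_g (z : A) : s.d * (s.g * z) = 0 := by rw [← mul_assoc, s.d_d_g, zero_mul]
@[simp] theorem Mr.d_d_h : s.d * s.h = 0 := by
  rw [show s.d * s.h = s.d * (s.u * s.h) by rw [← mul_assoc, s.h_d_u], s.d_u_h, mul_zero]
@[simp] theorem Mr.rd_d_h (z : A) : s.d * (s.h * z) = 0 := by rw [← mul_assoc, s.d_d_h, zero_mul]
@[simp] theorem Mr.d_d_r : s.d * s.r = 0 := by
  rw [show s.d * s.r = s.d * (s.u * s.r) by rw [← mul_assoc, s.h_d_u], s.d_u_r, mul_zero]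
@[simp] theorem Mr.rd_d_r (z : A) : s.d * (s.r * z) = 0 := by rw [← mul_assoc, s.d_d_r, zero_mul]
@[simp] theorem Mr.d_d_S : s.d * s.S = 0 := by
  rw [show s.d * s.S = s.d * (s.u * s.S) by rw [← mul_assoc, s.h_d_u], s.d_u_S, mul_zero]
@[simp] theorem Mr.rd_d_S (z : A) : s.d * (s.S * z) = 0 := by rw [← mul_assoc, s.d_d_S, zero_mul]
@[simp] theorem Mr.d_d_ci : s.d * s.c' = 0 := by
  rw [show s.d * s.c' = s.d * (s.u * s.c') by rw [← mul_assoc, s.h_d_u], s.d_u_ci, mul_zero]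
@[simp] theorem Mr.rd_d_ci (z : A) : s.d * (s.c' * z) = 0 := by rw [← mul_assoc, s.d_d_ci, zero_mul]
@[simp] theorem Mr.d_d_ei : s.d * s.e' = 0 := by
  rw [show s.d * s.e' = s.d * (s.u * s.e') by rw [← mul_assoc, s.h_d_u], s.d_u_ei, mul_zero]
@[simp] theorem Mr.rd_d_ei (z : A) : s.d * (s.e' * z) = 0 := by rw [← mul_assoc, s.d_d_ei, zero_mul]
@[simp] theorem Mr.d_d_fi : s.d * s.f' = 0 := by
  rw [show s.d * s.f' = s.d * (s.u * s.f') by rw [← mul_assoc, s.h_d_u], s.d_u_fi, mul_zero]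
@[simp] theorem Mr.rd_d_fi (z : A) : s.d * (s.f' * z) = 0 := by rw [← mul_assoc, s.d_d_fi, zero_mul]
@[simp] theorem Mr.d_d_gi : s.d * s.g' = 0 := by
  rw [show s.d * s.g' = s.d * (s.u * s.g') by rw [← mul_assoc, s.h_d_u], s.d_u_gi, mul_zero]
@[simp] theorem Mr.rd_d_gi (z : A) : s.d * (s.g' * z) = 0 := by rw [← mul_assoc, s.d_d_gi, zero_mul]
@[simp] theorem Mr.d_d_hi : s.d * s.h' = 0 := by
  rw [show s.d * s.h' = s.d * (s.u * s.h') by rw [← mul_assoc, s.h_d_u], s.d_u_hi, mul_zero]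
@[simp] theorem Mr.rd_d_hi (z : A) : s.d * (s.h' * z) = 0 := by rw [← mul_assoc, s.d_d_hi, zero_mul]
@[simp] theorem Mr.d_d_ri : s.d * s.r' = 0 := by
  rw [show s.d * s.r' = s.d * (s.u * s.r') by rw [← mul_assoc, s.h_d_u], s.d_u_ri, mul_zero]
@[simp] theorem Mr.rd_d_ri (z : A) : s.d * (s.r' * z) = 0 := by rw [← mul_assoc, s.d_d_ri, zero_mul]
@[simp] theorem Mr.d_e_a : s.e * s.a = 0 := by
  rw [show s.e * s.a = s.e * (s.v * s.a) by rw [← mul_assoc, s.h_e_v], s.d_v_a, mul_zero]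
@[simp] theorem Mr.rd_e_a (z : A) : s.e * (s.a * z) = 0 := by rw [← mul_assoc, s.d_e_a, zero_mul]
@[simp] theorem Mr.d_e_b : s.e * s.b = 0 := by
  rw [show s.e * s.b = s.e * (s.v * s.b) by rw [← mul_assoc, s.h_e_v], s.d_v_b, mul_zero]
@[simp] theorem Mr.rd_e_b (z : A) : s.e * (s.b * z) = 0 := by rw [← mul_assoc, s.d_e_b, zero_mul]
@[simp] theorem Mr.d_e_c : s.e * s.c = 0 := by
  rw [show s.e * s.c = s.e * (s.v * s.c) by rw [← mul_assoc, s.h_e_v], s.d_v_c, mul_zero]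
@[simp] theorem Mr.rd_e_c (z : A) : s.e * (s.c * z) = 0 := by rw [← mul_assoc, s.d_e_c, zero_mul]
@[simp] theorem Mr.d_e_g : s.e * s.g = 0 := by
  rw [show s.e * s.g = s.e * (s.v * s.g) by rw [← mul_assoc, s.h_e_v], s.d_v_g, mul_zero]
@[simp] theorem Mr.rd_e_g (z : A) : s.e * (s.g * z) = 0 := by rw [← mul_assoc, s.d_e_g, zero_mul]
@[simp] theorem Mr.d_e_h : s.e * s.h = 0 := by
  rw [show s.e * s.h = s.e * (s.v * s.h) by rw [← mul_assoc, s.h_e_v], s.d_v_h, mul_zero]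
@[simp] theorem Mr.rd_e_h (z : A) : s.e * (s.h * z) = 0 := by rw [← mul_assoc, s.d_e_h, zero_mul]
@[simp] theorem Mr.d_e_r : s.e * s.r = 0 := by
  rw [show s.e * s.r = s.e * (s.v * s.r) by rw [← mul_assoc, s.h_e_v], s.d_v_r, mul_zero]
@[simp] theorem Mr.rd_e_r (z : A) : s.e * (s.r * z) = 0 := by rw [← mul_assoc, s.d_e_r, zero_mul]
@[simp] theorem Mr.d_e_S : s.e * s.S = 0 := by
  rw [show s.e * s.S = s.e * (s.v * s.S) by rw [← mul_assoc, s.h_e_v], s.d_v_S, mul_zero]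
@[simp] theorem Mr.rd_e_S (z : A) : s.e * (s.S * z) = 0 := by rw [← mul_assoc, s.d_e_S, zero_mul]
@[simp] theorem Mr.d_e_ai : s.e * s.a' = 0 := by
  rw [show s.e * s.a' = s.e * (s.v * s.a') by rw [← mul_assoc, s.h_e_v], s.d_v_ai, mul_zero]
@[simp] theorem Mr.rd_e_ai (z : A) : s.e * (s.a' * z) = 0 := by rw [← mul_assoc, s.d_e_ai, zero_mul]
@[simp] theorem Mr.d_e_bi : s.e * s.b' = 0 := by
  rw [show s.e * s.b' = s.e * (s.v * s.b') by rw [← mul_assoc, s.h_e_v], s.d_v_bi, mul_zero]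
@[simp] theorem Mr.rd_e_bi (z : A) : s.e * (s.b' * z) = 0 := by rw [← mul_assoc, s.d_e_bi, zero_mul]
@[simp] theorem Mr.d_e_di : s.e * s.d' = 0 := by
  rw [show s.e * s.d' = s.e * (s.v * s.d') by rw [← mul_assoc, s.h_e_v], s.d_v_di, mul_zero]
@[simp] theorem Mr.rd_e_di (z : A) : s.e * (s.d' * z) = 0 := by rw [← mul_assoc, s.d_e_di, zero_mul]
@[simp] theorem Mr.d_e_fi : s.e * s.f' = 0 := by
  rw [show s.e * s.f' = s.e * (s.v * s.f') by rw [← mul_assoc, s.h_e_v], s.d_v_fi, mul_zero]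
@[simp] theorem Mr.rd_e_fi (z : A) : s.e * (s.f' * z) = 0 := by rw [← mul_assoc, s.d_e_fi, zero_mul]
@[simp] theorem Mr.d_e_hi : s.e * s.h' = 0 := by
  rw [show s.e * s.h' = s.e * (s.v * s.h') by rw [← mul_assoc, s.h_e_v], s.d_v_hi, mul_zero]
@[simp] theorem Mr.rd_e_hi (z : A) : s.e * (s.h' * z) = 0 := by rw [← mul_assoc, s.d_e_hi, zero_mul]
@[simp] theorem Mr.d_e_Si : s.e * s.S' = 0 := by
  rw [show s.e * s.S' = s.e * (s.v * s.S') by rw [← mul_assoc, s.h_e_v], s.d_v_Si, mul_zero]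
@[simp] theorem Mr.rd_e_Si (z : A) : s.e * (s.S' * z) = 0 := by rw [← mul_assoc, s.d_e_Si, zero_mul]
@[simp] theorem Mr.d_f_a : s.f * s.a = 0 := by
  rw [show s.f * s.a = s.f * (s.q * s.a) by rw [← mul_assoc, s.h_f_q], s.d_q_a, mul_zero]
@[simp] theorem Mr.rd_f_a (z : A) : s.f * (s.a * z) = 0 := by rw [← mul_assoc, s.d_f_a, zero_mul]
@[simp] theorem Mr.d_f_b : s.f * s.b = 0 := by
  rw [show s.f * s.b = s.f * (s.q * s.b) by rw [← mul_assoc, s.h_f_q], s.d_q_b, mul_zero]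
@[simp] theorem Mr.rd_f_b (z : A) : s.f * (s.b * z) = 0 := by rw [← mul_assoc, s.d_f_b, zero_mul]
@[simp] theorem Mr.d_f_c : s.f * s.c = 0 := by
  rw [show s.f * s.c = s.f * (s.q * s.c) by rw [← mul_assoc, s.h_f_q], s.d_q_c, mul_zero]
@[simp] theorem Mr.rd_f_c (z : A) : s.f * (s.c * z) = 0 := by rw [← mul_assoc, s.d_f_c, zero_mul]
@[simp] theorem Mr.d_f_d : s.f * s.d = 0 := by
  rw [show s.f * s.d = s.f * (s.q * s.d) by rw [← mul_assoc, s.h_f_q], s.d_q_d, mul_zero]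
@[simp] theorem Mr.rd_f_d (z : A) : s.f * (s.d * z) = 0 := by rw [← mul_assoc, s.d_f_d, zero_mul]
@[simp] theorem Mr.d_f_e : s.f * s.e = 0 := by
  rw [show s.f * s.e = s.f * (s.q * s.e) by rw [← mul_assoc, s.h_f_q], s.d_q_e, mul_zero]
@[simp] theorem Mr.rd_f_e (z : A) : s.f * (s.e * z) = 0 := by rw [← mul_assoc, s.d_f_e, zero_mul]
@[simp] theorem Mr.d_f_f : s.f * s.f = 0 := by
  rw [show s.f * s.f = s.f * (s.q * s.f) by rw [← mul_assoc, s.h_f_q], s.d_q_f, mul_zero]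
@[simp] theorem Mr.rd_f_f (z : A) : s.f * (s.f * z) = 0 := by rw [← mul_assoc, s.d_f_f, zero_mul]
@[simp] theorem Mr.d_f_ai : s.f * s.a' = 0 := by
  rw [show s.f * s.a' = s.f * (s.q * s.a') by rw [← mul_assoc, s.h_f_q], s.d_q_ai, mul_zero]
@[simp] theorem Mr.rd_f_ai (z : A) : s.f * (s.a' * z) = 0 := by rw [← mul_assoc, s.d_f_ai, zero_mul]
@[simp] theorem Mr.d_f_bi : s.f * s.b' = 0 := by
  rw [show s.f * s.b' = s.f * (s.q * s.b') by rw [← mul_assoc, s.h_f_q], s.d_q_bi, mul_zero]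
@[simp] theorem Mr.rd_f_bi (z : A) : s.f * (s.b' * z) = 0 := by rw [← mul_assoc, s.d_f_bi, zero_mul]
@[simp] theorem Mr.d_f_ci : s.f * s.c' = 0 := by
  rw [show s.f * s.c' = s.f * (s.q * s.c') by rw [← mul_assoc, s.h_f_q], s.d_q_ci, mul_zero]
@[simp] theorem Mr.rd_f_ci (z : A) : s.f * (s.c' * z) = 0 := by rw [← mul_assoc, s.d_f_ci, zero_mul]
@[simp] theorem Mr.d_f_di : s.f * s.d' = 0 := by
  rw [show s.f * s.d' = s.f * (s.q * s.d') by rw [← mul_assoc, s.h_f_q], s.d_q_di, mul_zero]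
@[simp] theorem Mr.rd_f_di (z : A) : s.f * (s.d' * z) = 0 := by rw [← mul_assoc, s.d_f_di, zero_mul]
@[simp] theorem Mr.d_f_ei : s.f * s.e' = 0 := by
  rw [show s.f * s.e' = s.f * (s.q * s.e') by rw [← mul_assoc, s.h_f_q], s.d_q_ei, mul_zero]
@[simp] theorem Mr.rd_f_ei (z : A) : s.f * (s.e' * z) = 0 := by rw [← mul_assoc, s.d_f_ei, zero_mul]
@[simp] theorem Mr.d_f_gi : s.f * s.g' = 0 := by
  rw [show s.f * s.g' = s.f * (s.q * s.g') by rw [← mul_assoc, s.h_f_q], s.d_q_gi, mul_zero]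
@[simp] theorem Mr.rd_f_gi (z : A) : s.f * (s.g' * z) = 0 := by rw [← mul_assoc, s.d_f_gi, zero_mul]
@[simp] theorem Mr.d_f_ri : s.f * s.r' = 0 := by
  rw [show s.f * s.r' = s.f * (s.q * s.r') by rw [← mul_assoc, s.h_f_q], s.d_q_ri, mul_zero]
@[simp] theorem Mr.rd_f_ri (z : A) : s.f * (s.r' * z) = 0 := by rw [← mul_assoc, s.d_f_ri, zero_mul]
@[simp] theorem Mr.d_f_Si : s.f * s.S' = 0 := by
  rw [show s.f * s.S' = s.f * (s.q * s.S') by rw [← mul_assoc, s.h_f_q], s.d_q_Si, mul_zero]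
@[simp] theorem Mr.rd_f_Si (z : A) : s.f * (s.S' * z) = 0 := by rw [← mul_assoc, s.d_f_Si, zero_mul]
@[simp] theorem Mr.d_g_a : s.g * s.a = 0 := by
  rw [show s.g * s.a = s.g * (s.v * s.a) by rw [← mul_assoc, s.h_g_v], s.d_v_a, mul_zero]
@[simp] theorem Mr.rd_g_a (z : A) : s.g * (s.a * z) = 0 := by rw [← mul_assoc, s.d_g_a, zero_mul]
@[simp] theorem Mr.d_g_b : s.g * s.b = 0 := by
  rw [show s.g * s.b = s.g * (s.v * s.b) by rw [← mul_assoc, s.h_g_v], s.d_v_b, mul_zero]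
@[simp] theorem Mr.rd_g_b (z : A) : s.g * (s.b * z) = 0 := by rw [← mul_assoc, s.d_g_b, zero_mul]
@[simp] theorem Mr.d_g_c : s.g * s.c = 0 := by
  rw [show s.g * s.c = s.g * (s.v * s.c) by rw [← mul_assoc, s.h_g_v], s.d_v_c, mul_zero]
@[simp] theorem Mr.rd_g_c (z : A) : s.g * (s.c * z) = 0 := by rw [← mul_assoc, s.d_g_c, zero_mul]
@[simp] theorem Mr.d_g_g : s.g * s.g = 0 := by
  rw [show s.g * s.g = s.g * (s.v * s.g) by rw [← mul_assoc, s.h_g_v], s.d_v_g, mul_zero]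
@[simp] theorem Mr.rd_g_g (z : A) : s.g * (s.g * z) = 0 := by rw [← mul_assoc, s.d_g_g, zero_mul]
@[simp] theorem Mr.d_g_h : s.g * s.h = 0 := by
  rw [show s.g * s.h = s.g * (s.v * s.h) by rw [← mul_assoc, s.h_g_v], s.d_v_h, mul_zero]
@[simp] theorem Mr.rd_g_h (z : A) : s.g * (s.h * z) = 0 := by rw [← mul_assoc, s.d_g_h, zero_mul]
@[simp] theorem Mr.d_g_r : s.g * s.r = 0 := by
  rw [show s.g * s.r = s.g * (s.v * s.r) by rw [← mul_assoc, s.h_g_v], s.d_v_r, mul_zero]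
@[simp] theorem Mr.rd_g_r (z : A) : s.g * (s.r * z) = 0 := by rw [← mul_assoc, s.d_g_r, zero_mul]
@[simp] theorem Mr.d_g_S : s.g * s.S = 0 := by
  rw [show s.g * s.S = s.g * (s.v * s.S) by rw [← mul_assoc, s.h_g_v], s.d_v_S, mul_zero]
@[simp] theorem Mr.rd_g_S (z : A) : s.g * (s.S * z) = 0 := by rw [← mul_assoc, s.d_g_S, zero_mul]
@[simp] theorem Mr.d_g_ai : s.g * s.a' = 0 := by
  rw [show s.g * s.a' = s.g * (s.v * s.a') by rw [← mul_assoc, s.h_g_v], s.d_v_ai, mul_zero]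
@[simp] theorem Mr.rd_g_ai (z : A) : s.g * (s.a' * z) = 0 := by rw [← mul_assoc, s.d_g_ai, zero_mul]
@[simp] theorem Mr.d_g_bi : s.g * s.b' = 0 := by
  rw [show s.g * s.b' = s.g * (s.v * s.b') by rw [← mul_assoc, s.h_g_v], s.d_v_bi, mul_zero]
@[simp] theorem Mr.rd_g_bi (z : A) : s.g * (s.b' * z) = 0 := by rw [← mul_assoc, s.d_g_bi, zero_mul]
@[simp] theorem Mr.d_g_di : s.g * s.d' = 0 := by
  rw [show s.g * s.d' = s.g * (s.v * s.d') by rw [← mul_assoc, s.h_g_v], s.d_v_di, mul_zero]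
@[simp] theorem Mr.rd_g_di (z : A) : s.g * (s.d' * z) = 0 := by rw [← mul_assoc, s.d_g_di, zero_mul]
@[simp] theorem Mr.d_g_fi : s.g * s.f' = 0 := by
  rw [show s.g * s.f' = s.g * (s.v * s.f') by rw [← mul_assoc, s.h_g_v], s.d_v_fi, mul_zero]
@[simp] theorem Mr.rd_g_fi (z : A) : s.g * (s.f' * z) = 0 := by rw [← mul_assoc, s.d_g_fi, zero_mul]
@[simp] theorem Mr.d_g_hi : s.g * s.h' = 0 := by
  rw [show s.g * s.h' = s.g * (s.v * s.h') by rw [← mul_assoc, s.h_g_v], s.d_v_hi, mul_zero]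
@[simp] theorem Mr.rd_g_hi (z : A) : s.g * (s.h' * z) = 0 := by rw [← mul_assoc, s.d_g_hi, zero_mul]
@[simp] theorem Mr.d_g_Si : s.g * s.S' = 0 := by
  rw [show s.g * s.S' = s.g * (s.v * s.S') by rw [← mul_assoc, s.h_g_v], s.d_v_Si, mul_zero]
@[simp] theorem Mr.rd_g_Si (z : A) : s.g * (s.S' * z) = 0 := by rw [← mul_assoc, s.d_g_Si, zero_mul]
@[simp] theorem Mr.d_h_a : s.h * s.a = 0 := by
  rw [show s.h * s.a = s.h * (s.q * s.a) by rw [← mul_assoc, s.h_h_q], s.d_q_a, mul_zero]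
@[simp] theorem Mr.rd_h_a (z : A) : s.h * (s.a * z) = 0 := by rw [← mul_assoc, s.d_h_a, zero_mul]
@[simp] theorem Mr.d_h_b : s.h * s.b = 0 := by
  rw [show s.h * s.b = s.h * (s.q * s.b) by rw [← mul_assoc, s.h_h_q], s.d_q_b, mul_zero]
@[simp] theorem Mr.rd_h_b (z : A) : s.h * (s.b * z) = 0 := by rw [← mul_assoc, s.d_h_b, zero_mul]
@[simp] theorem Mr.d_h_c : s.h * s.c = 0 := by
  rw [show s.h * s.c = s.h * (s.q * s.c) by rw [← mul_assoc, s.h_h_q], s.d_q_c, mul_zero]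
@[simp] theorem Mr.rd_h_c (z : A) : s.h * (s.c * z) = 0 := by rw [← mul_assoc, s.d_h_c, zero_mul]
@[simp] theorem Mr.d_h_d : s.h * s.d = 0 := by
  rw [show s.h * s.d = s.h * (s.q * s.d) by rw [← mul_assoc, s.h_h_q], s.d_q_d, mul_zero]
@[simp] theorem Mr.rd_h_d (z : A) : s.h * (s.d * z) = 0 := by rw [← mul_assoc, s.d_h_d, zero_mul]
@[simp] theorem Mr.d_h_e : s.h * s.e = 0 := by
  rw [show s.h * s.e = s.h * (s.q * s.e) by rw [← mul_assoc, s.h_h_q], s.d_q_e, mul_zero]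
@[simp] theorem Mr.rd_h_e (z : A) : s.h * (s.e * z) = 0 := by rw [← mul_assoc, s.d_h_e, zero_mul]
@[simp] theorem Mr.d_h_f : s.h * s.f = 0 := by
  rw [show s.h * s.f = s.h * (s.q * s.f) by rw [← mul_assoc, s.h_h_q], s.d_q_f, mul_zero]
@[simp] theorem Mr.rd_h_f (z : A) : s.h * (s.f * z) = 0 := by rw [← mul_assoc, s.d_h_f, zero_mul]
@[simp] theorem Mr.d_h_ai : s.h * s.a' = 0 := by
  rw [show s.h * s.a' = s.h * (s.q * s.a') by rw [← mul_assoc, s.h_h_q], s.d_q_ai, mul_zero]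
@[simp] theorem Mr.rd_h_ai (z : A) : s.h * (s.a' * z) = 0 := by rw [← mul_assoc, s.d_h_ai, zero_mul]
@[simp] theorem Mr.d_h_bi : s.h * s.b' = 0 := by
  rw [show s.h * s.b' = s.h * (s.q * s.b') by rw [← mul_assoc, s.h_h_q], s.d_q_bi, mul_zero]
@[simp] theorem Mr.rd_h_bi (z : A) : s.h * (s.b' * z) = 0 := by rw [← mul_assoc, s.d_h_bi, zero_mul]
@[simp] theorem Mr.d_h_ci : s.h * s.c' = 0 := by
  rw [show s.h * s.c' = s.h * (s.q * s.c') by rw [← mul_assoc, s.h_h_q], s.d_q_ci, mul_zero]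
@[simp] theorem Mr.rd_h_ci (z : A) : s.h * (s.c' * z) = 0 := by rw [← mul_assoc, s.d_h_ci, zero_mul]
@[simp] theorem Mr.d_h_di : s.h * s.d' = 0 := by
  rw [show s.h * s.d' = s.h * (s.q * s.d') by rw [← mul_assoc, s.h_h_q], s.d_q_di, mul_zero]
@[simp] theorem Mr.rd_h_di (z : A) : s.h * (s.d' * z) = 0 := by rw [← mul_assoc, s.d_h_di, zero_mul]
@[simp] theorem Mr.d_h_ei : s.h * s.e' = 0 := by
  rw [show s.h * s.e' = s.h * (s.q * s.e') by rw [← mul_assoc, s.h_h_q], s.d_q_ei, mul_zero]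
@[simp] theorem Mr.rd_h_ei (z : A) : s.h * (s.e' * z) = 0 := by rw [← mul_assoc, s.d_h_ei, zero_mul]
@[simp] theorem Mr.d_h_gi : s.h * s.g' = 0 := by
  rw [show s.h * s.g' = s.h * (s.q * s.g') by rw [← mul_assoc, s.h_h_q], s.d_q_gi, mul_zero]
@[simp] theorem Mr.rd_h_gi (z : A) : s.h * (s.g' * z) = 0 := by rw [← mul_assoc, s.d_h_gi, zero_mul]
@[simp] theorem Mr.d_h_ri : s.h * s.r' = 0 := by
  rw [show s.h * s.r' = s.h * (s.q * s.r') by rw [← mul_assoc, s.h_h_q], s.d_q_ri, mul_zero]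
@[simp] theorem Mr.rd_h_ri (z : A) : s.h * (s.r' * z) = 0 := by rw [← mul_assoc, s.d_h_ri, zero_mul]
@[simp] theorem Mr.d_h_Si : s.h * s.S' = 0 := by
  rw [show s.h * s.S' = s.h * (s.q * s.S') by rw [← mul_assoc, s.h_h_q], s.d_q_Si, mul_zero]
@[simp] theorem Mr.rd_h_Si (z : A) : s.h * (s.S' * z) = 0 := by rw [← mul_assoc, s.d_h_Si, zero_mul]
@[simp] theorem Mr.d_r_a : s.r * s.a = 0 := by
  rw [show s.r * s.a = s.r * (s.v * s.a) by rw [← mul_assoc, s.h_r_v], s.d_v_a, mul_zero]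
@[simp] theorem Mr.rd_r_a (z : A) : s.r * (s.a * z) = 0 := by rw [← mul_assoc, s.d_r_a, zero_mul]
@[simp] theorem Mr.d_r_b : s.r * s.b = 0 := by
  rw [show s.r * s.b = s.r * (s.v * s.b) by rw [← mul_assoc, s.h_r_v], s.d_v_b, mul_zero]
@[simp] theorem Mr.rd_r_b (z : A) : s.r * (s.b * z) = 0 := by rw [← mul_assoc, s.d_r_b, zero_mul]
@[simp] theorem Mr.d_r_c : s.r * s.c = 0 := by
  rw [show s.r * s.c = s.r * (s.v * s.c) by rw [← mul_assoc, s.h_r_v], s.d_v_c, mul_zero]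
@[simp] theorem Mr.rd_r_c (z : A) : s.r * (s.c * z) = 0 := by rw [← mul_assoc, s.d_r_c, zero_mul]
@[simp] theorem Mr.d_r_g : s.r * s.g = 0 := by
  rw [show s.r * s.g = s.r * (s.v * s.g) by rw [← mul_assoc, s.h_r_v], s.d_v_g, mul_zero]
@[simp] theorem Mr.rd_r_g (z : A) : s.r * (s.g * z) = 0 := by rw [← mul_assoc, s.d_r_g, zero_mul]
@[simp] theorem Mr.d_r_h : s.r * s.h = 0 := by
  rw [show s.r * s.h = s.r * (s.v * s.h) by rw [← mul_assoc, s.h_r_v], s.d_v_h, mul_zero]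
@[simp] theorem Mr.rd_r_h (z : A) : s.r * (s.h * z) = 0 := by rw [← mul_assoc, s.d_r_h, zero_mul]
@[simp] theorem Mr.d_r_r : s.r * s.r = 0 := by
  rw [show s.r * s.r = s.r * (s.v * s.r) by rw [← mul_assoc, s.h_r_v], s.d_v_r, mul_zero]
@[simp] theorem Mr.rd_r_r (z : A) : s.r * (s.r * z) = 0 := by rw [← mul_assoc, s.d_r_r, zero_mul]
@[simp] theorem Mr.d_r_S : s.r * s.S = 0 := by
  rw [show s.r * s.S = s.r * (s.v * s.S) by rw [← mul_assoc, s.h_r_v], s.d_v_S, mul_zero]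
@[simp] theorem Mr.rd_r_S (z : A) : s.r * (s.S * z) = 0 := by rw [← mul_assoc, s.d_r_S, zero_mul]
@[simp] theorem Mr.d_r_ai : s.r * s.a' = 0 := by
  rw [show s.r * s.a' = s.r * (s.v * s.a') by rw [← mul_assoc, s.h_r_v], s.d_v_ai, mul_zero]
@[simp] theorem Mr.rd_r_ai (z : A) : s.r * (s.a' * z) = 0 := by rw [← mul_assoc, s.d_r_ai, zero_mul]
@[simp] theorem Mr.d_r_bi : s.r * s.b' = 0 := by
  rw [show s.r * s.b' = s.r * (s.v * s.b') by rw [← mul_assoc, s.h_r_v], s.d_v_bi, mul_zero]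
@[simp] theorem Mr.rd_r_bi (z : A) : s.r * (s.b' * z) = 0 := by rw [← mul_assoc, s.d_r_bi, zero_mul]
@[simp] theorem Mr.d_r_di : s.r * s.d' = 0 := by
  rw [show s.r * s.d' = s.r * (s.v * s.d') by rw [← mul_assoc, s.h_r_v], s.d_v_di, mul_zero]
@[simp] theorem Mr.rd_r_di (z : A) : s.r * (s.d' * z) = 0 := by rw [← mul_assoc, s.d_r_di, zero_mul]
@[simp] theorem Mr.d_r_fi : s.r * s.f' = 0 := by
  rw [show s.r * s.f' = s.r * (s.v * s.f') by rw [← mul_assoc, s.h_r_v], s.d_v_fi, mul_zero]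
@[simp] theorem Mr.rd_r_fi (z : A) : s.r * (s.f' * z) = 0 := by rw [← mul_assoc, s.d_r_fi, zero_mul]
@[simp] theorem Mr.d_r_hi : s.r * s.h' = 0 := by
  rw [show s.r * s.h' = s.r * (s.v * s.h') by rw [← mul_assoc, s.h_r_v], s.d_v_hi, mul_zero]
@[simp] theorem Mr.rd_r_hi (z : A) : s.r * (s.h' * z) = 0 := by rw [← mul_assoc, s.d_r_hi, zero_mul]
@[simp] theorem Mr.d_r_Si : s.r * s.S' = 0 := by
  rw [show s.r * s.S' = s.r * (s.v * s.S') by rw [← mul_assoc, s.h_r_v], s.d_v_Si, mul_zero]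
@[simp] theorem Mr.rd_r_Si (z : A) : s.r * (s.S' * z) = 0 := by rw [← mul_assoc, s.d_r_Si, zero_mul]
@[simp] theorem Mr.d_S_d : s.S * s.d = 0 := by
  rw [show s.S * s.d = s.S * (s.dl * s.d) by rw [← mul_assoc, s.h_S_dl], s.d_dl_d, mul_zero]
@[simp] theorem Mr.rd_S_d (z : A) : s.S * (s.d * z) = 0 := by rw [← mul_assoc, s.d_S_d, zero_mul]
@[simp] theorem Mr.d_S_e : s.S * s.e = 0 := by
  rw [show s.S * s.e = s.S * (s.dl * s.e) by rw [← mul_assoc, s.h_S_dl], s.d_dl_e, mul_zero]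
@[simp] theorem Mr.rd_S_e (z : A) : s.S * (s.e * z) = 0 := by rw [← mul_assoc, s.d_S_e, zero_mul]
@[simp] theorem Mr.d_S_f : s.S * s.f = 0 := by
  rw [show s.S * s.f = s.S * (s.dl * s.f) by rw [← mul_assoc, s.h_S_dl], s.d_dl_f, mul_zero]
@[simp] theorem Mr.rd_S_f (z : A) : s.S * (s.f * z) = 0 := by rw [← mul_assoc, s.d_S_f, zero_mul]
@[simp] theorem Mr.d_S_g : s.S * s.g = 0 := by
  rw [show s.S * s.g = s.S * (s.dl * s.g) by rw [← mul_assoc, s.h_S_dl], s.d_dl_g, mul_zero]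
@[simp] theorem Mr.rd_S_g (z : A) : s.S * (s.g * z) = 0 := by rw [← mul_assoc, s.d_S_g, zero_mul]
@[simp] theorem Mr.d_S_h : s.S * s.h = 0 := by
  rw [show s.S * s.h = s.S * (s.dl * s.h) by rw [← mul_assoc, s.h_S_dl], s.d_dl_h, mul_zero]
@[simp] theorem Mr.rd_S_h (z : A) : s.S * (s.h * z) = 0 := by rw [← mul_assoc, s.d_S_h, zero_mul]
@[simp] theorem Mr.d_S_r : s.S * s.r = 0 := by
  rw [show s.S * s.r = s.S * (s.dl * s.r) by rw [← mul_assoc, s.h_S_dl], s.d_dl_r, mul_zero]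
@[simp] theorem Mr.rd_S_r (z : A) : s.S * (s.r * z) = 0 := by rw [← mul_assoc, s.d_S_r, zero_mul]
@[simp] theorem Mr.d_S_S : s.S * s.S = 0 := by
  rw [show s.S * s.S = s.S * (s.dl * s.S) by rw [← mul_assoc, s.h_S_dl], s.d_dl_S, mul_zero]
@[simp] theorem Mr.rd_S_S (z : A) : s.S * (s.S * z) = 0 := by rw [← mul_assoc, s.d_S_S, zero_mul]
@[simp] theorem Mr.d_S_ci : s.S * s.c' = 0 := by
  rw [show s.S * s.c' = s.S * (s.dl * s.c') by rw [← mul_assoc, s.h_S_dl], s.d_dl_ci, mul_zero]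
@[simp] theorem Mr.rd_S_ci (z : A) : s.S * (s.c' * z) = 0 := by rw [← mul_assoc, s.d_S_ci, zero_mul]
@[simp] theorem Mr.d_S_ei : s.S * s.e' = 0 := by
  rw [show s.S * s.e' = s.S * (s.dl * s.e') by rw [← mul_assoc, s.h_S_dl], s.d_dl_ei, mul_zero]
@[simp] theorem Mr.rd_S_ei (z : A) : s.S * (s.e' * z) = 0 := by rw [← mul_assoc, s.d_S_ei, zero_mul]
@[simp] theorem Mr.d_S_fi : s.S * s.f' = 0 := by
  rw [show s.S * s.f' = s.S * (s.dl * s.f') by rw [← mul_assoc, s.h_S_dl], s.d_dl_fi, mul_zero]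
@[simp] theorem Mr.rd_S_fi (z : A) : s.S * (s.f' * z) = 0 := by rw [← mul_assoc, s.d_S_fi, zero_mul]
@[simp] theorem Mr.d_S_gi : s.S * s.g' = 0 := by
  rw [show s.S * s.g' = s.S * (s.dl * s.g') by rw [← mul_assoc, s.h_S_dl], s.d_dl_gi, mul_zero]
@[simp] theorem Mr.rd_S_gi (z : A) : s.S * (s.g' * z) = 0 := by rw [← mul_assoc, s.d_S_gi, zero_mul]
@[simp] theorem Mr.d_S_hi : s.S * s.h' = 0 := by
  rw [show s.S * s.h' = s.S * (s.dl * s.h') by rw [← mul_assoc, s.h_S_dl], s.d_dl_hi, mul_zero]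
@[simp] theorem Mr.rd_S_hi (z : A) : s.S * (s.h' * z) = 0 := by rw [← mul_assoc, s.d_S_hi, zero_mul]
@[simp] theorem Mr.d_S_ri : s.S * s.r' = 0 := by
  rw [show s.S * s.r' = s.S * (s.dl * s.r') by rw [← mul_assoc, s.h_S_dl], s.d_dl_ri, mul_zero]
@[simp] theorem Mr.rd_S_ri (z : A) : s.S * (s.r' * z) = 0 := by rw [← mul_assoc, s.d_S_ri, zero_mul]
@[simp] theorem Mr.d_ai_d : s.a' * s.d = 0 := by
  rw [show s.a' * s.d = s.a' * (s.u * s.d) by rw [← mul_assoc, s.h_ai_u], s.d_u_d, mul_zero]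
@[simp] theorem Mr.rd_ai_d (z : A) : s.a' * (s.d * z) = 0 := by rw [← mul_assoc, s.d_ai_d, zero_mul]
@[simp] theorem Mr.d_ai_e : s.a' * s.e = 0 := by
  rw [show s.a' * s.e = s.a' * (s.u * s.e) by rw [← mul_assoc, s.h_ai_u], s.d_u_e, mul_zero]
@[simp] theorem Mr.rd_ai_e (z : A) : s.a' * (s.e * z) = 0 := by rw [← mul_assoc, s.d_ai_e, zero_mul]
@[simp] theorem Mr.d_ai_f : s.a' * s.f = 0 := by
  rw [show s.a' * s.f = s.a' * (s.u * s.f) by rw [← mul_assoc, s.h_ai_u], s.d_u_f, mul_zero]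
@[simp] theorem Mr.rd_ai_f (z : A) : s.a' * (s.f * z) = 0 := by rw [← mul_assoc, s.d_ai_f, zero_mul]
@[simp] theorem Mr.d_ai_g : s.a' * s.g = 0 := by
  rw [show s.a' * s.g = s.a' * (s.u * s.g) by rw [← mul_assoc, s.h_ai_u], s.d_u_g, mul_zero]
@[simp] theorem Mr.rd_ai_g (z : A) : s.a' * (s.g * z) = 0 := by rw [← mul_assoc, s.d_ai_g, zero_mul]
@[simp] theorem Mr.d_ai_h : s.a' * s.h = 0 := by
  rw [show s.a' * s.h = s.a' * (s.u * s.h) by rw [← mul_assoc, s.h_ai_u], s.d_u_h, mul_zero]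
@[simp] theorem Mr.rd_ai_h (z : A) : s.a' * (s.h * z) = 0 := by rw [← mul_assoc, s.d_ai_h, zero_mul]
@[simp] theorem Mr.d_ai_r : s.a' * s.r = 0 := by
  rw [show s.a' * s.r = s.a' * (s.u * s.r) by rw [← mul_assoc, s.h_ai_u], s.d_u_r, mul_zero]
@[simp] theorem Mr.rd_ai_r (z : A) : s.a' * (s.r * z) = 0 := by rw [← mul_assoc, s.d_ai_r, zero_mul]
@[simp] theorem Mr.d_ai_S : s.a' * s.S = 0 := by
  rw [show s.a' * s.S = s.a' * (s.u * s.S) by rw [← mul_assoc, s.h_ai_u], s.d_u_S, mul_zero]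
@[simp] theorem Mr.rd_ai_S (z : A) : s.a' * (s.S * z) = 0 := by rw [← mul_assoc, s.d_ai_S, zero_mul]
@[simp] theorem Mr.d_ai_ci : s.a' * s.c' = 0 := by
  rw [show s.a' * s.c' = s.a' * (s.u * s.c') by rw [← mul_assoc, s.h_ai_u], s.d_u_ci, mul_zero]
@[simp] theorem Mr.rd_ai_ci (z : A) : s.a' * (s.c' * z) = 0 := by rw [← mul_assoc, s.d_ai_ci, zero_mul]
@[simp] theorem Mr.d_ai_ei : s.a' * s.e' = 0 := by
  rw [show s.a' * s.e' = s.a' * (s.u * s.e') by rw [← mul_assoc, s.h_ai_u], s.d_u_ei, mul_zero]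
@[simp] theorem Mr.rd_ai_ei (z : A) : s.a' * (s.e' * z) = 0 := by rw [← mul_assoc, s.d_ai_ei, zero_mul]
@[simp] theorem Mr.d_ai_fi : s.a' * s.f' = 0 := by
  rw [show s.a' * s.f' = s.a' * (s.u * s.f') by rw [← mul_assoc, s.h_ai_u], s.d_u_fi, mul_zero]
@[simp] theorem Mr.rd_ai_fi (z : A) : s.a' * (s.f' * z) = 0 := by rw [← mul_assoc, s.d_ai_fi, zero_mul]
@[simp] theorem Mr.d_ai_gi : s.a' * s.g' = 0 := by
  rw [show s.a' * s.g' = s.a' * (s.u * s.g') by rw [← mul_assoc, s.h_ai_u], s.d_u_gi, mul_zero]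
@[simp] theorem Mr.rd_ai_gi (z : A) : s.a' * (s.g' * z) = 0 := by rw [← mul_assoc, s.d_ai_gi, zero_mul]
@[simp] theorem Mr.d_ai_hi : s.a' * s.h' = 0 := by
  rw [show s.a' * s.h' = s.a' * (s.u * s.h') by rw [← mul_assoc, s.h_ai_u], s.d_u_hi, mul_zero]
@[simp] theorem Mr.rd_ai_hi (z : A) : s.a' * (s.h' * z) = 0 := by rw [← mul_assoc, s.d_ai_hi, zero_mul]
@[simp] theorem Mr.d_ai_ri : s.a' * s.r' = 0 := by
  rw [show s.a' * s.r' = s.a' * (s.u * s.r') by rw [← mul_assoc, s.h_ai_u], s.d_u_ri, mul_zero]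
@[simp] theorem Mr.rd_ai_ri (z : A) : s.a' * (s.r' * z) = 0 := by rw [← mul_assoc, s.d_ai_ri, zero_mul]
@[simp] theorem Mr.d_bi_d : s.b' * s.d = 0 := by
  rw [show s.b' * s.d = s.b' * (s.u * s.d) by rw [← mul_assoc, s.h_bi_u], s.d_u_d, mul_zero]
@[simp] theorem Mr.rd_bi_d (z : A) : s.b' * (s.d * z) = 0 := by rw [← mul_assoc, s.d_bi_d, zero_mul]
@[simp] theorem Mr.d_bi_e : s.b' * s.e = 0 := by
  rw [show s.b' * s.e = s.b' * (s.u * s.e) by rw [← mul_assoc, s.h_bi_u], s.d_u_e, mul_zero]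
@[simp] theorem Mr.rd_bi_e (z : A) : s.b' * (s.e * z) = 0 := by rw [← mul_assoc, s.d_bi_e, zero_mul]
@[simp] theorem Mr.d_bi_f : s.b' * s.f = 0 := by
  rw [show s.b' * s.f = s.b' * (s.u * s.f) by rw [← mul_assoc, s.h_bi_u], s.d_u_f, mul_zero]
@[simp] theorem Mr.rd_bi_f (z : A) : s.b' * (s.f * z) = 0 := by rw [← mul_assoc, s.d_bi_f, zero_mul]
@[simp] theorem Mr.d_bi_g : s.b' * s.g = 0 := by
  rw [show s.b' * s.g = s.b' * (s.u * s.g) by rw [← mul_assoc, s.h_bi_u], s.d_u_g, mul_zero]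
@[simp] theorem Mr.rd_bi_g (z : A) : s.b' * (s.g * z) = 0 := by rw [← mul_assoc, s.d_bi_g, zero_mul]
@[simp] theorem Mr.d_bi_h : s.b' * s.h = 0 := by
  rw [show s.b' * s.h = s.b' * (s.u * s.h) by rw [← mul_assoc, s.h_bi_u], s.d_u_h, mul_zero]
@[simp] theorem Mr.rd_bi_h (z : A) : s.b' * (s.h * z) = 0 := by rw [← mul_assoc, s.d_bi_h, zero_mul]
@[simp] theorem Mr.d_bi_r : s.b' * s.r = 0 := by
  rw [show s.b' * s.r = s.b' * (s.u * s.r) by rw [← mul_assoc, s.h_bi_u], s.d_u_r, mul_zero]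
@[simp] theorem Mr.rd_bi_r (z : A) : s.b' * (s.r * z) = 0 := by rw [← mul_assoc, s.d_bi_r, zero_mul]
@[simp] theorem Mr.d_bi_S : s.b' * s.S = 0 := by
  rw [show s.b' * s.S = s.b' * (s.u * s.S) by rw [← mul_assoc, s.h_bi_u], s.d_u_S, mul_zero]
@[simp] theorem Mr.rd_bi_S (z : A) : s.b' * (s.S * z) = 0 := by rw [← mul_assoc, s.d_bi_S, zero_mul]
@[simp] theorem Mr.d_bi_ci : s.b' * s.c' = 0 := by
  rw [show s.b' * s.c' = s.b' * (s.u * s.c') by rw [← mul_assoc, s.h_bi_u], s.d_u_ci, mul_zero]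
@[simp] theorem Mr.rd_bi_ci (z : A) : s.b' * (s.c' * z) = 0 := by rw [← mul_assoc, s.d_bi_ci, zero_mul]
@[simp] theorem Mr.d_bi_ei : s.b' * s.e' = 0 := by
  rw [show s.b' * s.e' = s.b' * (s.u * s.e') by rw [← mul_assoc, s.h_bi_u], s.d_u_ei, mul_zero]
@[simp] theorem Mr.rd_bi_ei (z : A) : s.b' * (s.e' * z) = 0 := by rw [← mul_assoc, s.d_bi_ei, zero_mul]
@[simp] theorem Mr.d_bi_fi : s.b' * s.f' = 0 := by
  rw [show s.b' * s.f' = s.b' * (s.u * s.f') by rw [← mul_assoc, s.h_bi_u], s.d_u_fi, mul_zero]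
@[simp] theorem Mr.rd_bi_fi (z : A) : s.b' * (s.f' * z) = 0 := by rw [← mul_assoc, s.d_bi_fi, zero_mul]
@[simp] theorem Mr.d_bi_gi : s.b' * s.g' = 0 := by
  rw [show s.b' * s.g' = s.b' * (s.u * s.g') by rw [← mul_assoc, s.h_bi_u], s.d_u_gi, mul_zero]
@[simp] theorem Mr.rd_bi_gi (z : A) : s.b' * (s.g' * z) = 0 := by rw [← mul_assoc, s.d_bi_gi, zero_mul]
@[simp] theorem Mr.d_bi_hi : s.b' * s.h' = 0 := by
  rw [show s.b' * s.h' = s.b' * (s.u * s.h') by rw [← mul_assoc, s.h_bi_u], s.d_u_hi, mul_zero]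
@[simp] theorem Mr.rd_bi_hi (z : A) : s.b' * (s.h' * z) = 0 := by rw [← mul_assoc, s.d_bi_hi, zero_mul]
@[simp] theorem Mr.d_bi_ri : s.b' * s.r' = 0 := by
  rw [show s.b' * s.r' = s.b' * (s.u * s.r') by rw [← mul_assoc, s.h_bi_u], s.d_u_ri, mul_zero]
@[simp] theorem Mr.rd_bi_ri (z : A) : s.b' * (s.r' * z) = 0 := by rw [← mul_assoc, s.d_bi_ri, zero_mul]
@[simp] theorem Mr.d_ci_d : s.c' * s.d = 0 := by
  rw [show s.c' * s.d = s.c' * (s.u * s.d) by rw [← mul_assoc, s.h_ci_u], s.d_u_d, mul_zero]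
@[simp] theorem Mr.rd_ci_d (z : A) : s.c' * (s.d * z) = 0 := by rw [← mul_assoc, s.d_ci_d, zero_mul]
@[simp] theorem Mr.d_ci_e : s.c' * s.e = 0 := by
  rw [show s.c' * s.e = s.c' * (s.u * s.e) by rw [← mul_assoc, s.h_ci_u], s.d_u_e, mul_zero]
@[simp] theorem Mr.rd_ci_e (z : A) : s.c' * (s.e * z) = 0 := by rw [← mul_assoc, s.d_ci_e, zero_mul]
@[simp] theorem Mr.d_ci_f : s.c' * s.f = 0 := by
  rw [show s.c' * s.f = s.c' * (s.u * s.f) by rw [← mul_assoc, s.h_ci_u], s.d_u_f, mul_zero]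
@[simp] theorem Mr.rd_ci_f (z : A) : s.c' * (s.f * z) = 0 := by rw [← mul_assoc, s.d_ci_f, zero_mul]
@[simp] theorem Mr.d_ci_g : s.c' * s.g = 0 := by
  rw [show s.c' * s.g = s.c' * (s.u * s.g) by rw [← mul_assoc, s.h_ci_u], s.d_u_g, mul_zero]
@[simp] theorem Mr.rd_ci_g (z : A) : s.c' * (s.g * z) = 0 := by rw [← mul_assoc, s.d_ci_g, zero_mul]
@[simp] theorem Mr.d_ci_h : s.c' * s.h = 0 := by
  rw [show s.c' * s.h = s.c' * (s.u * s.h) by rw [← mul_assoc, s.h_ci_u], s.d_u_h, mul_zero]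
@[simp] theorem Mr.rd_ci_h (z : A) : s.c' * (s.h * z) = 0 := by rw [← mul_assoc, s.d_ci_h, zero_mul]
@[simp] theorem Mr.d_ci_r : s.c' * s.r = 0 := by
  rw [show s.c' * s.r = s.c' * (s.u * s.r) by rw [← mul_assoc, s.h_ci_u], s.d_u_r, mul_zero]
@[simp] theorem Mr.rd_ci_r (z : A) : s.c' * (s.r * z) = 0 := by rw [← mul_assoc, s.d_ci_r, zero_mul]
@[simp] theorem Mr.d_ci_S : s.c' * s.S = 0 := by
  rw [show s.c' * s.S = s.c' * (s.u * s.S) by rw [← mul_assoc, s.h_ci_u], s.d_u_S, mul_zero]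
@[simp] theorem Mr.rd_ci_S (z : A) : s.c' * (s.S * z) = 0 := by rw [← mul_assoc, s.d_ci_S, zero_mul]
@[simp] theorem Mr.d_ci_ci : s.c' * s.c' = 0 := by
  rw [show s.c' * s.c' = s.c' * (s.u * s.c') by rw [← mul_assoc, s.h_ci_u], s.d_u_ci, mul_zero]
@[simp] theorem Mr.rd_ci_ci (z : A) : s.c' * (s.c' * z) = 0 := by rw [← mul_assoc, s.d_ci_ci, zero_mul]
@[simp] theorem Mr.d_ci_ei : s.c' * s.e' = 0 := by
  rw [show s.c' * s.e' = s.c' * (s.u * s.e') by rw [← mul_assoc, s.h_ci_u], s.d_u_ei, mul_zero]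
@[simp] theorem Mr.rd_ci_ei (z : A) : s.c' * (s.e' * z) = 0 := by rw [← mul_assoc, s.d_ci_ei, zero_mul]
@[simp] theorem Mr.d_ci_fi : s.c' * s.f' = 0 := by
  rw [show s.c' * s.f' = s.c' * (s.u * s.f') by rw [← mul_assoc, s.h_ci_u], s.d_u_fi, mul_zero]
@[simp] theorem Mr.rd_ci_fi (z : A) : s.c' * (s.f' * z) = 0 := by rw [← mul_assoc, s.d_ci_fi, zero_mul]
@[simp] theorem Mr.d_ci_gi : s.c' * s.g' = 0 := by
  rw [show s.c' * s.g' = s.c' * (s.u * s.g') by rw [← mul_assoc, s.h_ci_u], s.d_u_gi, mul_zero]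
@[simp] theorem Mr.rd_ci_gi (z : A) : s.c' * (s.g' * z) = 0 := by rw [← mul_assoc, s.d_ci_gi, zero_mul]
@[simp] theorem Mr.d_ci_hi : s.c' * s.h' = 0 := by
  rw [show s.c' * s.h' = s.c' * (s.u * s.h') by rw [← mul_assoc, s.h_ci_u], s.d_u_hi, mul_zero]
@[simp] theorem Mr.rd_ci_hi (z : A) : s.c' * (s.h' * z) = 0 := by rw [← mul_assoc, s.d_ci_hi, zero_mul]
@[simp] theorem Mr.d_ci_ri : s.c' * s.r' = 0 := by
  rw [show s.c' * s.r' = s.c' * (s.u * s.r') by rw [← mul_assoc, s.h_ci_u], s.d_u_ri, mul_zero]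
@[simp] theorem Mr.rd_ci_ri (z : A) : s.c' * (s.r' * z) = 0 := by rw [← mul_assoc, s.d_ci_ri, zero_mul]
@[simp] theorem Mr.d_di_a : s.d' * s.a = 0 := by
  rw [show s.d' * s.a = s.d' * (s.v * s.a) by rw [← mul_assoc, s.h_di_v], s.d_v_a, mul_zero]
@[simp] theorem Mr.rd_di_a (z : A) : s.d' * (s.a * z) = 0 := by rw [← mul_assoc, s.d_di_a, zero_mul]
@[simp] theorem Mr.d_di_b : s.d' * s.b = 0 := by
  rw [show s.d' * s.b = s.d' * (s.v * s.b) by rw [← mul_assoc, s.h_di_v], s.d_v_b, mul_zero]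
@[simp] theorem Mr.rd_di_b (z : A) : s.d' * (s.b * z) = 0 := by rw [← mul_assoc, s.d_di_b, zero_mul]
@[simp] theorem Mr.d_di_c : s.d' * s.c = 0 := by
  rw [show s.d' * s.c = s.d' * (s.v * s.c) by rw [← mul_assoc, s.h_di_v], s.d_v_c, mul_zero]
@[simp] theorem Mr.rd_di_c (z : A) : s.d' * (s.c * z) = 0 := by rw [← mul_assoc, s.d_di_c, zero_mul]
@[simp] theorem Mr.d_di_g : s.d' * s.g = 0 := by
  rw [show s.d' * s.g = s.d' * (s.v * s.g) by rw [← mul_assoc, s.h_di_v], s.d_v_g, mul_zero]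
@[simp] theorem Mr.rd_di_g (z : A) : s.d' * (s.g * z) = 0 := by rw [← mul_assoc, s.d_di_g, zero_mul]
@[simp] theorem Mr.d_di_h : s.d' * s.h = 0 := by
  rw [show s.d' * s.h = s.d' * (s.v * s.h) by rw [← mul_assoc, s.h_di_v], s.d_v_h, mul_zero]
@[simp] theorem Mr.rd_di_h (z : A) : s.d' * (s.h * z) = 0 := by rw [← mul_assoc, s.d_di_h, zero_mul]
@[simp] theorem Mr.d_di_r : s.d' * s.r = 0 := by
  rw [show s.d' * s.r = s.d' * (s.v * s.r) by rw [← mul_assoc, s.h_di_v], s.d_v_r, mul_zero]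
@[simp] theorem Mr.rd_di_r (z : A) : s.d' * (s.r * z) = 0 := by rw [← mul_assoc, s.d_di_r, zero_mul]
@[simp] theorem Mr.d_di_S : s.d' * s.S = 0 := by
  rw [show s.d' * s.S = s.d' * (s.v * s.S) by rw [← mul_assoc, s.h_di_v], s.d_v_S, mul_zero]
@[simp] theorem Mr.rd_di_S (z : A) : s.d' * (s.S * z) = 0 := by rw [← mul_assoc, s.d_di_S, zero_mul]
@[simp] theorem Mr.d_di_ai : s.d' * s.a' = 0 := by
  rw [show s.d' * s.a' = s.d' * (s.v * s.a') by rw [← mul_assoc, s.h_di_v], s.d_v_ai, mul_zero]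
@[simp] theorem Mr.rd_di_ai (z : A) : s.d' * (s.a' * z) = 0 := by rw [← mul_assoc, s.d_di_ai, zero_mul]
@[simp] theorem Mr.d_di_bi : s.d' * s.b' = 0 := by
  rw [show s.d' * s.b' = s.d' * (s.v * s.b') by rw [← mul_assoc, s.h_di_v], s.d_v_bi, mul_zero]
@[simp] theorem Mr.rd_di_bi (z : A) : s.d' * (s.b' * z) = 0 := by rw [← mul_assoc, s.d_di_bi, zero_mul]
@[simp] theorem Mr.d_di_di : s.d' * s.d' = 0 := by
  rw [show s.d' * s.d' = s.d' * (s.v * s.d') by rw [← mul_assoc, s.h_di_v], s.d_v_di, mul_zero]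
@[simp] theorem Mr.rd_di_di (z : A) : s.d' * (s.d' * z) = 0 := by rw [← mul_assoc, s.d_di_di, zero_mul]
@[simp] theorem Mr.d_di_fi : s.d' * s.f' = 0 := by
  rw [show s.d' * s.f' = s.d' * (s.v * s.f') by rw [← mul_assoc, s.h_di_v], s.d_v_fi, mul_zero]
@[simp] theorem Mr.rd_di_fi (z : A) : s.d' * (s.f' * z) = 0 := by rw [← mul_assoc, s.d_di_fi, zero_mul]
@[simp] theorem Mr.d_di_hi : s.d' * s.h' = 0 := by
  rw [show s.d' * s.h' = s.d' * (s.v * s.h') by rw [← mul_assoc, s.h_di_v], s.d_v_hi, mul_zero]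
@[simp] theorem Mr.rd_di_hi (z : A) : s.d' * (s.h' * z) = 0 := by rw [← mul_assoc, s.d_di_hi, zero_mul]
@[simp] theorem Mr.d_di_Si : s.d' * s.S' = 0 := by
  rw [show s.d' * s.S' = s.d' * (s.v * s.S') by rw [← mul_assoc, s.h_di_v], s.d_v_Si, mul_zero]
@[simp] theorem Mr.rd_di_Si (z : A) : s.d' * (s.S' * z) = 0 := by rw [← mul_assoc, s.d_di_Si, zero_mul]
@[simp] theorem Mr.d_ei_a : s.e' * s.a = 0 := by
  rw [show s.e' * s.a = s.e' * (s.v * s.a) by rw [← mul_assoc, s.h_ei_v], s.d_v_a, mul_zero]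
@[simp] theorem Mr.rd_ei_a (z : A) : s.e' * (s.a * z) = 0 := by rw [← mul_assoc, s.d_ei_a, zero_mul]
@[simp] theorem Mr.d_ei_b : s.e' * s.b = 0 := by
  rw [show s.e' * s.b = s.e' * (s.v * s.b) by rw [← mul_assoc, s.h_ei_v], s.d_v_b, mul_zero]
@[simp] theorem Mr.rd_ei_b (z : A) : s.e' * (s.b * z) = 0 := by rw [← mul_assoc, s.d_ei_b, zero_mul]
@[simp] theorem Mr.d_ei_c : s.e' * s.c = 0 := by
  rw [show s.e' * s.c = s.e' * (s.v * s.c) by rw [← mul_assoc, s.h_ei_v], s.d_v_c, mul_zero]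
@[simp] theorem Mr.rd_ei_c (z : A) : s.e' * (s.c * z) = 0 := by rw [← mul_assoc, s.d_ei_c, zero_mul]
@[simp] theorem Mr.d_ei_g : s.e' * s.g = 0 := by
  rw [show s.e' * s.g = s.e' * (s.v * s.g) by rw [← mul_assoc, s.h_ei_v], s.d_v_g, mul_zero]
@[simp] theorem Mr.rd_ei_g (z : A) : s.e' * (s.g * z) = 0 := by rw [← mul_assoc, s.d_ei_g, zero_mul]
@[simp] theorem Mr.d_ei_h : s.e' * s.h = 0 := by
  rw [show s.e' * s.h = s.e' * (s.v * s.h) by rw [← mul_assoc, s.h_ei_v], s.d_v_h, mul_zero]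
@[simp] theorem Mr.rd_ei_h (z : A) : s.e' * (s.h * z) = 0 := by rw [← mul_assoc, s.d_ei_h, zero_mul]
@[simp] theorem Mr.d_ei_r : s.e' * s.r = 0 := by
  rw [show s.e' * s.r = s.e' * (s.v * s.r) by rw [← mul_assoc, s.h_ei_v], s.d_v_r, mul_zero]
@[simp] theorem Mr.rd_ei_r (z : A) : s.e' * (s.r * z) = 0 := by rw [← mul_assoc, s.d_ei_r, zero_mul]
@[simp] theorem Mr.d_ei_S : s.e' * s.S = 0 := by
  rw [show s.e' * s.S = s.e' * (s.v * s.S) by rw [← mul_assoc, s.h_ei_v], s.d_v_S, mul_zero]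
@[simp] theorem Mr.rd_ei_S (z : A) : s.e' * (s.S * z) = 0 := by rw [← mul_assoc, s.d_ei_S, zero_mul]
@[simp] theorem Mr.d_ei_ai : s.e' * s.a' = 0 := by
  rw [show s.e' * s.a' = s.e' * (s.v * s.a') by rw [← mul_assoc, s.h_ei_v], s.d_v_ai, mul_zero]
@[simp] theorem Mr.rd_ei_ai (z : A) : s.e' * (s.a' * z) = 0 := by rw [← mul_assoc, s.d_ei_ai, zero_mul]
@[simp] theorem Mr.d_ei_bi : s.e' * s.b' = 0 := by
  rw [show s.e' * s.b' = s.e' * (s.v * s.b') by rw [← mul_assoc, s.h_ei_v], s.d_v_bi, mul_zero]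
@[simp] theorem Mr.rd_ei_bi (z : A) : s.e' * (s.b' * z) = 0 := by rw [← mul_assoc, s.d_ei_bi, zero_mul]
@[simp] theorem Mr.d_ei_di : s.e' * s.d' = 0 := by
  rw [show s.e' * s.d' = s.e' * (s.v * s.d') by rw [← mul_assoc, s.h_ei_v], s.d_v_di, mul_zero]
@[simp] theorem Mr.rd_ei_di (z : A) : s.e' * (s.d' * z) = 0 := by rw [← mul_assoc, s.d_ei_di, zero_mul]
@[simp] theorem Mr.d_ei_fi : s.e' * s.f' = 0 := by
  rw [show s.e' * s.f' = s.e' * (s.v * s.f') by rw [← mul_assoc, s.h_ei_v], s.d_v_fi, mul_zero]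
@[simp] theorem Mr.rd_ei_fi (z : A) : s.e' * (s.f' * z) = 0 := by rw [← mul_assoc, s.d_ei_fi, zero_mul]
@[simp] theorem Mr.d_ei_hi : s.e' * s.h' = 0 := by
  rw [show s.e' * s.h' = s.e' * (s.v * s.h') by rw [← mul_assoc, s.h_ei_v], s.d_v_hi, mul_zero]
@[simp] theorem Mr.rd_ei_hi (z : A) : s.e' * (s.h' * z) = 0 := by rw [← mul_assoc, s.d_ei_hi, zero_mul]
@[simp] theorem Mr.d_ei_Si : s.e' * s.S' = 0 := by
  rw [show s.e' * s.S' = s.e' * (s.v * s.S') by rw [← mul_assoc, s.h_ei_v], s.d_v_Si, mul_zero]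
@[simp] theorem Mr.rd_ei_Si (z : A) : s.e' * (s.S' * z) = 0 := by rw [← mul_assoc, s.d_ei_Si, zero_mul]
@[simp] theorem Mr.d_fi_a : s.f' * s.a = 0 := by
  rw [show s.f' * s.a = s.f' * (s.v * s.a) by rw [← mul_assoc, s.h_fi_v], s.d_v_a, mul_zero]
@[simp] theorem Mr.rd_fi_a (z : A) : s.f' * (s.a * z) = 0 := by rw [← mul_assoc, s.d_fi_a, zero_mul]
@[simp] theorem Mr.d_fi_b : s.f' * s.b = 0 := by
  rw [show s.f' * s.b = s.f' * (s.v * s.b) by rw [← mul_assoc, s.h_fi_v], s.d_v_b, mul_zero]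
@[simp] theorem Mr.rd_fi_b (z : A) : s.f' * (s.b * z) = 0 := by rw [← mul_assoc, s.d_fi_b, zero_mul]
@[simp] theorem Mr.d_fi_c : s.f' * s.c = 0 := by
  rw [show s.f' * s.c = s.f' * (s.v * s.c) by rw [← mul_assoc, s.h_fi_v], s.d_v_c, mul_zero]
@[simp] theorem Mr.rd_fi_c (z : A) : s.f' * (s.c * z) = 0 := by rw [← mul_assoc, s.d_fi_c, zero_mul]
@[simp] theorem Mr.d_fi_g : s.f' * s.g = 0 := by
  rw [show s.f' * s.g = s.f' * (s.v * s.g) by rw [← mul_assoc, s.h_fi_v], s.d_v_g, mul_zero]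
@[simp] theorem Mr.rd_fi_g (z : A) : s.f' * (s.g * z) = 0 := by rw [← mul_assoc, s.d_fi_g, zero_mul]
@[simp] theorem Mr.d_fi_h : s.f' * s.h = 0 := by
  rw [show s.f' * s.h = s.f' * (s.v * s.h) by rw [← mul_assoc, s.h_fi_v], s.d_v_h, mul_zero]
@[simp] theorem Mr.rd_fi_h (z : A) : s.f' * (s.h * z) = 0 := by rw [← mul_assoc, s.d_fi_h, zero_mul]
@[simp] theorem Mr.d_fi_r : s.f' * s.r = 0 := by
  rw [show s.f' * s.r = s.f' * (s.v * s.r) by rw [← mul_assoc, s.h_fi_v], s.d_v_r, mul_zero]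
@[simp] theorem Mr.rd_fi_r (z : A) : s.f' * (s.r * z) = 0 := by rw [← mul_assoc, s.d_fi_r, zero_mul]
@[simp] theorem Mr.d_fi_S : s.f' * s.S = 0 := by
  rw [show s.f' * s.S = s.f' * (s.v * s.S) by rw [← mul_assoc, s.h_fi_v], s.d_v_S, mul_zero]
@[simp] theorem Mr.rd_fi_S (z : A) : s.f' * (s.S * z) = 0 := by rw [← mul_assoc, s.d_fi_S, zero_mul]
@[simp] theorem Mr.d_fi_ai : s.f' * s.a' = 0 := by
  rw [show s.f' * s.a' = s.f' * (s.v * s.a') by rw [← mul_assoc, s.h_fi_v], s.d_v_ai, mul_zero]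
@[simp] theorem Mr.rd_fi_ai (z : A) : s.f' * (s.a' * z) = 0 := by rw [← mul_assoc, s.d_fi_ai, zero_mul]
@[simp] theorem Mr.d_fi_bi : s.f' * s.b' = 0 := by
  rw [show s.f' * s.b' = s.f' * (s.v * s.b') by rw [← mul_assoc, s.h_fi_v], s.d_v_bi, mul_zero]
@[simp] theorem Mr.rd_fi_bi (z : A) : s.f' * (s.b' * z) = 0 := by rw [← mul_assoc, s.d_fi_bi, zero_mul]
@[simp] theorem Mr.d_fi_di : s.f' * s.d' = 0 := by
  rw [show s.f' * s.d' = s.f' * (s.v * s.d') by rw [← mul_assoc, s.h_fi_v], s.d_v_di, mul_zero]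
@[simp] theorem Mr.rd_fi_di (z : A) : s.f' * (s.d' * z) = 0 := by rw [← mul_assoc, s.d_fi_di, zero_mul]
@[simp] theorem Mr.d_fi_fi : s.f' * s.f' = 0 := by
  rw [show s.f' * s.f' = s.f' * (s.v * s.f') by rw [← mul_assoc, s.h_fi_v], s.d_v_fi, mul_zero]
@[simp] theorem Mr.rd_fi_fi (z : A) : s.f' * (s.f' * z) = 0 := by rw [← mul_assoc, s.d_fi_fi, zero_mul]
@[simp] theorem Mr.d_fi_hi : s.f' * s.h' = 0 := by
  rw [show s.f' * s.h' = s.f' * (s.v * s.h') by rw [← mul_assoc, s.h_fi_v], s.d_v_hi, mul_zero]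
@[simp] theorem Mr.rd_fi_hi (z : A) : s.f' * (s.h' * z) = 0 := by rw [← mul_assoc, s.d_fi_hi, zero_mul]
@[simp] theorem Mr.d_fi_Si : s.f' * s.S' = 0 := by
  rw [show s.f' * s.S' = s.f' * (s.v * s.S') by rw [← mul_assoc, s.h_fi_v], s.d_v_Si, mul_zero]
@[simp] theorem Mr.rd_fi_Si (z : A) : s.f' * (s.S' * z) = 0 := by rw [← mul_assoc, s.d_fi_Si, zero_mul]
@[simp] theorem Mr.d_gi_a : s.g' * s.a = 0 := by
  rw [show s.g' * s.a = s.g' * (s.q * s.a) by rw [← mul_assoc, s.h_gi_q], s.d_q_a, mul_zero]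
@[simp] theorem Mr.rd_gi_a (z : A) : s.g' * (s.a * z) = 0 := by rw [← mul_assoc, s.d_gi_a, zero_mul]
@[simp] theorem Mr.d_gi_b : s.g' * s.b = 0 := by
  rw [show s.g' * s.b = s.g' * (s.q * s.b) by rw [← mul_assoc, s.h_gi_q], s.d_q_b, mul_zero]
@[simp] theorem Mr.rd_gi_b (z : A) : s.g' * (s.b * z) = 0 := by rw [← mul_assoc, s.d_gi_b, zero_mul]
@[simp] theorem Mr.d_gi_c : s.g' * s.c = 0 := by
  rw [show s.g' * s.c = s.g' * (s.q * s.c) by rw [← mul_assoc, s.h_gi_q], s.d_q_c, mul_zero]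
@[simp] theorem Mr.rd_gi_c (z : A) : s.g' * (s.c * z) = 0 := by rw [← mul_assoc, s.d_gi_c, zero_mul]
@[simp] theorem Mr.d_gi_d : s.g' * s.d = 0 := by
  rw [show s.g' * s.d = s.g' * (s.q * s.d) by rw [← mul_assoc, s.h_gi_q], s.d_q_d, mul_zero]
@[simp] theorem Mr.rd_gi_d (z : A) : s.g' * (s.d * z) = 0 := by rw [← mul_assoc, s.d_gi_d, zero_mul]
@[simp] theorem Mr.d_gi_e : s.g' * s.e = 0 := by
  rw [show s.g' * s.e = s.g' * (s.q * s.e) by rw [← mul_assoc, s.h_gi_q], s.d_q_e, mul_zero]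
@[simp] theorem Mr.rd_gi_e (z : A) : s.g' * (s.e * z) = 0 := by rw [← mul_assoc, s.d_gi_e, zero_mul]
@[simp] theorem Mr.d_gi_f : s.g' * s.f = 0 := by
  rw [show s.g' * s.f = s.g' * (s.q * s.f) by rw [← mul_assoc, s.h_gi_q], s.d_q_f, mul_zero]
@[simp] theorem Mr.rd_gi_f (z : A) : s.g' * (s.f * z) = 0 := by rw [← mul_assoc, s.d_gi_f, zero_mul]
@[simp] theorem Mr.d_gi_ai : s.g' * s.a' = 0 := by
  rw [show s.g' * s.a' = s.g' * (s.q * s.a') by rw [← mul_assoc, s.h_gi_q], s.d_q_ai, mul_zero]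
@[simp] theorem Mr.rd_gi_ai (z : A) : s.g' * (s.a' * z) = 0 := by rw [← mul_assoc, s.d_gi_ai, zero_mul]
@[simp] theorem Mr.d_gi_bi : s.g' * s.b' = 0 := by
  rw [show s.g' * s.b' = s.g' * (s.q * s.b') by rw [← mul_assoc, s.h_gi_q], s.d_q_bi, mul_zero]
@[simp] theorem Mr.rd_gi_bi (z : A) : s.g' * (s.b' * z) = 0 := by rw [← mul_assoc, s.d_gi_bi, zero_mul]
@[simp] theorem Mr.d_gi_ci : s.g' * s.c' = 0 := by
  rw [show s.g' * s.c' = s.g' * (s.q * s.c') by rw [← mul_assoc, s.h_gi_q], s.d_q_ci, mul_zero]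
@[simp] theorem Mr.rd_gi_ci (z : A) : s.g' * (s.c' * z) = 0 := by rw [← mul_assoc, s.d_gi_ci, zero_mul]
@[simp] theorem Mr.d_gi_di : s.g' * s.d' = 0 := by
  rw [show s.g' * s.d' = s.g' * (s.q * s.d') by rw [← mul_assoc, s.h_gi_q], s.d_q_di, mul_zero]
@[simp] theorem Mr.rd_gi_di (z : A) : s.g' * (s.d' * z) = 0 := by rw [← mul_assoc, s.d_gi_di, zero_mul]
@[simp] theorem Mr.d_gi_ei : s.g' * s.e' = 0 := by
  rw [show s.g' * s.e' = s.g' * (s.q * s.e') by rw [← mul_assoc, s.h_gi_q], s.d_q_ei, mul_zero]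
@[simp] theorem Mr.rd_gi_ei (z : A) : s.g' * (s.e' * z) = 0 := by rw [← mul_assoc, s.d_gi_ei, zero_mul]
@[simp] theorem Mr.d_gi_gi : s.g' * s.g' = 0 := by
  rw [show s.g' * s.g' = s.g' * (s.q * s.g') by rw [← mul_assoc, s.h_gi_q], s.d_q_gi, mul_zero]
@[simp] theorem Mr.rd_gi_gi (z : A) : s.g' * (s.g' * z) = 0 := by rw [← mul_assoc, s.d_gi_gi, zero_mul]
@[simp] theorem Mr.d_gi_ri : s.g' * s.r' = 0 := by
  rw [show s.g' * s.r' = s.g' * (s.q * s.r') by rw [← mul_assoc, s.h_gi_q], s.d_q_ri, mul_zero]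
@[simp] theorem Mr.rd_gi_ri (z : A) : s.g' * (s.r' * z) = 0 := by rw [← mul_assoc, s.d_gi_ri, zero_mul]
@[simp] theorem Mr.d_gi_Si : s.g' * s.S' = 0 := by
  rw [show s.g' * s.S' = s.g' * (s.q * s.S') by rw [← mul_assoc, s.h_gi_q], s.d_q_Si, mul_zero]
@[simp] theorem Mr.rd_gi_Si (z : A) : s.g' * (s.S' * z) = 0 := by rw [← mul_assoc, s.d_gi_Si, zero_mul]
@[simp] theorem Mr.d_hi_a : s.h' * s.a = 0 := by
  rw [show s.h' * s.a = s.h' * (s.q * s.a) by rw [← mul_assoc, s.h_hi_q], s.d_q_a, mul_zero]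
@[simp] theorem Mr.rd_hi_a (z : A) : s.h' * (s.a * z) = 0 := by rw [← mul_assoc, s.d_hi_a, zero_mul]
@[simp] theorem Mr.d_hi_b : s.h' * s.b = 0 := by
  rw [show s.h' * s.b = s.h' * (s.q * s.b) by rw [← mul_assoc, s.h_hi_q], s.d_q_b, mul_zero]
@[simp] theorem Mr.rd_hi_b (z : A) : s.h' * (s.b * z) = 0 := by rw [← mul_assoc, s.d_hi_b, zero_mul]
@[simp] theorem Mr.d_hi_c : s.h' * s.c = 0 := by
  rw [show s.h' * s.c = s.h' * (s.q * s.c) by rw [← mul_assoc, s.h_hi_q], s.d_q_c, mul_zero]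
@[simp] theorem Mr.rd_hi_c (z : A) : s.h' * (s.c * z) = 0 := by rw [← mul_assoc, s.d_hi_c, zero_mul]
@[simp] theorem Mr.d_hi_d : s.h' * s.d = 0 := by
  rw [show s.h' * s.d = s.h' * (s.q * s.d) by rw [← mul_assoc, s.h_hi_q], s.d_q_d, mul_zero]
@[simp] theorem Mr.rd_hi_d (z : A) : s.h' * (s.d * z) = 0 := by rw [← mul_assoc, s.d_hi_d, zero_mul]
@[simp] theorem Mr.d_hi_e : s.h' * s.e = 0 := by
  rw [show s.h' * s.e = s.h' * (s.q * s.e) by rw [← mul_assoc, s.h_hi_q], s.d_q_e, mul_zero]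
@[simp] theorem Mr.rd_hi_e (z : A) : s.h' * (s.e * z) = 0 := by rw [← mul_assoc, s.d_hi_e, zero_mul]
@[simp] theorem Mr.d_hi_f : s.h' * s.f = 0 := by
  rw [show s.h' * s.f = s.h' * (s.q * s.f) by rw [← mul_assoc, s.h_hi_q], s.d_q_f, mul_zero]
@[simp] theorem Mr.rd_hi_f (z : A) : s.h' * (s.f * z) = 0 := by rw [← mul_assoc, s.d_hi_f, zero_mul]
@[simp] theorem Mr.d_hi_ai : s.h' * s.a' = 0 := by
  rw [show s.h' * s.a' = s.h' * (s.q * s.a') by rw [← mul_assoc, s.h_hi_q], s.d_q_ai, mul_zero]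
@[simp] theorem Mr.rd_hi_ai (z : A) : s.h' * (s.a' * z) = 0 := by rw [← mul_assoc, s.d_hi_ai, zero_mul]
@[simp] theorem Mr.d_hi_bi : s.h' * s.b' = 0 := by
  rw [show s.h' * s.b' = s.h' * (s.q * s.b') by rw [← mul_assoc, s.h_hi_q], s.d_q_bi, mul_zero]
@[simp] theorem Mr.rd_hi_bi (z : A) : s.h' * (s.b' * z) = 0 := by rw [← mul_assoc, s.d_hi_bi, zero_mul]
@[simp] theorem Mr.d_hi_ci : s.h' * s.c' = 0 := by
  rw [show s.h' * s.c' = s.h' * (s.q * s.c') by rw [← mul_assoc, s.h_hi_q], s.d_q_ci, mul_zero]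
@[simp] theorem Mr.rd_hi_ci (z : A) : s.h' * (s.c' * z) = 0 := by rw [← mul_assoc, s.d_hi_ci, zero_mul]
@[simp] theorem Mr.d_hi_di : s.h' * s.d' = 0 := by
  rw [show s.h' * s.d' = s.h' * (s.q * s.d') by rw [← mul_assoc, s.h_hi_q], s.d_q_di, mul_zero]
@[simp] theorem Mr.rd_hi_di (z : A) : s.h' * (s.d' * z) = 0 := by rw [← mul_assoc, s.d_hi_di, zero_mul]
@[simp] theorem Mr.d_hi_ei : s.h' * s.e' = 0 := by
  rw [show s.h' * s.e' = s.h' * (s.q * s.e') by rw [← mul_assoc, s.h_hi_q], s.d_q_ei, mul_zero]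
@[simp] theorem Mr.rd_hi_ei (z : A) : s.h' * (s.e' * z) = 0 := by rw [← mul_assoc, s.d_hi_ei, zero_mul]
@[simp] theorem Mr.d_hi_gi : s.h' * s.g' = 0 := by
  rw [show s.h' * s.g' = s.h' * (s.q * s.g') by rw [← mul_assoc, s.h_hi_q], s.d_q_gi, mul_zero]
@[simp] theorem Mr.rd_hi_gi (z : A) : s.h' * (s.g' * z) = 0 := by rw [← mul_assoc, s.d_hi_gi, zero_mul]
@[simp] theorem Mr.d_hi_ri : s.h' * s.r' = 0 := by
  rw [show s.h' * s.r' = s.h' * (s.q * s.r') by rw [← mul_assoc, s.h_hi_q], s.d_q_ri, mul_zero]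
@[simp] theorem Mr.rd_hi_ri (z : A) : s.h' * (s.r' * z) = 0 := by rw [← mul_assoc, s.d_hi_ri, zero_mul]
@[simp] theorem Mr.d_hi_Si : s.h' * s.S' = 0 := by
  rw [show s.h' * s.S' = s.h' * (s.q * s.S') by rw [← mul_assoc, s.h_hi_q], s.d_q_Si, mul_zero]
@[simp] theorem Mr.rd_hi_Si (z : A) : s.h' * (s.S' * z) = 0 := by rw [← mul_assoc, s.d_hi_Si, zero_mul]
@[simp] theorem Mr.d_ri_a : s.r' * s.a = 0 := by
  rw [show s.r' * s.a = s.r' * (s.q * s.a) by rw [← mul_assoc, s.h_ri_q], s.d_q_a, mul_zero]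
@[simp] theorem Mr.rd_ri_a (z : A) : s.r' * (s.a * z) = 0 := by rw [← mul_assoc, s.d_ri_a, zero_mul]
@[simp] theorem Mr.d_ri_b : s.r' * s.b = 0 := by
  rw [show s.r' * s.b = s.r' * (s.q * s.b) by rw [← mul_assoc, s.h_ri_q], s.d_q_b, mul_zero]
@[simp] theorem Mr.rd_ri_b (z : A) : s.r' * (s.b * z) = 0 := by rw [← mul_assoc, s.d_ri_b, zero_mul]
@[simp] theorem Mr.d_ri_c : s.r' * s.c = 0 := by
  rw [show s.r' * s.c = s.r' * (s.q * s.c) by rw [← mul_assoc, s.h_ri_q], s.d_q_c, mul_zero]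
@[simp] theorem Mr.rd_ri_c (z : A) : s.r' * (s.c * z) = 0 := by rw [← mul_assoc, s.d_ri_c, zero_mul]
@[simp] theorem Mr.d_ri_d : s.r' * s.d = 0 := by
  rw [show s.r' * s.d = s.r' * (s.q * s.d) by rw [← mul_assoc, s.h_ri_q], s.d_q_d, mul_zero]
@[simp] theorem Mr.rd_ri_d (z : A) : s.r' * (s.d * z) = 0 := by rw [← mul_assoc, s.d_ri_d, zero_mul]
@[simp] theorem Mr.d_ri_e : s.r' * s.e = 0 := by
  rw [show s.r' * s.e = s.r' * (s.q * s.e) by rw [← mul_assoc, s.h_ri_q], s.d_q_e, mul_zero]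
@[simp] theorem Mr.rd_ri_e (z : A) : s.r' * (s.e * z) = 0 := by rw [← mul_assoc, s.d_ri_e, zero_mul]
@[simp] theorem Mr.d_ri_f : s.r' * s.f = 0 := by
  rw [show s.r' * s.f = s.r' * (s.q * s.f) by rw [← mul_assoc, s.h_ri_q], s.d_q_f, mul_zero]
@[simp] theorem Mr.rd_ri_f (z : A) : s.r' * (s.f * z) = 0 := by rw [← mul_assoc, s.d_ri_f, zero_mul]
@[simp] theorem Mr.d_ri_ai : s.r' * s.a' = 0 := by
  rw [show s.r' * s.a' = s.r' * (s.q * s.a') by rw [← mul_assoc, s.h_ri_q], s.d_q_ai, mul_zero]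
@[simp] theorem Mr.rd_ri_ai (z : A) : s.r' * (s.a' * z) = 0 := by rw [← mul_assoc, s.d_ri_ai, zero_mul]
@[simp] theorem Mr.d_ri_bi : s.r' * s.b' = 0 := by
  rw [show s.r' * s.b' = s.r' * (s.q * s.b') by rw [← mul_assoc, s.h_ri_q], s.d_q_bi, mul_zero]
@[simp] theorem Mr.rd_ri_bi (z : A) : s.r' * (s.b' * z) = 0 := by rw [← mul_assoc, s.d_ri_bi, zero_mul]
@[simp] theorem Mr.d_ri_ci : s.r' * s.c' = 0 := by
  rw [show s.r' * s.c' = s.r' * (s.q * s.c') by rw [← mul_assoc, s.h_ri_q], s.d_q_ci, mul_zero]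
@[simp] theorem Mr.rd_ri_ci (z : A) : s.r' * (s.c' * z) = 0 := by rw [← mul_assoc, s.d_ri_ci, zero_mul]
@[simp] theorem Mr.d_ri_di : s.r' * s.d' = 0 := by
  rw [show s.r' * s.d' = s.r' * (s.q * s.d') by rw [← mul_assoc, s.h_ri_q], s.d_q_di, mul_zero]
@[simp] theorem Mr.rd_ri_di (z : A) : s.r' * (s.d' * z) = 0 := by rw [← mul_assoc, s.d_ri_di, zero_mul]
@[simp] theorem Mr.d_ri_ei : s.r' * s.e' = 0 := by
  rw [show s.r' * s.e' = s.r' * (s.q * s.e') by rw [← mul_assoc, s.h_ri_q], s.d_q_ei, mul_zero]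
@[simp] theorem Mr.rd_ri_ei (z : A) : s.r' * (s.e' * z) = 0 := by rw [← mul_assoc, s.d_ri_ei, zero_mul]
@[simp] theorem Mr.d_ri_gi : s.r' * s.g' = 0 := by
  rw [show s.r' * s.g' = s.r' * (s.q * s.g') by rw [← mul_assoc, s.h_ri_q], s.d_q_gi, mul_zero]
@[simp] theorem Mr.rd_ri_gi (z : A) : s.r' * (s.g' * z) = 0 := by rw [← mul_assoc, s.d_ri_gi, zero_mul]
@[simp] theorem Mr.d_ri_ri : s.r' * s.r' = 0 := by
  rw [show s.r' * s.r' = s.r' * (s.q * s.r') by rw [← mul_assoc, s.h_ri_q], s.d_q_ri, mul_zero]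
@[simp] theorem Mr.rd_ri_ri (z : A) : s.r' * (s.r' * z) = 0 := by rw [← mul_assoc, s.d_ri_ri, zero_mul]
@[simp] theorem Mr.d_ri_Si : s.r' * s.S' = 0 := by
  rw [show s.r' * s.S' = s.r' * (s.q * s.S') by rw [← mul_assoc, s.h_ri_q], s.d_q_Si, mul_zero]
@[simp] theorem Mr.rd_ri_Si (z : A) : s.r' * (s.S' * z) = 0 := by rw [← mul_assoc, s.d_ri_Si, zero_mul]
@[simp] theorem Mr.d_Si_a : s.S' * s.a = 0 := by
  rw [show s.S' * s.a = s.S' * (s.q * s.a) by rw [← mul_assoc, s.h_Si_q], s.d_q_a, mul_zero]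
@[simp] theorem Mr.rd_Si_a (z : A) : s.S' * (s.a * z) = 0 := by rw [← mul_assoc, s.d_Si_a, zero_mul]
@[simp] theorem Mr.d_Si_b : s.S' * s.b = 0 := by
  rw [show s.S' * s.b = s.S' * (s.q * s.b) by rw [← mul_assoc, s.h_Si_q], s.d_q_b, mul_zero]
@[simp] theorem Mr.rd_Si_b (z : A) : s.S' * (s.b * z) = 0 := by rw [← mul_assoc, s.d_Si_b, zero_mul]
@[simp] theorem Mr.d_Si_c : s.S' * s.c = 0 := by
  rw [show s.S' * s.c = s.S' * (s.q * s.c) by rw [← mul_assoc, s.h_Si_q], s.d_q_c, mul_zero]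
@[simp] theorem Mr.rd_Si_c (z : A) : s.S' * (s.c * z) = 0 := by rw [← mul_assoc, s.d_Si_c, zero_mul]
@[simp] theorem Mr.d_Si_d : s.S' * s.d = 0 := by
  rw [show s.S' * s.d = s.S' * (s.q * s.d) by rw [← mul_assoc, s.h_Si_q], s.d_q_d, mul_zero]
@[simp] theorem Mr.rd_Si_d (z : A) : s.S' * (s.d * z) = 0 := by rw [← mul_assoc, s.d_Si_d, zero_mul]
@[simp] theorem Mr.d_Si_e : s.S' * s.e = 0 := by
  rw [show s.S' * s.e = s.S' * (s.q * s.e) by rw [← mul_assoc, s.h_Si_q], s.d_q_e, mul_zero]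
@[simp] theorem Mr.rd_Si_e (z : A) : s.S' * (s.e * z) = 0 := by rw [← mul_assoc, s.d_Si_e, zero_mul]
@[simp] theorem Mr.d_Si_f : s.S' * s.f = 0 := by
  rw [show s.S' * s.f = s.S' * (s.q * s.f) by rw [← mul_assoc, s.h_Si_q], s.d_q_f, mul_zero]
@[simp] theorem Mr.rd_Si_f (z : A) : s.S' * (s.f * z) = 0 := by rw [← mul_assoc, s.d_Si_f, zero_mul]
@[simp] theorem Mr.d_Si_ai : s.S' * s.a' = 0 := by
  rw [show s.S' * s.a' = s.S' * (s.q * s.a') by rw [← mul_assoc, s.h_Si_q], s.d_q_ai, mul_zero]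
@[simp] theorem Mr.rd_Si_ai (z : A) : s.S' * (s.a' * z) = 0 := by rw [← mul_assoc, s.d_Si_ai, zero_mul]
@[simp] theorem Mr.d_Si_bi : s.S' * s.b' = 0 := by
  rw [show s.S' * s.b' = s.S' * (s.q * s.b') by rw [← mul_assoc, s.h_Si_q], s.d_q_bi, mul_zero]
@[simp] theorem Mr.rd_Si_bi (z : A) : s.S' * (s.b' * z) = 0 := by rw [← mul_assoc, s.d_Si_bi, zero_mul]
@[simp] theorem Mr.d_Si_ci : s.S' * s.c' = 0 := by
  rw [show s.S' * s.c' = s.S' * (s.q * s.c') by rw [← mul_assoc, s.h_Si_q], s.d_q_ci, mul_zero]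
@[simp] theorem Mr.rd_Si_ci (z : A) : s.S' * (s.c' * z) = 0 := by rw [← mul_assoc, s.d_Si_ci, zero_mul]
@[simp] theorem Mr.d_Si_di : s.S' * s.d' = 0 := by
  rw [show s.S' * s.d' = s.S' * (s.q * s.d') by rw [← mul_assoc, s.h_Si_q], s.d_q_di, mul_zero]
@[simp] theorem Mr.rd_Si_di (z : A) : s.S' * (s.d' * z) = 0 := by rw [← mul_assoc, s.d_Si_di, zero_mul]
@[simp] theorem Mr.d_Si_ei : s.S' * s.e' = 0 := by
  rw [show s.S' * s.e' = s.S' * (s.q * s.e') by rw [← mul_assoc, s.h_Si_q], s.d_q_ei, mul_zero]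
@[simp] theorem Mr.rd_Si_ei (z : A) : s.S' * (s.e' * z) = 0 := by rw [← mul_assoc, s.d_Si_ei, zero_mul]
@[simp] theorem Mr.d_Si_gi : s.S' * s.g' = 0 := by
  rw [show s.S' * s.g' = s.S' * (s.q * s.g') by rw [← mul_assoc, s.h_Si_q], s.d_q_gi, mul_zero]
@[simp] theorem Mr.rd_Si_gi (z : A) : s.S' * (s.g' * z) = 0 := by rw [← mul_assoc, s.d_Si_gi, zero_mul]
@[simp] theorem Mr.d_Si_ri : s.S' * s.r' = 0 := by
  rw [show s.S' * s.r' = s.S' * (s.q * s.r') by rw [← mul_assoc, s.h_Si_q], s.d_q_ri, mul_zero]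
@[simp] theorem Mr.rd_Si_ri (z : A) : s.S' * (s.r' * z) = 0 := by rw [← mul_assoc, s.d_Si_ri, zero_mul]
@[simp] theorem Mr.d_Si_Si : s.S' * s.S' = 0 := by
  rw [show s.S' * s.S' = s.S' * (s.q * s.S') by rw [← mul_assoc, s.h_Si_q], s.d_q_Si, mul_zero]
@[simp] theorem Mr.rd_Si_Si (z : A) : s.S' * (s.S' * z) = 0 := by rw [← mul_assoc, s.d_Si_Si, zero_mul]
@[simp] theorem Mr.d_S_a : s.S * s.a = 0 := by
  rw [← s.h_S_dl, mul_assoc, s.h_dl_a, mul_zero]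
@[simp] theorem Mr.rd_S_a (z : A) : s.S * (s.a * z) = 0 := by rw [← mul_assoc, s.d_S_a, zero_mul]
@[simp] theorem Mr.d_ai_Si : s.a' * s.S' = 0 := by
  rw [← s.h_dl_Si, ← mul_assoc, s.h_ai_dl, zero_mul]
@[simp] theorem Mr.rd_ai_Si (z : A) : s.a' * (s.S' * z) = 0 := by rw [← mul_assoc, s.d_ai_Si, zero_mul]
@[simp] theorem Mr.d_S_b : s.S * s.b = 0 := by
  rw [← s.h_S_dl, mul_assoc, s.h_dl_b, mul_zero]
@[simp] theorem Mr.rd_S_b (z : A) : s.S * (s.b * z) = 0 := by rw [← mul_assoc, s.d_S_b, zero_mul]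
@[simp] theorem Mr.d_bi_Si : s.b' * s.S' = 0 := by
  rw [← s.h_dl_Si, ← mul_assoc, s.h_bi_dl, zero_mul]
@[simp] theorem Mr.rd_bi_Si (z : A) : s.b' * (s.S' * z) = 0 := by rw [← mul_assoc, s.d_bi_Si, zero_mul]
@[simp] theorem Mr.d_S_c : s.S * s.c = 0 := by
  rw [← s.h_S_dl, mul_assoc, s.h_dl_c, mul_zero]
@[simp] theorem Mr.rd_S_c (z : A) : s.S * (s.c * z) = 0 := by rw [← mul_assoc, s.d_S_c, zero_mul]
@[simp] theorem Mr.d_ci_Si : s.c' * s.S' = 0 := by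
  rw [← s.h_dl_Si, ← mul_assoc, s.h_ci_dl, zero_mul]
@[simp] theorem Mr.rd_ci_Si (z : A) : s.c' * (s.S' * z) = 0 := by rw [← mul_assoc, s.d_ci_Si, zero_mul]
attribute [simp] Mr.s_c
@[simp] theorem Mr.rs_c (z : A) : s.c * (s.c' * z) = s.u * z - s.a * (s.a' * z) - s.b * (s.b' * z) - s.dl * z := by
  rw [← mul_assoc, s.s_c]; simp only [sub_mul, add_mul, one_mul, mul_assoc]
attribute [simp] Mr.s_f
@[simp] theorem Mr.rs_f (z : A) : s.f * (s.f' * z) = s.v * z - s.d * (s.d' * z) - s.e * (s.e' * z) := by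
  rw [← mul_assoc, s.s_f]; simp only [sub_mul, add_mul, one_mul, mul_assoc]
attribute [simp] Mr.s_h
@[simp] theorem Mr.rs_h (z : A) : s.h * (s.h' * z) = s.q * z - s.g * (s.g' * z) := by
  rw [← mul_assoc, s.s_h]; simp only [sub_mul, add_mul, one_mul, mul_assoc]
attribute [simp] Mr.s_S
@[simp] theorem Mr.rs_S (z : A) : s.S * (s.S' * z) = s.q * z - s.r * (s.r' * z) := by
  rw [← mul_assoc, s.s_S]; simp only [sub_mul, add_mul, one_mul, mul_assoc]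

end Mrs

end Pool.Agent.SKG
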