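import Mathlib

set_option autoImplicit false
set_option linter.all false

universe u

namespace Pool.Agent.SKG

/-- the gadget of two sources -/
@[ext] structure Pl (A : Type*) [Ring A] where
  u : A
  v : A
  q : A
  dl : A
  a : A
  a' : A
  b : A
  b' : A
  al : A
  al' : A
  Y : A
  Y' : A
  be : A
  be' : A
  X : A
  X' : A
  h_u_u : u * u = u
  h_v_v : v * v = v
  h_q_q : q * q = q
  h_u_v : u * v = 0
  h_v_u : v * u = 0
  h_u_q : u * q = 0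
  h_q_u : q * u = 0
  h_v_q : v * q = 0
  h_q_v : q * v = 0
  h_dl_dl : dl * dl = dl
  h_u_dl : u * dl = dl
  h_dl_u : dl * u = dl
  h_u_a : u * a = a
  h_a_u : a * u = a
  h_u_b : u * b = b
  h_b_u : b * u = b
  h_v_al : v * al = al
  h_al_u : al * u = al
  h_v_Y : v * Y = Y
  h_Y_dl : Y * dl = Y
  h_q_be : q * be = be
  h_be_v : be * v = be
  h_q_X : q * X = X
  h_X_dl : X * dl = X
  h_u_ai : u * a' = a'
  h_ai_u : a' * u = a'
  h_u_bi : u * b' = b'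
  h_bi_u : b' * u = b'
  h_u_ali : u * al' = al'
  h_ali_v : al' * v = al'
  h_dl_Yi : dl * Y' = Y'
  h_Yi_v : Y' * v = Y'
  h_v_bei : v * be' = be'
  h_bei_q : be' * q = be'
  h_dl_Xi : dl * X' = X'
  h_Xi_q : X' * q = X'
  h_ai_a : a' * a = u
  h_ai_b : a' * b = 0
  h_bi_a : b' * a = 0
  h_bi_b : b' * b = u
  h_ali_al : al' * al = u
  h_ali_Y : al' * Y = 0
  h_Yi_al : Y' * al = 0
  h_Yi_Y : Y' * Y = dl
  h_bei_be : be' * be = v
  h_bei_X : be' * X = 0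
  h_Xi_be : X' * be = 0
  h_Xi_X : X' * X = dl
  h_ai_dl : a' * dl = 0
  h_dl_a : dl * a = 0
  h_bi_dl : b' * dl = 0
  h_dl_b : dl * b = 0
  s_b : b * b' = u - a * a' - dl
  s_Y : Y * Y' = v - al * al'
  s_X : X * X' = q - be * be'

section Pls

variable {A : Type*} [Ring A] (s : Pl A)

attribute [simp] Pl.h_u_u
@[simp] theorem Pl.rh_u_u (z : A) : s.u * (s.u * z) = s.u * z := by rw [← mul_assoc, s.h_u_u]
attribute [simp] Pl.h_v_v
@[simp] theorem Pl.rh_v_v (z : A) : s.v * (s.v * z) = s.v * z := by rw [← mul_assoc, s.h_v_v]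
attribute [simp] Pl.h_q_q
@[simp] theorem Pl.rh_q_q (z : A) : s.q * (s.q * z) = s.q * z := by rw [← mul_assoc, s.h_q_q]
attribute [simp] Pl.h_u_v
@[simp] theorem Pl.rh_u_v (z : A) : s.u * (s.v * z) = 0 := by rw [← mul_assoc, s.h_u_v, zero_mul]
attribute [simp] Pl.h_v_u
@[simp] theorem Pl.rh_v_u (z : A) : s.v * (s.u * z) = 0 := by rw [← mul_assoc, s.h_v_u, zero_mul]
attribute [simp] Pl.h_u_q
@[simp] theorem Pl.rh_u_q (z : A) : s.u * (s.q * z) = 0 := by rw [← mul_assoc, s.h_u_q, zero_mul]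
attribute [simp] Pl.h_q_u
@[simp] theorem Pl.rh_q_u (z : A) : s.q * (s.u * z) = 0 := by rw [← mul_assoc, s.h_q_u, zero_mul]
attribute [simp] Pl.h_v_q
@[simp] theorem Pl.rh_v_q (z : A) : s.v * (s.q * z) = 0 := by rw [← mul_assoc, s.h_v_q, zero_mul]
attribute [simp] Pl.h_q_v
@[simp] theorem Pl.rh_q_v (z : A) : s.q * (s.v * z) = 0 := by rw [← mul_assoc, s.h_q_v, zero_mul]
attribute [simp] Pl.h_dl_dl
@[simp] theorem Pl.rh_dl_dl (z : A) : s.dl * (s.dl * z) = s.dl * z := by rw [← mul_assoc, s.h_dl_dl]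
attribute [simp] Pl.h_u_dl
@[simp] theorem Pl.rh_u_dl (z : A) : s.u * (s.dl * z) = s.dl * z := by rw [← mul_assoc, s.h_u_dl]
attribute [simp] Pl.h_dl_u
@[simp] theorem Pl.rh_dl_u (z : A) : s.dl * (s.u * z) = s.dl * z := by rw [← mul_assoc, s.h_dl_u]
attribute [simp] Pl.h_u_a
@[simp] theorem Pl.rh_u_a (z : A) : s.u * (s.a * z) = s.a * z := by rw [← mul_assoc, s.h_u_a]
attribute [simp] Pl.h_a_u
@[simp] theorem Pl.rh_a_u (z : A) : s.a * (s.u * z) = s.a * z := by rw [← mul_assoc, s.h_a_u]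
attribute [simp] Pl.h_u_b
@[simp] theorem Pl.rh_u_b (z : A) : s.u * (s.b * z) = s.b * z := by rw [← mul_assoc, s.h_u_b]
attribute [simp] Pl.h_b_u
@[simp] theorem Pl.rh_b_u (z : A) : s.b * (s.u * z) = s.b * z := by rw [← mul_assoc, s.h_b_u]
attribute [simp] Pl.h_v_al
@[simp] theorem Pl.rh_v_al (z : A) : s.v * (s.al * z) = s.al * z := by rw [← mul_assoc, s.h_v_al]
attribute [simp] Pl.h_al_u
@[simp] theorem Pl.rh_al_u (z : A) : s.al * (s.u * z) = s.al * z := by rw [← mul_assoc, s.h_al_u]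
attribute [simp] Pl.h_v_Y
@[simp] theorem Pl.rh_v_Y (z : A) : s.v * (s.Y * z) = s.Y * z := by rw [← mul_assoc, s.h_v_Y]
attribute [simp] Pl.h_Y_dl
@[simp] theorem Pl.rh_Y_dl (z : A) : s.Y * (s.dl * z) = s.Y * z := by rw [← mul_assoc, s.h_Y_dl]
attribute [simp] Pl.h_q_be
@[simp] theorem Pl.rh_q_be (z : A) : s.q * (s.be * z) = s.be * z := by rw [← mul_assoc, s.h_q_be]
attribute [simp] Pl.h_be_v
@[simp] theorem Pl.rh_be_v (z : A) : s.be * (s.v * z) = s.be * z := by rw [← mul_assoc, s.h_be_v]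
attribute [simp] Pl.h_q_X
@[simp] theorem Pl.rh_q_X (z : A) : s.q * (s.X * z) = s.X * z := by rw [← mul_assoc, s.h_q_X]
attribute [simp] Pl.h_X_dl
@[simp] theorem Pl.rh_X_dl (z : A) : s.X * (s.dl * z) = s.X * z := by rw [← mul_assoc, s.h_X_dl]
attribute [simp] Pl.h_u_ai
@[simp] theorem Pl.rh_u_ai (z : A) : s.u * (s.a' * z) = s.a' * z := by rw [← mul_assoc, s.h_u_ai]
attribute [simp] Pl.h_ai_u
@[simp] theorem Pl.rh_ai_u (z : A) : s.a' * (s.u * z) = s.a' * z := by rw [← mul_assoc, s.h_ai_u]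
attribute [simp] Pl.h_u_bi
@[simp] theorem Pl.rh_u_bi (z : A) : s.u * (s.b' * z) = s.b' * z := by rw [← mul_assoc, s.h_u_bi]
attribute [simp] Pl.h_bi_u
@[simp] theorem Pl.rh_bi_u (z : A) : s.b' * (s.u * z) = s.b' * z := by rw [← mul_assoc, s.h_bi_u]
attribute [simp] Pl.h_u_ali
@[simp] theorem Pl.rh_u_ali (z : A) : s.u * (s.al' * z) = s.al' * z := by rw [← mul_assoc, s.h_u_ali]
attribute [simp] Pl.h_ali_v
@[simp] theorem Pl.rh_ali_v (z : A) : s.al' * (s.v * z) = s.al' * z := by rw [← mul_assoc, s.h_ali_v]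
attribute [simp] Pl.h_dl_Yi
@[simp] theorem Pl.rh_dl_Yi (z : A) : s.dl * (s.Y' * z) = s.Y' * z := by rw [← mul_assoc, s.h_dl_Yi]
attribute [simp] Pl.h_Yi_v
@[simp] theorem Pl.rh_Yi_v (z : A) : s.Y' * (s.v * z) = s.Y' * z := by rw [← mul_assoc, s.h_Yi_v]
attribute [simp] Pl.h_v_bei
@[simp] theorem Pl.rh_v_bei (z : A) : s.v * (s.be' * z) = s.be' * z := by rw [← mul_assoc, s.h_v_bei]
attribute [simp] Pl.h_bei_q
@[simp] theorem Pl.rh_bei_q (z : A) : s.be' * (s.q * z) = s.be' * z := by rw [← mul_assoc, s.h_bei_q]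
attribute [simp] Pl.h_dl_Xi
@[simp] theorem Pl.rh_dl_Xi (z : A) : s.dl * (s.X' * z) = s.X' * z := by rw [← mul_assoc, s.h_dl_Xi]
attribute [simp] Pl.h_Xi_q
@[simp] theorem Pl.rh_Xi_q (z : A) : s.X' * (s.q * z) = s.X' * z := by rw [← mul_assoc, s.h_Xi_q]
attribute [simp] Pl.h_ai_a
@[simp] theorem Pl.rh_ai_a (z : A) : s.a' * (s.a * z) = s.u * z := by rw [← mul_assoc, s.h_ai_a]
attribute [simp] Pl.h_ai_b
@[simp] theorem Pl.rh_ai_b (z : A) : s.a' * (s.b * z) = 0 := by rw [← mul_assoc, s.h_ai_b, zero_mul]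
attribute [simp] Pl.h_bi_a
@[simp] theorem Pl.rh_bi_a (z : A) : s.b' * (s.a * z) = 0 := by rw [← mul_assoc, s.h_bi_a, zero_mul]
attribute [simp] Pl.h_bi_b
@[simp] theorem Pl.rh_bi_b (z : A) : s.b' * (s.b * z) = s.u * z := by rw [← mul_assoc, s.h_bi_b]
attribute [simp] Pl.h_ali_al
@[simp] theorem Pl.rh_ali_al (z : A) : s.al' * (s.al * z) = s.u * z := by rw [← mul_assoc, s.h_ali_al]
attribute [simp] Pl.h_ali_Y
@[simp] theorem Pl.rh_ali_Y (z : A) : s.al' * (s.Y * z) = 0 := by rw [← mul_assoc, s.h_ali_Y, zero_mul]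
attribute [simp] Pl.h_Yi_al
@[simp] theorem Pl.rh_Yi_al (z : A) : s.Y' * (s.al * z) = 0 := by rw [← mul_assoc, s.h_Yi_al, zero_mul]
attribute [simp] Pl.h_Yi_Y
@[simp] theorem Pl.rh_Yi_Y (z : A) : s.Y' * (s.Y * z) = s.dl * z := by rw [← mul_assoc, s.h_Yi_Y]
attribute [simp] Pl.h_bei_be
@[simp] theorem Pl.rh_bei_be (z : A) : s.be' * (s.be * z) = s.v * z := by rw [← mul_assoc, s.h_bei_be]
attribute [simp] Pl.h_bei_X
@[simp] theorem Pl.rh_bei_X (z : A) : s.be' * (s.X * z) = 0 := by rw [← mul_assoc, s.h_bei_X, zero_mul]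
attribute [simp] Pl.h_Xi_be
@[simp] theorem Pl.rh_Xi_be (z : A) : s.X' * (s.be * z) = 0 := by rw [← mul_assoc, s.h_Xi_be, zero_mul]
attribute [simp] Pl.h_Xi_X
@[simp] theorem Pl.rh_Xi_X (z : A) : s.X' * (s.X * z) = s.dl * z := by rw [← mul_assoc, s.h_Xi_X]
attribute [simp] Pl.h_ai_dl
@[simp] theorem Pl.rh_ai_dl (z : A) : s.a' * (s.dl * z) = 0 := by rw [← mul_assoc, s.h_ai_dl, zero_mul]
attribute [simp] Pl.h_dl_a
@[simp] theorem Pl.rh_dl_a (z : A) : s.dl * (s.a * z) = 0 := by rw [← mul_assoc, s.h_dl_a, zero_mul]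
attribute [simp] Pl.h_bi_dl
@[simp] theorem Pl.rh_bi_dl (z : A) : s.b' * (s.dl * z) = 0 := by rw [← mul_assoc, s.h_bi_dl, zero_mul]
attribute [simp] Pl.h_dl_b
@[simp] theorem Pl.rh_dl_b (z : A) : s.dl * (s.b * z) = 0 := by rw [← mul_assoc, s.h_dl_b, zero_mul]
@[simp] theorem Pl.d_v_dl : s.v * s.dl = 0 := by
  rw [← s.h_u_dl, ← mul_assoc, s.h_v_u, zero_mul]
@[simp] theorem Pl.rd_v_dl (z : A) : s.v * (s.dl * z) = 0 := by rw [← mul_assoc, s.d_v_dl, zero_mul]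
@[simp] theorem Pl.d_dl_v : s.dl * s.v = 0 := by
  rw [← s.h_dl_u, mul_assoc, s.h_u_v, mul_zero]
@[simp] theorem Pl.rd_dl_v (z : A) : s.dl * (s.v * z) = 0 := by rw [← mul_assoc, s.d_dl_v, zero_mul]
@[simp] theorem Pl.d_q_dl : s.q * s.dl = 0 := by
  rw [← s.h_u_dl, ← mul_assoc, s.h_q_u, zero_mul]
@[simp] theorem Pl.rd_q_dl (z : A) : s.q * (s.dl * z) = 0 := by rw [← mul_assoc, s.d_q_dl, zero_mul]
@[simp] theorem Pl.d_dl_q : s.dl * s.q = 0 := by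
  rw [← s.h_dl_u, mul_assoc, s.h_u_q, mul_zero]
@[simp] theorem Pl.rd_dl_q (z : A) : s.dl * (s.q * z) = 0 := by rw [← mul_assoc, s.d_dl_q, zero_mul]
@[simp] theorem Pl.d_Y_u : s.Y * s.u = s.Y := by
  rw [← s.h_Y_dl, mul_assoc, s.h_dl_u]
@[simp] theorem Pl.rd_Y_u (z : A) : s.Y * (s.u * z) = s.Y * z := by rw [← mul_assoc, s.d_Y_u]
@[simp] theorem Pl.d_X_u : s.X * s.u = s.X := by
  rw [← s.h_X_dl, mul_assoc, s.h_dl_u]
@[simp] theorem Pl.rd_X_u (z : A) : s.X * (s.u * z) = s.X * z := by rw [← mul_assoc, s.d_X_u]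
@[simp] theorem Pl.d_u_Yi : s.u * s.Y' = s.Y' := by
  rw [← s.h_dl_Yi, ← mul_assoc, s.h_u_dl]
@[simp] theorem Pl.rd_u_Yi (z : A) : s.u * (s.Y' * z) = s.Y' * z := by rw [← mul_assoc, s.d_u_Yi]
@[simp] theorem Pl.d_u_Xi : s.u * s.X' = s.X' := by
  rw [← s.h_dl_Xi, ← mul_assoc, s.h_u_dl]
@[simp] theorem Pl.rd_u_Xi (z : A) : s.u * (s.X' * z) = s.X' * z := by rw [← mul_assoc, s.d_u_Xi]
@[simp] theorem Pl.d_v_a : s.v * s.a = 0 := by
  rw [← s.h_u_a, ← mul_assoc, s.h_v_u, zero_mul]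
@[simp] theorem Pl.rd_v_a (z : A) : s.v * (s.a * z) = 0 := by rw [← mul_assoc, s.d_v_a, zero_mul]
@[simp] theorem Pl.d_a_v : s.a * s.v = 0 := by
  rw [← s.h_a_u, mul_assoc, s.h_u_v, mul_zero]
@[simp] theorem Pl.rd_a_v (z : A) : s.a * (s.v * z) = 0 := by rw [← mul_assoc, s.d_a_v, zero_mul]
@[simp] theorem Pl.d_q_a : s.q * s.a = 0 := by
  rw [← s.h_u_a, ← mul_assoc, s.h_q_u, zero_mul]
@[simp] theorem Pl.rd_q_a (z : A) : s.q * (s.a * z) = 0 := by rw [← mul_assoc, s.d_q_a, zero_mul]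
@[simp] theorem Pl.d_a_q : s.a * s.q = 0 := by
  rw [← s.h_a_u, mul_assoc, s.h_u_q, mul_zero]
@[simp] theorem Pl.rd_a_q (z : A) : s.a * (s.q * z) = 0 := by rw [← mul_assoc, s.d_a_q, zero_mul]
@[simp] theorem Pl.d_v_b : s.v * s.b = 0 := by
  rw [← s.h_u_b, ← mul_assoc, s.h_v_u, zero_mul]
@[simp] theorem Pl.rd_v_b (z : A) : s.v * (s.b * z) = 0 := by rw [← mul_assoc, s.d_v_b, zero_mul]
@[simp] theorem Pl.d_b_v : s.b * s.v = 0 := by
  rw [← s.h_b_u, mul_assoc, s.h_u_v, mul_zero]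
@[simp] theorem Pl.rd_b_v (z : A) : s.b * (s.v * z) = 0 := by rw [← mul_assoc, s.d_b_v, zero_mul]
@[simp] theorem Pl.d_q_b : s.q * s.b = 0 := by
  rw [← s.h_u_b, ← mul_assoc, s.h_q_u, zero_mul]
@[simp] theorem Pl.rd_q_b (z : A) : s.q * (s.b * z) = 0 := by rw [← mul_assoc, s.d_q_b, zero_mul]
@[simp] theorem Pl.d_b_q : s.b * s.q = 0 := by
  rw [← s.h_b_u, mul_assoc, s.h_u_q, mul_zero]
@[simp] theorem Pl.rd_b_q (z : A) : s.b * (s.q * z) = 0 := by rw [← mul_assoc, s.d_b_q, zero_mul]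
@[simp] theorem Pl.d_u_al : s.u * s.al = 0 := by
  rw [← s.h_v_al, ← mul_assoc, s.h_u_v, zero_mul]
@[simp] theorem Pl.rd_u_al (z : A) : s.u * (s.al * z) = 0 := by rw [← mul_assoc, s.d_u_al, zero_mul]
@[simp] theorem Pl.d_al_v : s.al * s.v = 0 := by
  rw [← s.h_al_u, mul_assoc, s.h_u_v, mul_zero]
@[simp] theorem Pl.rd_al_v (z : A) : s.al * (s.v * z) = 0 := by rw [← mul_assoc, s.d_al_v, zero_mul]
@[simp] theorem Pl.d_q_al : s.q * s.al = 0 := by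
  rw [← s.h_v_al, ← mul_assoc, s.h_q_v, zero_mul]
@[simp] theorem Pl.rd_q_al (z : A) : s.q * (s.al * z) = 0 := by rw [← mul_assoc, s.d_q_al, zero_mul]
@[simp] theorem Pl.d_al_q : s.al * s.q = 0 := by
  rw [← s.h_al_u, mul_assoc, s.h_u_q, mul_zero]
@[simp] theorem Pl.rd_al_q (z : A) : s.al * (s.q * z) = 0 := by rw [← mul_assoc, s.d_al_q, zero_mul]
@[simp] theorem Pl.d_dl_al : s.dl * s.al = 0 := by
  rw [← s.h_v_al, ← mul_assoc, s.d_dl_v, zero_mul]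
@[simp] theorem Pl.rd_dl_al (z : A) : s.dl * (s.al * z) = 0 := by rw [← mul_assoc, s.d_dl_al, zero_mul]
@[simp] theorem Pl.d_u_Y : s.u * s.Y = 0 := by
  rw [← s.h_v_Y, ← mul_assoc, s.h_u_v, zero_mul]
@[simp] theorem Pl.rd_u_Y (z : A) : s.u * (s.Y * z) = 0 := by rw [← mul_assoc, s.d_u_Y, zero_mul]
@[simp] theorem Pl.d_Y_v : s.Y * s.v = 0 := by
  rw [← s.h_Y_dl, mul_assoc, s.d_dl_v, mul_zero]
@[simp] theorem Pl.rd_Y_v (z : A) : s.Y * (s.v * z) = 0 := by rw [← mul_assoc, s.d_Y_v, zero_mul]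
@[simp] theorem Pl.d_q_Y : s.q * s.Y = 0 := by
  rw [← s.h_v_Y, ← mul_assoc, s.h_q_v, zero_mul]
@[simp] theorem Pl.rd_q_Y (z : A) : s.q * (s.Y * z) = 0 := by rw [← mul_assoc, s.d_q_Y, zero_mul]
@[simp] theorem Pl.d_Y_q : s.Y * s.q = 0 := by
  rw [← s.h_Y_dl, mul_assoc, s.d_dl_q, mul_zero]
@[simp] theorem Pl.rd_Y_q (z : A) : s.Y * (s.q * z) = 0 := by rw [← mul_assoc, s.d_Y_q, zero_mul]
@[simp] theorem Pl.d_dl_Y : s.dl * s.Y = 0 := by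
  rw [← s.h_v_Y, ← mul_assoc, s.d_dl_v, zero_mul]
@[simp] theorem Pl.rd_dl_Y (z : A) : s.dl * (s.Y * z) = 0 := by rw [← mul_assoc, s.d_dl_Y, zero_mul]
@[simp] theorem Pl.d_u_be : s.u * s.be = 0 := by
  rw [← s.h_q_be, ← mul_assoc, s.h_u_q, zero_mul]
@[simp] theorem Pl.rd_u_be (z : A) : s.u * (s.be * z) = 0 := by rw [← mul_assoc, s.d_u_be, zero_mul]
@[simp] theorem Pl.d_be_u : s.be * s.u = 0 := by
  rw [← s.h_be_v, mul_assoc, s.h_v_u, mul_zero]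
@[simp] theorem Pl.rd_be_u (z : A) : s.be * (s.u * z) = 0 := by rw [← mul_assoc, s.d_be_u, zero_mul]
@[simp] theorem Pl.d_v_be : s.v * s.be = 0 := by
  rw [← s.h_q_be, ← mul_assoc, s.h_v_q, zero_mul]
@[simp] theorem Pl.rd_v_be (z : A) : s.v * (s.be * z) = 0 := by rw [← mul_assoc, s.d_v_be, zero_mul]
@[simp] theorem Pl.d_be_q : s.be * s.q = 0 := by
  rw [← s.h_be_v, mul_assoc, s.h_v_q, mul_zero]
@[simp] theorem Pl.rd_be_q (z : A) : s.be * (s.q * z) = 0 := by rw [← mul_assoc, s.d_be_q, zero_mul]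
@[simp] theorem Pl.d_dl_be : s.dl * s.be = 0 := by
  rw [← s.h_q_be, ← mul_assoc, s.d_dl_q, zero_mul]
@[simp] theorem Pl.rd_dl_be (z : A) : s.dl * (s.be * z) = 0 := by rw [← mul_assoc, s.d_dl_be, zero_mul]
@[simp] theorem Pl.d_be_dl : s.be * s.dl = 0 := by
  rw [← s.h_be_v, mul_assoc, s.d_v_dl, mul_zero]
@[simp] theorem Pl.rd_be_dl (z : A) : s.be * (s.dl * z) = 0 := by rw [← mul_assoc, s.d_be_dl, zero_mul]
@[simp] theorem Pl.d_u_X : s.u * s.X = 0 := by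
  rw [← s.h_q_X, ← mul_assoc, s.h_u_q, zero_mul]
@[simp] theorem Pl.rd_u_X (z : A) : s.u * (s.X * z) = 0 := by rw [← mul_assoc, s.d_u_X, zero_mul]
@[simp] theorem Pl.d_v_X : s.v * s.X = 0 := by
  rw [← s.h_q_X, ← mul_assoc, s.h_v_q, zero_mul]
@[simp] theorem Pl.rd_v_X (z : A) : s.v * (s.X * z) = 0 := by rw [← mul_assoc, s.d_v_X, zero_mul]
@[simp] theorem Pl.d_X_v : s.X * s.v = 0 := by
  rw [← s.h_X_dl, mul_assoc, s.d_dl_v, mul_zero]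
@[simp] theorem Pl.rd_X_v (z : A) : s.X * (s.v * z) = 0 := by rw [← mul_assoc, s.d_X_v, zero_mul]
@[simp] theorem Pl.d_X_q : s.X * s.q = 0 := by
  rw [← s.h_X_dl, mul_assoc, s.d_dl_q, mul_zero]
@[simp] theorem Pl.rd_X_q (z : A) : s.X * (s.q * z) = 0 := by rw [← mul_assoc, s.d_X_q, zero_mul]
@[simp] theorem Pl.d_dl_X : s.dl * s.X = 0 := by
  rw [← s.h_q_X, ← mul_assoc, s.d_dl_q, zero_mul]
@[simp] theorem Pl.rd_dl_X (z : A) : s.dl * (s.X * z) = 0 := by rw [← mul_assoc, s.d_dl_X, zero_mul]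
@[simp] theorem Pl.d_v_ai : s.v * s.a' = 0 := by
  rw [← s.h_u_ai, ← mul_assoc, s.h_v_u, zero_mul]
@[simp] theorem Pl.rd_v_ai (z : A) : s.v * (s.a' * z) = 0 := by rw [← mul_assoc, s.d_v_ai, zero_mul]
@[simp] theorem Pl.d_ai_v : s.a' * s.v = 0 := by
  rw [← s.h_ai_u, mul_assoc, s.h_u_v, mul_zero]
@[simp] theorem Pl.rd_ai_v (z : A) : s.a' * (s.v * z) = 0 := by rw [← mul_assoc, s.d_ai_v, zero_mul]
@[simp] theorem Pl.d_q_ai : s.q * s.a' = 0 := by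
  rw [← s.h_u_ai, ← mul_assoc, s.h_q_u, zero_mul]
@[simp] theorem Pl.rd_q_ai (z : A) : s.q * (s.a' * z) = 0 := by rw [← mul_assoc, s.d_q_ai, zero_mul]
@[simp] theorem Pl.d_ai_q : s.a' * s.q = 0 := by
  rw [← s.h_ai_u, mul_assoc, s.h_u_q, mul_zero]
@[simp] theorem Pl.rd_ai_q (z : A) : s.a' * (s.q * z) = 0 := by rw [← mul_assoc, s.d_ai_q, zero_mul]
@[simp] theorem Pl.d_v_bi : s.v * s.b' = 0 := by
  rw [← s.h_u_bi, ← mul_assoc, s.h_v_u, zero_mul]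
@[simp] theorem Pl.rd_v_bi (z : A) : s.v * (s.b' * z) = 0 := by rw [← mul_assoc, s.d_v_bi, zero_mul]
@[simp] theorem Pl.d_bi_v : s.b' * s.v = 0 := by
  rw [← s.h_bi_u, mul_assoc, s.h_u_v, mul_zero]
@[simp] theorem Pl.rd_bi_v (z : A) : s.b' * (s.v * z) = 0 := by rw [← mul_assoc, s.d_bi_v, zero_mul]
@[simp] theorem Pl.d_q_bi : s.q * s.b' = 0 := by
  rw [← s.h_u_bi, ← mul_assoc, s.h_q_u, zero_mul]
@[simp] theorem Pl.rd_q_bi (z : A) : s.q * (s.b' * z) = 0 := by rw [← mul_assoc, s.d_q_bi, zero_mul]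
@[simp] theorem Pl.d_bi_q : s.b' * s.q = 0 := by
  rw [← s.h_bi_u, mul_assoc, s.h_u_q, mul_zero]
@[simp] theorem Pl.rd_bi_q (z : A) : s.b' * (s.q * z) = 0 := by rw [← mul_assoc, s.d_bi_q, zero_mul]
@[simp] theorem Pl.d_ali_u : s.al' * s.u = 0 := by
  rw [← s.h_ali_v, mul_assoc, s.h_v_u, mul_zero]
@[simp] theorem Pl.rd_ali_u (z : A) : s.al' * (s.u * z) = 0 := by rw [← mul_assoc, s.d_ali_u, zero_mul]
@[simp] theorem Pl.d_v_ali : s.v * s.al' = 0 := by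
  rw [← s.h_u_ali, ← mul_assoc, s.h_v_u, zero_mul]
@[simp] theorem Pl.rd_v_ali (z : A) : s.v * (s.al' * z) = 0 := by rw [← mul_assoc, s.d_v_ali, zero_mul]
@[simp] theorem Pl.d_q_ali : s.q * s.al' = 0 := by
  rw [← s.h_u_ali, ← mul_assoc, s.h_q_u, zero_mul]
@[simp] theorem Pl.rd_q_ali (z : A) : s.q * (s.al' * z) = 0 := by rw [← mul_assoc, s.d_q_ali, zero_mul]
@[simp] theorem Pl.d_ali_q : s.al' * s.q = 0 := by
  rw [← s.h_ali_v, mul_assoc, s.h_v_q, mul_zero]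
@[simp] theorem Pl.rd_ali_q (z : A) : s.al' * (s.q * z) = 0 := by rw [← mul_assoc, s.d_ali_q, zero_mul]
@[simp] theorem Pl.d_ali_dl : s.al' * s.dl = 0 := by
  rw [← s.h_ali_v, mul_assoc, s.d_v_dl, mul_zero]
@[simp] theorem Pl.rd_ali_dl (z : A) : s.al' * (s.dl * z) = 0 := by rw [← mul_assoc, s.d_ali_dl, zero_mul]
@[simp] theorem Pl.d_Yi_u : s.Y' * s.u = 0 := by
  rw [← s.h_Yi_v, mul_assoc, s.h_v_u, mul_zero]
@[simp] theorem Pl.rd_Yi_u (z : A) : s.Y' * (s.u * z) = 0 := by rw [← mul_assoc, s.d_Yi_u, zero_mul]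
@[simp] theorem Pl.d_v_Yi : s.v * s.Y' = 0 := by
  rw [← s.h_dl_Yi, ← mul_assoc, s.d_v_dl, zero_mul]
@[simp] theorem Pl.rd_v_Yi (z : A) : s.v * (s.Y' * z) = 0 := by rw [← mul_assoc, s.d_v_Yi, zero_mul]
@[simp] theorem Pl.d_q_Yi : s.q * s.Y' = 0 := by
  rw [← s.h_dl_Yi, ← mul_assoc, s.d_q_dl, zero_mul]
@[simp] theorem Pl.rd_q_Yi (z : A) : s.q * (s.Y' * z) = 0 := by rw [← mul_assoc, s.d_q_Yi, zero_mul]
@[simp] theorem Pl.d_Yi_q : s.Y' * s.q = 0 := by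
  rw [← s.h_Yi_v, mul_assoc, s.h_v_q, mul_zero]
@[simp] theorem Pl.rd_Yi_q (z : A) : s.Y' * (s.q * z) = 0 := by rw [← mul_assoc, s.d_Yi_q, zero_mul]
@[simp] theorem Pl.d_Yi_dl : s.Y' * s.dl = 0 := by
  rw [← s.h_Yi_v, mul_assoc, s.d_v_dl, mul_zero]
@[simp] theorem Pl.rd_Yi_dl (z : A) : s.Y' * (s.dl * z) = 0 := by rw [← mul_assoc, s.d_Yi_dl, zero_mul]
@[simp] theorem Pl.d_u_bei : s.u * s.be' = 0 := by
  rw [← s.h_v_bei, ← mul_assoc, s.h_u_v, zero_mul]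
@[simp] theorem Pl.rd_u_bei (z : A) : s.u * (s.be' * z) = 0 := by rw [← mul_assoc, s.d_u_bei, zero_mul]
@[simp] theorem Pl.d_bei_u : s.be' * s.u = 0 := by
  rw [← s.h_bei_q, mul_assoc, s.h_q_u, mul_zero]
@[simp] theorem Pl.rd_bei_u (z : A) : s.be' * (s.u * z) = 0 := by rw [← mul_assoc, s.d_bei_u, zero_mul]
@[simp] theorem Pl.d_bei_v : s.be' * s.v = 0 := by
  rw [← s.h_bei_q, mul_assoc, s.h_q_v, mul_zero]
@[simp] theorem Pl.rd_bei_v (z : A) : s.be' * (s.v * z) = 0 := by rw [← mul_assoc, s.d_bei_v, zero_mul]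
@[simp] theorem Pl.d_q_bei : s.q * s.be' = 0 := by
  rw [← s.h_v_bei, ← mul_assoc, s.h_q_v, zero_mul]
@[simp] theorem Pl.rd_q_bei (z : A) : s.q * (s.be' * z) = 0 := by rw [← mul_assoc, s.d_q_bei, zero_mul]
@[simp] theorem Pl.d_dl_bei : s.dl * s.be' = 0 := by
  rw [← s.h_v_bei, ← mul_assoc, s.d_dl_v, zero_mul]
@[simp] theorem Pl.rd_dl_bei (z : A) : s.dl * (s.be' * z) = 0 := by rw [← mul_assoc, s.d_dl_bei, zero_mul]
@[simp] theorem Pl.d_bei_dl : s.be' * s.dl = 0 := by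
  rw [← s.h_bei_q, mul_assoc, s.d_q_dl, mul_zero]
@[simp] theorem Pl.rd_bei_dl (z : A) : s.be' * (s.dl * z) = 0 := by rw [← mul_assoc, s.d_bei_dl, zero_mul]
@[simp] theorem Pl.d_Xi_u : s.X' * s.u = 0 := by
  rw [← s.h_Xi_q, mul_assoc, s.h_q_u, mul_zero]
@[simp] theorem Pl.rd_Xi_u (z : A) : s.X' * (s.u * z) = 0 := by rw [← mul_assoc, s.d_Xi_u, zero_mul]
@[simp] theorem Pl.d_v_Xi : s.v * s.X' = 0 := by
  rw [← s.h_dl_Xi, ← mul_assoc, s.d_v_dl, zero_mul]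
@[simp] theorem Pl.rd_v_Xi (z : A) : s.v * (s.X' * z) = 0 := by rw [← mul_assoc, s.d_v_Xi, zero_mul]
@[simp] theorem Pl.d_Xi_v : s.X' * s.v = 0 := by
  rw [← s.h_Xi_q, mul_assoc, s.h_q_v, mul_zero]
@[simp] theorem Pl.rd_Xi_v (z : A) : s.X' * (s.v * z) = 0 := by rw [← mul_assoc, s.d_Xi_v, zero_mul]
@[simp] theorem Pl.d_q_Xi : s.q * s.X' = 0 := by
  rw [← s.h_dl_Xi, ← mul_assoc, s.d_q_dl, zero_mul]
@[simp] theorem Pl.rd_q_Xi (z : A) : s.q * (s.X' * z) = 0 := by rw [← mul_assoc, s.d_q_Xi, zero_mul]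
@[simp] theorem Pl.d_Xi_dl : s.X' * s.dl = 0 := by
  rw [← s.h_Xi_q, mul_assoc, s.d_q_dl, mul_zero]
@[simp] theorem Pl.rd_Xi_dl (z : A) : s.X' * (s.dl * z) = 0 := by rw [← mul_assoc, s.d_Xi_dl, zero_mul]
@[simp] theorem Pl.d_a_al : s.a * s.al = 0 := by
  rw [show s.a * s.al = s.a * (s.u * s.al) by rw [← mul_assoc, s.h_a_u], s.d_u_al, mul_zero]
@[simp] theorem Pl.rd_a_al (z : A) : s.a * (s.al * z) = 0 := by rw [← mul_assoc, s.d_a_al, zero_mul]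
@[simp] theorem Pl.d_a_Y : s.a * s.Y = 0 := by
  rw [show s.a * s.Y = s.a * (s.u * s.Y) by rw [← mul_assoc, s.h_a_u], s.d_u_Y, mul_zero]
@[simp] theorem Pl.rd_a_Y (z : A) : s.a * (s.Y * z) = 0 := by rw [← mul_assoc, s.d_a_Y, zero_mul]
@[simp] theorem Pl.d_a_be : s.a * s.be = 0 := by
  rw [show s.a * s.be = s.a * (s.u * s.be) by rw [← mul_assoc, s.h_a_u], s.d_u_be, mul_zero]
@[simp] theorem Pl.rd_a_be (z : A) : s.a * (s.be * z) = 0 := by rw [← mul_assoc, s.d_a_be, zero_mul]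
@[simp] theorem Pl.d_a_X : s.a * s.X = 0 := by
  rw [show s.a * s.X = s.a * (s.u * s.X) by rw [← mul_assoc, s.h_a_u], s.d_u_X, mul_zero]
@[simp] theorem Pl.rd_a_X (z : A) : s.a * (s.X * z) = 0 := by rw [← mul_assoc, s.d_a_X, zero_mul]
@[simp] theorem Pl.d_a_bei : s.a * s.be' = 0 := by
  rw [show s.a * s.be' = s.a * (s.u * s.be') by rw [← mul_assoc, s.h_a_u], s.d_u_bei, mul_zero]
@[simp] theorem Pl.rd_a_bei (z : A) : s.a * (s.be' * z) = 0 := by rw [← mul_assoc, s.d_a_bei, zero_mul]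
@[simp] theorem Pl.d_b_al : s.b * s.al = 0 := by
  rw [show s.b * s.al = s.b * (s.u * s.al) by rw [← mul_assoc, s.h_b_u], s.d_u_al, mul_zero]
@[simp] theorem Pl.rd_b_al (z : A) : s.b * (s.al * z) = 0 := by rw [← mul_assoc, s.d_b_al, zero_mul]
@[simp] theorem Pl.d_b_Y : s.b * s.Y = 0 := by
  rw [show s.b * s.Y = s.b * (s.u * s.Y) by rw [← mul_assoc, s.h_b_u], s.d_u_Y, mul_zero]
@[simp] theorem Pl.rd_b_Y (z : A) : s.b * (s.Y * z) = 0 := by rw [← mul_assoc, s.d_b_Y, zero_mul]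
@[simp] theorem Pl.d_b_be : s.b * s.be = 0 := by
  rw [show s.b * s.be = s.b * (s.u * s.be) by rw [← mul_assoc, s.h_b_u], s.d_u_be, mul_zero]
@[simp] theorem Pl.rd_b_be (z : A) : s.b * (s.be * z) = 0 := by rw [← mul_assoc, s.d_b_be, zero_mul]
@[simp] theorem Pl.d_b_X : s.b * s.X = 0 := by
  rw [show s.b * s.X = s.b * (s.u * s.X) by rw [← mul_assoc, s.h_b_u], s.d_u_X, mul_zero]
@[simp] theorem Pl.rd_b_X (z : A) : s.b * (s.X * z) = 0 := by rw [← mul_assoc, s.d_b_X, zero_mul]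
@[simp] theorem Pl.d_b_bei : s.b * s.be' = 0 := by
  rw [show s.b * s.be' = s.b * (s.u * s.be') by rw [← mul_assoc, s.h_b_u], s.d_u_bei, mul_zero]
@[simp] theorem Pl.rd_b_bei (z : A) : s.b * (s.be' * z) = 0 := by rw [← mul_assoc, s.d_b_bei, zero_mul]
@[simp] theorem Pl.d_al_al : s.al * s.al = 0 := by
  rw [show s.al * s.al = s.al * (s.u * s.al) by rw [← mul_assoc, s.h_al_u], s.d_u_al, mul_zero]
@[simp] theorem Pl.rd_al_al (z : A) : s.al * (s.al * z) = 0 := by rw [← mul_assoc, s.d_al_al, zero_mul]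
@[simp] theorem Pl.d_al_Y : s.al * s.Y = 0 := by
  rw [show s.al * s.Y = s.al * (s.u * s.Y) by rw [← mul_assoc, s.h_al_u], s.d_u_Y, mul_zero]
@[simp] theorem Pl.rd_al_Y (z : A) : s.al * (s.Y * z) = 0 := by rw [← mul_assoc, s.d_al_Y, zero_mul]
@[simp] theorem Pl.d_al_be : s.al * s.be = 0 := by
  rw [show s.al * s.be = s.al * (s.u * s.be) by rw [← mul_assoc, s.h_al_u], s.d_u_be, mul_zero]
@[simp] theorem Pl.rd_al_be (z : A) : s.al * (s.be * z) = 0 := by rw [← mul_assoc, s.d_al_be, zero_mul]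
@[simp] theorem Pl.d_al_X : s.al * s.X = 0 := by
  rw [show s.al * s.X = s.al * (s.u * s.X) by rw [← mul_assoc, s.h_al_u], s.d_u_X, mul_zero]
@[simp] theorem Pl.rd_al_X (z : A) : s.al * (s.X * z) = 0 := by rw [← mul_assoc, s.d_al_X, zero_mul]
@[simp] theorem Pl.d_al_bei : s.al * s.be' = 0 := by
  rw [show s.al * s.be' = s.al * (s.u * s.be') by rw [← mul_assoc, s.h_al_u], s.d_u_bei, mul_zero]
@[simp] theorem Pl.rd_al_bei (z : A) : s.al * (s.be' * z) = 0 := by rw [← mul_assoc, s.d_al_bei, zero_mul]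
@[simp] theorem Pl.d_Y_al : s.Y * s.al = 0 := by
  rw [show s.Y * s.al = s.Y * (s.dl * s.al) by rw [← mul_assoc, s.h_Y_dl], s.d_dl_al, mul_zero]
@[simp] theorem Pl.rd_Y_al (z : A) : s.Y * (s.al * z) = 0 := by rw [← mul_assoc, s.d_Y_al, zero_mul]
@[simp] theorem Pl.d_Y_Y : s.Y * s.Y = 0 := by
  rw [show s.Y * s.Y = s.Y * (s.dl * s.Y) by rw [← mul_assoc, s.h_Y_dl], s.d_dl_Y, mul_zero]
@[simp] theorem Pl.rd_Y_Y (z : A) : s.Y * (s.Y * z) = 0 := by rw [← mul_assoc, s.d_Y_Y, zero_mul]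
@[simp] theorem Pl.d_Y_be : s.Y * s.be = 0 := by
  rw [show s.Y * s.be = s.Y * (s.dl * s.be) by rw [← mul_assoc, s.h_Y_dl], s.d_dl_be, mul_zero]
@[simp] theorem Pl.rd_Y_be (z : A) : s.Y * (s.be * z) = 0 := by rw [← mul_assoc, s.d_Y_be, zero_mul]
@[simp] theorem Pl.d_Y_X : s.Y * s.X = 0 := by
  rw [show s.Y * s.X = s.Y * (s.dl * s.X) by rw [← mul_assoc, s.h_Y_dl], s.d_dl_X, mul_zero]
@[simp] theorem Pl.rd_Y_X (z : A) : s.Y * (s.X * z) = 0 := by rw [← mul_assoc, s.d_Y_X, zero_mul]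
@[simp] theorem Pl.d_Y_bei : s.Y * s.be' = 0 := by
  rw [show s.Y * s.be' = s.Y * (s.dl * s.be') by rw [← mul_assoc, s.h_Y_dl], s.d_dl_bei, mul_zero]
@[simp] theorem Pl.rd_Y_bei (z : A) : s.Y * (s.be' * z) = 0 := by rw [← mul_assoc, s.d_Y_bei, zero_mul]
@[simp] theorem Pl.d_be_a : s.be * s.a = 0 := by
  rw [show s.be * s.a = s.be * (s.v * s.a) by rw [← mul_assoc, s.h_be_v], s.d_v_a, mul_zero]
@[simp] theorem Pl.rd_be_a (z : A) : s.be * (s.a * z) = 0 := by rw [← mul_assoc, s.d_be_a, zero_mul]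
@[simp] theorem Pl.d_be_b : s.be * s.b = 0 := by
  rw [show s.be * s.b = s.be * (s.v * s.b) by rw [← mul_assoc, s.h_be_v], s.d_v_b, mul_zero]
@[simp] theorem Pl.rd_be_b (z : A) : s.be * (s.b * z) = 0 := by rw [← mul_assoc, s.d_be_b, zero_mul]
@[simp] theorem Pl.d_be_be : s.be * s.be = 0 := by
  rw [show s.be * s.be = s.be * (s.v * s.be) by rw [← mul_assoc, s.h_be_v], s.d_v_be, mul_zero]
@[simp] theorem Pl.rd_be_be (z : A) : s.be * (s.be * z) = 0 := by rw [← mul_assoc, s.d_be_be, zero_mul]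
@[simp] theorem Pl.d_be_X : s.be * s.X = 0 := by
  rw [show s.be * s.X = s.be * (s.v * s.X) by rw [← mul_assoc, s.h_be_v], s.d_v_X, mul_zero]
@[simp] theorem Pl.rd_be_X (z : A) : s.be * (s.X * z) = 0 := by rw [← mul_assoc, s.d_be_X, zero_mul]
@[simp] theorem Pl.d_be_ai : s.be * s.a' = 0 := by
  rw [show s.be * s.a' = s.be * (s.v * s.a') by rw [← mul_assoc, s.h_be_v], s.d_v_ai, mul_zero]
@[simp] theorem Pl.rd_be_ai (z : A) : s.be * (s.a' * z) = 0 := by rw [← mul_assoc, s.d_be_ai, zero_mul]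
@[simp] theorem Pl.d_be_bi : s.be * s.b' = 0 := by
  rw [show s.be * s.b' = s.be * (s.v * s.b') by rw [← mul_assoc, s.h_be_v], s.d_v_bi, mul_zero]
@[simp] theorem Pl.rd_be_bi (z : A) : s.be * (s.b' * z) = 0 := by rw [← mul_assoc, s.d_be_bi, zero_mul]
@[simp] theorem Pl.d_be_ali : s.be * s.al' = 0 := by
  rw [show s.be * s.al' = s.be * (s.v * s.al') by rw [← mul_assoc, s.h_be_v], s.d_v_ali, mul_zero]
@[simp] theorem Pl.rd_be_ali (z : A) : s.be * (s.al' * z) = 0 := by rw [← mul_assoc, s.d_be_ali, zero_mul]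
@[simp] theorem Pl.d_be_Yi : s.be * s.Y' = 0 := by
  rw [show s.be * s.Y' = s.be * (s.v * s.Y') by rw [← mul_assoc, s.h_be_v], s.d_v_Yi, mul_zero]
@[simp] theorem Pl.rd_be_Yi (z : A) : s.be * (s.Y' * z) = 0 := by rw [← mul_assoc, s.d_be_Yi, zero_mul]
@[simp] theorem Pl.d_be_Xi : s.be * s.X' = 0 := by
  rw [show s.be * s.X' = s.be * (s.v * s.X') by rw [← mul_assoc, s.h_be_v], s.d_v_Xi, mul_zero]
@[simp] theorem Pl.rd_be_Xi (z : A) : s.be * (s.X' * z) = 0 := by rw [← mul_assoc, s.d_be_Xi, zero_mul]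
@[simp] theorem Pl.d_X_al : s.X * s.al = 0 := by
  rw [show s.X * s.al = s.X * (s.dl * s.al) by rw [← mul_assoc, s.h_X_dl], s.d_dl_al, mul_zero]
@[simp] theorem Pl.rd_X_al (z : A) : s.X * (s.al * z) = 0 := by rw [← mul_assoc, s.d_X_al, zero_mul]
@[simp] theorem Pl.d_X_Y : s.X * s.Y = 0 := by
  rw [show s.X * s.Y = s.X * (s.dl * s.Y) by rw [← mul_assoc, s.h_X_dl], s.d_dl_Y, mul_zero]
@[simp] theorem Pl.rd_X_Y (z : A) : s.X * (s.Y * z) = 0 := by rw [← mul_assoc, s.d_X_Y, zero_mul]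
@[simp] theorem Pl.d_X_be : s.X * s.be = 0 := by
  rw [show s.X * s.be = s.X * (s.dl * s.be) by rw [← mul_assoc, s.h_X_dl], s.d_dl_be, mul_zero]
@[simp] theorem Pl.rd_X_be (z : A) : s.X * (s.be * z) = 0 := by rw [← mul_assoc, s.d_X_be, zero_mul]
@[simp] theorem Pl.d_X_X : s.X * s.X = 0 := by
  rw [show s.X * s.X = s.X * (s.dl * s.X) by rw [← mul_assoc, s.h_X_dl], s.d_dl_X, mul_zero]
@[simp] theorem Pl.rd_X_X (z : A) : s.X * (s.X * z) = 0 := by rw [← mul_assoc, s.d_X_X, zero_mul]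
@[simp] theorem Pl.d_X_bei : s.X * s.be' = 0 := by
  rw [show s.X * s.be' = s.X * (s.dl * s.be') by rw [← mul_assoc, s.h_X_dl], s.d_dl_bei, mul_zero]
@[simp] theorem Pl.rd_X_bei (z : A) : s.X * (s.be' * z) = 0 := by rw [← mul_assoc, s.d_X_bei, zero_mul]
@[simp] theorem Pl.d_ai_al : s.a' * s.al = 0 := by
  rw [show s.a' * s.al = s.a' * (s.u * s.al) by rw [← mul_assoc, s.h_ai_u], s.d_u_al, mul_zero]
@[simp] theorem Pl.rd_ai_al (z : A) : s.a' * (s.al * z) = 0 := by rw [← mul_assoc, s.d_ai_al, zero_mul]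
@[simp] theorem Pl.d_ai_Y : s.a' * s.Y = 0 := by
  rw [show s.a' * s.Y = s.a' * (s.u * s.Y) by rw [← mul_assoc, s.h_ai_u], s.d_u_Y, mul_zero]
@[simp] theorem Pl.rd_ai_Y (z : A) : s.a' * (s.Y * z) = 0 := by rw [← mul_assoc, s.d_ai_Y, zero_mul]
@[simp] theorem Pl.d_ai_be : s.a' * s.be = 0 := by
  rw [show s.a' * s.be = s.a' * (s.u * s.be) by rw [← mul_assoc, s.h_ai_u], s.d_u_be, mul_zero]
@[simp] theorem Pl.rd_ai_be (z : A) : s.a' * (s.be * z) = 0 := by rw [← mul_assoc, s.d_ai_be, zero_mul]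
@[simp] theorem Pl.d_ai_X : s.a' * s.X = 0 := by
  rw [show s.a' * s.X = s.a' * (s.u * s.X) by rw [← mul_assoc, s.h_ai_u], s.d_u_X, mul_zero]
@[simp] theorem Pl.rd_ai_X (z : A) : s.a' * (s.X * z) = 0 := by rw [← mul_assoc, s.d_ai_X, zero_mul]
@[simp] theorem Pl.d_ai_bei : s.a' * s.be' = 0 := by
  rw [show s.a' * s.be' = s.a' * (s.u * s.be') by rw [← mul_assoc, s.h_ai_u], s.d_u_bei, mul_zero]
@[simp] theorem Pl.rd_ai_bei (z : A) : s.a' * (s.be' * z) = 0 := by rw [← mul_assoc, s.d_ai_bei, zero_mul]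
@[simp] theorem Pl.d_bi_al : s.b' * s.al = 0 := by
  rw [show s.b' * s.al = s.b' * (s.u * s.al) by rw [← mul_assoc, s.h_bi_u], s.d_u_al, mul_zero]
@[simp] theorem Pl.rd_bi_al (z : A) : s.b' * (s.al * z) = 0 := by rw [← mul_assoc, s.d_bi_al, zero_mul]
@[simp] theorem Pl.d_bi_Y : s.b' * s.Y = 0 := by
  rw [show s.b' * s.Y = s.b' * (s.u * s.Y) by rw [← mul_assoc, s.h_bi_u], s.d_u_Y, mul_zero]
@[simp] theorem Pl.rd_bi_Y (z : A) : s.b' * (s.Y * z) = 0 := by rw [← mul_assoc, s.d_bi_Y, zero_mul]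
@[simp] theorem Pl.d_bi_be : s.b' * s.be = 0 := by
  rw [show s.b' * s.be = s.b' * (s.u * s.be) by rw [← mul_assoc, s.h_bi_u], s.d_u_be, mul_zero]
@[simp] theorem Pl.rd_bi_be (z : A) : s.b' * (s.be * z) = 0 := by rw [← mul_assoc, s.d_bi_be, zero_mul]
@[simp] theorem Pl.d_bi_X : s.b' * s.X = 0 := by
  rw [show s.b' * s.X = s.b' * (s.u * s.X) by rw [← mul_assoc, s.h_bi_u], s.d_u_X, mul_zero]
@[simp] theorem Pl.rd_bi_X (z : A) : s.b' * (s.X * z) = 0 := by rw [← mul_assoc, s.d_bi_X, zero_mul]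
@[simp] theorem Pl.d_bi_bei : s.b' * s.be' = 0 := by
  rw [show s.b' * s.be' = s.b' * (s.u * s.be') by rw [← mul_assoc, s.h_bi_u], s.d_u_bei, mul_zero]
@[simp] theorem Pl.rd_bi_bei (z : A) : s.b' * (s.be' * z) = 0 := by rw [← mul_assoc, s.d_bi_bei, zero_mul]
@[simp] theorem Pl.d_ali_a : s.al' * s.a = 0 := by
  rw [show s.al' * s.a = s.al' * (s.v * s.a) by rw [← mul_assoc, s.h_ali_v], s.d_v_a, mul_zero]
@[simp] theorem Pl.rd_ali_a (z : A) : s.al' * (s.a * z) = 0 := by rw [← mul_assoc, s.d_ali_a, zero_mul]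
@[simp] theorem Pl.d_ali_b : s.al' * s.b = 0 := by
  rw [show s.al' * s.b = s.al' * (s.v * s.b) by rw [← mul_assoc, s.h_ali_v], s.d_v_b, mul_zero]
@[simp] theorem Pl.rd_ali_b (z : A) : s.al' * (s.b * z) = 0 := by rw [← mul_assoc, s.d_ali_b, zero_mul]
@[simp] theorem Pl.d_ali_be : s.al' * s.be = 0 := by
  rw [show s.al' * s.be = s.al' * (s.v * s.be) by rw [← mul_assoc, s.h_ali_v], s.d_v_be, mul_zero]
@[simp] theorem Pl.rd_ali_be (z : A) : s.al' * (s.be * z) = 0 := by rw [← mul_assoc, s.d_ali_be, zero_mul]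
@[simp] theorem Pl.d_ali_X : s.al' * s.X = 0 := by
  rw [show s.al' * s.X = s.al' * (s.v * s.X) by rw [← mul_assoc, s.h_ali_v], s.d_v_X, mul_zero]
@[simp] theorem Pl.rd_ali_X (z : A) : s.al' * (s.X * z) = 0 := by rw [← mul_assoc, s.d_ali_X, zero_mul]
@[simp] theorem Pl.d_ali_ai : s.al' * s.a' = 0 := by
  rw [show s.al' * s.a' = s.al' * (s.v * s.a') by rw [← mul_assoc, s.h_ali_v], s.d_v_ai, mul_zero]
@[simp] theorem Pl.rd_ali_ai (z : A) : s.al' * (s.a' * z) = 0 := by rw [← mul_assoc, s.d_ali_ai, zero_mul]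
@[simp] theorem Pl.d_ali_bi : s.al' * s.b' = 0 := by
  rw [show s.al' * s.b' = s.al' * (s.v * s.b') by rw [← mul_assoc, s.h_ali_v], s.d_v_bi, mul_zero]
@[simp] theorem Pl.rd_ali_bi (z : A) : s.al' * (s.b' * z) = 0 := by rw [← mul_assoc, s.d_ali_bi, zero_mul]
@[simp] theorem Pl.d_ali_ali : s.al' * s.al' = 0 := by
  rw [show s.al' * s.al' = s.al' * (s.v * s.al') by rw [← mul_assoc, s.h_ali_v], s.d_v_ali, mul_zero]
@[simp] theorem Pl.rd_ali_ali (z : A) : s.al' * (s.al' * z) = 0 := by rw [← mul_assoc, s.d_ali_ali, zero_mul]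
@[simp] theorem Pl.d_ali_Yi : s.al' * s.Y' = 0 := by
  rw [show s.al' * s.Y' = s.al' * (s.v * s.Y') by rw [← mul_assoc, s.h_ali_v], s.d_v_Yi, mul_zero]
@[simp] theorem Pl.rd_ali_Yi (z : A) : s.al' * (s.Y' * z) = 0 := by rw [← mul_assoc, s.d_ali_Yi, zero_mul]
@[simp] theorem Pl.d_ali_Xi : s.al' * s.X' = 0 := by
  rw [show s.al' * s.X' = s.al' * (s.v * s.X') by rw [← mul_assoc, s.h_ali_v], s.d_v_Xi, mul_zero]
@[simp] theorem Pl.rd_ali_Xi (z : A) : s.al' * (s.X' * z) = 0 := by rw [← mul_assoc, s.d_ali_Xi, zero_mul]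
@[simp] theorem Pl.d_Yi_a : s.Y' * s.a = 0 := by
  rw [show s.Y' * s.a = s.Y' * (s.v * s.a) by rw [← mul_assoc, s.h_Yi_v], s.d_v_a, mul_zero]
@[simp] theorem Pl.rd_Yi_a (z : A) : s.Y' * (s.a * z) = 0 := by rw [← mul_assoc, s.d_Yi_a, zero_mul]
@[simp] theorem Pl.d_Yi_b : s.Y' * s.b = 0 := by
  rw [show s.Y' * s.b = s.Y' * (s.v * s.b) by rw [← mul_assoc, s.h_Yi_v], s.d_v_b, mul_zero]
@[simp] theorem Pl.rd_Yi_b (z : A) : s.Y' * (s.b * z) = 0 := by rw [← mul_assoc, s.d_Yi_b, zero_mul]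
@[simp] theorem Pl.d_Yi_be : s.Y' * s.be = 0 := by
  rw [show s.Y' * s.be = s.Y' * (s.v * s.be) by rw [← mul_assoc, s.h_Yi_v], s.d_v_be, mul_zero]
@[simp] theorem Pl.rd_Yi_be (z : A) : s.Y' * (s.be * z) = 0 := by rw [← mul_assoc, s.d_Yi_be, zero_mul]
@[simp] theorem Pl.d_Yi_X : s.Y' * s.X = 0 := by
  rw [show s.Y' * s.X = s.Y' * (s.v * s.X) by rw [← mul_assoc, s.h_Yi_v], s.d_v_X, mul_zero]
@[simp] theorem Pl.rd_Yi_X (z : A) : s.Y' * (s.X * z) = 0 := by rw [← mul_assoc, s.d_Yi_X, zero_mul]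
@[simp] theorem Pl.d_Yi_ai : s.Y' * s.a' = 0 := by
  rw [show s.Y' * s.a' = s.Y' * (s.v * s.a') by rw [← mul_assoc, s.h_Yi_v], s.d_v_ai, mul_zero]
@[simp] theorem Pl.rd_Yi_ai (z : A) : s.Y' * (s.a' * z) = 0 := by rw [← mul_assoc, s.d_Yi_ai, zero_mul]
@[simp] theorem Pl.d_Yi_bi : s.Y' * s.b' = 0 := by
  rw [show s.Y' * s.b' = s.Y' * (s.v * s.b') by rw [← mul_assoc, s.h_Yi_v], s.d_v_bi, mul_zero]
@[simp] theorem Pl.rd_Yi_bi (z : A) : s.Y' * (s.b' * z) = 0 := by rw [← mul_assoc, s.d_Yi_bi, zero_mul]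
@[simp] theorem Pl.d_Yi_ali : s.Y' * s.al' = 0 := by
  rw [show s.Y' * s.al' = s.Y' * (s.v * s.al') by rw [← mul_assoc, s.h_Yi_v], s.d_v_ali, mul_zero]
@[simp] theorem Pl.rd_Yi_ali (z : A) : s.Y' * (s.al' * z) = 0 := by rw [← mul_assoc, s.d_Yi_ali, zero_mul]
@[simp] theorem Pl.d_Yi_Yi : s.Y' * s.Y' = 0 := by
  rw [show s.Y' * s.Y' = s.Y' * (s.v * s.Y') by rw [← mul_assoc, s.h_Yi_v], s.d_v_Yi, mul_zero]
@[simp] theorem Pl.rd_Yi_Yi (z : A) : s.Y' * (s.Y' * z) = 0 := by rw [← mul_assoc, s.d_Yi_Yi, zero_mul]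
@[simp] theorem Pl.d_Yi_Xi : s.Y' * s.X' = 0 := by
  rw [show s.Y' * s.X' = s.Y' * (s.v * s.X') by rw [← mul_assoc, s.h_Yi_v], s.d_v_Xi, mul_zero]
@[simp] theorem Pl.rd_Yi_Xi (z : A) : s.Y' * (s.X' * z) = 0 := by rw [← mul_assoc, s.d_Yi_Xi, zero_mul]
@[simp] theorem Pl.d_bei_a : s.be' * s.a = 0 := by
  rw [show s.be' * s.a = s.be' * (s.q * s.a) by rw [← mul_assoc, s.h_bei_q], s.d_q_a, mul_zero]
@[simp] theorem Pl.rd_bei_a (z : A) : s.be' * (s.a * z) = 0 := by rw [← mul_assoc, s.d_bei_a, zero_mul]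
@[simp] theorem Pl.d_bei_b : s.be' * s.b = 0 := by
  rw [show s.be' * s.b = s.be' * (s.q * s.b) by rw [← mul_assoc, s.h_bei_q], s.d_q_b, mul_zero]
@[simp] theorem Pl.rd_bei_b (z : A) : s.be' * (s.b * z) = 0 := by rw [← mul_assoc, s.d_bei_b, zero_mul]
@[simp] theorem Pl.d_bei_al : s.be' * s.al = 0 := by
  rw [show s.be' * s.al = s.be' * (s.q * s.al) by rw [← mul_assoc, s.h_bei_q], s.d_q_al, mul_zero]
@[simp] theorem Pl.rd_bei_al (z : A) : s.be' * (s.al * z) = 0 := by rw [← mul_assoc, s.d_bei_al, zero_mul]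
@[simp] theorem Pl.d_bei_Y : s.be' * s.Y = 0 := by
  rw [show s.be' * s.Y = s.be' * (s.q * s.Y) by rw [← mul_assoc, s.h_bei_q], s.d_q_Y, mul_zero]
@[simp] theorem Pl.rd_bei_Y (z : A) : s.be' * (s.Y * z) = 0 := by rw [← mul_assoc, s.d_bei_Y, zero_mul]
@[simp] theorem Pl.d_bei_ai : s.be' * s.a' = 0 := by
  rw [show s.be' * s.a' = s.be' * (s.q * s.a') by rw [← mul_assoc, s.h_bei_q], s.d_q_ai, mul_zero]
@[simp] theorem Pl.rd_bei_ai (z : A) : s.be' * (s.a' * z) = 0 := by rw [← mul_assoc, s.d_bei_ai, zero_mul]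
@[simp] theorem Pl.d_bei_bi : s.be' * s.b' = 0 := by
  rw [show s.be' * s.b' = s.be' * (s.q * s.b') by rw [← mul_assoc, s.h_bei_q], s.d_q_bi, mul_zero]
@[simp] theorem Pl.rd_bei_bi (z : A) : s.be' * (s.b' * z) = 0 := by rw [← mul_assoc, s.d_bei_bi, zero_mul]
@[simp] theorem Pl.d_bei_ali : s.be' * s.al' = 0 := by
  rw [show s.be' * s.al' = s.be' * (s.q * s.al') by rw [← mul_assoc, s.h_bei_q], s.d_q_ali, mul_zero]
@[simp] theorem Pl.rd_bei_ali (z : A) : s.be' * (s.al' * z) = 0 := by rw [← mul_assoc, s.d_bei_ali, zero_mul]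
@[simp] theorem Pl.d_bei_Yi : s.be' * s.Y' = 0 := by
  rw [show s.be' * s.Y' = s.be' * (s.q * s.Y') by rw [← mul_assoc, s.h_bei_q], s.d_q_Yi, mul_zero]
@[simp] theorem Pl.rd_bei_Yi (z : A) : s.be' * (s.Y' * z) = 0 := by rw [← mul_assoc, s.d_bei_Yi, zero_mul]
@[simp] theorem Pl.d_bei_bei : s.be' * s.be' = 0 := by
  rw [show s.be' * s.be' = s.be' * (s.q * s.be') by rw [← mul_assoc, s.h_bei_q], s.d_q_bei, mul_zero]
@[simp] theorem Pl.rd_bei_bei (z : A) : s.be' * (s.be' * z) = 0 := by rw [← mul_assoc, s.d_bei_bei, zero_mul]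
@[simp] theorem Pl.d_bei_Xi : s.be' * s.X' = 0 := by
  rw [show s.be' * s.X' = s.be' * (s.q * s.X') by rw [← mul_assoc, s.h_bei_q], s.d_q_Xi, mul_zero]
@[simp] theorem Pl.rd_bei_Xi (z : A) : s.be' * (s.X' * z) = 0 := by rw [← mul_assoc, s.d_bei_Xi, zero_mul]
@[simp] theorem Pl.d_Xi_a : s.X' * s.a = 0 := by
  rw [show s.X' * s.a = s.X' * (s.q * s.a) by rw [← mul_assoc, s.h_Xi_q], s.d_q_a, mul_zero]
@[simp] theorem Pl.rd_Xi_a (z : A) : s.X' * (s.a * z) = 0 := by rw [← mul_assoc, s.d_Xi_a, zero_mul]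
@[simp] theorem Pl.d_Xi_b : s.X' * s.b = 0 := by
  rw [show s.X' * s.b = s.X' * (s.q * s.b) by rw [← mul_assoc, s.h_Xi_q], s.d_q_b, mul_zero]
@[simp] theorem Pl.rd_Xi_b (z : A) : s.X' * (s.b * z) = 0 := by rw [← mul_assoc, s.d_Xi_b, zero_mul]
@[simp] theorem Pl.d_Xi_al : s.X' * s.al = 0 := by
  rw [show s.X' * s.al = s.X' * (s.q * s.al) by rw [← mul_assoc, s.h_Xi_q], s.d_q_al, mul_zero]
@[simp] theorem Pl.rd_Xi_al (z : A) : s.X' * (s.al * z) = 0 := by rw [← mul_assoc, s.d_Xi_al, zero_mul]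
@[simp] theorem Pl.d_Xi_Y : s.X' * s.Y = 0 := by
  rw [show s.X' * s.Y = s.X' * (s.q * s.Y) by rw [← mul_assoc, s.h_Xi_q], s.d_q_Y, mul_zero]
@[simp] theorem Pl.rd_Xi_Y (z : A) : s.X' * (s.Y * z) = 0 := by rw [← mul_assoc, s.d_Xi_Y, zero_mul]
@[simp] theorem Pl.d_Xi_ai : s.X' * s.a' = 0 := by
  rw [show s.X' * s.a' = s.X' * (s.q * s.a') by rw [← mul_assoc, s.h_Xi_q], s.d_q_ai, mul_zero]
@[simp] theorem Pl.rd_Xi_ai (z : A) : s.X' * (s.a' * z) = 0 := by rw [← mul_assoc, s.d_Xi_ai, zero_mul]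
@[simp] theorem Pl.d_Xi_bi : s.X' * s.b' = 0 := by
  rw [show s.X' * s.b' = s.X' * (s.q * s.b') by rw [← mul_assoc, s.h_Xi_q], s.d_q_bi, mul_zero]
@[simp] theorem Pl.rd_Xi_bi (z : A) : s.X' * (s.b' * z) = 0 := by rw [← mul_assoc, s.d_Xi_bi, zero_mul]
@[simp] theorem Pl.d_Xi_ali : s.X' * s.al' = 0 := by
  rw [show s.X' * s.al' = s.X' * (s.q * s.al') by rw [← mul_assoc, s.h_Xi_q], s.d_q_ali, mul_zero]
@[simp] theorem Pl.rd_Xi_ali (z : A) : s.X' * (s.al' * z) = 0 := by rw [← mul_assoc, s.d_Xi_ali, zero_mul]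
@[simp] theorem Pl.d_Xi_Yi : s.X' * s.Y' = 0 := by
  rw [show s.X' * s.Y' = s.X' * (s.q * s.Y') by rw [← mul_assoc, s.h_Xi_q], s.d_q_Yi, mul_zero]
@[simp] theorem Pl.rd_Xi_Yi (z : A) : s.X' * (s.Y' * z) = 0 := by rw [← mul_assoc, s.d_Xi_Yi, zero_mul]
@[simp] theorem Pl.d_Xi_bei : s.X' * s.be' = 0 := by
  rw [show s.X' * s.be' = s.X' * (s.q * s.be') by rw [← mul_assoc, s.h_Xi_q], s.d_q_bei, mul_zero]
@[simp] theorem Pl.rd_Xi_bei (z : A) : s.X' * (s.be' * z) = 0 := by rw [← mul_assoc, s.d_Xi_bei, zero_mul]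
@[simp] theorem Pl.d_Xi_Xi : s.X' * s.X' = 0 := by
  rw [show s.X' * s.X' = s.X' * (s.q * s.X') by rw [← mul_assoc, s.h_Xi_q], s.d_q_Xi, mul_zero]
@[simp] theorem Pl.rd_Xi_Xi (z : A) : s.X' * (s.X' * z) = 0 := by rw [← mul_assoc, s.d_Xi_Xi, zero_mul]
@[simp] theorem Pl.d_Y_a : s.Y * s.a = 0 := by
  rw [← s.h_Y_dl, mul_assoc, s.h_dl_a, mul_zero]
@[simp] theorem Pl.rd_Y_a (z : A) : s.Y * (s.a * z) = 0 := by rw [← mul_assoc, s.d_Y_a, zero_mul]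
@[simp] theorem Pl.d_ai_Yi : s.a' * s.Y' = 0 := by
  rw [← s.h_dl_Yi, ← mul_assoc, s.h_ai_dl, zero_mul]
@[simp] theorem Pl.rd_ai_Yi (z : A) : s.a' * (s.Y' * z) = 0 := by rw [← mul_assoc, s.d_ai_Yi, zero_mul]
@[simp] theorem Pl.d_Y_b : s.Y * s.b = 0 := by
  rw [← s.h_Y_dl, mul_assoc, s.h_dl_b, mul_zero]
@[simp] theorem Pl.rd_Y_b (z : A) : s.Y * (s.b * z) = 0 := by rw [← mul_assoc, s.d_Y_b, zero_mul]
@[simp] theorem Pl.d_bi_Yi : s.b' * s.Y' = 0 := by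
  rw [← s.h_dl_Yi, ← mul_assoc, s.h_bi_dl, zero_mul]
@[simp] theorem Pl.rd_bi_Yi (z : A) : s.b' * (s.Y' * z) = 0 := by rw [← mul_assoc, s.d_bi_Yi, zero_mul]
@[simp] theorem Pl.d_X_a : s.X * s.a = 0 := by
  rw [← s.h_X_dl, mul_assoc, s.h_dl_a, mul_zero]
@[simp] theorem Pl.rd_X_a (z : A) : s.X * (s.a * z) = 0 := by rw [← mul_assoc, s.d_X_a, zero_mul]
@[simp] theorem Pl.d_ai_Xi : s.a' * s.X' = 0 := by
  rw [← s.h_dl_Xi, ← mul_assoc, s.h_ai_dl, zero_mul]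
@[simp] theorem Pl.rd_ai_Xi (z : A) : s.a' * (s.X' * z) = 0 := by rw [← mul_assoc, s.d_ai_Xi, zero_mul]
@[simp] theorem Pl.d_X_b : s.X * s.b = 0 := by
  rw [← s.h_X_dl, mul_assoc, s.h_dl_b, mul_zero]
@[simp] theorem Pl.rd_X_b (z : A) : s.X * (s.b * z) = 0 := by rw [← mul_assoc, s.d_X_b, zero_mul]
@[simp] theorem Pl.d_bi_Xi : s.b' * s.X' = 0 := by
  rw [← s.h_dl_Xi, ← mul_assoc, s.h_bi_dl, zero_mul]
@[simp] theorem Pl.rd_bi_Xi (z : A) : s.b' * (s.X' * z) = 0 := by rw [← mul_assoc, s.d_bi_Xi, zero_mul]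
attribute [simp] Pl.s_b
@[simp] theorem Pl.rs_b (z : A) : s.b * (s.b' * z) = s.u * z - s.a * (s.a' * z) - s.dl * z := by
  rw [← mul_assoc, s.s_b]; simp only [sub_mul, add_mul, one_mul, mul_assoc]
attribute [simp] Pl.s_Y
@[simp] theorem Pl.rs_Y (z : A) : s.Y * (s.Y' * z) = s.v * z - s.al * (s.al' * z) := by
  rw [← mul_assoc, s.s_Y]; simp only [sub_mul, add_mul, one_mul, mul_assoc]
attribute [simp] Pl.s_X
@[simp] theorem Pl.rs_X (z : A) : s.X * (s.X' * z) = s.q * z - s.be * (s.be' * z) := by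
  rw [← mul_assoc, s.s_X]; simp only [sub_mul, add_mul, one_mul, mul_assoc]

end Pls

end Pool.Agent.SKG
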