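import Pool.Agent.SKG.Mn
import Pool.Agent.SKG.Mr
import Pool.Agent.SKG.It
import Pool.Agent.SKG.Pl

set_option autoImplicit false
set_option linter.all false

universe u

namespace Pool.Agent.SKG

section A

variable {A : Type*} [Ring A] (s : It A)

def It.m : A := s.al * (s.n * s.be') + s.Y * s.X'
def It.m' : A := s.be * (s.n' * s.al') + s.X * s.Y'

/-- from the intermediate structure to the splice -/
def It.toMr : Mr A where
  u := s.u
  v := s.v
  q := s.q
  dl := s.dl
  a := s.a
  a' := s.a'
  b := s.n * (s.al * s.a)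
  b' := s.a' * (s.al' * s.n')
  c := s.n * (s.al * s.n)
  c' := s.n' * (s.al' * s.n')
  d := s.al * s.a
  d' := s.a' * s.al'
  e := s.m * s.g
  e' := s.g' * s.m'
  f := s.m * s.h
  f' := s.h' * s.m'
  g := s.g
  g' := s.g'
  h := s.h
  h' := s.h'
  r := s.be
  r' := s.be'
  S := s.X
  S' := s.X'
  h_u_u := by
    simp [It.m, It.m', mul_add, add_mul, mul_assoc, mul_sub, sub_mul] <;> try abel
  h_v_v := by
    simp [It.m, It.m', mul_add, add_mul, mul_assoc, mul_sub, sub_mul] <;> try abel
  h_q_q := by
    simp [It.m, It.m', mul_add, add_mul, mul_assoc, mul_sub, sub_mul] <;> try abel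
  h_u_v := by
    simp [It.m, It.m', mul_add, add_mul, mul_assoc, mul_sub, sub_mul] <;> try abel
  h_v_u := by
    simp [It.m, It.m', mul_add, add_mul, mul_assoc, mul_sub, sub_mul] <;> try abel
  h_u_q := by
    simp [It.m, It.m', mul_add, add_mul, mul_assoc, mul_sub, sub_mul] <;> try abel
  h_q_u := by
    simp [It.m, It.m', mul_add, add_mul, mul_assoc, mul_sub, sub_mul] <;> try abel
  h_v_q := by
    simp [It.m, It.m', mul_add, add_mul, mul_assoc, mul_sub, sub_mul] <;> try abel
  h_q_v := by
    simp [It.m, It.m', mul_add, add_mul, mul_assoc, mul_sub, sub_mul] <;> try abel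
  h_dl_dl := by
    simp [It.m, It.m', mul_add, add_mul, mul_assoc, mul_sub, sub_mul] <;> try abel
  h_u_dl := by
    simp [It.m, It.m', mul_add, add_mul, mul_assoc, mul_sub, sub_mul] <;> try abel
  h_dl_u := by
    simp [It.m, It.m', mul_add, add_mul, mul_assoc, mul_sub, sub_mul] <;> try abel
  h_u_a := by
    simp [It.m, It.m', mul_add, add_mul, mul_assoc, mul_sub, sub_mul] <;> try abel
  h_a_u := by
    simp [It.m, It.m', mul_add, add_mul, mul_assoc, mul_sub, sub_mul] <;> try abel
  h_u_b := by
    simp [It.m, It.m', mul_add, add_mul, mul_assoc, mul_sub, sub_mul] <;> try abel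
  h_b_u := by
    simp [It.m, It.m', mul_add, add_mul, mul_assoc, mul_sub, sub_mul] <;> try abel
  h_u_c := by
    simp [It.m, It.m', mul_add, add_mul, mul_assoc, mul_sub, sub_mul] <;> try abel
  h_c_v := by
    simp [It.m, It.m', mul_add, add_mul, mul_assoc, mul_sub, sub_mul] <;> try abel
  h_v_d := by
    simp [It.m, It.m', mul_add, add_mul, mul_assoc, mul_sub, sub_mul] <;> try abel
  h_d_u := by
    simp [It.m, It.m', mul_add, add_mul, mul_assoc, mul_sub, sub_mul] <;> try abel
  h_v_e := by
    simp [It.m, It.m', mul_add, add_mul, mul_assoc, mul_sub, sub_mul] <;> try abel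
  h_e_v := by
    simp [It.m, It.m', mul_add, add_mul, mul_assoc, mul_sub, sub_mul] <;> try abel
  h_v_f := by
    simp [It.m, It.m', mul_add, add_mul, mul_assoc, mul_sub, sub_mul] <;> try abel
  h_f_q := by
    simp [It.m, It.m', mul_add, add_mul, mul_assoc, mul_sub, sub_mul] <;> try abel
  h_q_g := by
    simp [It.m, It.m', mul_add, add_mul, mul_assoc, mul_sub, sub_mul] <;> try abel
  h_g_v := by
    simp [It.m, It.m', mul_add, add_mul, mul_assoc, mul_sub, sub_mul] <;> try abel
  h_q_h := by
    simp [It.m, It.m', mul_add, add_mul, mul_assoc, mul_sub, sub_mul] <;> try abel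
  h_h_q := by
    simp [It.m, It.m', mul_add, add_mul, mul_assoc, mul_sub, sub_mul] <;> try abel
  h_q_r := by
    simp [It.m, It.m', mul_add, add_mul, mul_assoc, mul_sub, sub_mul] <;> try abel
  h_r_v := by
    simp [It.m, It.m', mul_add, add_mul, mul_assoc, mul_sub, sub_mul] <;> try abel
  h_q_S := by
    simp [It.m, It.m', mul_add, add_mul, mul_assoc, mul_sub, sub_mul] <;> try abel
  h_S_dl := by
    simp [It.m, It.m', mul_add, add_mul, mul_assoc, mul_sub, sub_mul] <;> try abel
  h_u_ai := by
    simp [It.m, It.m', mul_add, add_mul, mul_assoc, mul_sub, sub_mul] <;> try abel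
  h_ai_u := by
    simp [It.m, It.m', mul_add, add_mul, mul_assoc, mul_sub, sub_mul] <;> try abel
  h_u_bi := by
    simp [It.m, It.m', mul_add, add_mul, mul_assoc, mul_sub, sub_mul] <;> try abel
  h_bi_u := by
    simp [It.m, It.m', mul_add, add_mul, mul_assoc, mul_sub, sub_mul] <;> try abel
  h_v_ci := by
    simp [It.m, It.m', mul_add, add_mul, mul_assoc, mul_sub, sub_mul] <;> try abel
  h_ci_u := by
    simp [It.m, It.m', mul_add, add_mul, mul_assoc, mul_sub, sub_mul] <;> try abel
  h_u_di := by
    simp [It.m, It.m', mul_add, add_mul, mul_assoc, mul_sub, sub_mul] <;> try abel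
  h_di_v := by
    simp [It.m, It.m', mul_add, add_mul, mul_assoc, mul_sub, sub_mul] <;> try abel
  h_v_ei := by
    simp [It.m, It.m', mul_add, add_mul, mul_assoc, mul_sub, sub_mul] <;> try abel
  h_ei_v := by
    simp [It.m, It.m', mul_add, add_mul, mul_assoc, mul_sub, sub_mul] <;> try abel
  h_q_fi := by
    simp [It.m, It.m', mul_add, add_mul, mul_assoc, mul_sub, sub_mul] <;> try abel
  h_fi_v := by
    simp [It.m, It.m', mul_add, add_mul, mul_assoc, mul_sub, sub_mul] <;> try abel
  h_v_gi := by
    simp [It.m, It.m', mul_add, add_mul, mul_assoc, mul_sub, sub_mul] <;> try abel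
  h_gi_q := by
    simp [It.m, It.m', mul_add, add_mul, mul_assoc, mul_sub, sub_mul] <;> try abel
  h_q_hi := by
    simp [It.m, It.m', mul_add, add_mul, mul_assoc, mul_sub, sub_mul] <;> try abel
  h_hi_q := by
    simp [It.m, It.m', mul_add, add_mul, mul_assoc, mul_sub, sub_mul] <;> try abel
  h_v_ri := by
    simp [It.m, It.m', mul_add, add_mul, mul_assoc, mul_sub, sub_mul] <;> try abel
  h_ri_q := by
    simp [It.m, It.m', mul_add, add_mul, mul_assoc, mul_sub, sub_mul] <;> try abel
  h_dl_Si := by
    simp [It.m, It.m', mul_add, add_mul, mul_assoc, mul_sub, sub_mul] <;> try abel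
  h_Si_q := by
    simp [It.m, It.m', mul_add, add_mul, mul_assoc, mul_sub, sub_mul] <;> try abel
  h_ai_a := by
    simp [It.m, It.m', mul_add, add_mul, mul_assoc, mul_sub, sub_mul] <;> try abel
  h_ai_b := by
    simp [It.m, It.m', mul_add, add_mul, mul_assoc, mul_sub, sub_mul] <;> try abel
  h_ai_c := by
    simp [It.m, It.m', mul_add, add_mul, mul_assoc, mul_sub, sub_mul] <;> try abel
  h_bi_a := by
    simp [It.m, It.m', mul_add, add_mul, mul_assoc, mul_sub, sub_mul] <;> try abel
  h_bi_b := by
    simp [It.m, It.m', mul_add, add_mul, mul_assoc, mul_sub, sub_mul] <;> try abel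
  h_bi_c := by
    simp [It.m, It.m', mul_add, add_mul, mul_assoc, mul_sub, sub_mul] <;> try abel
  h_ci_a := by
    simp [It.m, It.m', mul_add, add_mul, mul_assoc, mul_sub, sub_mul] <;> try abel
  h_ci_b := by
    simp [It.m, It.m', mul_add, add_mul, mul_assoc, mul_sub, sub_mul] <;> try abel
  h_ci_c := by
    simp [It.m, It.m', mul_add, add_mul, mul_assoc, mul_sub, sub_mul] <;> try abel
  h_di_d := by
    simp [It.m, It.m', mul_add, add_mul, mul_assoc, mul_sub, sub_mul] <;> try abel
  h_di_e := by
    simp [It.m, It.m', mul_add, add_mul, mul_assoc, mul_sub, sub_mul] <;> try abel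
  h_di_f := by
    simp [It.m, It.m', mul_add, add_mul, mul_assoc, mul_sub, sub_mul] <;> try abel
  h_ei_d := by
    simp [It.m, It.m', mul_add, add_mul, mul_assoc, mul_sub, sub_mul] <;> try abel
  h_ei_e := by
    simp [It.m, It.m', mul_add, add_mul, mul_assoc, mul_sub, sub_mul] <;> try abel
  h_ei_f := by
    simp [It.m, It.m', mul_add, add_mul, mul_assoc, mul_sub, sub_mul] <;> try abel
  h_fi_d := by
    simp [It.m, It.m', mul_add, add_mul, mul_assoc, mul_sub, sub_mul] <;> try abel
  h_fi_e := by
    simp [It.m, It.m', mul_add, add_mul, mul_assoc, mul_sub, sub_mul] <;> try abel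
  h_fi_f := by
    simp [It.m, It.m', mul_add, add_mul, mul_assoc, mul_sub, sub_mul] <;> try abel
  h_gi_g := by
    simp [It.m, It.m', mul_add, add_mul, mul_assoc, mul_sub, sub_mul] <;> try abel
  h_gi_h := by
    simp [It.m, It.m', mul_add, add_mul, mul_assoc, mul_sub, sub_mul] <;> try abel
  h_hi_g := by
    simp [It.m, It.m', mul_add, add_mul, mul_assoc, mul_sub, sub_mul] <;> try abel
  h_hi_h := by
    simp [It.m, It.m', mul_add, add_mul, mul_assoc, mul_sub, sub_mul] <;> try abel
  h_ri_r := by
    simp [It.m, It.m', mul_add, add_mul, mul_assoc, mul_sub, sub_mul] <;> try abel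
  h_ri_S := by
    simp [It.m, It.m', mul_add, add_mul, mul_assoc, mul_sub, sub_mul] <;> try abel
  h_Si_r := by
    simp [It.m, It.m', mul_add, add_mul, mul_assoc, mul_sub, sub_mul] <;> try abel
  h_Si_S := by
    simp [It.m, It.m', mul_add, add_mul, mul_assoc, mul_sub, sub_mul] <;> try abel
  h_ai_dl := by
    simp [It.m, It.m', mul_add, add_mul, mul_assoc, mul_sub, sub_mul] <;> try abel
  h_dl_a := by
    simp [It.m, It.m', mul_add, add_mul, mul_assoc, mul_sub, sub_mul] <;> try abel
  h_bi_dl := by
    simp [It.m, It.m', mul_add, add_mul, mul_assoc, mul_sub, sub_mul] <;> try abel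
  h_dl_b := by
    simp [It.m, It.m', mul_add, add_mul, mul_assoc, mul_sub, sub_mul] <;> try abel
  h_ci_dl := by
    simp [It.m, It.m', mul_add, add_mul, mul_assoc, mul_sub, sub_mul] <;> try abel
  h_dl_c := by
    simp [It.m, It.m', mul_add, add_mul, mul_assoc, mul_sub, sub_mul] <;> try abel
  s_c := by
    simp [It.m, It.m', mul_add, add_mul, mul_assoc, mul_sub, sub_mul] <;> try abel
  s_f := by
    simp [It.m, It.m', mul_add, add_mul, mul_assoc, mul_sub, sub_mul] <;> try abel
  s_h := by
    simp [It.m, It.m', mul_add, add_mul, mul_assoc, mul_sub, sub_mul] <;> try abel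
  s_S := by
    simp [It.m, It.m', mul_add, add_mul, mul_assoc, mul_sub, sub_mul] <;> try abel

end A

end Pool.Agent.SKG
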