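import Pool.Agent.SKG.Mn
import Pool.Agent.SKG.Mr
import Pool.Agent.SKG.It
import Pool.Agent.SKG.Pl

set_option autoImplicit false
set_option linter.all false

universe u

namespace Pool.Agent.SKG

section B

variable {A : Type*} [Ring A] (s : Mr A)

def Mr.m : A := s.e * s.g' + s.f * s.h'
def Mr.m' : A := s.g * s.e' + s.h * s.f'
def Mr.n : A := s.b * s.d' + (s.c * s.r' + s.S') * s.m'
def Mr.n' : A := s.d * s.b' + s.m * (s.r * s.c' + s.S)

/-- from the splice to the intermediate structure -/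
def Mr.toIt : It A where
  u := s.u
  v := s.v
  q := s.q
  dl := s.dl
  a := s.a
  a' := s.a'
  n := s.n
  n' := s.n'
  al := s.d * s.a' + s.m * (s.r * s.n')
  al' := s.a * s.d' + s.n * (s.r' * s.m')
  Y := s.m * s.S
  Y' := s.S' * s.m'
  be := s.r
  be' := s.r'
  X := s.S
  X' := s.S'
  g := s.g
  g' := s.g'
  h := s.h
  h' := s.h'
  h_u_u := by
    simp [Mr.m, Mr.m', Mr.n, Mr.n', mul_add, add_mul, mul_assoc, mul_sub, sub_mul] <;> try abel
  h_v_v := by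
    simp [Mr.m, Mr.m', Mr.n, Mr.n', mul_add, add_mul, mul_assoc, mul_sub, sub_mul] <;> try abel
  h_q_q := by
    simp [Mr.m, Mr.m', Mr.n, Mr.n', mul_add, add_mul, mul_assoc, mul_sub, sub_mul] <;> try abel
  h_u_v := by
    simp [Mr.m, Mr.m', Mr.n, Mr.n', mul_add, add_mul, mul_assoc, mul_sub, sub_mul] <;> try abel
  h_v_u := by
    simp [Mr.m, Mr.m', Mr.n, Mr.n', mul_add, add_mul, mul_assoc, mul_sub, sub_mul] <;> try abel
  h_u_q := by
    simp [Mr.m, Mr.m', Mr.n, Mr.n', mul_add, add_mul, mul_assoc, mul_sub, sub_mul] <;> try abel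
  h_q_u := by
    simp [Mr.m, Mr.m', Mr.n, Mr.n', mul_add, add_mul, mul_assoc, mul_sub, sub_mul] <;> try abel
  h_v_q := by
    simp [Mr.m, Mr.m', Mr.n, Mr.n', mul_add, add_mul, mul_assoc, mul_sub, sub_mul] <;> try abel
  h_q_v := by
    simp [Mr.m, Mr.m', Mr.n, Mr.n', mul_add, add_mul, mul_assoc, mul_sub, sub_mul] <;> try abel
  h_dl_dl := by
    simp [Mr.m, Mr.m', Mr.n, Mr.n', mul_add, add_mul, mul_assoc, mul_sub, sub_mul] <;> try abel
  h_u_dl := by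
    simp [Mr.m, Mr.m', Mr.n, Mr.n', mul_add, add_mul, mul_assoc, mul_sub, sub_mul] <;> try abel
  h_dl_u := by
    simp [Mr.m, Mr.m', Mr.n, Mr.n', mul_add, add_mul, mul_assoc, mul_sub, sub_mul] <;> try abel
  h_u_a := by
    simp [Mr.m, Mr.m', Mr.n, Mr.n', mul_add, add_mul, mul_assoc, mul_sub, sub_mul] <;> try abel
  h_a_u := by
    simp [Mr.m, Mr.m', Mr.n, Mr.n', mul_add, add_mul, mul_assoc, mul_sub, sub_mul] <;> try abel
  h_u_n := by
    simp [Mr.m, Mr.m', Mr.n, Mr.n', mul_add, add_mul, mul_assoc, mul_sub, sub_mul] <;> try abel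
  h_n_v := by
    simp [Mr.m, Mr.m', Mr.n, Mr.n', mul_add, add_mul, mul_assoc, mul_sub, sub_mul] <;> try abel
  h_v_al := by
    simp [Mr.m, Mr.m', Mr.n, Mr.n', mul_add, add_mul, mul_assoc, mul_sub, sub_mul] <;> try abel
  h_al_u := by
    simp [Mr.m, Mr.m', Mr.n, Mr.n', mul_add, add_mul, mul_assoc, mul_sub, sub_mul] <;> try abel
  h_v_Y := by
    simp [Mr.m, Mr.m', Mr.n, Mr.n', mul_add, add_mul, mul_assoc, mul_sub, sub_mul] <;> try abel
  h_Y_dl := by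
    simp [Mr.m, Mr.m', Mr.n, Mr.n', mul_add, add_mul, mul_assoc, mul_sub, sub_mul] <;> try abel
  h_q_be := by
    simp [Mr.m, Mr.m', Mr.n, Mr.n', mul_add, add_mul, mul_assoc, mul_sub, sub_mul] <;> try abel
  h_be_v := by
    simp [Mr.m, Mr.m', Mr.n, Mr.n', mul_add, add_mul, mul_assoc, mul_sub, sub_mul] <;> try abel
  h_q_X := by
    simp [Mr.m, Mr.m', Mr.n, Mr.n', mul_add, add_mul, mul_assoc, mul_sub, sub_mul] <;> try abel
  h_X_dl := by
    simp [Mr.m, Mr.m', Mr.n, Mr.n', mul_add, add_mul, mul_assoc, mul_sub, sub_mul] <;> try abel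
  h_q_g := by
    simp [Mr.m, Mr.m', Mr.n, Mr.n', mul_add, add_mul, mul_assoc, mul_sub, sub_mul] <;> try abel
  h_g_v := by
    simp [Mr.m, Mr.m', Mr.n, Mr.n', mul_add, add_mul, mul_assoc, mul_sub, sub_mul] <;> try abel
  h_q_h := by
    simp [Mr.m, Mr.m', Mr.n, Mr.n', mul_add, add_mul, mul_assoc, mul_sub, sub_mul] <;> try abel
  h_h_q := by
    simp [Mr.m, Mr.m', Mr.n, Mr.n', mul_add, add_mul, mul_assoc, mul_sub, sub_mul] <;> try abel
  h_u_ai := by
    simp [Mr.m, Mr.m', Mr.n, Mr.n', mul_add, add_mul, mul_assoc, mul_sub, sub_mul] <;> try abel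
  h_ai_u := by
    simp [Mr.m, Mr.m', Mr.n, Mr.n', mul_add, add_mul, mul_assoc, mul_sub, sub_mul] <;> try abel
  h_v_ni := by
    simp [Mr.m, Mr.m', Mr.n, Mr.n', mul_add, add_mul, mul_assoc, mul_sub, sub_mul] <;> try abel
  h_ni_u := by
    simp [Mr.m, Mr.m', Mr.n, Mr.n', mul_add, add_mul, mul_assoc, mul_sub, sub_mul] <;> try abel
  h_u_ali := by
    simp [Mr.m, Mr.m', Mr.n, Mr.n', mul_add, add_mul, mul_assoc, mul_sub, sub_mul] <;> try abel
  h_ali_v := by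
    simp [Mr.m, Mr.m', Mr.n, Mr.n', mul_add, add_mul, mul_assoc, mul_sub, sub_mul] <;> try abel
  h_dl_Yi := by
    simp [Mr.m, Mr.m', Mr.n, Mr.n', mul_add, add_mul, mul_assoc, mul_sub, sub_mul] <;> try abel
  h_Yi_v := by
    simp [Mr.m, Mr.m', Mr.n, Mr.n', mul_add, add_mul, mul_assoc, mul_sub, sub_mul] <;> try abel
  h_v_bei := by
    simp [Mr.m, Mr.m', Mr.n, Mr.n', mul_add, add_mul, mul_assoc, mul_sub, sub_mul] <;> try abel
  h_bei_q := by
    simp [Mr.m, Mr.m', Mr.n, Mr.n', mul_add, add_mul, mul_assoc, mul_sub, sub_mul] <;> try abel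
  h_dl_Xi := by
    simp [Mr.m, Mr.m', Mr.n, Mr.n', mul_add, add_mul, mul_assoc, mul_sub, sub_mul] <;> try abel
  h_Xi_q := by
    simp [Mr.m, Mr.m', Mr.n, Mr.n', mul_add, add_mul, mul_assoc, mul_sub, sub_mul] <;> try abel
  h_v_gi := by
    simp [Mr.m, Mr.m', Mr.n, Mr.n', mul_add, add_mul, mul_assoc, mul_sub, sub_mul] <;> try abel
  h_gi_q := by
    simp [Mr.m, Mr.m', Mr.n, Mr.n', mul_add, add_mul, mul_assoc, mul_sub, sub_mul] <;> try abel
  h_q_hi := by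
    simp [Mr.m, Mr.m', Mr.n, Mr.n', mul_add, add_mul, mul_assoc, mul_sub, sub_mul] <;> try abel
  h_hi_q := by
    simp [Mr.m, Mr.m', Mr.n, Mr.n', mul_add, add_mul, mul_assoc, mul_sub, sub_mul] <;> try abel
  h_ai_a := by
    simp [Mr.m, Mr.m', Mr.n, Mr.n', mul_add, add_mul, mul_assoc, mul_sub, sub_mul] <;> try abel
  h_ai_n := by
    simp [Mr.m, Mr.m', Mr.n, Mr.n', mul_add, add_mul, mul_assoc, mul_sub, sub_mul] <;> try abel
  h_ni_a := by
    simp [Mr.m, Mr.m', Mr.n, Mr.n', mul_add, add_mul, mul_assoc, mul_sub, sub_mul] <;> try abel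
  h_ni_n := by
    simp [Mr.m, Mr.m', Mr.n, Mr.n', mul_add, add_mul, mul_assoc, mul_sub, sub_mul] <;> try abel
  h_ali_al := by
    simp [Mr.m, Mr.m', Mr.n, Mr.n', mul_add, add_mul, mul_assoc, mul_sub, sub_mul] <;> try abel
  h_ali_Y := by
    simp [Mr.m, Mr.m', Mr.n, Mr.n', mul_add, add_mul, mul_assoc, mul_sub, sub_mul] <;> try abel
  h_Yi_al := by
    simp [Mr.m, Mr.m', Mr.n, Mr.n', mul_add, add_mul, mul_assoc, mul_sub, sub_mul] <;> try abel
  h_Yi_Y := by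
    simp [Mr.m, Mr.m', Mr.n, Mr.n', mul_add, add_mul, mul_assoc, mul_sub, sub_mul] <;> try abel
  h_bei_be := by
    simp [Mr.m, Mr.m', Mr.n, Mr.n', mul_add, add_mul, mul_assoc, mul_sub, sub_mul] <;> try abel
  h_bei_X := by
    simp [Mr.m, Mr.m', Mr.n, Mr.n', mul_add, add_mul, mul_assoc, mul_sub, sub_mul] <;> try abel
  h_Xi_be := by
    simp [Mr.m, Mr.m', Mr.n, Mr.n', mul_add, add_mul, mul_assoc, mul_sub, sub_mul] <;> try abel
  h_Xi_X := by
    simp [Mr.m, Mr.m', Mr.n, Mr.n', mul_add, add_mul, mul_assoc, mul_sub, sub_mul] <;> try abel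
  h_gi_g := by
    simp [Mr.m, Mr.m', Mr.n, Mr.n', mul_add, add_mul, mul_assoc, mul_sub, sub_mul] <;> try abel
  h_gi_h := by
    simp [Mr.m, Mr.m', Mr.n, Mr.n', mul_add, add_mul, mul_assoc, mul_sub, sub_mul] <;> try abel
  h_hi_g := by
    simp [Mr.m, Mr.m', Mr.n, Mr.n', mul_add, add_mul, mul_assoc, mul_sub, sub_mul] <;> try abel
  h_hi_h := by
    simp [Mr.m, Mr.m', Mr.n, Mr.n', mul_add, add_mul, mul_assoc, mul_sub, sub_mul] <;> try abel
  h_ai_dl := by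
    simp [Mr.m, Mr.m', Mr.n, Mr.n', mul_add, add_mul, mul_assoc, mul_sub, sub_mul] <;> try abel
  h_dl_a := by
    simp [Mr.m, Mr.m', Mr.n, Mr.n', mul_add, add_mul, mul_assoc, mul_sub, sub_mul] <;> try abel
  h_ni_dl := by
    simp [Mr.m, Mr.m', Mr.n, Mr.n', mul_add, add_mul, mul_assoc, mul_sub, sub_mul] <;> try abel
  h_dl_n := by
    simp [Mr.m, Mr.m', Mr.n, Mr.n', mul_add, add_mul, mul_assoc, mul_sub, sub_mul] <;> try abel
  h_n_Y := by
    simp [Mr.m, Mr.m', Mr.n, Mr.n', mul_add, add_mul, mul_assoc, mul_sub, sub_mul] <;> try abel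
  h_Yi_ni := by
    simp [Mr.m, Mr.m', Mr.n, Mr.n', mul_add, add_mul, mul_assoc, mul_sub, sub_mul] <;> try abel
  s_n := by
    simp [Mr.m, Mr.m', Mr.n, Mr.n', mul_add, add_mul, mul_assoc, mul_sub, sub_mul] <;> try abel
  s_al := by
    simp [Mr.m, Mr.m', Mr.n, Mr.n', mul_add, add_mul, mul_assoc, mul_sub, sub_mul] <;> try abel
  s_X := by
    simp [Mr.m, Mr.m', Mr.n, Mr.n', mul_add, add_mul, mul_assoc, mul_sub, sub_mul] <;> try abel
  s_h := by
    simp [Mr.m, Mr.m', Mr.n, Mr.n', mul_add, add_mul, mul_assoc, mul_sub, sub_mul] <;> try abel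

end B

end Pool.Agent.SKG
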