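import Pool.Agent.SKG.Mn
import Pool.Agent.SKG.Mr
import Pool.Agent.SKG.It
import Pool.Agent.SKG.Pl

set_option autoImplicit false
set_option linter.all false

universe u

namespace Pool.Agent.SKG

section C

variable {A : Type*} [Ring A] (s : It A)

/-- from the intermediate structure to the two sources -/
def It.toPl : Pl A where
  u := s.u
  v := s.v
  q := s.q
  dl := s.dl
  a := s.a
  a' := s.a'
  b := s.n * s.al
  b' := s.al' * s.n'
  al := s.al
  al' := s.al'
  Y := s.Y
  Y' := s.Y'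
  be := s.be
  be' := s.be'
  X := s.X
  X' := s.X'
  h_u_u := by
    simp [mul_add, add_mul, mul_assoc, mul_sub, sub_mul] <;> try abel
  h_v_v := by
    simp [mul_add, add_mul, mul_assoc, mul_sub, sub_mul] <;> try abel
  h_q_q := by
    simp [mul_add, add_mul, mul_assoc, mul_sub, sub_mul] <;> try abel
  h_u_v := by
    simp [mul_add, add_mul, mul_assoc, mul_sub, sub_mul] <;> try abel
  h_v_u := by
    simp [mul_add, add_mul, mul_assoc, mul_sub, sub_mul] <;> try abel
  h_u_q := by
    simp [mul_add, add_mul, mul_assoc, mul_sub, sub_mul] <;> try abel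
  h_q_u := by
    simp [mul_add, add_mul, mul_assoc, mul_sub, sub_mul] <;> try abel
  h_v_q := by
    simp [mul_add, add_mul, mul_assoc, mul_sub, sub_mul] <;> try abel
  h_q_v := by
    simp [mul_add, add_mul, mul_assoc, mul_sub, sub_mul] <;> try abel
  h_dl_dl := by
    simp [mul_add, add_mul, mul_assoc, mul_sub, sub_mul] <;> try abel
  h_u_dl := by
    simp [mul_add, add_mul, mul_assoc, mul_sub, sub_mul] <;> try abel
  h_dl_u := by
    simp [mul_add, add_mul, mul_assoc, mul_sub, sub_mul] <;> try abel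
  h_u_a := by
    simp [mul_add, add_mul, mul_assoc, mul_sub, sub_mul] <;> try abel
  h_a_u := by
    simp [mul_add, add_mul, mul_assoc, mul_sub, sub_mul] <;> try abel
  h_u_b := by
    simp [mul_add, add_mul, mul_assoc, mul_sub, sub_mul] <;> try abel
  h_b_u := by
    simp [mul_add, add_mul, mul_assoc, mul_sub, sub_mul] <;> try abel
  h_v_al := by
    simp [mul_add, add_mul, mul_assoc, mul_sub, sub_mul] <;> try abel
  h_al_u := by
    simp [mul_add, add_mul, mul_assoc, mul_sub, sub_mul] <;> try abel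
  h_v_Y := by
    simp [mul_add, add_mul, mul_assoc, mul_sub, sub_mul] <;> try abel
  h_Y_dl := by
    simp [mul_add, add_mul, mul_assoc, mul_sub, sub_mul] <;> try abel
  h_q_be := by
    simp [mul_add, add_mul, mul_assoc, mul_sub, sub_mul] <;> try abel
  h_be_v := by
    simp [mul_add, add_mul, mul_assoc, mul_sub, sub_mul] <;> try abel
  h_q_X := by
    simp [mul_add, add_mul, mul_assoc, mul_sub, sub_mul] <;> try abel
  h_X_dl := by
    simp [mul_add, add_mul, mul_assoc, mul_sub, sub_mul] <;> try abel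
  h_u_ai := by
    simp [mul_add, add_mul, mul_assoc, mul_sub, sub_mul] <;> try abel
  h_ai_u := by
    simp [mul_add, add_mul, mul_assoc, mul_sub, sub_mul] <;> try abel
  h_u_bi := by
    simp [mul_add, add_mul, mul_assoc, mul_sub, sub_mul] <;> try abel
  h_bi_u := by
    simp [mul_add, add_mul, mul_assoc, mul_sub, sub_mul] <;> try abel
  h_u_ali := by
    simp [mul_add, add_mul, mul_assoc, mul_sub, sub_mul] <;> try abel
  h_ali_v := by
    simp [mul_add, add_mul, mul_assoc, mul_sub, sub_mul] <;> try abel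
  h_dl_Yi := by
    simp [mul_add, add_mul, mul_assoc, mul_sub, sub_mul] <;> try abel
  h_Yi_v := by
    simp [mul_add, add_mul, mul_assoc, mul_sub, sub_mul] <;> try abel
  h_v_bei := by
    simp [mul_add, add_mul, mul_assoc, mul_sub, sub_mul] <;> try abel
  h_bei_q := by
    simp [mul_add, add_mul, mul_assoc, mul_sub, sub_mul] <;> try abel
  h_dl_Xi := by
    simp [mul_add, add_mul, mul_assoc, mul_sub, sub_mul] <;> try abel
  h_Xi_q := by
    simp [mul_add, add_mul, mul_assoc, mul_sub, sub_mul] <;> try abel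
  h_ai_a := by
    simp [mul_add, add_mul, mul_assoc, mul_sub, sub_mul] <;> try abel
  h_ai_b := by
    simp [mul_add, add_mul, mul_assoc, mul_sub, sub_mul] <;> try abel
  h_bi_a := by
    simp [mul_add, add_mul, mul_assoc, mul_sub, sub_mul] <;> try abel
  h_bi_b := by
    simp [mul_add, add_mul, mul_assoc, mul_sub, sub_mul] <;> try abel
  h_ali_al := by
    simp [mul_add, add_mul, mul_assoc, mul_sub, sub_mul] <;> try abel
  h_ali_Y := by
    simp [mul_add, add_mul, mul_assoc, mul_sub, sub_mul] <;> try abel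
  h_Yi_al := by
    simp [mul_add, add_mul, mul_assoc, mul_sub, sub_mul] <;> try abel
  h_Yi_Y := by
    simp [mul_add, add_mul, mul_assoc, mul_sub, sub_mul] <;> try abel
  h_bei_be := by
    simp [mul_add, add_mul, mul_assoc, mul_sub, sub_mul] <;> try abel
  h_bei_X := by
    simp [mul_add, add_mul, mul_assoc, mul_sub, sub_mul] <;> try abel
  h_Xi_be := by
    simp [mul_add, add_mul, mul_assoc, mul_sub, sub_mul] <;> try abel
  h_Xi_X := by
    simp [mul_add, add_mul, mul_assoc, mul_sub, sub_mul] <;> try abel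
  h_ai_dl := by
    simp [mul_add, add_mul, mul_assoc, mul_sub, sub_mul] <;> try abel
  h_dl_a := by
    simp [mul_add, add_mul, mul_assoc, mul_sub, sub_mul] <;> try abel
  h_bi_dl := by
    simp [mul_add, add_mul, mul_assoc, mul_sub, sub_mul] <;> try abel
  h_dl_b := by
    simp [mul_add, add_mul, mul_assoc, mul_sub, sub_mul] <;> try abel
  s_b := by
    simp [mul_add, add_mul, mul_assoc, mul_sub, sub_mul] <;> try abel
  s_Y := by
    simp [mul_add, add_mul, mul_assoc, mul_sub, sub_mul] <;> try abel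
  s_X := by
    simp [mul_add, add_mul, mul_assoc, mul_sub, sub_mul] <;> try abel

end C

section D

variable {A : Type*} [Ring A] (s : Pl A)

def Pl.n : A := s.b * s.al' + s.Y'
def Pl.n' : A := s.al * s.b' + s.Y
def Pl.g1 : A := s.be * (s.al * s.n)
def Pl.g1' : A := s.n' * (s.al' * s.be')
def Pl.g2 : A := s.be * (s.al * (s.a * (s.al' * s.be'))) + s.be * (s.Y * (s.Y' * s.be')) + s.X * s.X'
def Pl.g2' : A := s.be * (s.al * (s.a' * (s.al' * s.be'))) + s.be * (s.Y * (s.Y' * s.be')) + s.X * s.X'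

theorem Pl.g1g1 : s.g1' * s.g1 = s.v := by
  simp [Pl.g1, Pl.g1', Pl.g2, Pl.g2', Pl.n, Pl.n', mul_add, add_mul, mul_assoc, mul_sub, sub_mul] <;> try abel
theorem Pl.g2g2 : s.g2' * s.g2 = s.q := by
  simp [Pl.g1, Pl.g1', Pl.g2, Pl.g2', Pl.n, Pl.n', mul_add, add_mul, mul_assoc, mul_sub, sub_mul] <;> try abel
theorem Pl.g1g2 : s.g1' * s.g2 = 0 := by
  simp [Pl.g1, Pl.g1', Pl.g2, Pl.g2', Pl.n, Pl.n', mul_add, add_mul, mul_assoc, mul_sub, sub_mul] <;> try abel
theorem Pl.g2g1 : s.g2' * s.g1 = 0 := by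
  simp [Pl.g1, Pl.g1', Pl.g2, Pl.g2', Pl.n, Pl.n', mul_add, add_mul, mul_assoc, mul_sub, sub_mul] <;> try abel
theorem Pl.gsum : s.g1 * s.g1' + s.g2 * s.g2' = s.q := by
  simp [Pl.g1, Pl.g1', Pl.g2, Pl.g2', Pl.n, Pl.n', mul_add, add_mul, mul_assoc, mul_sub, sub_mul] <;> try abel
theorem Pl.q_g1 : s.q * s.g1 = s.g1 := by simp [Pl.g1]
theorem Pl.q_g2 : s.q * s.g2 = s.g2 := by simp [Pl.g2, mul_add, mul_sub]
theorem Pl.g1_v : s.g1 * s.v = s.g1 := by simp [Pl.g1, Pl.n, mul_assoc, add_mul]
theorem Pl.g2_q : s.g2 * s.q = s.g2 := by simp [Pl.g2, mul_assoc, add_mul, mul_sub, sub_mul]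
theorem Pl.g1'_q : s.g1' * s.q = s.g1' := by simp [Pl.g1', mul_assoc]
theorem Pl.g2'_q : s.g2' * s.q = s.g2' := by simp [Pl.g2', mul_assoc, add_mul, mul_sub, sub_mul]
theorem Pl.v_g1' : s.v * s.g1' = s.g1' := by simp [Pl.g1', Pl.n', mul_add, add_mul, mul_assoc]
theorem Pl.q_g2' : s.q * s.g2' = s.g2' := by simp [Pl.g2', mul_add, mul_sub]

end D

end Pool.Agent.SKG
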