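import Pool.Agent.SKG.MA
import Pool.Agent.SKG.MB
import Pool.Agent.SKG.MC
import Pool.Agent.SKG.Mn
import Pool.Agent.SKG.Mr
import Pool.Agent.SKG.It
import Pool.Agent.SKG.Pl

set_option autoImplicit false
set_option linter.all false

universe u

namespace Pool.Agent.SKG

section A

variable {A : Type*} [Ring A] (s : Mn A)

def Mn.n0 : A := s.g * s.d
def Mn.n0' : A := s.d' * s.g'
def Mn.t1 : A := s.n0 * (s.b * s.d') + s.n0 * (s.c * s.e') + (s.q - s.n0 * s.n0' + s.n0 * (s.a * s.n0')) * s.f'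
def Mn.t1' : A := s.d * (s.b' * s.n0') + s.e * (s.c' * s.n0') + s.f * (s.q - s.n0 * s.n0' + s.n0 * (s.a' * s.n0'))
def Mn.t2 : A := s.n0 * s.dl
def Mn.t2' : A := s.dl * s.n0'

theorem Mn.t11 : s.t1' * s.t1 = s.v := by
  simp [Mn.n0, Mn.n0', Mn.t1, Mn.t1', Mn.t2, Mn.t2', mul_add, add_mul, mul_assoc, mul_sub, sub_mul] <;> try abel
theorem Mn.t22 : s.t2' * s.t2 = s.dl := by
  simp [Mn.n0, Mn.n0', Mn.t1, Mn.t1', Mn.t2, Mn.t2', mul_add, add_mul, mul_assoc, mul_sub, sub_mul] <;> try abel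
theorem Mn.t12 : s.t1' * s.t2 = 0 := by
  simp [Mn.n0, Mn.n0', Mn.t1, Mn.t1', Mn.t2, Mn.t2', mul_add, add_mul, mul_assoc, mul_sub, sub_mul] <;> try abel
theorem Mn.t21 : s.t2' * s.t1 = 0 := by
  simp [Mn.n0, Mn.n0', Mn.t1, Mn.t1', Mn.t2, Mn.t2', mul_add, add_mul, mul_assoc, mul_sub, sub_mul] <;> try abel
theorem Mn.tsum : s.t1 * s.t1' + s.t2 * s.t2' = s.q := by
  simp [Mn.n0, Mn.n0', Mn.t1, Mn.t1', Mn.t2, Mn.t2', mul_add, add_mul, mul_assoc, mul_sub, sub_mul] <;> try abel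
theorem Mn.q_t1 : s.q * s.t1 = s.t1 := by
  simp [Mn.n0, Mn.n0', Mn.t1, Mn.t1', Mn.t2, Mn.t2', mul_add, add_mul, mul_assoc, mul_sub, sub_mul] <;> try abel
theorem Mn.t1_v : s.t1 * s.v = s.t1 := by
  simp [Mn.n0, Mn.n0', Mn.t1, Mn.t1', Mn.t2, Mn.t2', mul_add, add_mul, mul_assoc, mul_sub, sub_mul] <;> try abel
theorem Mn.q_t2 : s.q * s.t2 = s.t2 := by
  simp [Mn.n0, Mn.n0', Mn.t1, Mn.t1', Mn.t2, Mn.t2', mul_add, add_mul, mul_assoc, mul_sub, sub_mul] <;> try abel
theorem Mn.t2_dl : s.t2 * s.dl = s.t2 := by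
  simp [Mn.n0, Mn.n0', Mn.t1, Mn.t1', Mn.t2, Mn.t2', mul_add, add_mul, mul_assoc, mul_sub, sub_mul] <;> try abel
theorem Mn.v_t1' : s.v * s.t1' = s.t1' := by
  simp [Mn.n0, Mn.n0', Mn.t1, Mn.t1', Mn.t2, Mn.t2', mul_add, add_mul, mul_assoc, mul_sub, sub_mul] <;> try abel
theorem Mn.t1'_q : s.t1' * s.q = s.t1' := by
  simp [Mn.n0, Mn.n0', Mn.t1, Mn.t1', Mn.t2, Mn.t2', mul_add, add_mul, mul_assoc, mul_sub, sub_mul] <;> try abel
theorem Mn.dl_t2' : s.dl * s.t2' = s.t2' := by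
  simp [Mn.n0, Mn.n0', Mn.t1, Mn.t1', Mn.t2, Mn.t2', mul_add, add_mul, mul_assoc, mul_sub, sub_mul] <;> try abel
theorem Mn.t2'_q : s.t2' * s.q = s.t2' := by
  simp [Mn.n0, Mn.n0', Mn.t1, Mn.t1', Mn.t2, Mn.t2', mul_add, add_mul, mul_assoc, mul_sub, sub_mul] <;> try abel

end A

/-- `t` is a unit of the corner of `q` -/
structure UA {A : Type*} [Ring A] (q t t' : A) : Prop where
  h1 : t * t' = q
  h2 : t' * t = q
  h3 : q * t = t
  h4 : t * q = t
  h5 : q * t' = t'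
  h6 : t' * q = t'

section B

variable {A : Type*} [Ring A] (s : Mn A) {t t' : A} (h : UA s.q t t')

/-- a gadget with a unit gives a gadget with an isomorphism -/
def Mn.toMr : Mr A where
  u := s.u
  v := s.v
  q := s.q
  dl := s.dl
  a := s.a
  a' := s.a'
  b := s.b
  b' := s.b'
  c := s.c
  c' := s.c'
  d := s.d
  d' := s.d'
  e := s.e
  e' := s.e'
  f := s.f
  f' := s.f'
  g := s.g
  g' := s.g'
  h := s.h
  h' := s.h'
  r := t * s.t1
  r' := s.t1' * t'
  S := t * s.t2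
  S' := s.t2' * t'
  h_u_u := by
    exact s.h_u_u
  h_v_v := by
    exact s.h_v_v
  h_q_q := by
    exact s.h_q_q
  h_u_v := by
    exact s.h_u_v
  h_v_u := by
    exact s.h_v_u
  h_u_q := by
    exact s.h_u_q
  h_q_u := by
    exact s.h_q_u
  h_v_q := by
    exact s.h_v_q
  h_q_v := by
    exact s.h_q_v
  h_dl_dl := by
    exact s.h_dl_dl
  h_u_dl := by
    exact s.h_u_dl
  h_dl_u := by
    exact s.h_dl_u
  h_u_a := by
    exact s.h_u_a
  h_a_u := by
    exact s.h_a_u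
  h_u_b := by
    exact s.h_u_b
  h_b_u := by
    exact s.h_b_u
  h_u_c := by
    exact s.h_u_c
  h_c_v := by
    exact s.h_c_v
  h_v_d := by
    exact s.h_v_d
  h_d_u := by
    exact s.h_d_u
  h_v_e := by
    exact s.h_v_e
  h_e_v := by
    exact s.h_e_v
  h_v_f := by
    exact s.h_v_f
  h_f_q := by
    exact s.h_f_q
  h_q_g := by
    exact s.h_q_g
  h_g_v := by
    exact s.h_g_v
  h_q_h := by
    exact s.h_q_h
  h_h_q := by
    exact s.h_h_q
  h_q_r := by
    rw [← mul_assoc, h.h3]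
  h_r_v := by
    rw [mul_assoc, s.t1_v]
  h_q_S := by
    rw [← mul_assoc, h.h3]
  h_S_dl := by
    rw [mul_assoc, s.t2_dl]
  h_u_ai := by
    exact s.h_u_ai
  h_ai_u := by
    exact s.h_ai_u
  h_u_bi := by
    exact s.h_u_bi
  h_bi_u := by
    exact s.h_bi_u
  h_v_ci := by
    exact s.h_v_ci
  h_ci_u := by
    exact s.h_ci_u
  h_u_di := by
    exact s.h_u_di
  h_di_v := by
    exact s.h_di_v
  h_v_ei := by
    exact s.h_v_ei
  h_ei_v := by
    exact s.h_ei_v
  h_q_fi := by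
    exact s.h_q_fi
  h_fi_v := by
    exact s.h_fi_v
  h_v_gi := by
    exact s.h_v_gi
  h_gi_q := by
    exact s.h_gi_q
  h_q_hi := by
    exact s.h_q_hi
  h_hi_q := by
    exact s.h_hi_q
  h_v_ri := by
    rw [← mul_assoc, s.v_t1']
  h_ri_q := by
    rw [mul_assoc, h.h6]
  h_dl_Si := by
    rw [← mul_assoc, s.dl_t2']
  h_Si_q := by
    rw [mul_assoc, h.h6]
  h_ai_a := by
    exact s.h_ai_a
  h_ai_b := by
    exact s.h_ai_b
  h_ai_c := by
    exact s.h_ai_c
  h_bi_a := by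
    exact s.h_bi_a
  h_bi_b := by
    exact s.h_bi_b
  h_bi_c := by
    exact s.h_bi_c
  h_ci_a := by
    exact s.h_ci_a
  h_ci_b := by
    exact s.h_ci_b
  h_ci_c := by
    exact s.h_ci_c
  h_di_d := by
    exact s.h_di_d
  h_di_e := by
    exact s.h_di_e
  h_di_f := by
    exact s.h_di_f
  h_ei_d := by
    exact s.h_ei_d
  h_ei_e := by
    exact s.h_ei_e
  h_ei_f := by
    exact s.h_ei_f
  h_fi_d := by
    exact s.h_fi_d
  h_fi_e := by
    exact s.h_fi_e
  h_fi_f := by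
    exact s.h_fi_f
  h_gi_g := by
    exact s.h_gi_g
  h_gi_h := by
    exact s.h_gi_h
  h_hi_g := by
    exact s.h_hi_g
  h_hi_h := by
    exact s.h_hi_h
  h_ri_r := by
    rw [mul_assoc, ← mul_assoc t', h.h2, s.q_t1, s.t11]
  h_ri_S := by
    rw [mul_assoc, ← mul_assoc t', h.h2, s.q_t2, s.t12]
  h_Si_r := by
    rw [mul_assoc, ← mul_assoc t', h.h2, s.q_t1, s.t21]
  h_Si_S := by
    rw [mul_assoc, ← mul_assoc t', h.h2, s.q_t2, s.t22]
  h_ai_dl := by
    exact s.h_ai_dl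
  h_dl_a := by
    exact s.h_dl_a
  h_bi_dl := by
    exact s.h_bi_dl
  h_dl_b := by
    exact s.h_dl_b
  h_ci_dl := by
    exact s.h_ci_dl
  h_dl_c := by
    exact s.h_dl_c
  s_c := by
    exact s.s_c
  s_f := by
    exact s.s_f
  s_h := by
    exact s.s_h
  s_S := by
    rw [show t * s.t2 * (s.t2' * t') = t * (s.t1 * s.t1' + s.t2 * s.t2') * t' - t * s.t1 * (s.t1' * t') by noncomm_ring, s.tsum, h.h4, h.h1]

end B

section C

variable {A : Type*} [Ring A] (s : Mr A)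

/-- forget the isomorphism -/
def Mr.toMn : Mn A where
  u := s.u
  v := s.v
  q := s.q
  dl := s.dl
  a := s.a
  a' := s.a'
  b := s.b
  b' := s.b'
  c := s.c
  c' := s.c'
  d := s.d
  d' := s.d'
  e := s.e
  e' := s.e'
  f := s.f
  f' := s.f'
  g := s.g
  g' := s.g'
  h := s.h
  h' := s.h'
  h_u_u := by
    simp
  h_v_v := by
    simp
  h_q_q := by
    simp
  h_u_v := by
    simp
  h_v_u := by
    simp
  h_u_q := by
    simp
  h_q_u := by
    simp
  h_v_q := by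
    simp
  h_q_v := by
    simp
  h_dl_dl := by
    simp
  h_u_dl := by
    simp
  h_dl_u := by
    simp
  h_u_a := by
    simp
  h_a_u := by
    simp
  h_u_b := by
    simp
  h_b_u := by
    simp
  h_u_c := by
    simp
  h_c_v := by
    simp
  h_v_d := by
    simp
  h_d_u := by
    simp
  h_v_e := by
    simp
  h_e_v := by
    simp
  h_v_f := by
    simp
  h_f_q := by
    simp
  h_q_g := by
    simp
  h_g_v := by
    simp
  h_q_h := by
    simp
  h_h_q := by
    simp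
  h_u_ai := by
    simp
  h_ai_u := by
    simp
  h_u_bi := by
    simp
  h_bi_u := by
    simp
  h_v_ci := by
    simp
  h_ci_u := by
    simp
  h_u_di := by
    simp
  h_di_v := by
    simp
  h_v_ei := by
    simp
  h_ei_v := by
    simp
  h_q_fi := by
    simp
  h_fi_v := by
    simp
  h_v_gi := by
    simp
  h_gi_q := by
    simp
  h_q_hi := by
    simp
  h_hi_q := by
    simp
  h_ai_a := by
    simp
  h_ai_b := by
    simp
  h_ai_c := by
    simp
  h_bi_a := by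
    simp
  h_bi_b := by
    simp
  h_bi_c := by
    simp
  h_ci_a := by
    simp
  h_ci_b := by
    simp
  h_ci_c := by
    simp
  h_di_d := by
    simp
  h_di_e := by
    simp
  h_di_f := by
    simp
  h_ei_d := by
    simp
  h_ei_e := by
    simp
  h_ei_f := by
    simp
  h_fi_d := by
    simp
  h_fi_e := by
    simp
  h_fi_f := by
    simp
  h_gi_g := by
    simp
  h_gi_h := by
    simp
  h_hi_g := by
    simp
  h_hi_h := by
    simp
  h_ai_dl := by
    simp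
  h_dl_a := by
    simp
  h_bi_dl := by
    simp
  h_dl_b := by
    simp
  h_ci_dl := by
    simp
  h_dl_c := by
    simp
  s_c := by
    simp
  s_f := by
    simp
  s_h := by
    simp

def Mr.t : A := s.r * s.toMn.t1' + s.S * s.toMn.t2'
def Mr.t' : A := s.toMn.t1 * s.r' + s.toMn.t2 * s.S'

end C

end Pool.Agent.SKG
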