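import Pool.Agent.SKG.MD
import Pool.Agent.SKG.MA
import Pool.Agent.SKG.MB
import Pool.Agent.SKG.MC
import Pool.Agent.SKG.Mn
import Pool.Agent.SKG.Mr
import Pool.Agent.SKG.It
import Pool.Agent.SKG.Pl

set_option autoImplicit false
set_option linter.all false

universe u

namespace Pool.Agent.SKG


section B

variable {A : Type*} [Ring A] (s : Pl A) {t t' : A} (h : UA s.q t t')

/-- two sources with a unit give the intermediate structure -/
def Pl.toIt : It A where
  u := s.u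
  v := s.v
  q := s.q
  dl := s.dl
  a := s.a
  a' := s.a'
  n := s.n
  n' := s.n'
  al := s.al
  al' := s.al'
  Y := s.Y
  Y' := s.Y'
  be := s.be
  be' := s.be'
  X := s.X
  X' := s.X'
  g := t * s.g1
  g' := s.g1' * t'
  h := t * s.g2
  h' := s.g2' * t'
  h_u_u := by
    simp [Pl.n, Pl.n', mul_add, add_mul, mul_assoc, mul_sub, sub_mul] <;> try abel
  h_v_v := by
    simp [Pl.n, Pl.n', mul_add, add_mul, mul_assoc, mul_sub, sub_mul] <;> try abel
  h_q_q := by
    simp [Pl.n, Pl.n', mul_add, add_mul, mul_assoc, mul_sub, sub_mul] <;> try abel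
  h_u_v := by
    simp [Pl.n, Pl.n', mul_add, add_mul, mul_assoc, mul_sub, sub_mul] <;> try abel
  h_v_u := by
    simp [Pl.n, Pl.n', mul_add, add_mul, mul_assoc, mul_sub, sub_mul] <;> try abel
  h_u_q := by
    simp [Pl.n, Pl.n', mul_add, add_mul, mul_assoc, mul_sub, sub_mul] <;> try abel
  h_q_u := by
    simp [Pl.n, Pl.n', mul_add, add_mul, mul_assoc, mul_sub, sub_mul] <;> try abel
  h_v_q := by
    simp [Pl.n, Pl.n', mul_add, add_mul, mul_assoc, mul_sub, sub_mul] <;> try abel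
  h_q_v := by
    simp [Pl.n, Pl.n', mul_add, add_mul, mul_assoc, mul_sub, sub_mul] <;> try abel
  h_dl_dl := by
    simp [Pl.n, Pl.n', mul_add, add_mul, mul_assoc, mul_sub, sub_mul] <;> try abel
  h_u_dl := by
    simp [Pl.n, Pl.n', mul_add, add_mul, mul_assoc, mul_sub, sub_mul] <;> try abel
  h_dl_u := by
    simp [Pl.n, Pl.n', mul_add, add_mul, mul_assoc, mul_sub, sub_mul] <;> try abel
  h_u_a := by
    simp [Pl.n, Pl.n', mul_add, add_mul, mul_assoc, mul_sub, sub_mul] <;> try abel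
  h_a_u := by
    simp [Pl.n, Pl.n', mul_add, add_mul, mul_assoc, mul_sub, sub_mul] <;> try abel
  h_u_n := by
    simp [Pl.n, Pl.n', mul_add, add_mul, mul_assoc, mul_sub, sub_mul] <;> try abel
  h_n_v := by
    simp [Pl.n, Pl.n', mul_add, add_mul, mul_assoc, mul_sub, sub_mul] <;> try abel
  h_v_al := by
    simp [Pl.n, Pl.n', mul_add, add_mul, mul_assoc, mul_sub, sub_mul] <;> try abel
  h_al_u := by
    simp [Pl.n, Pl.n', mul_add, add_mul, mul_assoc, mul_sub, sub_mul] <;> try abel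
  h_v_Y := by
    simp [Pl.n, Pl.n', mul_add, add_mul, mul_assoc, mul_sub, sub_mul] <;> try abel
  h_Y_dl := by
    simp [Pl.n, Pl.n', mul_add, add_mul, mul_assoc, mul_sub, sub_mul] <;> try abel
  h_q_be := by
    simp [Pl.n, Pl.n', mul_add, add_mul, mul_assoc, mul_sub, sub_mul] <;> try abel
  h_be_v := by
    simp [Pl.n, Pl.n', mul_add, add_mul, mul_assoc, mul_sub, sub_mul] <;> try abel
  h_q_X := by
    simp [Pl.n, Pl.n', mul_add, add_mul, mul_assoc, mul_sub, sub_mul] <;> try abel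
  h_X_dl := by
    simp [Pl.n, Pl.n', mul_add, add_mul, mul_assoc, mul_sub, sub_mul] <;> try abel
  h_q_g := by
    rw [← mul_assoc, h.h3]
  h_g_v := by
    rw [mul_assoc, s.g1_v]
  h_q_h := by
    rw [← mul_assoc, h.h3]
  h_h_q := by
    rw [mul_assoc, s.g2_q]
  h_u_ai := by
    simp [Pl.n, Pl.n', mul_add, add_mul, mul_assoc, mul_sub, sub_mul] <;> try abel
  h_ai_u := by
    simp [Pl.n, Pl.n', mul_add, add_mul, mul_assoc, mul_sub, sub_mul] <;> try abel
  h_v_ni := by
    simp [Pl.n, Pl.n', mul_add, add_mul, mul_assoc, mul_sub, sub_mul] <;> try abel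
  h_ni_u := by
    simp [Pl.n, Pl.n', mul_add, add_mul, mul_assoc, mul_sub, sub_mul] <;> try abel
  h_u_ali := by
    simp [Pl.n, Pl.n', mul_add, add_mul, mul_assoc, mul_sub, sub_mul] <;> try abel
  h_ali_v := by
    simp [Pl.n, Pl.n', mul_add, add_mul, mul_assoc, mul_sub, sub_mul] <;> try abel
  h_dl_Yi := by
    simp [Pl.n, Pl.n', mul_add, add_mul, mul_assoc, mul_sub, sub_mul] <;> try abel
  h_Yi_v := by
    simp [Pl.n, Pl.n', mul_add, add_mul, mul_assoc, mul_sub, sub_mul] <;> try abel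
  h_v_bei := by
    simp [Pl.n, Pl.n', mul_add, add_mul, mul_assoc, mul_sub, sub_mul] <;> try abel
  h_bei_q := by
    simp [Pl.n, Pl.n', mul_add, add_mul, mul_assoc, mul_sub, sub_mul] <;> try abel
  h_dl_Xi := by
    simp [Pl.n, Pl.n', mul_add, add_mul, mul_assoc, mul_sub, sub_mul] <;> try abel
  h_Xi_q := by
    simp [Pl.n, Pl.n', mul_add, add_mul, mul_assoc, mul_sub, sub_mul] <;> try abel
  h_v_gi := by
    rw [← mul_assoc, s.v_g1']
  h_gi_q := by
    rw [mul_assoc, h.h6]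
  h_q_hi := by
    rw [← mul_assoc, s.q_g2']
  h_hi_q := by
    rw [mul_assoc, h.h6]
  h_ai_a := by
    simp [Pl.n, Pl.n', mul_add, add_mul, mul_assoc, mul_sub, sub_mul] <;> try abel
  h_ai_n := by
    simp [Pl.n, Pl.n', mul_add, add_mul, mul_assoc, mul_sub, sub_mul] <;> try abel
  h_ni_a := by
    simp [Pl.n, Pl.n', mul_add, add_mul, mul_assoc, mul_sub, sub_mul] <;> try abel
  h_ni_n := by
    simp [Pl.n, Pl.n', mul_add, add_mul, mul_assoc, mul_sub, sub_mul] <;> try abel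
  h_ali_al := by
    simp [Pl.n, Pl.n', mul_add, add_mul, mul_assoc, mul_sub, sub_mul] <;> try abel
  h_ali_Y := by
    simp [Pl.n, Pl.n', mul_add, add_mul, mul_assoc, mul_sub, sub_mul] <;> try abel
  h_Yi_al := by
    simp [Pl.n, Pl.n', mul_add, add_mul, mul_assoc, mul_sub, sub_mul] <;> try abel
  h_Yi_Y := by
    simp [Pl.n, Pl.n', mul_add, add_mul, mul_assoc, mul_sub, sub_mul] <;> try abel
  h_bei_be := by
    simp [Pl.n, Pl.n', mul_add, add_mul, mul_assoc, mul_sub, sub_mul] <;> try abel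
  h_bei_X := by
    simp [Pl.n, Pl.n', mul_add, add_mul, mul_assoc, mul_sub, sub_mul] <;> try abel
  h_Xi_be := by
    simp [Pl.n, Pl.n', mul_add, add_mul, mul_assoc, mul_sub, sub_mul] <;> try abel
  h_Xi_X := by
    simp [Pl.n, Pl.n', mul_add, add_mul, mul_assoc, mul_sub, sub_mul] <;> try abel
  h_gi_g := by
    rw [mul_assoc, ← mul_assoc t', h.h2, s.q_g1, s.g1g1]
  h_gi_h := by
    rw [mul_assoc, ← mul_assoc t', h.h2, s.q_g2, s.g1g2]
  h_hi_g := by
    rw [mul_assoc, ← mul_assoc t', h.h2, s.q_g1, s.g2g1]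
  h_hi_h := by
    rw [mul_assoc, ← mul_assoc t', h.h2, s.q_g2, s.g2g2]
  h_ai_dl := by
    simp [Pl.n, Pl.n', mul_add, add_mul, mul_assoc, mul_sub, sub_mul] <;> try abel
  h_dl_a := by
    simp [Pl.n, Pl.n', mul_add, add_mul, mul_assoc, mul_sub, sub_mul] <;> try abel
  h_ni_dl := by
    simp [Pl.n, Pl.n', mul_add, add_mul, mul_assoc, mul_sub, sub_mul] <;> try abel
  h_dl_n := by
    simp [Pl.n, Pl.n', mul_add, add_mul, mul_assoc, mul_sub, sub_mul] <;> try abel
  h_n_Y := by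
    simp [Pl.n, Pl.n', mul_add, add_mul, mul_assoc, mul_sub, sub_mul] <;> try abel
  h_Yi_ni := by
    simp [Pl.n, Pl.n', mul_add, add_mul, mul_assoc, mul_sub, sub_mul] <;> try abel
  s_n := by
    simp [Pl.n, Pl.n', mul_add, add_mul, mul_assoc, mul_sub, sub_mul] <;> try abel
  s_al := by
    simp [Pl.n, Pl.n', mul_add, add_mul, mul_assoc, mul_sub, sub_mul] <;> try abel
  s_X := by
    simp [Pl.n, Pl.n', mul_add, add_mul, mul_assoc, mul_sub, sub_mul] <;> try abel
  s_h := by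
    rw [show t * s.g2 * (s.g2' * t') = t * (s.g1 * s.g1' + s.g2 * s.g2') * t' - t * s.g1 * (s.g1' * t') by noncomm_ring, s.gsum, h.h4, h.h1]

end B

section C

variable {A : Type*} [Ring A] (s : It A)

def It.t : A := s.g * s.toPl.g1' + s.h * s.toPl.g2'
def It.t' : A := s.toPl.g1 * s.g' + s.toPl.g2 * s.h'

end C

end Pool.Agent.SKG
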