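import Pool.Agent.SKG.LU

/-!
# Graphs: the Cuntz splice and two sources
-/

set_option autoImplicit false
set_option linter.all false

universe u

namespace Pool.Agent.SKG

open CKS Pool.Agent.SKZ

section

variable {V E : Type} [Fintype V] [DecidableEq V] [Fintype E] [DecidableEq E]

variable {A : Type*} [Ring A]

/-- the defect -/
def dlt (G : CKS.Graph V E) (u : V) (a0 a1 : E) (x y : E → A) : A :=
  ∑ z : ZZ G u a0 a1, x z.1 * y z.1

theorem sum_u (G : CKS.Graph V E) (u : V) (a0 a1 : E) (h01 : a0 ≠ a1) (h0 : G.s a0 = u)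
    (h1 : G.s a1 = u) (f : E → A) :
    ∑ e ∈ Finset.univ.filter (fun e => G.s e = u), f e =
      f a0 + f a1 + ∑ z : ZZ G u a0 a1, f z.1 := by
  have e : Finset.univ.filter (fun e => G.s e = u) =
      insert a0 (insert a1 (Finset.univ.filter (fun e => G.s e = u ∧ e ≠ a0 ∧ e ≠ a1))) := by
    ext e
    simp only [Finset.mem_filter, Finset.mem_univ, true_and, Finset.mem_insert]
    constructor
    · intro h
      by_cases ha : e = a0
      · exact Or.inl ha
      · by_cases hb : e = a1
        · exact Or.inr (Or.inl hb)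
        · exact Or.inr (Or.inr ⟨h, ha, hb⟩)
    · rintro (rfl | rfl | h)
      · exact h0
      · exact h1
      · exact h.1
  rw [e, Finset.sum_insert (by simp [h01]), Finset.sum_insert (by simp), add_assoc]
  congr 2
  exact Finset.sum_subtype _ (fun x => by simp) f

/-- the relations between the vertices and the old edges -/
structure Base (G : CKS.Graph V E) (u : V) (p : V ⊕ Fin 2 → A) (x y : E → A) : Prop where
  idem : ∀ a, p a * p a = p a
  orth : ∀ a b, a ≠ b → p a * p b = 0
  one : ∑ a, p a = 1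
  se : ∀ e, p (.inl (G.s e)) * x e = x e
  er : ∀ e, x e * p (.inl (G.r e)) = x e
  rg : ∀ e, p (.inl (G.r e)) * y e = y e
  gs : ∀ e, y e * p (.inl (G.s e)) = y e
  ge : ∀ e, y e * x e = p (.inl (G.r e))
  gf : ∀ e f, e ≠ f → y e * x f = 0
  ck : ∀ a, a ≠ u → G.IsReg a →
    ∑ e ∈ Finset.univ.filter (fun e => G.s e = a), x e * y e = p (.inl a)

variable {G : CKS.Graph V E} {u : V} {a0 a1 : E} {p : V ⊕ Fin 2 → A} {x y : E → A}
  (B : Base G u p x y)

include B

theorem Base.z_dl (z : ZZ G u a0 a1) : y z.1 * dlt G u a0 a1 x y = y z.1 := by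
  unfold dlt
  rw [Finset.mul_sum, Finset.sum_eq_single z]
  · rw [← mul_assoc, B.ge, B.rg]
  · intro w _ hw
    rw [← mul_assoc, B.gf _ _ (fun h => hw (Subtype.ext h.symm)), zero_mul]
  · intro h; exact absurd (Finset.mem_univ _) h

theorem Base.dl_z (z : ZZ G u a0 a1) : dlt G u a0 a1 x y * x z.1 = x z.1 := by
  unfold dlt
  rw [Finset.sum_mul, Finset.sum_eq_single z]
  · rw [mul_assoc, B.ge, B.er]
  · intro w _ hw
    rw [mul_assoc, B.gf _ _ (fun h => hw (Subtype.ext h)), mul_zero]
  · intro h; exact absurd (Finset.mem_univ _) h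

theorem Base.dl_dl : dlt G u a0 a1 x y * dlt G u a0 a1 x y = dlt G u a0 a1 x y := by
  conv_lhs => arg 2; unfold dlt
  rw [Finset.mul_sum]
  conv_rhs => unfold dlt
  refine Finset.sum_congr rfl fun z _ => ?_
  rw [← mul_assoc, B.dl_z]

theorem Base.u_dl : p (.inl u) * dlt G u a0 a1 x y = dlt G u a0 a1 x y := by
  unfold dlt
  rw [Finset.mul_sum]
  refine Finset.sum_congr rfl fun z _ => ?_
  rw [← mul_assoc]
  have := B.se z.1
  rw [z.2.1] at this
  rw [this]

theorem Base.dl_u : dlt G u a0 a1 x y * p (.inl u) = dlt G u a0 a1 x y := by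
  unfold dlt
  rw [Finset.sum_mul]
  refine Finset.sum_congr rfl fun z _ => ?_
  rw [mul_assoc]
  have := B.gs z.1
  rw [z.2.1] at this
  rw [this]

theorem Base.y_dl (e : E) (h : e = a0 ∨ e = a1) : y e * dlt G u a0 a1 x y = 0 := by
  unfold dlt
  rw [Finset.mul_sum]
  refine Finset.sum_eq_zero fun z _ => ?_
  rw [← mul_assoc, B.gf, zero_mul]
  rintro rfl
  rcases h with h | h
  · exact z.2.2.1 h
  · exact z.2.2.2 h

theorem Base.dl_x (e : E) (h : e = a0 ∨ e = a1) : dlt G u a0 a1 x y * x e = 0 := by
  unfold dlt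
  rw [Finset.sum_mul]
  refine Finset.sum_eq_zero fun z _ => ?_
  rw [mul_assoc, B.gf, mul_zero]
  rintro rfl
  rcases h with h | h
  · exact z.2.2.1 h
  · exact z.2.2.2 h

/-- cross relations -/
theorem Base.c1 (w : A) (hu : p (.inl u) * w = w) (h0 : y a0 * w = 0) (h1 : y a1 * w = 0)
    (hd : dlt G u a0 a1 x y * w = 0) (e : E) : y e * w = 0 := by
  by_cases hs : G.s e = u
  · by_cases ha : e = a0
    · rw [ha, h0]
    · by_cases hb : e = a1
      · rw [hb, h1]
      · rw [← B.z_dl (⟨e, hs, ha, hb⟩ : ZZ G u a0 a1), mul_assoc, hd, mul_zero]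
  · rw [← B.gs, ← hu, mul_assoc, ← mul_assoc (p _), B.orth _ _ (by simpa using hs), zero_mul,
      mul_zero]

theorem Base.c2 (w : A) (hu : w * p (.inl u) = w) (h0 : w * x a0 = 0) (h1 : w * x a1 = 0)
    (hd : w * dlt G u a0 a1 x y = 0) (e : E) : w * x e = 0 := by
  by_cases hs : G.s e = u
  · by_cases ha : e = a0
    · rw [ha, h0]
    · by_cases hb : e = a1
      · rw [hb, h1]
      · rw [← B.dl_z (⟨e, hs, ha, hb⟩ : ZZ G u a0 a1), ← mul_assoc, hd, zero_mul]
  · rw [← B.se, ← hu, mul_assoc, ← mul_assoc (p _), B.orth _ _ (by simpa using (Ne.symm hs)),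
      zero_mul, mul_zero]

theorem Base.c3 (i : Fin 2) (w : A) (hu : p (.inr i) * w = w) (e : E) : y e * w = 0 := by
  rw [← B.gs, ← hu, mul_assoc, ← mul_assoc (p _), B.orth _ _ (by simp), zero_mul, mul_zero]

theorem Base.c4 (i : Fin 2) (w : A) (hu : w * p (.inr i) = w) (e : E) : w * x e = 0 := by
  rw [← B.se, ← hu, mul_assoc, ← mul_assoc (p _), B.orth _ _ (by simp), zero_mul, mul_zero]

omit B

/-- change of the edge `a1` -/
theorem Base.update (B : Base G u p x y) (hs : G.s a1 = u) (hr : G.r a1 = u) (b b' : A)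
    (h1 : p (.inl u) * b = b) (h2 : b * p (.inl u) = b) (h3 : p (.inl u) * b' = b')
    (h4 : b' * p (.inl u) = b') (h5 : b' * b = p (.inl u)) (h6 : y a0 * b = 0) (h7 : b' * x a0 = 0)
    (h8 : dlt G u a0 a1 x y * b = 0) (h9 : b' * dlt G u a0 a1 x y = 0) :
    Base G u p (Function.update x a1 b) (Function.update y a1 b') := by
  have hy : ∀ e, e ≠ a1 → y e * b = 0 := by
    intro e he
    by_cases hse : G.s e = u
    · by_cases ha : e = a0
      · rw [ha, h6]
      · rw [← B.z_dl (⟨e, hse, ha, he⟩ : ZZ G u a0 a1), mul_assoc, h8, mul_zero]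
    · rw [← B.gs, ← h1, mul_assoc, ← mul_assoc (p _), B.orth _ _ (by simpa using hse), zero_mul,
        mul_zero]
  have hx : ∀ e, e ≠ a1 → b' * x e = 0 := by
    intro e he
    by_cases hse : G.s e = u
    · by_cases ha : e = a0
      · rw [ha, h7]
      · rw [← B.dl_z (⟨e, hse, ha, he⟩ : ZZ G u a0 a1), ← mul_assoc, h9, zero_mul]
    · rw [← B.se, ← h4, mul_assoc, ← mul_assoc (p _), B.orth _ _ (by simpa using (Ne.symm hse)),
        zero_mul, mul_zero]
  constructor
  · exact B.idem
  · exact B.orth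
  · exact B.one
  · intro e
    by_cases h : e = a1
    · subst h; rw [Function.update_self, hs, h1]
    · rw [Function.update_of_ne h, B.se]
  · intro e
    by_cases h : e = a1
    · subst h; rw [Function.update_self, hr, h2]
    · rw [Function.update_of_ne h, B.er]
  · intro e
    by_cases h : e = a1
    · subst h; rw [Function.update_self, hr, h3]
    · rw [Function.update_of_ne h, B.rg]
  · intro e
    by_cases h : e = a1
    · subst h; rw [Function.update_self, hs, h4]
    · rw [Function.update_of_ne h, B.gs]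
  · intro e
    by_cases h : e = a1
    · subst h; rw [Function.update_self, Function.update_self, hr, h5]
    · rw [Function.update_of_ne h, Function.update_of_ne h, B.ge]
  · intro e f hef
    by_cases h : e = a1
    · subst h
      rw [Function.update_self, Function.update_of_ne (Ne.symm hef), hx f (Ne.symm hef)]
    · by_cases h' : f = a1
      · subst h'
        rw [Function.update_self, Function.update_of_ne h, hy e h]
      · rw [Function.update_of_ne h, Function.update_of_ne h', B.gf e f hef]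
  · intro a ha hreg
    rw [← B.ck a ha hreg]
    refine Finset.sum_congr rfl fun e he => ?_
    rw [Finset.mem_filter] at he
    have h : e ≠ a1 := by
      rintro rfl
      exact ha (he.2.symm.trans hs)
    rw [Function.update_of_ne h, Function.update_of_ne h]

theorem dlt_update (x y : E → A) (b b' : A) :
    dlt G u a0 a1 (Function.update x a1 b) (Function.update y a1 b') = dlt G u a0 a1 x y := by
  unfold dlt
  refine Finset.sum_congr rfl fun z _ => ?_
  rw [Function.update_of_ne z.2.2.2, Function.update_of_ne z.2.2.2]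

end

end Pool.Agent.SKG
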