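import Pool.Agent.SKG.MG

set_option autoImplicit false
set_option linter.all false

universe u

namespace Pool.Agent.SKG

open CKS Pool.Agent.SKZ

section

variable {k : Type u} [Field k] {V E : Type} [Fintype V] [DecidableEq V] [Fintype E]
  [DecidableEq E] {G : CKS.Graph V E} {u : V} {a0 a1 : E} {A : Type*} [Ring A] [Algebra k A]

theorem baseM (F : Fam k (splice G u) (splice G u).IsReg A) :
    Base G u F.p (fun e => F.x (.inl e)) (fun e => F.y (.inl e)) where
  idem := F.idem
  orth := F.orth
  one := F.one _ (fun a => Finset.mem_univ a)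
  se e := F.se (.inl e)
  er e := F.er (.inl e)
  rg e := F.rg (.inl e)
  gs e := F.gs (.inl e)
  ge e := F.ge (.inl e)
  gf e f h := F.gf (.inl e) (.inl f) (fun h' => h (Sum.inl.inj h'))
  ck a ha hreg := by
    have h := F.ck (.inl a) (by obtain ⟨e, he⟩ := hreg; exact ⟨.inl e, congrArg Sum.inl he⟩)
      (Finset.disjSum (Finset.univ.filter (fun e => G.s e = a)) ∅) (by
        rintro (e | i)
        · simp [splice]
        · fin_cases i <;> simp [splice, Ne.symm ha])
    rw [Finset.sum_disjSum] at h
    simpa using h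

theorem baseP (F : Fam k (srcs G u a0 a1) (srcs G u a0 a1).IsReg A) :
    Base G u F.p (fun e => F.x (.inl e)) (fun e => F.y (.inl e)) where
  idem := F.idem
  orth := F.orth
  one := F.one _ (fun a => Finset.mem_univ a)
  se e := F.se (.inl e)
  er e := F.er (.inl e)
  rg e := F.rg (.inl e)
  gs e := F.gs (.inl e)
  ge e := F.ge (.inl e)
  gf e f h := F.gf (.inl e) (.inl f) (fun h' => h (Sum.inl.inj h'))
  ck a ha hreg := by
    have h := F.ck (.inl a) (by obtain ⟨e, he⟩ := hreg; exact ⟨.inl e, congrArg Sum.inl he⟩)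
      (Finset.disjSum (Finset.univ.filter (fun e => G.s e = a)) ∅) (by
        rintro (e | (i | i)) <;> simp [srcs])
    rw [Finset.sum_disjSum] at h
    simpa using h

/-- the hypotheses on `u`, `a0`, `a1` -/
structure Two (G : CKS.Graph V E) (u : V) (a0 a1 : E) : Prop where
  h01 : a0 ≠ a1
  s0 : G.s a0 = u
  r0 : G.r a0 = u
  s1 : G.s a1 = u
  r1 : G.r a1 = u

variable (k) in
/-- the compatibility of a base and a gadget (splice) -/
structure CM (G : CKS.Graph V E) (u : V) (a0 a1 : E) (p : V ⊕ Fin 2 → A) (x y : E → A)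
    (m : Mn A) : Prop where
  hu : m.u = p (.inl u)
  hv : m.v = p (.inr 0)
  hq : m.q = p (.inr 1)
  hdl : m.dl = dlt G u a0 a1 x y
  ha : m.a = x a0
  ha' : m.a' = y a0
  hb : m.b = x a1
  hb' : m.b' = y a1

variable {p : V ⊕ Fin 2 → A} {x y : E → A}

variable (k) in
/-- the family of the splice given by a base and a gadget -/
def buildM (h : Two G u a0 a1) (B : Base G u p x y) (m : Mn A) (c : CM (A := A) G u a0 a1 p x y m) :
    Fam k (splice G u) (splice G u).IsReg A where
  p := p
  x := Sum.elim x ![m.e, m.h, m.f, m.g, m.c, m.d]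
  y := Sum.elim y ![m.e', m.h', m.f', m.g', m.c', m.d']
  idem := B.idem
  orth := B.orth
  se e := by
    rcases e with e | e
    · exact B.se e
    · fin_cases e
      · show p (.inr 0) * m.e = m.e; rw [← c.hv, m.h_v_e]
      · show p (.inr 1) * m.h = m.h; rw [← c.hq, m.h_q_h]
      · show p (.inr 0) * m.f = m.f; rw [← c.hv, m.h_v_f]
      · show p (.inr 1) * m.g = m.g; rw [← c.hq, m.h_q_g]
      · show p (.inl u) * m.c = m.c; rw [← c.hu, m.h_u_c]
      · show p (.inr 0) * m.d = m.d; rw [← c.hv, m.h_v_d]
  er e := by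
    rcases e with e | e
    · exact B.er e
    · fin_cases e
      · show m.e * p (.inr 0) = m.e; rw [← c.hv, m.h_e_v]
      · show m.h * p (.inr 1) = m.h; rw [← c.hq, m.h_h_q]
      · show m.f * p (.inr 1) = m.f; rw [← c.hq, m.h_f_q]
      · show m.g * p (.inr 0) = m.g; rw [← c.hv, m.h_g_v]
      · show m.c * p (.inr 0) = m.c; rw [← c.hv, m.h_c_v]
      · show m.d * p (.inl u) = m.d; rw [← c.hu, m.h_d_u]
  rg e := by
    rcases e with e | e
    · exact B.rg e
    · fin_cases e
      · show p (.inr 0) * m.e' = m.e'; rw [← c.hv, m.h_v_ei]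
      · show p (.inr 1) * m.h' = m.h'; rw [← c.hq, m.h_q_hi]
      · show p (.inr 1) * m.f' = m.f'; rw [← c.hq, m.h_q_fi]
      · show p (.inr 0) * m.g' = m.g'; rw [← c.hv, m.h_v_gi]
      · show p (.inr 0) * m.c' = m.c'; rw [← c.hv, m.h_v_ci]
      · show p (.inl u) * m.d' = m.d'; rw [← c.hu, m.h_u_di]
  gs e := by
    rcases e with e | e
    · exact B.gs e
    · fin_cases e
      · show m.e' * p (.inr 0) = m.e'; rw [← c.hv, m.h_ei_v]
      · show m.h' * p (.inr 1) = m.h'; rw [← c.hq, m.h_hi_q]
      · show m.f' * p (.inr 0) = m.f'; rw [← c.hv, m.h_fi_v]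
      · show m.g' * p (.inr 1) = m.g'; rw [← c.hq, m.h_gi_q]
      · show m.c' * p (.inl u) = m.c'; rw [← c.hu, m.h_ci_u]
      · show m.d' * p (.inr 0) = m.d'; rw [← c.hv, m.h_di_v]
  ge e := by
    rcases e with e | e
    · exact B.ge e
    · fin_cases e
      · show m.e' * m.e = p (.inr 0); rw [← c.hv, m.h_ei_e]
      · show m.h' * m.h = p (.inr 1); rw [← c.hq, m.h_hi_h]
      · show m.f' * m.f = p (.inr 1); rw [← c.hq, m.h_fi_f]
      · show m.g' * m.g = p (.inr 0); rw [← c.hv, m.h_gi_g]
      · show m.c' * m.c = p (.inr 0); rw [← c.hv, m.h_ci_c]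
      · show m.d' * m.d = p (.inl u); rw [← c.hu, m.h_di_d]
  gf e f hef := by
    rcases e with e | e <;> rcases f with f | f
    · exact B.gf e f (fun h' => hef (congrArg Sum.inl h'))
    · fin_cases f
      · exact B.c3 0 m.e (by rw [← c.hv, m.h_v_e]) e
      · exact B.c3 1 m.h (by rw [← c.hq, m.h_q_h]) e
      · exact B.c3 0 m.f (by rw [← c.hv, m.h_v_f]) e
      · exact B.c3 1 m.g (by rw [← c.hq, m.h_q_g]) e
      · exact B.c1 m.c (by rw [← c.hu, m.h_u_c]) (by rw [← c.ha', m.h_ai_c]) (by rw [← c.hb', m.h_bi_c])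
          (by rw [← c.hdl, m.h_dl_c]) e
      · exact B.c3 0 m.d (by rw [← c.hv, m.h_v_d]) e
    · fin_cases e
      · exact B.c4 0 m.e' (by rw [← c.hv, m.h_ei_v]) f
      · exact B.c4 1 m.h' (by rw [← c.hq, m.h_hi_q]) f
      · exact B.c4 0 m.f' (by rw [← c.hv, m.h_fi_v]) f
      · exact B.c4 1 m.g' (by rw [← c.hq, m.h_gi_q]) f
      · exact B.c2 m.c' (by rw [← c.hu, m.h_ci_u]) (by rw [← c.ha, m.h_ci_a]) (by rw [← c.hb, m.h_ci_b])
          (by rw [← c.hdl, m.h_ci_dl]) f
      · exact B.c4 0 m.d' (by rw [← c.hv, m.h_di_v]) f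
    · fin_cases e <;> fin_cases f <;>
        first
          | exact absurd rfl hef
          | (show _ * _ = _; simp)
  ck a ha S hS := by
    rcases a with a | a
    · by_cases hau : a = u
      · subst hau
        have hS' : S = Finset.disjSum (Finset.univ.filter (fun e => G.s e = a)) {4} := by
          ext e
          rw [hS]
          rcases e with e | i
          · simp [splice]
          · fin_cases i <;> simp [splice]
        subst hS'
        rw [Finset.sum_disjSum]
        simp only [Finset.sum_singleton, Sum.elim_inl, Sum.elim_inr]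
        rw [sum_u G a a0 a1 h.h01 h.s0 h.s1]
        show x a0 * y a0 + x a1 * y a1 + dlt G a a0 a1 x y + m.c * m.c' = p (.inl a)
        rw [← c.ha, ← c.ha', ← c.hb, ← c.hb', ← c.hdl, ← c.hu, m.s_c]
        abel
      · have hS' : S = Finset.disjSum (Finset.univ.filter (fun e => G.s e = a)) ∅ := by
          ext e
          rw [hS]
          rcases e with e | i
          · simp [splice]
          · fin_cases i <;> simp [splice, Ne.symm hau]
        subst hS'
        rw [Finset.sum_disjSum]
        simp only [Finset.sum_empty, Sum.elim_inl, add_zero]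
        refine B.ck a hau ?_
        obtain ⟨e, he⟩ := ha
        rcases e with e | i
        · exact ⟨e, Sum.inl.inj he⟩
        · exfalso
          fin_cases i <;> simp [splice] at he
          exact hau he.symm
    · fin_cases a
      · have hS' : S = Finset.disjSum ∅ {0, 2, 5} := by
          ext e
          rw [hS]
          rcases e with e | i
          · simp [splice]
          · fin_cases i <;> simp [splice]
        subst hS'
        rw [Finset.sum_disjSum, Finset.sum_insert (by decide), Finset.sum_insert (by decide),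
          Finset.sum_singleton, Finset.sum_empty, zero_add]
        show m.e * m.e' + (m.f * m.f' + m.d * m.d') = p (.inr 0)
        rw [← c.hv, m.s_f]
        abel
      · have hS' : S = Finset.disjSum ∅ {1, 3} := by
          ext e
          rw [hS]
          rcases e with e | i
          · simp [splice]
          · fin_cases i <;> simp [splice]
        subst hS'
        rw [Finset.sum_disjSum, Finset.sum_insert (by decide), Finset.sum_singleton,
          Finset.sum_empty, zero_add]
        show m.h * m.h' + m.g * m.g' = p (.inr 1)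
        rw [← c.hq, m.s_h]
        abel
  one S hS := by
    rw [show S = Finset.univ from Finset.eq_univ_of_forall hS]
    exact B.one

end

end Pool.Agent.SKG
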