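import Pool.Agent.SKG.MH

set_option autoImplicit false
set_option linter.all false

universe u

namespace Pool.Agent.SKG

open CKS Pool.Agent.SKZ

section

variable {k : Type u} [Field k] {V E : Type} [Fintype V] [DecidableEq V] [Fintype E]
  [DecidableEq E] {G : CKS.Graph V E} {u : V} {a0 a1 : E} {A : Type*} [Ring A] [Algebra k A]
  {p : V ⊕ Fin 2 → A} {x y : E → A}

variable (k) in
/-- the compatibility of a base and a gadget (sources) -/
structure CP (G : CKS.Graph V E) (u : V) (a0 a1 : E) (p : V ⊕ Fin 2 → A) (x y : E → A)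
    (m : Pl A) : Prop where
  hu : m.u = p (.inl u)
  hv : m.v = p (.inr 0)
  hq : m.q = p (.inr 1)
  hdl : m.dl = dlt G u a0 a1 x y
  ha : m.a = x a0
  ha' : m.a' = y a0
  hb : m.b = x a1
  hb' : m.b' = y a1

/-- the new edges -/
def nx (x : E → A) (m : Pl A) : Option (ZZ G u a0 a1) ⊕ Option (ZZ G u a0 a1) → A
  | .inl none => m.al
  | .inl (some z) => m.Y * x z.1
  | .inr none => m.be
  | .inr (some z) => m.X * x z.1

def ny (y : E → A) (m : Pl A) : Option (ZZ G u a0 a1) ⊕ Option (ZZ G u a0 a1) → A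
  | .inl none => m.al'
  | .inl (some z) => y z.1 * m.Y'
  | .inr none => m.be'
  | .inr (some z) => y z.1 * m.X'

variable (k) in
/-- the family of the graph with two sources given by a base and a gadget -/
def buildP (h : Two G u a0 a1) (B : Base G u p x y) (m : Pl A) (c : CP (A := A) G u a0 a1 p x y m) :
    Fam k (srcs G u a0 a1) (srcs G u a0 a1).IsReg A where
  p := p
  x := Sum.elim x (nx (G := G) (u := u) (a0 := a0) (a1 := a1) x m)
  y := Sum.elim y (ny (G := G) (u := u) (a0 := a0) (a1 := a1) y m)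
  idem := B.idem
  orth := B.orth
  se e := by
    rcases e with e | ((_ | z) | (_ | z))
    · exact B.se e
    · show p (.inr 0) * m.al = m.al; rw [← c.hv, m.h_v_al]
    · show p (.inr 0) * (m.Y * x z.1) = m.Y * x z.1; rw [← c.hv, ← mul_assoc, m.h_v_Y]
    · show p (.inr 1) * m.be = m.be; rw [← c.hq, m.h_q_be]
    · show p (.inr 1) * (m.X * x z.1) = m.X * x z.1; rw [← c.hq, ← mul_assoc, m.h_q_X]
  er e := by
    rcases e with e | ((_ | z) | (_ | z))
    · exact B.er e
    · show m.al * p (.inl u) = m.al; rw [← c.hu, m.h_al_u]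
    · show (m.Y * x z.1) * p (.inl (G.r z.1)) = m.Y * x z.1; rw [mul_assoc, B.er]
    · show m.be * p (.inr 0) = m.be; rw [← c.hv, m.h_be_v]
    · show (m.X * x z.1) * p (.inl (G.r z.1)) = m.X * x z.1; rw [mul_assoc, B.er]
  rg e := by
    rcases e with e | ((_ | z) | (_ | z))
    · exact B.rg e
    · show p (.inl u) * m.al' = m.al'; rw [← c.hu, m.h_u_ali]
    · show p (.inl (G.r z.1)) * (y z.1 * m.Y') = y z.1 * m.Y'; rw [← mul_assoc, B.rg]
    · show p (.inr 0) * m.be' = m.be'; rw [← c.hv, m.h_v_bei]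
    · show p (.inl (G.r z.1)) * (y z.1 * m.X') = y z.1 * m.X'; rw [← mul_assoc, B.rg]
  gs e := by
    rcases e with e | ((_ | z) | (_ | z))
    · exact B.gs e
    · show m.al' * p (.inr 0) = m.al'; rw [← c.hv, m.h_ali_v]
    · show (y z.1 * m.Y') * p (.inr 0) = y z.1 * m.Y'; rw [← c.hv, mul_assoc, m.h_Yi_v]
    · show m.be' * p (.inr 1) = m.be'; rw [← c.hq, m.h_bei_q]
    · show (y z.1 * m.X') * p (.inr 1) = y z.1 * m.X'; rw [← c.hq, mul_assoc, m.h_Xi_q]
  ge e := by
    rcases e with e | ((_ | z) | (_ | z))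
    · exact B.ge e
    · show m.al' * m.al = p (.inl u); rw [← c.hu, m.h_ali_al]
    · show (y z.1 * m.Y') * (m.Y * x z.1) = p (.inl (G.r z.1))
      rw [show y z.1 * m.Y' * (m.Y * x z.1) = y z.1 * (m.Y' * m.Y) * x z.1 by noncomm_ring,
        m.h_Yi_Y, c.hdl, B.z_dl, B.ge]
    · show m.be' * m.be = p (.inr 0); rw [← c.hv, m.h_bei_be]
    · show (y z.1 * m.X') * (m.X * x z.1) = p (.inl (G.r z.1))
      rw [show y z.1 * m.X' * (m.X * x z.1) = y z.1 * (m.X' * m.X) * x z.1 by noncomm_ring,
        m.h_Xi_X, c.hdl, B.z_dl, B.ge]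
  gf e f hef := by
    have hal : p (.inr 0) * m.al = m.al := by rw [← c.hv, m.h_v_al]
    have hY : p (.inr 0) * m.Y = m.Y := by rw [← c.hv, m.h_v_Y]
    have hbe : p (.inr 1) * m.be = m.be := by rw [← c.hq, m.h_q_be]
    have hX : p (.inr 1) * m.X = m.X := by rw [← c.hq, m.h_q_X]
    have hal' : m.al' * p (.inr 0) = m.al' := by rw [← c.hv, m.h_ali_v]
    have hY' : m.Y' * p (.inr 0) = m.Y' := by rw [← c.hv, m.h_Yi_v]
    have hbe' : m.be' * p (.inr 1) = m.be' := by rw [← c.hq, m.h_bei_q]
    have hX' : m.X' * p (.inr 1) = m.X' := by rw [← c.hq, m.h_Xi_q]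
    rcases e with e | ((_ | z) | (_ | z)) <;> rcases f with f | ((_ | w) | (_ | w))
    · exact B.gf e f (fun h' => hef (congrArg Sum.inl h'))
    · exact B.c3 0 m.al hal e
    · show y e * (m.Y * x w.1) = 0
      rw [← mul_assoc, B.c3 0 m.Y hY e, zero_mul]
    · exact B.c3 1 m.be hbe e
    · show y e * (m.X * x w.1) = 0
      rw [← mul_assoc, B.c3 1 m.X hX e, zero_mul]
    · exact B.c4 0 m.al' hal' f
    · exact absurd rfl hef
    · show m.al' * (m.Y * x w.1) = 0
      simp
    · show m.al' * m.be = 0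
      simp
    · show m.al' * (m.X * x w.1) = 0
      simp
    · show y z.1 * m.Y' * x f = 0
      rw [mul_assoc, B.c4 0 m.Y' hY' f, mul_zero]
    · show y z.1 * m.Y' * m.al = 0
      simp [mul_assoc]
    · show y z.1 * m.Y' * (m.Y * x w.1) = 0
      rw [show y z.1 * m.Y' * (m.Y * x w.1) = y z.1 * (m.Y' * m.Y) * x w.1 by noncomm_ring,
        m.h_Yi_Y, c.hdl, B.z_dl, B.gf]
      intro h'
      exact hef (by rw [Subtype.ext h'])
    · show y z.1 * m.Y' * m.be = 0
      simp [mul_assoc]
    · show y z.1 * m.Y' * (m.X * x w.1) = 0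
      simp [mul_assoc]
    · exact B.c4 1 m.be' hbe' f
    · show m.be' * m.al = 0
      simp
    · show m.be' * (m.Y * x w.1) = 0
      simp
    · exact absurd rfl hef
    · show m.be' * (m.X * x w.1) = 0
      simp
    · show y z.1 * m.X' * x f = 0
      rw [mul_assoc, B.c4 1 m.X' hX' f, mul_zero]
    · show y z.1 * m.X' * m.al = 0
      simp [mul_assoc]
    · show y z.1 * m.X' * (m.Y * x w.1) = 0
      simp [mul_assoc]
    · show y z.1 * m.X' * m.be = 0
      simp [mul_assoc]
    · show y z.1 * m.X' * (m.X * x w.1) = 0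
      rw [show y z.1 * m.X' * (m.X * x w.1) = y z.1 * (m.X' * m.X) * x w.1 by noncomm_ring,
        m.h_Xi_X, c.hdl, B.z_dl, B.gf]
      intro h'
      exact hef (by rw [Subtype.ext h'])
  ck a ha S hS := by
    rcases a with a | a
    · have hS' : S = Finset.disjSum (Finset.univ.filter (fun e => G.s e = a)) ∅ := by
        ext e
        rw [hS]
        rcases e with e | (i | i) <;> simp [srcs]
      subst hS'
      rw [Finset.sum_disjSum]
      simp only [Finset.sum_empty, Sum.elim_inl, add_zero]
      by_cases hau : a = u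
      · subst hau
        rw [sum_u G a a0 a1 h.h01 h.s0 h.s1]
        show x a0 * y a0 + x a1 * y a1 + dlt G a a0 a1 x y = p (.inl a)
        rw [← c.ha, ← c.ha', ← c.hb, ← c.hb', ← c.hdl, ← c.hu, m.s_b]
        abel
      · refine B.ck a hau ?_
        obtain ⟨e, he⟩ := ha
        rcases e with e | (i | i)
        · exact ⟨e, Sum.inl.inj he⟩
        · exact absurd he (by simp [srcs])
        · exact absurd he (by simp [srcs])
    · fin_cases a
      · have hS' : S = Finset.disjSum ∅ (Finset.disjSum Finset.univ ∅) := by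
          ext e
          rw [hS]
          rcases e with e | (i | i) <;> simp [srcs]
        subst hS'
        rw [Finset.sum_disjSum, Finset.sum_disjSum, Finset.sum_empty, zero_add, Finset.sum_empty,
          add_zero, Fintype.sum_option]
        show m.al * m.al' + ∑ z : ZZ G u a0 a1, (m.Y * x z.1) * (y z.1 * m.Y') = p (.inr 0)
        have e : ∑ z : ZZ G u a0 a1, (m.Y * x z.1) * (y z.1 * m.Y') =
            m.Y * dlt G u a0 a1 x y * m.Y' := by
          unfold dlt
          rw [Finset.mul_sum, Finset.sum_mul]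
          refine Finset.sum_congr rfl fun z _ => ?_
          noncomm_ring
        rw [e, ← c.hdl, m.h_Y_dl, m.s_Y, ← c.hv]
        abel
      · have hS' : S = Finset.disjSum ∅ (Finset.disjSum ∅ Finset.univ) := by
          ext e
          rw [hS]
          rcases e with e | (i | i) <;> simp [srcs]
        subst hS'
        rw [Finset.sum_disjSum, Finset.sum_disjSum, Finset.sum_empty, zero_add, Finset.sum_empty,
          zero_add, Fintype.sum_option]
        show m.be * m.be' + ∑ z : ZZ G u a0 a1, (m.X * x z.1) * (y z.1 * m.X') = p (.inr 1)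
        have e : ∑ z : ZZ G u a0 a1, (m.X * x z.1) * (y z.1 * m.X') =
            m.X * dlt G u a0 a1 x y * m.X' := by
          unfold dlt
          rw [Finset.mul_sum, Finset.sum_mul]
          refine Finset.sum_congr rfl fun z _ => ?_
          noncomm_ring
        rw [e, ← c.hdl, m.h_X_dl, m.s_X, ← c.hq]
        abel
  one S hS := by
    rw [show S = Finset.univ from Finset.eq_univ_of_forall hS]
    exact B.one

end

end Pool.Agent.SKG
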