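import Pool.Agent.SKG.MI

set_option autoImplicit false
set_option linter.all false

universe u

namespace Pool.Agent.SKG

open CKS Pool.Agent.SKZ

section

variable {k : Type u} [Field k] {V E : Type} [Fintype V] [DecidableEq V] [Fintype E]
  [DecidableEq E] {G : CKS.Graph V E} {u : V} {a0 a1 : E} {A : Type*} [Ring A] [Algebra k A]

section M

variable (F : Fam k (splice G u) (splice G u).IsReg A)

theorem ci_dl : F.y (.inr 4) * dlt G u a0 a1 (fun e => F.x (.inl e)) (fun e => F.y (.inl e)) = 0 := by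
  unfold dlt
  rw [Finset.mul_sum]
  refine Finset.sum_eq_zero fun z _ => ?_
  rw [← mul_assoc, F.gf _ _ (by simp), zero_mul]

theorem dl_ci : dlt G u a0 a1 (fun e => F.x (.inl e)) (fun e => F.y (.inl e)) * F.x (.inr 4) = 0 := by
  unfold dlt
  rw [Finset.sum_mul]
  refine Finset.sum_eq_zero fun z _ => ?_
  rw [mul_assoc, F.gf _ _ (by simp), mul_zero]

theorem ckM (h : Two G u a0 a1) : F.x (.inl a0) * F.y (.inl a0) + F.x (.inl a1) * F.y (.inl a1) +
    dlt G u a0 a1 (fun e => F.x (.inl e)) (fun e => F.y (.inl e)) +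
    F.x (.inr 4) * F.y (.inr 4) = F.p (.inl u) := by
  have e := F.ck (.inl u) ⟨.inr 4, rfl⟩ (Finset.disjSum (Finset.univ.filter (fun e => G.s e = u)) {4})
    (by
      rintro (e | i)
      · simp [splice]
      · fin_cases i <;> simp [splice])
  rw [Finset.sum_disjSum, Finset.sum_singleton, sum_u G u a0 a1 h.h01 h.s0 h.s1] at e
  exact e

theorem ckM1 : F.x (.inr 0) * F.y (.inr 0) + (F.x (.inr 2) * F.y (.inr 2) +
    F.x (.inr 5) * F.y (.inr 5)) = F.p (.inr 0) := by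
  have e := F.ck (.inr 0) ⟨.inr 0, rfl⟩ (Finset.disjSum ∅ {0, 2, 5})
    (by
      rintro (e | i)
      · simp [splice]
      · fin_cases i <;> simp [splice])
  rw [Finset.sum_disjSum, Finset.sum_insert (by decide), Finset.sum_insert (by decide),
    Finset.sum_singleton, Finset.sum_empty, zero_add] at e
  exact e

theorem ckM2 : F.x (.inr 1) * F.y (.inr 1) + F.x (.inr 3) * F.y (.inr 3) = F.p (.inr 1) := by
  have e := F.ck (.inr 1) ⟨.inr 1, rfl⟩ (Finset.disjSum ∅ {1, 3})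
    (by
      rintro (e | i)
      · simp [splice]
      · fin_cases i <;> simp [splice])
  rw [Finset.sum_disjSum, Finset.sum_insert (by decide), Finset.sum_singleton, Finset.sum_empty,
    zero_add] at e
  exact e

/-- the gadget of a family of the splice -/
def mn (h : Two G u a0 a1) : Mn A where
  u := F.p (.inl u)
  v := F.p (.inr 0)
  q := F.p (.inr 1)
  dl := dlt G u a0 a1 (fun e => F.x (.inl e)) (fun e => F.y (.inl e))
  a := F.x (.inl a0)
  a' := F.y (.inl a0)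
  b := F.x (.inl a1)
  b' := F.y (.inl a1)
  c := F.x (.inr 4)
  c' := F.y (.inr 4)
  d := F.x (.inr 5)
  d' := F.y (.inr 5)
  e := F.x (.inr 0)
  e' := F.y (.inr 0)
  f := F.x (.inr 2)
  f' := F.y (.inr 2)
  g := F.x (.inr 3)
  g' := F.y (.inr 3)
  h := F.x (.inr 1)
  h' := F.y (.inr 1)
  h_u_u := by simp [pp, px, xp, py, yp, yx, splice, h.s0, h.r0, h.s1, h.r1, h.h01, Ne.symm h.h01]
  h_v_v := by simp [pp, px, xp, py, yp, yx, splice, h.s0, h.r0, h.s1, h.r1, h.h01, Ne.symm h.h01]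
  h_q_q := by simp [pp, px, xp, py, yp, yx, splice, h.s0, h.r0, h.s1, h.r1, h.h01, Ne.symm h.h01]
  h_u_v := by simp [pp, px, xp, py, yp, yx, splice, h.s0, h.r0, h.s1, h.r1, h.h01, Ne.symm h.h01]
  h_v_u := by simp [pp, px, xp, py, yp, yx, splice, h.s0, h.r0, h.s1, h.r1, h.h01, Ne.symm h.h01]
  h_u_q := by simp [pp, px, xp, py, yp, yx, splice, h.s0, h.r0, h.s1, h.r1, h.h01, Ne.symm h.h01]
  h_q_u := by simp [pp, px, xp, py, yp, yx, splice, h.s0, h.r0, h.s1, h.r1, h.h01, Ne.symm h.h01]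
  h_v_q := by simp [pp, px, xp, py, yp, yx, splice, h.s0, h.r0, h.s1, h.r1, h.h01, Ne.symm h.h01]
  h_q_v := by simp [pp, px, xp, py, yp, yx, splice, h.s0, h.r0, h.s1, h.r1, h.h01, Ne.symm h.h01]
  h_dl_dl := (baseM F).dl_dl
  h_u_dl := (baseM F).u_dl
  h_dl_u := (baseM F).dl_u
  h_u_a := by simp [pp, px, xp, py, yp, yx, splice, h.s0, h.r0, h.s1, h.r1, h.h01, Ne.symm h.h01]
  h_a_u := by simp [pp, px, xp, py, yp, yx, splice, h.s0, h.r0, h.s1, h.r1, h.h01, Ne.symm h.h01]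
  h_u_b := by simp [pp, px, xp, py, yp, yx, splice, h.s0, h.r0, h.s1, h.r1, h.h01, Ne.symm h.h01]
  h_b_u := by simp [pp, px, xp, py, yp, yx, splice, h.s0, h.r0, h.s1, h.r1, h.h01, Ne.symm h.h01]
  h_u_c := by simp [pp, px, xp, py, yp, yx, splice, h.s0, h.r0, h.s1, h.r1, h.h01, Ne.symm h.h01]
  h_c_v := by simp [pp, px, xp, py, yp, yx, splice, h.s0, h.r0, h.s1, h.r1, h.h01, Ne.symm h.h01]
  h_v_d := by simp [pp, px, xp, py, yp, yx, splice, h.s0, h.r0, h.s1, h.r1, h.h01, Ne.symm h.h01]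
  h_d_u := by simp [pp, px, xp, py, yp, yx, splice, h.s0, h.r0, h.s1, h.r1, h.h01, Ne.symm h.h01]
  h_v_e := by simp [pp, px, xp, py, yp, yx, splice, h.s0, h.r0, h.s1, h.r1, h.h01, Ne.symm h.h01]
  h_e_v := by simp [pp, px, xp, py, yp, yx, splice, h.s0, h.r0, h.s1, h.r1, h.h01, Ne.symm h.h01]
  h_v_f := by simp [pp, px, xp, py, yp, yx, splice, h.s0, h.r0, h.s1, h.r1, h.h01, Ne.symm h.h01]
  h_f_q := by simp [pp, px, xp, py, yp, yx, splice, h.s0, h.r0, h.s1, h.r1, h.h01, Ne.symm h.h01]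
  h_q_g := by simp [pp, px, xp, py, yp, yx, splice, h.s0, h.r0, h.s1, h.r1, h.h01, Ne.symm h.h01]
  h_g_v := by simp [pp, px, xp, py, yp, yx, splice, h.s0, h.r0, h.s1, h.r1, h.h01, Ne.symm h.h01]
  h_q_h := by simp [pp, px, xp, py, yp, yx, splice, h.s0, h.r0, h.s1, h.r1, h.h01, Ne.symm h.h01]
  h_h_q := by simp [pp, px, xp, py, yp, yx, splice, h.s0, h.r0, h.s1, h.r1, h.h01, Ne.symm h.h01]
  h_u_ai := by simp [pp, px, xp, py, yp, yx, splice, h.s0, h.r0, h.s1, h.r1, h.h01, Ne.symm h.h01]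
  h_ai_u := by simp [pp, px, xp, py, yp, yx, splice, h.s0, h.r0, h.s1, h.r1, h.h01, Ne.symm h.h01]
  h_u_bi := by simp [pp, px, xp, py, yp, yx, splice, h.s0, h.r0, h.s1, h.r1, h.h01, Ne.symm h.h01]
  h_bi_u := by simp [pp, px, xp, py, yp, yx, splice, h.s0, h.r0, h.s1, h.r1, h.h01, Ne.symm h.h01]
  h_v_ci := by simp [pp, px, xp, py, yp, yx, splice, h.s0, h.r0, h.s1, h.r1, h.h01, Ne.symm h.h01]
  h_ci_u := by simp [pp, px, xp, py, yp, yx, splice, h.s0, h.r0, h.s1, h.r1, h.h01, Ne.symm h.h01]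
  h_u_di := by simp [pp, px, xp, py, yp, yx, splice, h.s0, h.r0, h.s1, h.r1, h.h01, Ne.symm h.h01]
  h_di_v := by simp [pp, px, xp, py, yp, yx, splice, h.s0, h.r0, h.s1, h.r1, h.h01, Ne.symm h.h01]
  h_v_ei := by simp [pp, px, xp, py, yp, yx, splice, h.s0, h.r0, h.s1, h.r1, h.h01, Ne.symm h.h01]
  h_ei_v := by simp [pp, px, xp, py, yp, yx, splice, h.s0, h.r0, h.s1, h.r1, h.h01, Ne.symm h.h01]
  h_q_fi := by simp [pp, px, xp, py, yp, yx, splice, h.s0, h.r0, h.s1, h.r1, h.h01, Ne.symm h.h01]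
  h_fi_v := by simp [pp, px, xp, py, yp, yx, splice, h.s0, h.r0, h.s1, h.r1, h.h01, Ne.symm h.h01]
  h_v_gi := by simp [pp, px, xp, py, yp, yx, splice, h.s0, h.r0, h.s1, h.r1, h.h01, Ne.symm h.h01]
  h_gi_q := by simp [pp, px, xp, py, yp, yx, splice, h.s0, h.r0, h.s1, h.r1, h.h01, Ne.symm h.h01]
  h_q_hi := by simp [pp, px, xp, py, yp, yx, splice, h.s0, h.r0, h.s1, h.r1, h.h01, Ne.symm h.h01]
  h_hi_q := by simp [pp, px, xp, py, yp, yx, splice, h.s0, h.r0, h.s1, h.r1, h.h01, Ne.symm h.h01]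
  h_ai_a := by simp [pp, px, xp, py, yp, yx, splice, h.s0, h.r0, h.s1, h.r1, h.h01, Ne.symm h.h01]
  h_ai_b := by simp [pp, px, xp, py, yp, yx, splice, h.s0, h.r0, h.s1, h.r1, h.h01, Ne.symm h.h01]
  h_ai_c := by simp [pp, px, xp, py, yp, yx, splice, h.s0, h.r0, h.s1, h.r1, h.h01, Ne.symm h.h01]
  h_bi_a := by simp [pp, px, xp, py, yp, yx, splice, h.s0, h.r0, h.s1, h.r1, h.h01, Ne.symm h.h01]
  h_bi_b := by simp [pp, px, xp, py, yp, yx, splice, h.s0, h.r0, h.s1, h.r1, h.h01, Ne.symm h.h01]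
  h_bi_c := by simp [pp, px, xp, py, yp, yx, splice, h.s0, h.r0, h.s1, h.r1, h.h01, Ne.symm h.h01]
  h_ci_a := by simp [pp, px, xp, py, yp, yx, splice, h.s0, h.r0, h.s1, h.r1, h.h01, Ne.symm h.h01]
  h_ci_b := by simp [pp, px, xp, py, yp, yx, splice, h.s0, h.r0, h.s1, h.r1, h.h01, Ne.symm h.h01]
  h_ci_c := by simp [pp, px, xp, py, yp, yx, splice, h.s0, h.r0, h.s1, h.r1, h.h01, Ne.symm h.h01]
  h_di_d := by simp [pp, px, xp, py, yp, yx, splice, h.s0, h.r0, h.s1, h.r1, h.h01, Ne.symm h.h01]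
  h_di_e := by simp [pp, px, xp, py, yp, yx, splice, h.s0, h.r0, h.s1, h.r1, h.h01, Ne.symm h.h01]
  h_di_f := by simp [pp, px, xp, py, yp, yx, splice, h.s0, h.r0, h.s1, h.r1, h.h01, Ne.symm h.h01]
  h_ei_d := by simp [pp, px, xp, py, yp, yx, splice, h.s0, h.r0, h.s1, h.r1, h.h01, Ne.symm h.h01]
  h_ei_e := by simp [pp, px, xp, py, yp, yx, splice, h.s0, h.r0, h.s1, h.r1, h.h01, Ne.symm h.h01]
  h_ei_f := by simp [pp, px, xp, py, yp, yx, splice, h.s0, h.r0, h.s1, h.r1, h.h01, Ne.symm h.h01]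
  h_fi_d := by simp [pp, px, xp, py, yp, yx, splice, h.s0, h.r0, h.s1, h.r1, h.h01, Ne.symm h.h01]
  h_fi_e := by simp [pp, px, xp, py, yp, yx, splice, h.s0, h.r0, h.s1, h.r1, h.h01, Ne.symm h.h01]
  h_fi_f := by simp [pp, px, xp, py, yp, yx, splice, h.s0, h.r0, h.s1, h.r1, h.h01, Ne.symm h.h01]
  h_gi_g := by simp [pp, px, xp, py, yp, yx, splice, h.s0, h.r0, h.s1, h.r1, h.h01, Ne.symm h.h01]
  h_gi_h := by simp [pp, px, xp, py, yp, yx, splice, h.s0, h.r0, h.s1, h.r1, h.h01, Ne.symm h.h01]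
  h_hi_g := by simp [pp, px, xp, py, yp, yx, splice, h.s0, h.r0, h.s1, h.r1, h.h01, Ne.symm h.h01]
  h_hi_h := by simp [pp, px, xp, py, yp, yx, splice, h.s0, h.r0, h.s1, h.r1, h.h01, Ne.symm h.h01]
  h_ai_dl := (baseM F).y_dl a0 (Or.inl rfl)
  h_dl_a := (baseM F).dl_x a0 (Or.inl rfl)
  h_bi_dl := (baseM F).y_dl a1 (Or.inr rfl)
  h_dl_b := (baseM F).dl_x a1 (Or.inr rfl)
  h_ci_dl := ci_dl F
  h_dl_c := dl_ci F
  s_c := by have := ckM F h; rw [← this]; abel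
  s_f := by have := ckM1 F; rw [← this]; abel
  s_h := by have := ckM2 F; rw [← this]; abel

theorem mn_cm (h : Two G u a0 a1) :
    CM G u a0 a1 F.p (fun e => F.x (.inl e)) (fun e => F.y (.inl e)) (mn F h) :=
  ⟨rfl, rfl, rfl, rfl, rfl, rfl, rfl, rfl⟩

end M

section Row

variable {p : V ⊕ Fin 2 → A} {x y : E → A} (B : Base G u p x y)
  (xs ys : ZZ G u a0 a1 → A)
  (H1 : ∀ z, ys z * xs z = p (.inl (G.r z.1))) (H2 : ∀ z w, z ≠ w → ys z * xs w = 0)
  (H3 : ∀ z, xs z * p (.inl (G.r z.1)) = xs z) (H4 : ∀ z, p (.inl (G.r z.1)) * ys z = ys z)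

include B H1 H2 H3 H4

theorem row1 : (∑ z, x z.1 * ys z) * (∑ z, xs z * y z.1) = dlt G u a0 a1 x y := by
  rw [Finset.sum_mul]
  unfold dlt
  refine Finset.sum_congr rfl fun z _ => ?_
  rw [Finset.mul_sum, Finset.sum_eq_single z]
  · rw [show x z.1 * ys z * (xs z * y z.1) = x z.1 * (ys z * xs z) * y z.1 by noncomm_ring, H1,
      B.er]
  · intro w _ hw
    rw [show x z.1 * ys z * (xs w * y w.1) = x z.1 * (ys z * xs w) * y w.1 by noncomm_ring,
      H2 _ _ (Ne.symm hw), mul_zero, zero_mul]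
  · intro h; exact absurd (Finset.mem_univ _) h

theorem row2 : (∑ z, xs z * y z.1) * dlt G u a0 a1 x y = ∑ z, xs z * y z.1 := by
  rw [Finset.sum_mul]
  refine Finset.sum_congr rfl fun z _ => ?_
  rw [mul_assoc, B.z_dl]

theorem row3 : dlt G u a0 a1 x y * (∑ z, x z.1 * ys z) = ∑ z, x z.1 * ys z := by
  rw [Finset.mul_sum]
  refine Finset.sum_congr rfl fun z _ => ?_
  rw [← mul_assoc, B.dl_z]

theorem row4 : (∑ z, xs z * y z.1) * (∑ z, x z.1 * ys z) = ∑ z, xs z * ys z := by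
  rw [Finset.sum_mul]
  refine Finset.sum_congr rfl fun z _ => ?_
  rw [Finset.mul_sum, Finset.sum_eq_single z]
  · rw [show xs z * y z.1 * (x z.1 * ys z) = xs z * (y z.1 * x z.1) * ys z by noncomm_ring, B.ge,
      H3]
  · intro w _ hw
    rw [show xs z * y z.1 * (x w.1 * ys w) = xs z * (y z.1 * x w.1) * ys w by noncomm_ring,
      B.gf _ _ (fun h => hw (Subtype.ext h.symm)), mul_zero, zero_mul]
  · intro h; exact absurd (Finset.mem_univ _) h

theorem row5 (w : ZZ G u a0 a1) : (∑ z, xs z * y z.1) * x w.1 = xs w := by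
  rw [Finset.sum_mul, Finset.sum_eq_single w]
  · rw [mul_assoc, B.ge, H3]
  · intro z _ hw
    rw [mul_assoc, B.gf _ _ (fun h => hw (Subtype.ext h)), mul_zero]
  · intro h; exact absurd (Finset.mem_univ _) h

theorem row6 (w : ZZ G u a0 a1) : y w.1 * (∑ z, x z.1 * ys z) = ys w := by
  rw [Finset.mul_sum, Finset.sum_eq_single w]
  · rw [← mul_assoc, B.ge, H4]
  · intro z _ hw
    rw [← mul_assoc, B.gf _ _ (fun h => hw (Subtype.ext h.symm)), zero_mul]
  · intro h; exact absurd (Finset.mem_univ _) h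

end Row

end

end Pool.Agent.SKG
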