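import Pool.Agent.SKG.MJ

set_option autoImplicit false
set_option linter.all false

universe u

namespace Pool.Agent.SKG

open CKS Pool.Agent.SKZ

section

variable {k : Type u} [Field k] {V E : Type} [Fintype V] [DecidableEq V] [Fintype E]
  [DecidableEq E] {G : CKS.Graph V E} {u : V} {a0 a1 : E} {A : Type*} [Ring A] [Algebra k A]

section P

variable (F : Fam k (srcs G u a0 a1) (srcs G u a0 a1).IsReg A)

theorem ckP (h : Two G u a0 a1) : F.x (.inl a0) * F.y (.inl a0) + F.x (.inl a1) * F.y (.inl a1) +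
    dlt G u a0 a1 (fun e => F.x (.inl e)) (fun e => F.y (.inl e)) = F.p (.inl u) := by
  have e := F.ck (.inl u) ⟨.inl a0, congrArg Sum.inl h.s0⟩
    (Finset.disjSum (Finset.univ.filter (fun e => G.s e = u)) ∅)
    (by rintro (e | (i | i)) <;> simp [srcs])
  rw [Finset.sum_disjSum, Finset.sum_empty, add_zero, sum_u G u a0 a1 h.h01 h.s0 h.s1] at e
  exact e

theorem ckP1 : F.x (.inr (.inl none)) * F.y (.inr (.inl none)) +
    ∑ z : ZZ G u a0 a1, F.x (.inr (.inl (some z))) * F.y (.inr (.inl (some z))) = F.p (.inr 0) := by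
  have e := F.ck (.inr 0) ⟨.inr (.inl none), rfl⟩ (Finset.disjSum ∅ (Finset.disjSum Finset.univ ∅))
    (by rintro (e | (i | i)) <;> simp [srcs])
  rw [Finset.sum_disjSum, Finset.sum_disjSum, Finset.sum_empty, zero_add, Finset.sum_empty,
    add_zero, Fintype.sum_option] at e
  exact e

theorem ckP2 : F.x (.inr (.inr none)) * F.y (.inr (.inr none)) +
    ∑ z : ZZ G u a0 a1, F.x (.inr (.inr (some z))) * F.y (.inr (.inr (some z))) = F.p (.inr 1) := by
  have e := F.ck (.inr 1) ⟨.inr (.inr none), rfl⟩ (Finset.disjSum ∅ (Finset.disjSum ∅ Finset.univ))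
    (by rintro (e | (i | i)) <;> simp [srcs])
  rw [Finset.sum_disjSum, Finset.sum_disjSum, Finset.sum_empty, zero_add, Finset.sum_empty,
    zero_add, Fintype.sum_option] at e
  exact e

/-- the gadget of a family of the graph with two sources -/
def pl (h : Two G u a0 a1) : Pl A where
  u := F.p (.inl u)
  v := F.p (.inr 0)
  q := F.p (.inr 1)
  dl := dlt G u a0 a1 (fun e => F.x (.inl e)) (fun e => F.y (.inl e))
  a := F.x (.inl a0)
  a' := F.y (.inl a0)
  b := F.x (.inl a1)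
  b' := F.y (.inl a1)
  al := F.x (.inr (.inl none))
  al' := F.y (.inr (.inl none))
  Y := ∑ z : ZZ G u a0 a1, F.x (.inr (.inl (some z))) * F.y (.inl z.1)
  Y' := ∑ z : ZZ G u a0 a1, F.x (.inl z.1) * F.y (.inr (.inl (some z)))
  be := F.x (.inr (.inr none))
  be' := F.y (.inr (.inr none))
  X := ∑ z : ZZ G u a0 a1, F.x (.inr (.inr (some z))) * F.y (.inl z.1)
  X' := ∑ z : ZZ G u a0 a1, F.x (.inl z.1) * F.y (.inr (.inr (some z)))
  h_u_u := by simp [pp, px, xp, py, yp, yx, srcs, h.s0, h.r0, h.s1, h.r1, h.h01, Ne.symm h.h01]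
  h_v_v := by simp [pp, px, xp, py, yp, yx, srcs, h.s0, h.r0, h.s1, h.r1, h.h01, Ne.symm h.h01]
  h_q_q := by simp [pp, px, xp, py, yp, yx, srcs, h.s0, h.r0, h.s1, h.r1, h.h01, Ne.symm h.h01]
  h_u_v := by simp [pp, px, xp, py, yp, yx, srcs, h.s0, h.r0, h.s1, h.r1, h.h01, Ne.symm h.h01]
  h_v_u := by simp [pp, px, xp, py, yp, yx, srcs, h.s0, h.r0, h.s1, h.r1, h.h01, Ne.symm h.h01]
  h_u_q := by simp [pp, px, xp, py, yp, yx, srcs, h.s0, h.r0, h.s1, h.r1, h.h01, Ne.symm h.h01]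
  h_q_u := by simp [pp, px, xp, py, yp, yx, srcs, h.s0, h.r0, h.s1, h.r1, h.h01, Ne.symm h.h01]
  h_v_q := by simp [pp, px, xp, py, yp, yx, srcs, h.s0, h.r0, h.s1, h.r1, h.h01, Ne.symm h.h01]
  h_q_v := by simp [pp, px, xp, py, yp, yx, srcs, h.s0, h.r0, h.s1, h.r1, h.h01, Ne.symm h.h01]
  h_dl_dl := (baseP F).dl_dl
  h_u_dl := (baseP F).u_dl
  h_dl_u := (baseP F).dl_u
  h_u_a := by simp [pp, px, xp, py, yp, yx, srcs, h.s0, h.r0, h.s1, h.r1, h.h01, Ne.symm h.h01]
  h_a_u := by simp [pp, px, xp, py, yp, yx, srcs, h.s0, h.r0, h.s1, h.r1, h.h01, Ne.symm h.h01]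
  h_u_b := by simp [pp, px, xp, py, yp, yx, srcs, h.s0, h.r0, h.s1, h.r1, h.h01, Ne.symm h.h01]
  h_b_u := by simp [pp, px, xp, py, yp, yx, srcs, h.s0, h.r0, h.s1, h.r1, h.h01, Ne.symm h.h01]
  h_v_al := by simp [pp, px, xp, py, yp, yx, srcs, h.s0, h.r0, h.s1, h.r1, h.h01, Ne.symm h.h01]
  h_al_u := by simp [pp, px, xp, py, yp, yx, srcs, h.s0, h.r0, h.s1, h.r1, h.h01, Ne.symm h.h01]
  h_v_Y := by rw [Finset.mul_sum]; exact Finset.sum_congr rfl fun z _ => by rw [← mul_assoc]; exact congrArg (· * _) (F.se (.inr (.inl (some z))))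
  h_Y_dl := row2 (baseP F) (fun z => F.x (.inr (.inl (some z)))) (fun z => F.y (.inr (.inl (some z)))) (fun z => F.ge (.inr (.inl (some z)))) (fun z w hzw => F.gf (.inr (.inl (some z))) (.inr (.inl (some w))) (by simpa using hzw)) (fun z => F.er (.inr (.inl (some z)))) (fun z => F.rg (.inr (.inl (some z))))
  h_q_be := by simp [pp, px, xp, py, yp, yx, srcs, h.s0, h.r0, h.s1, h.r1, h.h01, Ne.symm h.h01]
  h_be_v := by simp [pp, px, xp, py, yp, yx, srcs, h.s0, h.r0, h.s1, h.r1, h.h01, Ne.symm h.h01]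
  h_q_X := by rw [Finset.mul_sum]; exact Finset.sum_congr rfl fun z _ => by rw [← mul_assoc]; exact congrArg (· * _) (F.se (.inr (.inr (some z))))
  h_X_dl := row2 (baseP F) (fun z => F.x (.inr (.inr (some z)))) (fun z => F.y (.inr (.inr (some z)))) (fun z => F.ge (.inr (.inr (some z)))) (fun z w hzw => F.gf (.inr (.inr (some z))) (.inr (.inr (some w))) (by simpa using hzw)) (fun z => F.er (.inr (.inr (some z)))) (fun z => F.rg (.inr (.inr (some z))))
  h_u_ai := by simp [pp, px, xp, py, yp, yx, srcs, h.s0, h.r0, h.s1, h.r1, h.h01, Ne.symm h.h01]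
  h_ai_u := by simp [pp, px, xp, py, yp, yx, srcs, h.s0, h.r0, h.s1, h.r1, h.h01, Ne.symm h.h01]
  h_u_bi := by simp [pp, px, xp, py, yp, yx, srcs, h.s0, h.r0, h.s1, h.r1, h.h01, Ne.symm h.h01]
  h_bi_u := by simp [pp, px, xp, py, yp, yx, srcs, h.s0, h.r0, h.s1, h.r1, h.h01, Ne.symm h.h01]
  h_u_ali := by simp [pp, px, xp, py, yp, yx, srcs, h.s0, h.r0, h.s1, h.r1, h.h01, Ne.symm h.h01]
  h_ali_v := by simp [pp, px, xp, py, yp, yx, srcs, h.s0, h.r0, h.s1, h.r1, h.h01, Ne.symm h.h01]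
  h_dl_Yi := row3 (baseP F) (fun z => F.x (.inr (.inl (some z)))) (fun z => F.y (.inr (.inl (some z)))) (fun z => F.ge (.inr (.inl (some z)))) (fun z w hzw => F.gf (.inr (.inl (some z))) (.inr (.inl (some w))) (by simpa using hzw)) (fun z => F.er (.inr (.inl (some z)))) (fun z => F.rg (.inr (.inl (some z))))
  h_Yi_v := by rw [Finset.sum_mul]; exact Finset.sum_congr rfl fun z _ => by rw [mul_assoc]; exact congrArg (_ * ·) (F.gs (.inr (.inl (some z))))
  h_v_bei := by simp [pp, px, xp, py, yp, yx, srcs, h.s0, h.r0, h.s1, h.r1, h.h01, Ne.symm h.h01]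
  h_bei_q := by simp [pp, px, xp, py, yp, yx, srcs, h.s0, h.r0, h.s1, h.r1, h.h01, Ne.symm h.h01]
  h_dl_Xi := row3 (baseP F) (fun z => F.x (.inr (.inr (some z)))) (fun z => F.y (.inr (.inr (some z)))) (fun z => F.ge (.inr (.inr (some z)))) (fun z w hzw => F.gf (.inr (.inr (some z))) (.inr (.inr (some w))) (by simpa using hzw)) (fun z => F.er (.inr (.inr (some z)))) (fun z => F.rg (.inr (.inr (some z))))
  h_Xi_q := by rw [Finset.sum_mul]; exact Finset.sum_congr rfl fun z _ => by rw [mul_assoc]; exact congrArg (_ * ·) (F.gs (.inr (.inr (some z))))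
  h_ai_a := by simp [pp, px, xp, py, yp, yx, srcs, h.s0, h.r0, h.s1, h.r1, h.h01, Ne.symm h.h01]
  h_ai_b := by simp [pp, px, xp, py, yp, yx, srcs, h.s0, h.r0, h.s1, h.r1, h.h01, Ne.symm h.h01]
  h_bi_a := by simp [pp, px, xp, py, yp, yx, srcs, h.s0, h.r0, h.s1, h.r1, h.h01, Ne.symm h.h01]
  h_bi_b := by simp [pp, px, xp, py, yp, yx, srcs, h.s0, h.r0, h.s1, h.r1, h.h01, Ne.symm h.h01]
  h_ali_al := by simp [pp, px, xp, py, yp, yx, srcs, h.s0, h.r0, h.s1, h.r1, h.h01, Ne.symm h.h01]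
  h_ali_Y := by rw [Finset.mul_sum]; exact Finset.sum_eq_zero fun z _ => by rw [← mul_assoc, F.gf _ _ (by simp), zero_mul]
  h_Yi_al := by rw [Finset.sum_mul]; exact Finset.sum_eq_zero fun z _ => by rw [mul_assoc, F.gf _ _ (by simp), mul_zero]
  h_Yi_Y := row1 (baseP F) (fun z => F.x (.inr (.inl (some z)))) (fun z => F.y (.inr (.inl (some z)))) (fun z => F.ge (.inr (.inl (some z)))) (fun z w hzw => F.gf (.inr (.inl (some z))) (.inr (.inl (some w))) (by simpa using hzw)) (fun z => F.er (.inr (.inl (some z)))) (fun z => F.rg (.inr (.inl (some z))))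
  h_bei_be := by simp [pp, px, xp, py, yp, yx, srcs, h.s0, h.r0, h.s1, h.r1, h.h01, Ne.symm h.h01]
  h_bei_X := by rw [Finset.mul_sum]; exact Finset.sum_eq_zero fun z _ => by rw [← mul_assoc, F.gf _ _ (by simp), zero_mul]
  h_Xi_be := by rw [Finset.sum_mul]; exact Finset.sum_eq_zero fun z _ => by rw [mul_assoc, F.gf _ _ (by simp), mul_zero]
  h_Xi_X := row1 (baseP F) (fun z => F.x (.inr (.inr (some z)))) (fun z => F.y (.inr (.inr (some z)))) (fun z => F.ge (.inr (.inr (some z)))) (fun z w hzw => F.gf (.inr (.inr (some z))) (.inr (.inr (some w))) (by simpa using hzw)) (fun z => F.er (.inr (.inr (some z)))) (fun z => F.rg (.inr (.inr (some z))))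
  h_ai_dl := (baseP F).y_dl a0 (Or.inl rfl)
  h_dl_a := (baseP F).dl_x a0 (Or.inl rfl)
  h_bi_dl := (baseP F).y_dl a1 (Or.inr rfl)
  h_dl_b := (baseP F).dl_x a1 (Or.inr rfl)
  s_b := by have := ckP F h; rw [← this]; abel
  s_Y := by rw [row4 (baseP F) (fun z => F.x (.inr (.inl (some z)))) (fun z => F.y (.inr (.inl (some z)))) (fun z => F.ge (.inr (.inl (some z)))) (fun z w hzw => F.gf (.inr (.inl (some z))) (.inr (.inl (some w))) (by simpa using hzw)) (fun z => F.er (.inr (.inl (some z)))) (fun z => F.rg (.inr (.inl (some z)))), ← ckP1 F]; abel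
  s_X := by rw [row4 (baseP F) (fun z => F.x (.inr (.inr (some z)))) (fun z => F.y (.inr (.inr (some z)))) (fun z => F.ge (.inr (.inr (some z)))) (fun z w hzw => F.gf (.inr (.inr (some z))) (.inr (.inr (some w))) (by simpa using hzw)) (fun z => F.er (.inr (.inr (some z)))) (fun z => F.rg (.inr (.inr (some z)))), ← ckP2 F]; abel

theorem pl_cp (h : Two G u a0 a1) :
    CP G u a0 a1 F.p (fun e => F.x (.inl e)) (fun e => F.y (.inl e)) (pl F h) :=
  ⟨rfl, rfl, rfl, rfl, rfl, rfl, rfl, rfl⟩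

theorem pl_Yx (h : Two G u a0 a1) (w : ZZ G u a0 a1) :
    (pl F h).Y * F.x (.inl w.1) = F.x (.inr (.inl (some w))) :=
  row5 (baseP F) (fun z => F.x (.inr (.inl (some z)))) (fun z => F.y (.inr (.inl (some z)))) (fun z => F.ge (.inr (.inl (some z)))) (fun z w hzw => F.gf (.inr (.inl (some z))) (.inr (.inl (some w))) (by simpa using hzw)) (fun z => F.er (.inr (.inl (some z)))) (fun z => F.rg (.inr (.inl (some z)))) w
theorem pl_Xx (h : Two G u a0 a1) (w : ZZ G u a0 a1) :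
    (pl F h).X * F.x (.inl w.1) = F.x (.inr (.inr (some w))) :=
  row5 (baseP F) (fun z => F.x (.inr (.inr (some z)))) (fun z => F.y (.inr (.inr (some z)))) (fun z => F.ge (.inr (.inr (some z)))) (fun z w hzw => F.gf (.inr (.inr (some z))) (.inr (.inr (some w))) (by simpa using hzw)) (fun z => F.er (.inr (.inr (some z)))) (fun z => F.rg (.inr (.inr (some z)))) w
theorem pl_yY (h : Two G u a0 a1) (w : ZZ G u a0 a1) :
    F.y (.inl w.1) * (pl F h).Y' = F.y (.inr (.inl (some w))) :=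
  row6 (baseP F) (fun z => F.x (.inr (.inl (some z)))) (fun z => F.y (.inr (.inl (some z)))) (fun z => F.ge (.inr (.inl (some z)))) (fun z w hzw => F.gf (.inr (.inl (some z))) (.inr (.inl (some w))) (by simpa using hzw)) (fun z => F.er (.inr (.inl (some z)))) (fun z => F.rg (.inr (.inl (some z)))) w
theorem pl_yX (h : Two G u a0 a1) (w : ZZ G u a0 a1) :
    F.y (.inl w.1) * (pl F h).X' = F.y (.inr (.inr (some w))) :=
  row6 (baseP F) (fun z => F.x (.inr (.inr (some z)))) (fun z => F.y (.inr (.inr (some z)))) (fun z => F.ge (.inr (.inr (some z)))) (fun z w hzw => F.gf (.inr (.inr (some z))) (.inr (.inr (some w))) (by simpa using hzw)) (fun z => F.er (.inr (.inr (some z)))) (fun z => F.rg (.inr (.inr (some z)))) w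

end P

variable {p : V ⊕ Fin 2 → A} {x y : E → A}

theorem pl_buildP (h : Two G u a0 a1) (B : Base G u p x y) (m : Pl A)
    (c : CP (A := A) G u a0 a1 p x y m) : pl (buildP k h B m c) h = m := by
  have eY : ∑ z : ZZ G u a0 a1, (m.Y * x z.1) * y z.1 = m.Y := by
    refine Eq.trans ?_ (show m.Y * dlt G u a0 a1 x y = m.Y by rw [← c.hdl, m.h_Y_dl])
    unfold dlt; rw [Finset.mul_sum]
    exact Finset.sum_congr rfl fun z _ => mul_assoc _ _ _
  have eX : ∑ z : ZZ G u a0 a1, (m.X * x z.1) * y z.1 = m.X := by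
    refine Eq.trans ?_ (show m.X * dlt G u a0 a1 x y = m.X by rw [← c.hdl, m.h_X_dl])
    unfold dlt; rw [Finset.mul_sum]
    exact Finset.sum_congr rfl fun z _ => mul_assoc _ _ _
  have eY' : ∑ z : ZZ G u a0 a1, x z.1 * (y z.1 * m.Y') = m.Y' := by
    refine Eq.trans ?_ (show dlt G u a0 a1 x y * m.Y' = m.Y' by rw [← c.hdl, m.h_dl_Yi])
    unfold dlt; rw [Finset.sum_mul]
    exact Finset.sum_congr rfl fun z _ => (mul_assoc _ _ _).symm
  have eX' : ∑ z : ZZ G u a0 a1, x z.1 * (y z.1 * m.X') = m.X' := by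
    refine Eq.trans ?_ (show dlt G u a0 a1 x y * m.X' = m.X' by rw [← c.hdl, m.h_dl_Xi])
    unfold dlt; rw [Finset.sum_mul]
    exact Finset.sum_congr rfl fun z _ => (mul_assoc _ _ _).symm
  apply Pl.ext
  · exact c.hu.symm
  · exact c.hv.symm
  · exact c.hq.symm
  · exact c.hdl.symm
  · exact c.ha.symm
  · exact c.ha'.symm
  · exact c.hb.symm
  · exact c.hb'.symm
  · rfl
  · rfl
  · exact eY
  · exact eY'
  · rfl
  · rfl
  · exact eX
  · exact eX'

theorem mn_buildM (h : Two G u a0 a1) (B : Base G u p x y) (m : Mn A)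
    (c : CM (A := A) G u a0 a1 p x y m) : mn (buildM k h B m c) h = m := by
  apply Mn.ext
  · exact c.hu.symm
  · exact c.hv.symm
  · exact c.hq.symm
  · exact c.hdl.symm
  · exact c.ha.symm
  · exact c.ha'.symm
  · exact c.hb.symm
  · exact c.hb'.symm
  all_goals rfl

end

end Pool.Agent.SKG
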