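import Pool.Agent.SKG.MK

set_option autoImplicit false
set_option linter.all false

universe u

namespace Pool.Agent.SKG

open CKS Pool.Agent.SKZ

section

variable {k : Type u} [Field k] {A C : Type*} [Ring A] [Algebra k A] [Ring C] [Algebra k C]
  (φ : A →ₐ[k] C)

/-- the image -/
def Mn.map (s : Mn A) : Mn C where
  u := φ s.u
  v := φ s.v
  q := φ s.q
  dl := φ s.dl
  a := φ s.a
  a' := φ s.a'
  b := φ s.b
  b' := φ s.b'
  c := φ s.c
  c' := φ s.c'
  d := φ s.d
  d' := φ s.d'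
  e := φ s.e
  e' := φ s.e'
  f := φ s.f
  f' := φ s.f'
  g := φ s.g
  g' := φ s.g'
  h := φ s.h
  h' := φ s.h'
  h_u_u := by rw [← map_mul, s.h_u_u]
  h_v_v := by rw [← map_mul, s.h_v_v]
  h_q_q := by rw [← map_mul, s.h_q_q]
  h_u_v := by rw [← map_mul, s.h_u_v, map_zero]
  h_v_u := by rw [← map_mul, s.h_v_u, map_zero]
  h_u_q := by rw [← map_mul, s.h_u_q, map_zero]
  h_q_u := by rw [← map_mul, s.h_q_u, map_zero]
  h_v_q := by rw [← map_mul, s.h_v_q, map_zero]
  h_q_v := by rw [← map_mul, s.h_q_v, map_zero]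
  h_dl_dl := by rw [← map_mul, s.h_dl_dl]
  h_u_dl := by rw [← map_mul, s.h_u_dl]
  h_dl_u := by rw [← map_mul, s.h_dl_u]
  h_u_a := by rw [← map_mul, s.h_u_a]
  h_a_u := by rw [← map_mul, s.h_a_u]
  h_u_b := by rw [← map_mul, s.h_u_b]
  h_b_u := by rw [← map_mul, s.h_b_u]
  h_u_c := by rw [← map_mul, s.h_u_c]
  h_c_v := by rw [← map_mul, s.h_c_v]
  h_v_d := by rw [← map_mul, s.h_v_d]
  h_d_u := by rw [← map_mul, s.h_d_u]
  h_v_e := by rw [← map_mul, s.h_v_e]
  h_e_v := by rw [← map_mul, s.h_e_v]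
  h_v_f := by rw [← map_mul, s.h_v_f]
  h_f_q := by rw [← map_mul, s.h_f_q]
  h_q_g := by rw [← map_mul, s.h_q_g]
  h_g_v := by rw [← map_mul, s.h_g_v]
  h_q_h := by rw [← map_mul, s.h_q_h]
  h_h_q := by rw [← map_mul, s.h_h_q]
  h_u_ai := by rw [← map_mul, s.h_u_ai]
  h_ai_u := by rw [← map_mul, s.h_ai_u]
  h_u_bi := by rw [← map_mul, s.h_u_bi]
  h_bi_u := by rw [← map_mul, s.h_bi_u]
  h_v_ci := by rw [← map_mul, s.h_v_ci]
  h_ci_u := by rw [← map_mul, s.h_ci_u]
  h_u_di := by rw [← map_mul, s.h_u_di]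
  h_di_v := by rw [← map_mul, s.h_di_v]
  h_v_ei := by rw [← map_mul, s.h_v_ei]
  h_ei_v := by rw [← map_mul, s.h_ei_v]
  h_q_fi := by rw [← map_mul, s.h_q_fi]
  h_fi_v := by rw [← map_mul, s.h_fi_v]
  h_v_gi := by rw [← map_mul, s.h_v_gi]
  h_gi_q := by rw [← map_mul, s.h_gi_q]
  h_q_hi := by rw [← map_mul, s.h_q_hi]
  h_hi_q := by rw [← map_mul, s.h_hi_q]
  h_ai_a := by rw [← map_mul, s.h_ai_a]
  h_ai_b := by rw [← map_mul, s.h_ai_b, map_zero]
  h_ai_c := by rw [← map_mul, s.h_ai_c, map_zero]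
  h_bi_a := by rw [← map_mul, s.h_bi_a, map_zero]
  h_bi_b := by rw [← map_mul, s.h_bi_b]
  h_bi_c := by rw [← map_mul, s.h_bi_c, map_zero]
  h_ci_a := by rw [← map_mul, s.h_ci_a, map_zero]
  h_ci_b := by rw [← map_mul, s.h_ci_b, map_zero]
  h_ci_c := by rw [← map_mul, s.h_ci_c]
  h_di_d := by rw [← map_mul, s.h_di_d]
  h_di_e := by rw [← map_mul, s.h_di_e, map_zero]
  h_di_f := by rw [← map_mul, s.h_di_f, map_zero]
  h_ei_d := by rw [← map_mul, s.h_ei_d, map_zero]
  h_ei_e := by rw [← map_mul, s.h_ei_e]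
  h_ei_f := by rw [← map_mul, s.h_ei_f, map_zero]
  h_fi_d := by rw [← map_mul, s.h_fi_d, map_zero]
  h_fi_e := by rw [← map_mul, s.h_fi_e, map_zero]
  h_fi_f := by rw [← map_mul, s.h_fi_f]
  h_gi_g := by rw [← map_mul, s.h_gi_g]
  h_gi_h := by rw [← map_mul, s.h_gi_h, map_zero]
  h_hi_g := by rw [← map_mul, s.h_hi_g, map_zero]
  h_hi_h := by rw [← map_mul, s.h_hi_h]
  h_ai_dl := by rw [← map_mul, s.h_ai_dl, map_zero]
  h_dl_a := by rw [← map_mul, s.h_dl_a, map_zero]
  h_bi_dl := by rw [← map_mul, s.h_bi_dl, map_zero]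
  h_dl_b := by rw [← map_mul, s.h_dl_b, map_zero]
  h_ci_dl := by rw [← map_mul, s.h_ci_dl, map_zero]
  h_dl_c := by rw [← map_mul, s.h_dl_c, map_zero]
  s_c := by rw [← map_mul, s.s_c]; simp only [map_sub, map_add, map_mul]
  s_f := by rw [← map_mul, s.s_f]; simp only [map_sub, map_add, map_mul]
  s_h := by rw [← map_mul, s.s_h]; simp only [map_sub, map_add, map_mul]

/-- the image -/
def Mr.map (s : Mr A) : Mr C where
  u := φ s.u
  v := φ s.v
  q := φ s.q
  dl := φ s.dl
  a := φ s.a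
  a' := φ s.a'
  b := φ s.b
  b' := φ s.b'
  c := φ s.c
  c' := φ s.c'
  d := φ s.d
  d' := φ s.d'
  e := φ s.e
  e' := φ s.e'
  f := φ s.f
  f' := φ s.f'
  g := φ s.g
  g' := φ s.g'
  h := φ s.h
  h' := φ s.h'
  r := φ s.r
  r' := φ s.r'
  S := φ s.S
  S' := φ s.S'
  h_u_u := by rw [← map_mul, s.h_u_u]
  h_v_v := by rw [← map_mul, s.h_v_v]
  h_q_q := by rw [← map_mul, s.h_q_q]
  h_u_v := by rw [← map_mul, s.h_u_v, map_zero]
  h_v_u := by rw [← map_mul, s.h_v_u, map_zero]
  h_u_q := by rw [← map_mul, s.h_u_q, map_zero]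
  h_q_u := by rw [← map_mul, s.h_q_u, map_zero]
  h_v_q := by rw [← map_mul, s.h_v_q, map_zero]
  h_q_v := by rw [← map_mul, s.h_q_v, map_zero]
  h_dl_dl := by rw [← map_mul, s.h_dl_dl]
  h_u_dl := by rw [← map_mul, s.h_u_dl]
  h_dl_u := by rw [← map_mul, s.h_dl_u]
  h_u_a := by rw [← map_mul, s.h_u_a]
  h_a_u := by rw [← map_mul, s.h_a_u]
  h_u_b := by rw [← map_mul, s.h_u_b]
  h_b_u := by rw [← map_mul, s.h_b_u]
  h_u_c := by rw [← map_mul, s.h_u_c]
  h_c_v := by rw [← map_mul, s.h_c_v]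
  h_v_d := by rw [← map_mul, s.h_v_d]
  h_d_u := by rw [← map_mul, s.h_d_u]
  h_v_e := by rw [← map_mul, s.h_v_e]
  h_e_v := by rw [← map_mul, s.h_e_v]
  h_v_f := by rw [← map_mul, s.h_v_f]
  h_f_q := by rw [← map_mul, s.h_f_q]
  h_q_g := by rw [← map_mul, s.h_q_g]
  h_g_v := by rw [← map_mul, s.h_g_v]
  h_q_h := by rw [← map_mul, s.h_q_h]
  h_h_q := by rw [← map_mul, s.h_h_q]
  h_q_r := by rw [← map_mul, s.h_q_r]
  h_r_v := by rw [← map_mul, s.h_r_v]
  h_q_S := by rw [← map_mul, s.h_q_S]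
  h_S_dl := by rw [← map_mul, s.h_S_dl]
  h_u_ai := by rw [← map_mul, s.h_u_ai]
  h_ai_u := by rw [← map_mul, s.h_ai_u]
  h_u_bi := by rw [← map_mul, s.h_u_bi]
  h_bi_u := by rw [← map_mul, s.h_bi_u]
  h_v_ci := by rw [← map_mul, s.h_v_ci]
  h_ci_u := by rw [← map_mul, s.h_ci_u]
  h_u_di := by rw [← map_mul, s.h_u_di]
  h_di_v := by rw [← map_mul, s.h_di_v]
  h_v_ei := by rw [← map_mul, s.h_v_ei]
  h_ei_v := by rw [← map_mul, s.h_ei_v]
  h_q_fi := by rw [← map_mul, s.h_q_fi]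
  h_fi_v := by rw [← map_mul, s.h_fi_v]
  h_v_gi := by rw [← map_mul, s.h_v_gi]
  h_gi_q := by rw [← map_mul, s.h_gi_q]
  h_q_hi := by rw [← map_mul, s.h_q_hi]
  h_hi_q := by rw [← map_mul, s.h_hi_q]
  h_v_ri := by rw [← map_mul, s.h_v_ri]
  h_ri_q := by rw [← map_mul, s.h_ri_q]
  h_dl_Si := by rw [← map_mul, s.h_dl_Si]
  h_Si_q := by rw [← map_mul, s.h_Si_q]
  h_ai_a := by rw [← map_mul, s.h_ai_a]
  h_ai_b := by rw [← map_mul, s.h_ai_b, map_zero]
  h_ai_c := by rw [← map_mul, s.h_ai_c, map_zero]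
  h_bi_a := by rw [← map_mul, s.h_bi_a, map_zero]
  h_bi_b := by rw [← map_mul, s.h_bi_b]
  h_bi_c := by rw [← map_mul, s.h_bi_c, map_zero]
  h_ci_a := by rw [← map_mul, s.h_ci_a, map_zero]
  h_ci_b := by rw [← map_mul, s.h_ci_b, map_zero]
  h_ci_c := by rw [← map_mul, s.h_ci_c]
  h_di_d := by rw [← map_mul, s.h_di_d]
  h_di_e := by rw [← map_mul, s.h_di_e, map_zero]
  h_di_f := by rw [← map_mul, s.h_di_f, map_zero]
  h_ei_d := by rw [← map_mul, s.h_ei_d, map_zero]
  h_ei_e := by rw [← map_mul, s.h_ei_e]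
  h_ei_f := by rw [← map_mul, s.h_ei_f, map_zero]
  h_fi_d := by rw [← map_mul, s.h_fi_d, map_zero]
  h_fi_e := by rw [← map_mul, s.h_fi_e, map_zero]
  h_fi_f := by rw [← map_mul, s.h_fi_f]
  h_gi_g := by rw [← map_mul, s.h_gi_g]
  h_gi_h := by rw [← map_mul, s.h_gi_h, map_zero]
  h_hi_g := by rw [← map_mul, s.h_hi_g, map_zero]
  h_hi_h := by rw [← map_mul, s.h_hi_h]
  h_ri_r := by rw [← map_mul, s.h_ri_r]
  h_ri_S := by rw [← map_mul, s.h_ri_S, map_zero]
  h_Si_r := by rw [← map_mul, s.h_Si_r, map_zero]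
  h_Si_S := by rw [← map_mul, s.h_Si_S]
  h_ai_dl := by rw [← map_mul, s.h_ai_dl, map_zero]
  h_dl_a := by rw [← map_mul, s.h_dl_a, map_zero]
  h_bi_dl := by rw [← map_mul, s.h_bi_dl, map_zero]
  h_dl_b := by rw [← map_mul, s.h_dl_b, map_zero]
  h_ci_dl := by rw [← map_mul, s.h_ci_dl, map_zero]
  h_dl_c := by rw [← map_mul, s.h_dl_c, map_zero]
  s_c := by rw [← map_mul, s.s_c]; simp only [map_sub, map_add, map_mul]
  s_f := by rw [← map_mul, s.s_f]; simp only [map_sub, map_add, map_mul]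
  s_h := by rw [← map_mul, s.s_h]; simp only [map_sub, map_add, map_mul]
  s_S := by rw [← map_mul, s.s_S]; simp only [map_sub, map_add, map_mul]

/-- the image -/
def It.map (s : It A) : It C where
  u := φ s.u
  v := φ s.v
  q := φ s.q
  dl := φ s.dl
  a := φ s.a
  a' := φ s.a'
  n := φ s.n
  n' := φ s.n'
  al := φ s.al
  al' := φ s.al'
  Y := φ s.Y
  Y' := φ s.Y'
  be := φ s.be
  be' := φ s.be'
  X := φ s.X
  X' := φ s.X'
  g := φ s.g
  g' := φ s.g'
  h := φ s.h
  h' := φ s.h'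
  h_u_u := by rw [← map_mul, s.h_u_u]
  h_v_v := by rw [← map_mul, s.h_v_v]
  h_q_q := by rw [← map_mul, s.h_q_q]
  h_u_v := by rw [← map_mul, s.h_u_v, map_zero]
  h_v_u := by rw [← map_mul, s.h_v_u, map_zero]
  h_u_q := by rw [← map_mul, s.h_u_q, map_zero]
  h_q_u := by rw [← map_mul, s.h_q_u, map_zero]
  h_v_q := by rw [← map_mul, s.h_v_q, map_zero]
  h_q_v := by rw [← map_mul, s.h_q_v, map_zero]
  h_dl_dl := by rw [← map_mul, s.h_dl_dl]
  h_u_dl := by rw [← map_mul, s.h_u_dl]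
  h_dl_u := by rw [← map_mul, s.h_dl_u]
  h_u_a := by rw [← map_mul, s.h_u_a]
  h_a_u := by rw [← map_mul, s.h_a_u]
  h_u_n := by rw [← map_mul, s.h_u_n]
  h_n_v := by rw [← map_mul, s.h_n_v]
  h_v_al := by rw [← map_mul, s.h_v_al]
  h_al_u := by rw [← map_mul, s.h_al_u]
  h_v_Y := by rw [← map_mul, s.h_v_Y]
  h_Y_dl := by rw [← map_mul, s.h_Y_dl]
  h_q_be := by rw [← map_mul, s.h_q_be]
  h_be_v := by rw [← map_mul, s.h_be_v]
  h_q_X := by rw [← map_mul, s.h_q_X]
  h_X_dl := by rw [← map_mul, s.h_X_dl]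
  h_q_g := by rw [← map_mul, s.h_q_g]
  h_g_v := by rw [← map_mul, s.h_g_v]
  h_q_h := by rw [← map_mul, s.h_q_h]
  h_h_q := by rw [← map_mul, s.h_h_q]
  h_u_ai := by rw [← map_mul, s.h_u_ai]
  h_ai_u := by rw [← map_mul, s.h_ai_u]
  h_v_ni := by rw [← map_mul, s.h_v_ni]
  h_ni_u := by rw [← map_mul, s.h_ni_u]
  h_u_ali := by rw [← map_mul, s.h_u_ali]
  h_ali_v := by rw [← map_mul, s.h_ali_v]
  h_dl_Yi := by rw [← map_mul, s.h_dl_Yi]
  h_Yi_v := by rw [← map_mul, s.h_Yi_v]
  h_v_bei := by rw [← map_mul, s.h_v_bei]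
  h_bei_q := by rw [← map_mul, s.h_bei_q]
  h_dl_Xi := by rw [← map_mul, s.h_dl_Xi]
  h_Xi_q := by rw [← map_mul, s.h_Xi_q]
  h_v_gi := by rw [← map_mul, s.h_v_gi]
  h_gi_q := by rw [← map_mul, s.h_gi_q]
  h_q_hi := by rw [← map_mul, s.h_q_hi]
  h_hi_q := by rw [← map_mul, s.h_hi_q]
  h_ai_a := by rw [← map_mul, s.h_ai_a]
  h_ai_n := by rw [← map_mul, s.h_ai_n, map_zero]
  h_ni_a := by rw [← map_mul, s.h_ni_a, map_zero]
  h_ni_n := by rw [← map_mul, s.h_ni_n]
  h_ali_al := by rw [← map_mul, s.h_ali_al]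
  h_ali_Y := by rw [← map_mul, s.h_ali_Y, map_zero]
  h_Yi_al := by rw [← map_mul, s.h_Yi_al, map_zero]
  h_Yi_Y := by rw [← map_mul, s.h_Yi_Y]
  h_bei_be := by rw [← map_mul, s.h_bei_be]
  h_bei_X := by rw [← map_mul, s.h_bei_X, map_zero]
  h_Xi_be := by rw [← map_mul, s.h_Xi_be, map_zero]
  h_Xi_X := by rw [← map_mul, s.h_Xi_X]
  h_gi_g := by rw [← map_mul, s.h_gi_g]
  h_gi_h := by rw [← map_mul, s.h_gi_h, map_zero]
  h_hi_g := by rw [← map_mul, s.h_hi_g, map_zero]
  h_hi_h := by rw [← map_mul, s.h_hi_h]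
  h_ai_dl := by rw [← map_mul, s.h_ai_dl, map_zero]
  h_dl_a := by rw [← map_mul, s.h_dl_a, map_zero]
  h_ni_dl := by rw [← map_mul, s.h_ni_dl]
  h_dl_n := by rw [← map_mul, s.h_dl_n]
  h_n_Y := by rw [← map_mul, s.h_n_Y]
  h_Yi_ni := by rw [← map_mul, s.h_Yi_ni]
  s_n := by rw [← map_mul, s.s_n]; simp only [map_sub, map_add, map_mul]
  s_al := by rw [← map_mul, s.s_al]; simp only [map_sub, map_add, map_mul]
  s_X := by rw [← map_mul, s.s_X]; simp only [map_sub, map_add, map_mul]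
  s_h := by rw [← map_mul, s.s_h]; simp only [map_sub, map_add, map_mul]

/-- the image -/
def Pl.map (s : Pl A) : Pl C where
  u := φ s.u
  v := φ s.v
  q := φ s.q
  dl := φ s.dl
  a := φ s.a
  a' := φ s.a'
  b := φ s.b
  b' := φ s.b'
  al := φ s.al
  al' := φ s.al'
  Y := φ s.Y
  Y' := φ s.Y'
  be := φ s.be
  be' := φ s.be'
  X := φ s.X
  X' := φ s.X'
  h_u_u := by rw [← map_mul, s.h_u_u]
  h_v_v := by rw [← map_mul, s.h_v_v]
  h_q_q := by rw [← map_mul, s.h_q_q]
  h_u_v := by rw [← map_mul, s.h_u_v, map_zero]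
  h_v_u := by rw [← map_mul, s.h_v_u, map_zero]
  h_u_q := by rw [← map_mul, s.h_u_q, map_zero]
  h_q_u := by rw [← map_mul, s.h_q_u, map_zero]
  h_v_q := by rw [← map_mul, s.h_v_q, map_zero]
  h_q_v := by rw [← map_mul, s.h_q_v, map_zero]
  h_dl_dl := by rw [← map_mul, s.h_dl_dl]
  h_u_dl := by rw [← map_mul, s.h_u_dl]
  h_dl_u := by rw [← map_mul, s.h_dl_u]
  h_u_a := by rw [← map_mul, s.h_u_a]
  h_a_u := by rw [← map_mul, s.h_a_u]
  h_u_b := by rw [← map_mul, s.h_u_b]
  h_b_u := by rw [← map_mul, s.h_b_u]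
  h_v_al := by rw [← map_mul, s.h_v_al]
  h_al_u := by rw [← map_mul, s.h_al_u]
  h_v_Y := by rw [← map_mul, s.h_v_Y]
  h_Y_dl := by rw [← map_mul, s.h_Y_dl]
  h_q_be := by rw [← map_mul, s.h_q_be]
  h_be_v := by rw [← map_mul, s.h_be_v]
  h_q_X := by rw [← map_mul, s.h_q_X]
  h_X_dl := by rw [← map_mul, s.h_X_dl]
  h_u_ai := by rw [← map_mul, s.h_u_ai]
  h_ai_u := by rw [← map_mul, s.h_ai_u]
  h_u_bi := by rw [← map_mul, s.h_u_bi]
  h_bi_u := by rw [← map_mul, s.h_bi_u]
  h_u_ali := by rw [← map_mul, s.h_u_ali]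
  h_ali_v := by rw [← map_mul, s.h_ali_v]
  h_dl_Yi := by rw [← map_mul, s.h_dl_Yi]
  h_Yi_v := by rw [← map_mul, s.h_Yi_v]
  h_v_bei := by rw [← map_mul, s.h_v_bei]
  h_bei_q := by rw [← map_mul, s.h_bei_q]
  h_dl_Xi := by rw [← map_mul, s.h_dl_Xi]
  h_Xi_q := by rw [← map_mul, s.h_Xi_q]
  h_ai_a := by rw [← map_mul, s.h_ai_a]
  h_ai_b := by rw [← map_mul, s.h_ai_b, map_zero]
  h_bi_a := by rw [← map_mul, s.h_bi_a, map_zero]
  h_bi_b := by rw [← map_mul, s.h_bi_b]
  h_ali_al := by rw [← map_mul, s.h_ali_al]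
  h_ali_Y := by rw [← map_mul, s.h_ali_Y, map_zero]
  h_Yi_al := by rw [← map_mul, s.h_Yi_al, map_zero]
  h_Yi_Y := by rw [← map_mul, s.h_Yi_Y]
  h_bei_be := by rw [← map_mul, s.h_bei_be]
  h_bei_X := by rw [← map_mul, s.h_bei_X, map_zero]
  h_Xi_be := by rw [← map_mul, s.h_Xi_be, map_zero]
  h_Xi_X := by rw [← map_mul, s.h_Xi_X]
  h_ai_dl := by rw [← map_mul, s.h_ai_dl, map_zero]
  h_dl_a := by rw [← map_mul, s.h_dl_a, map_zero]
  h_bi_dl := by rw [← map_mul, s.h_bi_dl, map_zero]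
  h_dl_b := by rw [← map_mul, s.h_dl_b, map_zero]
  s_b := by rw [← map_mul, s.s_b]; simp only [map_sub, map_add, map_mul]
  s_Y := by rw [← map_mul, s.s_Y]; simp only [map_sub, map_add, map_mul]
  s_X := by rw [← map_mul, s.s_X]; simp only [map_sub, map_add, map_mul]

theorem Mn.map_t1 (s : Mn A) : (s.map φ).t1 = φ s.t1 := by
  simp only [Mn.t1, Mn.n0, Mn.n0', Mn.map, map_add, map_mul, map_sub]
theorem Mn.map_t1' (s : Mn A) : (s.map φ).t1' = φ s.t1' := by
  simp only [Mn.t1', Mn.n0, Mn.n0', Mn.map, map_add, map_mul, map_sub]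
theorem Mn.map_t2 (s : Mn A) : (s.map φ).t2 = φ s.t2 := by
  simp only [Mn.t2, Mn.n0, Mn.n0', Mn.map, map_add, map_mul, map_sub]
theorem Mn.map_t2' (s : Mn A) : (s.map φ).t2' = φ s.t2' := by
  simp only [Mn.t2', Mn.n0, Mn.n0', Mn.map, map_add, map_mul, map_sub]

theorem Mn.map_toMr (s : Mn A) {t t' : A} (h : UA s.q t t') (h' : UA (s.map φ).q (φ t) (φ t')) :
    (s.map φ).toMr h' = (s.toMr h).map φ := by
  have e1 : φ t * (s.map φ).t1 = φ (t * s.t1) := by rw [Mn.map_t1, map_mul]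
  have e2 : (s.map φ).t1' * φ t' = φ (s.t1' * t') := by rw [Mn.map_t1', map_mul]
  have e3 : φ t * (s.map φ).t2 = φ (t * s.t2) := by rw [Mn.map_t2, map_mul]
  have e4 : (s.map φ).t2' * φ t' = φ (s.t2' * t') := by rw [Mn.map_t2', map_mul]
  apply Mr.ext <;> first | rfl | exact e1 | exact e2 | exact e3 | exact e4

theorem Mr.map_toIt (s : Mr A) : (s.map φ).toIt = s.toIt.map φ := by
  apply It.ext <;>
    simp only [Mr.toIt, Mr.map, It.map, Mr.m, Mr.m', Mr.n, Mr.n', map_add, map_mul, map_sub]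

theorem It.map_toPl (s : It A) : (s.map φ).toPl = s.toPl.map φ := by
  apply Pl.ext <;> simp only [It.toPl, It.map, Pl.map, map_add, map_mul, map_sub]

theorem Pl.map_g1 (s : Pl A) : (s.map φ).g1 = φ s.g1 := by
  simp only [Pl.g1, Pl.n, Pl.n', Pl.map, map_add, map_mul, map_sub]
theorem Pl.map_g1' (s : Pl A) : (s.map φ).g1' = φ s.g1' := by
  simp only [Pl.g1', Pl.n, Pl.n', Pl.map, map_add, map_mul, map_sub]
theorem Pl.map_g2 (s : Pl A) : (s.map φ).g2 = φ s.g2 := by
  simp only [Pl.g2, Pl.n, Pl.n', Pl.map, map_add, map_mul, map_sub]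
theorem Pl.map_g2' (s : Pl A) : (s.map φ).g2' = φ s.g2' := by
  simp only [Pl.g2', Pl.n, Pl.n', Pl.map, map_add, map_mul, map_sub]

theorem It.map_t (s : It A) : (s.map φ).t = φ s.t := by
  unfold It.t
  rw [It.map_toPl, Pl.map_g1', Pl.map_g2', map_add, map_mul, map_mul]; rfl
theorem It.map_t' (s : It A) : (s.map φ).t' = φ s.t' := by
  unfold It.t'
  rw [It.map_toPl, Pl.map_g1, Pl.map_g2, map_add, map_mul, map_mul]; rfl

end

/-- a family with a unit of the corner of `w` -/
@[ext] structure FU (k : Type u) [Field k] {V E : Type} (G : CKS.Graph V E) (w : V)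
    (A : Type*) [Ring A] [Algebra k A] where
  F : Fam k G G.IsReg A
  t : A
  t' : A
  h : UA (F.p w) t t'

/-- the image -/
def FU.map {k : Type u} [Field k] {V E : Type} {G : CKS.Graph V E} {w : V}
    {A C : Type*} [Ring A] [Algebra k A] [Ring C] [Algebra k C] (φ : A →ₐ[k] C)
    (f : FU k G w A) : FU k G w C :=
  ⟨Fmap φ f.F, φ f.t, φ f.t', f.h.map φ⟩

section

variable {k : Type u} [Field k] {V E : Type} [Fintype V] [DecidableEq V] [Fintype E]
  [DecidableEq E] {G : CKS.Graph V E} {u : V} {a0 a1 : E} {A : Type*} [Ring A] [Algebra k A]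

section PM

variable (h : Two G u a0 a1)

/-- the intermediate structure of a family of the splice with a unit -/
def itP (f : FU k (splice G u) (.inr 1) A) : It A := ((mn f.F h).toMr f.h).toIt

theorem baseP' (f : FU k (splice G u) (.inr 1) A) :
    Base G u f.F.p (Function.update (fun e => f.F.x (.inl e)) a1 (itP h f).toPl.b)
      (Function.update (fun e => f.F.y (.inl e)) a1 (itP h f).toPl.b') :=
  (baseM f.F).update (a0 := a0) h.s1 h.r1 _ _ (itP h f).toPl.h_u_b (itP h f).toPl.h_b_u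
    (itP h f).toPl.h_u_bi (itP h f).toPl.h_bi_u (itP h f).toPl.h_bi_b (itP h f).toPl.h_ai_b
    (itP h f).toPl.h_bi_a (itP h f).toPl.h_dl_b (itP h f).toPl.h_bi_dl

theorem cpP (f : FU k (splice G u) (.inr 1) A) :
    CP G u a0 a1 f.F.p (Function.update (fun e => f.F.x (.inl e)) a1 (itP h f).toPl.b)
      (Function.update (fun e => f.F.y (.inl e)) a1 (itP h f).toPl.b') (itP h f).toPl where
  hu := rfl
  hv := rfl
  hq := rfl
  hdl := by rw [dlt_update]; rfl
  ha := by rw [Function.update_of_ne h.h01]; rfl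
  ha' := by rw [Function.update_of_ne h.h01]; rfl
  hb := by rw [Function.update_self]
  hb' := by rw [Function.update_self]

/-- from the splice to the two sources -/
def PP (f : FU k (splice G u) (.inr 1) A) : FU k (srcs G u a0 a1) (.inr 1) A where
  F := buildP k h (baseP' h f) _ (cpP h f)
  t := (itP h f).t
  t' := (itP h f).t'
  h := (itP h f).tmua

/-- the structure of a family of the graph with two sources with a unit -/
def itM (f : FU k (srcs G u a0 a1) (.inr 1) A) : It A := (pl f.F h).toIt f.h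

/-- the gadget -/
def mrM (f : FU k (srcs G u a0 a1) (.inr 1) A) : Mr A := (itM h f).toMr

theorem baseM' (f : FU k (srcs G u a0 a1) (.inr 1) A) :
    Base G u f.F.p (Function.update (fun e => f.F.x (.inl e)) a1 (mrM h f).toMn.b)
      (Function.update (fun e => f.F.y (.inl e)) a1 (mrM h f).toMn.b') :=
  (baseP f.F).update (a0 := a0) h.s1 h.r1 _ _ (mrM h f).toMn.h_u_b (mrM h f).toMn.h_b_u
    (mrM h f).toMn.h_u_bi (mrM h f).toMn.h_bi_u (mrM h f).toMn.h_bi_b (mrM h f).toMn.h_ai_b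
    (mrM h f).toMn.h_bi_a (mrM h f).toMn.h_dl_b (mrM h f).toMn.h_bi_dl

theorem cmM (f : FU k (srcs G u a0 a1) (.inr 1) A) :
    CM G u a0 a1 f.F.p (Function.update (fun e => f.F.x (.inl e)) a1 (mrM h f).toMn.b)
      (Function.update (fun e => f.F.y (.inl e)) a1 (mrM h f).toMn.b') (mrM h f).toMn where
  hu := rfl
  hv := rfl
  hq := rfl
  hdl := by rw [dlt_update]; rfl
  ha := by rw [Function.update_of_ne h.h01]; rfl
  ha' := by rw [Function.update_of_ne h.h01]; rfl
  hb := by rw [Function.update_self]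
  hb' := by rw [Function.update_self]

/-- from the two sources to the splice -/
def MM (f : FU k (srcs G u a0 a1) (.inr 1) A) : FU k (splice G u) (.inr 1) A where
  F := buildM k h (baseM' h f) _ (cmM h f)
  t := (mrM h f).t
  t' := (mrM h f).t'
  h := (mrM h f).tmua

theorem toIt_congr {m m' : Pl A} (e : m = m') {t t' : A} (h : UA m.q t t') (h' : UA m'.q t t') :
    m.toIt h = m'.toIt h' := by subst e; rfl

theorem toMr_congr {m m' : Mn A} (e : m = m') {t t' : A} (h : UA m.q t t') (h' : UA m'.q t t') :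
    m.toMr h = m'.toMr h' := by subst e; rfl

theorem itM_PP (f : FU k (splice G u) (.inr 1) A) : itM h (PP h f) = itP h f :=
  (toIt_congr (show pl (PP h f).F h = (itP h f).toPl from
    pl_buildP (k := k) h (baseP' h f) _ (cpP h f)) (PP h f).h (itP h f).tmua).trans
    (itP h f).toIt_toPl

theorem mrM_PP (f : FU k (splice G u) (.inr 1) A) : mrM h (PP h f) = (mn f.F h).toMr f.h := by
  unfold mrM
  rw [itM_PP]
  exact Mr.toMr_toIt _

theorem MM_PP (f : FU k (splice G u) (.inr 1) A) : MM h (PP h f) = f := by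
  have hm : (mrM h (PP h f)).toMn = mn f.F h := by rw [mrM_PP]; exact Mn.toMn_toMr _ _
  apply FU.ext
  · refine Fam.ext' (fun a => rfl) (fun e => ?_) (fun e => ?_)
    · rcases e with e | e
      · show Function.update (Function.update (fun e => f.F.x (.inl e)) a1 (itP h f).toPl.b) a1
          (mrM h (PP h f)).toMn.b e = f.F.x (.inl e)
        rw [hm]
        by_cases he : e = a1
        · subst he; rw [Function.update_self]; rfl
        · rw [Function.update_of_ne he, Function.update_of_ne he]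
      · show (![(mrM h (PP h f)).toMn.e, (mrM h (PP h f)).toMn.h, (mrM h (PP h f)).toMn.f,
          (mrM h (PP h f)).toMn.g, (mrM h (PP h f)).toMn.c, (mrM h (PP h f)).toMn.d] : Fin 6 → A) e =
          f.F.x (.inr e)
        rw [hm]
        fin_cases e <;> rfl
    · rcases e with e | e
      · show Function.update (Function.update (fun e => f.F.y (.inl e)) a1 (itP h f).toPl.b') a1
          (mrM h (PP h f)).toMn.b' e = f.F.y (.inl e)
        rw [hm]
        by_cases he : e = a1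
        · subst he; rw [Function.update_self]; rfl
        · rw [Function.update_of_ne he, Function.update_of_ne he]
      · show (![(mrM h (PP h f)).toMn.e', (mrM h (PP h f)).toMn.h', (mrM h (PP h f)).toMn.f',
          (mrM h (PP h f)).toMn.g', (mrM h (PP h f)).toMn.c', (mrM h (PP h f)).toMn.d'] :
          Fin 6 → A) e = f.F.y (.inr e)
        rw [hm]
        fin_cases e <;> rfl
  · show (mrM h (PP h f)).t = f.t
    rw [mrM_PP]; exact Mn.t_toMr _ _
  · show (mrM h (PP h f)).t' = f.t'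
    rw [mrM_PP]; exact Mn.t'_toMr _ _

theorem itP_MM (f : FU k (srcs G u a0 a1) (.inr 1) A) : itP h (MM h f) = itM h f := by
  have e : (mn (MM h f).F h).toMr (MM h f).h = mrM h f :=
    (toMr_congr (show mn (MM h f).F h = (mrM h f).toMn from
      mn_buildM (k := k) h (baseM' h f) _ (cmM h f)) (MM h f).h (mrM h f).tmua).trans
      (Mr.toMr_toMn _)
  exact (congrArg Mr.toIt e).trans (It.toIt_toMr _)

theorem PP_MM (f : FU k (srcs G u a0 a1) (.inr 1) A) : PP h (MM h f) = f := by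
  have hm : (itP h (MM h f)).toPl = pl f.F h := by rw [itP_MM]; exact Pl.toPl_toIt _ _
  apply FU.ext
  · refine Fam.ext' (fun a => rfl) (fun e => ?_) (fun e => ?_)
    · rcases e with e | ((_ | z) | (_ | z))
      · show Function.update (Function.update (fun e => f.F.x (.inl e)) a1 (mrM h f).toMn.b) a1
          (itP h (MM h f)).toPl.b e = f.F.x (.inl e)
        rw [hm]
        by_cases he : e = a1
        · subst he; rw [Function.update_self]; rfl
        · rw [Function.update_of_ne he, Function.update_of_ne he]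
      · show (itP h (MM h f)).toPl.al = f.F.x (.inr (.inl none))
        rw [hm]; rfl
      · show (itP h (MM h f)).toPl.Y * Function.update (Function.update (fun e => f.F.x (.inl e)) a1
          (mrM h f).toMn.b) a1 (itP h (MM h f)).toPl.b z.1 = f.F.x (.inr (.inl (some z)))
        rw [hm, Function.update_of_ne z.2.2.2, Function.update_of_ne z.2.2.2]
        exact pl_Yx f.F h z
      · show (itP h (MM h f)).toPl.be = f.F.x (.inr (.inr none))
        rw [hm]; rfl
      · show (itP h (MM h f)).toPl.X * Function.update (Function.update (fun e => f.F.x (.inl e)) a1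
          (mrM h f).toMn.b) a1 (itP h (MM h f)).toPl.b z.1 = f.F.x (.inr (.inr (some z)))
        rw [hm, Function.update_of_ne z.2.2.2, Function.update_of_ne z.2.2.2]
        exact pl_Xx f.F h z
    · rcases e with e | ((_ | z) | (_ | z))
      · show Function.update (Function.update (fun e => f.F.y (.inl e)) a1 (mrM h f).toMn.b') a1
          (itP h (MM h f)).toPl.b' e = f.F.y (.inl e)
        rw [hm]
        by_cases he : e = a1
        · subst he; rw [Function.update_self]; rfl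
        · rw [Function.update_of_ne he, Function.update_of_ne he]
      · show (itP h (MM h f)).toPl.al' = f.F.y (.inr (.inl none))
        rw [hm]; rfl
      · show Function.update (Function.update (fun e => f.F.y (.inl e)) a1
          (mrM h f).toMn.b') a1 (itP h (MM h f)).toPl.b' z.1 * (itP h (MM h f)).toPl.Y' =
          f.F.y (.inr (.inl (some z)))
        rw [hm, Function.update_of_ne z.2.2.2, Function.update_of_ne z.2.2.2]
        exact pl_yY f.F h z
      · show (itP h (MM h f)).toPl.be' = f.F.y (.inr (.inr none))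
        rw [hm]; rfl
      · show Function.update (Function.update (fun e => f.F.y (.inl e)) a1
          (mrM h f).toMn.b') a1 (itP h (MM h f)).toPl.b' z.1 * (itP h (MM h f)).toPl.X' =
          f.F.y (.inr (.inr (some z)))
        rw [hm, Function.update_of_ne z.2.2.2, Function.update_of_ne z.2.2.2]
        exact pl_yX f.F h z
  · show (itP h (MM h f)).t = f.t
    rw [itP_MM]; exact Pl.t_toIt _ _
  · show (itP h (MM h f)).t' = f.t'
    rw [itP_MM]; exact Pl.t'_toIt _ _

variable {C : Type*} [Ring C] [Algebra k C] (φ : A →ₐ[k] C)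

theorem mn_map (F : Fam k (splice G u) (splice G u).IsReg A) :
    mn (Fmap φ F) h = (mn F h).map φ := by
  apply Mn.ext <;> first | rfl | skip
  show dlt G u a0 a1 (fun e => φ (F.x (.inl e))) (fun e => φ (F.y (.inl e))) =
    φ (dlt G u a0 a1 (fun e => F.x (.inl e)) (fun e => F.y (.inl e)))
  unfold dlt
  rw [map_sum]
  exact Finset.sum_congr rfl fun z _ => (map_mul φ _ _).symm

theorem itP_map (f : FU k (splice G u) (.inr 1) A) : itP h (f.map φ) = (itP h f).map φ := by
  have e : (mn (f.map φ).F h).toMr (f.map φ).h = ((mn f.F h).toMr f.h).map φ :=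
    (toMr_congr (mn_map h φ f.F) (f.map φ).h (f.h.map φ)).trans
      (Mn.map_toMr φ (mn f.F h) f.h _)
  exact (congrArg Mr.toIt e).trans (Mr.map_toIt φ _)

theorem PP_map (f : FU k (splice G u) (.inr 1) A) : PP h (f.map φ) = (PP h f).map φ := by
  have hm : (itP h (f.map φ)).toPl = (itP h f).toPl.map φ := by rw [itP_map, It.map_toPl]
  apply FU.ext
  · refine Fam.ext' (fun a => rfl) (fun e => ?_) (fun e => ?_)
    · rcases e with e | ((_ | z) | (_ | z))
      · show Function.update (fun e => φ (f.F.x (.inl e))) a1 (itP h (f.map φ)).toPl.b e =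
          φ (Function.update (fun e => f.F.x (.inl e)) a1 (itP h f).toPl.b e)
        rw [hm]
        by_cases he : e = a1
        · subst he; rw [Function.update_self, Function.update_self]; rfl
        · rw [Function.update_of_ne he, Function.update_of_ne he]
      · show (itP h (f.map φ)).toPl.al = _
        rw [hm]; rfl
      · show (itP h (f.map φ)).toPl.Y * Function.update (fun e => φ (f.F.x (.inl e))) a1
          (itP h (f.map φ)).toPl.b z.1 = φ ((itP h f).toPl.Y *
          Function.update (fun e => f.F.x (.inl e)) a1 (itP h f).toPl.b z.1)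
        rw [hm, Function.update_of_ne z.2.2.2, Function.update_of_ne z.2.2.2, map_mul]; rfl
      · show (itP h (f.map φ)).toPl.be = _
        rw [hm]; rfl
      · show (itP h (f.map φ)).toPl.X * Function.update (fun e => φ (f.F.x (.inl e))) a1
          (itP h (f.map φ)).toPl.b z.1 = φ ((itP h f).toPl.X *
          Function.update (fun e => f.F.x (.inl e)) a1 (itP h f).toPl.b z.1)
        rw [hm, Function.update_of_ne z.2.2.2, Function.update_of_ne z.2.2.2, map_mul]; rfl
    · rcases e with e | ((_ | z) | (_ | z))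
      · show Function.update (fun e => φ (f.F.y (.inl e))) a1 (itP h (f.map φ)).toPl.b' e =
          φ (Function.update (fun e => f.F.y (.inl e)) a1 (itP h f).toPl.b' e)
        rw [hm]
        by_cases he : e = a1
        · subst he; rw [Function.update_self, Function.update_self]; rfl
        · rw [Function.update_of_ne he, Function.update_of_ne he]
      · show (itP h (f.map φ)).toPl.al' = _
        rw [hm]; rfl
      · show Function.update (fun e => φ (f.F.y (.inl e))) a1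
          (itP h (f.map φ)).toPl.b' z.1 * (itP h (f.map φ)).toPl.Y' = φ (
          Function.update (fun e => f.F.y (.inl e)) a1 (itP h f).toPl.b' z.1 * (itP h f).toPl.Y')
        rw [hm, Function.update_of_ne z.2.2.2, Function.update_of_ne z.2.2.2, map_mul]; rfl
      · show (itP h (f.map φ)).toPl.be' = _
        rw [hm]; rfl
      · show Function.update (fun e => φ (f.F.y (.inl e))) a1
          (itP h (f.map φ)).toPl.b' z.1 * (itP h (f.map φ)).toPl.X' = φ (
          Function.update (fun e => f.F.y (.inl e)) a1 (itP h f).toPl.b' z.1 * (itP h f).toPl.X')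
        rw [hm, Function.update_of_ne z.2.2.2, Function.update_of_ne z.2.2.2, map_mul]; rfl
  · show (itP h (f.map φ)).t = φ (itP h f).t
    rw [itP_map, It.map_t]
  · show (itP h (f.map φ)).t' = φ (itP h f).t'
    rw [itP_map, It.map_t']

theorem MM_map (f : FU k (srcs G u a0 a1) (.inr 1) A) : MM h (f.map φ) = (MM h f).map φ := by
  conv_lhs => rw [← PP_MM h f, ← PP_map, MM_PP]

end PM

/-- the universal family with a unit -/
noncomputable def uFU (k : Type u) [Field k] {V E : Type} (G : CKS.Graph V E) (w : V) :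
    FU k G w (LU k G w) := ⟨uF k G w, uT k G w true, uT k G w false, uT_ua⟩

theorem lift_uFU {V' E' : Type} {G' : CKS.Graph V' E'} {w : V'} (f : FU k G' w A) :
    (uFU k G' w).map (liftU (w := w) f.F f.h) = f := by
  apply FU.ext
  · exact liftU_F f.F f.h
  · exact liftU_t f.F f.h
  · exact liftU_t' f.F f.h

theorem ext_uFU {V' E' : Type} {G' : CKS.Graph V' E'} {w : V'} {φ ψ : LU k G' w →ₐ[k] A}
    (h : (uFU k G' w).map φ = (uFU k G' w).map ψ) : φ = ψ :=
  extU (congrArg FU.F h) (congrArg FU.t h) (congrArg FU.t' h)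

theorem map_map {V' E' : Type} {G' : CKS.Graph V' E'} {w : V'} {B C : Type*} [Ring B] [Algebra k B]
    [Ring C] [Algebra k C] (φ : A →ₐ[k] B) (ψ : B →ₐ[k] C) (f : FU k G' w A) :
    (f.map φ).map ψ = f.map (ψ.comp φ) := rfl

theorem map_id {V' E' : Type} {G' : CKS.Graph V' E'} {w : V'} (f : FU k G' w A) :
    f.map (AlgHom.id k A) = f := rfl

/-- the isomorphism -/
theorem iso (k : Type u) [Field k] (h : Two G u a0 a1) :
    ∃ Φ : LU k (splice G u) (.inr 1) ≃ₐ[k] LU k (srcs G u a0 a1) (.inr 1),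
      ∀ a, Φ (vtx a) = vtx a := by
  let f1 := MM h (uFU k (srcs G u a0 a1) (.inr 1))
  let f2 := PP h (uFU k (splice G u) (.inr 1))
  let Φ : LU k (splice G u) (.inr 1) →ₐ[k] LU k (srcs G u a0 a1) (.inr 1) := liftU f1.F f1.h
  let Ψ : LU k (srcs G u a0 a1) (.inr 1) →ₐ[k] LU k (splice G u) (.inr 1) := liftU f2.F f2.h
  have h1 : (uFU k (splice G u) (.inr 1)).map Φ = MM h (uFU k (srcs G u a0 a1) (.inr 1)) :=
    lift_uFU f1
  have h2 : (uFU k (srcs G u a0 a1) (.inr 1)).map Ψ = PP h (uFU k (splice G u) (.inr 1)) :=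
    lift_uFU f2
  refine ⟨AlgEquiv.ofAlgHom Φ Ψ (ext_uFU ?_) (ext_uFU ?_), fun a => ?_⟩
  · rw [← map_map, map_id, h2, ← PP_map, h1, PP_MM]
  · rw [← map_map, map_id, h1, ← MM_map, h2, MM_PP]
  · have e1 := congrArg (fun f : FU k (splice G u) (.inr 1) (LU k (srcs G u a0 a1) (.inr 1)) =>
      f.F.p a) h1
    have e2 : Φ ((uF k (splice G u) (.inr 1)).p a) = (uF k (srcs G u a0 a1) (.inr 1)).p a := e1
    rw [uF_p, uF_p] at e2
    exact e2

end

end Pool.Agent.SKG
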